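import Pool.Agent.KS6_25.SH.G6
import Pool.Graph.R_seed8.TH935.TF9

set_option autoImplicit false

/-!
# Products of families in short intervals: arbitrary finite types, neighbourhoods
-/

namespace Pool.Agent.KS6_25.SH

open Finset
open Pool.Agent.H373R2.T7 (ev_L')
open Pool.Agent.TH935.TF
open Pool.Agent.TH935.GF (En)

/-- from ranges to arbitrary finite types -/
theorem transferP_short {k : ℕ} (h B C U : ℕ) (ρ : ℝ) (P : ℕ → (Fin k → ℤ) → Prop)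
    (Hyp : ∃ N₀ : ℕ, ∀ N : ℕ, N₀ ≤ N → ∀ (x : Fin k → ℕ) (s : Fin k → ℕ → ℤ) (s₀ : Fin k → ℤ) (H : Fin k → ℕ),
      (∀ i, (N : ℝ) ^ (1 / 3 + ρ) ≤ H i) → (∀ i, H i ≤ N) →
      (∀ i, ∀ j ∈ Icc 1 (x i), |s i j| ≤ B * N) → (∀ i, ∀ j ∈ Icc 1 (x i), s₀ i ≤ s i j ∧ s i j ≤ s₀ i + H i) →
      (∀ i, (Pool.Agent.H373R2.T7.energy h (x i) (s i) : ℝ) * H i ≤ Real.log N ^ C * (x i : ℝ) ^ (2 * h)) →
      ∀ 𝒮 : Finset (Fin k → ℕ), 𝒮 ⊆ Fintype.piFinset (fun i => Icc 1 (x i)) →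
      (∀ q ∈ 𝒮, ¬ P N (fun i => s i (q i))) → (𝒮.card : ℝ) ≤ (∏ i, (x i : ℝ)) / Real.log N ^ U) :
    ∃ N₀ : ℕ, ∀ N : ℕ, N₀ ≤ N → ∀ (s₀ : Fin k → ℤ) (H : Fin k → ℕ),
      (∀ i, (N : ℝ) ^ (1 / 3 + ρ) ≤ H i) → (∀ i, H i ≤ N) → ∀ (ι : Fin k → Type) [∀ i, Fintype (ι i)] (v : ∀ i, ι i → ℤ),
      (∀ i j, |v i j| ≤ B * N) → (∀ i j, s₀ i ≤ v i j ∧ v i j ≤ s₀ i + H i) →
      (∀ i, (En h (v i) : ℝ) * H i ≤ Real.log N ^ C * (Fintype.card (ι i) : ℝ) ^ (2 * h)) →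
      ∀ 𝒮 : Finset (∀ i, ι i), (∀ q ∈ 𝒮, ¬ P N (fun i => v i (q i))) →
      (𝒮.card : ℝ) ≤ (∏ i, (Fintype.card (ι i) : ℝ)) / Real.log N ^ U := by
  classical
  obtain ⟨N₀, h0⟩ := Hyp
  refine ⟨N₀, fun N hN s₀ H hHρ hHN ι _ v hv hvs hE 𝒮 hS => ?_⟩
  rcases 𝒮.eq_empty_or_nonempty with he | ⟨q0, hq0⟩
  · rw [he, card_empty, Nat.cast_zero]
    apply div_nonneg (prod_nonneg fun i _ => Nat.cast_nonneg _)
    exact pow_nonneg (Real.log_natCast_nonneg N) _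
  obtain ⟨x, hx⟩ : ∃ x : Fin k → ℕ, ∀ i, x i = Fintype.card (ι i) := ⟨_, fun _ => rfl⟩
  obtain ⟨e⟩ : Nonempty (∀ i, (Icc 1 (x i) : Finset ℕ) ≃ ι i) :=
    ⟨fun i => Fintype.equivOfCardEq (by rw [Fintype.card_coe, Nat.card_Icc, hx i]; omega)⟩
  obtain ⟨f, hf⟩ : ∃ f : ∀ i, ℕ → ι i, f = fun i m => if hm : m ∈ Icc 1 (x i) then e i ⟨m, hm⟩ else q0 i := ⟨_, rfl⟩
  have hf1 : ∀ i m (hm : m ∈ Icc 1 (x i)), f i m = e i ⟨m, hm⟩ := by
    intro i m hm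
    rw [hf]
    simp only
    rw [dif_pos hm]
  have hfinj : ∀ i, ∀ m ∈ Icc 1 (x i), ∀ m' ∈ Icc 1 (x i), f i m = f i m' → m = m' := by
    intro i m hm m' hm' h2
    rw [hf1 i m hm, hf1 i m' hm'] at h2
    exact congrArg Subtype.val ((e i).injective h2)
  have hfsurj : ∀ i, ∀ j : ι i, ∃ m ∈ Icc 1 (x i), f i m = j := by
    intro i j
    refine ⟨((e i).symm j : ℕ), ((e i).symm j).2, ?_⟩
    rw [hf1 i _ ((e i).symm j).2]
    simp
  have hen : ∀ i, Pool.Agent.H373R2.T7.energy h (x i) (fun m => v i (f i m)) ≤ En h (v i) := by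
    intro i
    unfold Pool.Agent.H373R2.T7.energy En
    rw [Nat.card_eq_fintype_card, Fintype.card_subtype]
    apply card_le_card_of_injOn (fun q => (fun j => f i (q.1 j), fun j => f i (q.2 j)))
    · intro q hq
      rw [mem_coe, mem_filter, mem_product, Fintype.mem_piFinset, Fintype.mem_piFinset] at hq
      rw [mem_coe, mem_filter]
      exact ⟨mem_univ _, hq.2⟩
    · intro q hq q' hq' h2
      rw [mem_coe, mem_filter, mem_product, Fintype.mem_piFinset, Fintype.mem_piFinset] at hq hq'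
      simp only [Prod.mk.injEq] at h2
      apply Prod.ext
      · funext j
        exact hfinj i _ (hq.1.1 j) _ (hq'.1.1 j) (congrFun h2.1 j)
      · funext j
        exact hfinj i _ (hq.1.2 j) _ (hq'.1.2 j) (congrFun h2.2 j)
  have key := h0 N hN x (fun i m => v i (f i m)) s₀ H hHρ hHN (fun i j _ => hv i (f i j)) (fun i j _ => hvs i (f i j)) (by
    intro i
    have henr : (Pool.Agent.H373R2.T7.energy h (x i) (fun m => v i (f i m)) : ℝ) ≤ En h (v i) := by exact_mod_cast hen i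
    calc (Pool.Agent.H373R2.T7.energy h (x i) (fun m => v i (f i m)) : ℝ) * H i ≤ En h (v i) * H i :=
          mul_le_mul_of_nonneg_right henr (Nat.cast_nonneg _)
      _ ≤ _ := by rw [hx i]; exact hE i)
    ((Fintype.piFinset (fun i => Icc 1 (x i))).filter (fun q => (fun i => f i (q i)) ∈ 𝒮)) (filter_subset _ _) (by
      intro q hq
      rw [mem_filter] at hq
      exact hS _ hq.2)
  have hcard : 𝒮.card ≤ ((Fintype.piFinset (fun i => Icc 1 (x i))).filter (fun q => (fun i => f i (q i)) ∈ 𝒮)).card := by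
    refine le_trans (card_le_card ?_) (card_image_le (f := fun q : Fin k → ℕ => (fun i => f i (q i))))
    intro q hq
    choose r hr1 hr2 using fun i => hfsurj i (q i)
    rw [mem_image]
    have e1 : (fun i => f i (r i)) = q := funext hr2
    exact ⟨r, mem_filter.2 ⟨Fintype.mem_piFinset.2 hr1, by rw [e1]; exact hq⟩, e1⟩
  calc (𝒮.card : ℝ) ≤ (((Fintype.piFinset (fun i => Icc 1 (x i))).filter (fun q => (fun i => f i (q i)) ∈ 𝒮)).card : ℝ) := by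
        exact_mod_cast hcard
    _ ≤ (∏ i, (x i : ℝ)) / Real.log N ^ U := key
    _ = _ := by simp only [hx]

/-- the additive energy is invariant under translations -/
lemma En_add (h : ℕ) {ι : Type} [Fintype ι] (v : ι → ℤ) (e : ℤ) : En h (fun i => v i + e) = En h v := by
  unfold En
  apply congrArg
  congr 1
  funext q
  rw [sum_add_distrib, sum_add_distrib, add_left_inj]

/-- neighbourhoods of the members of a product of families in short intervals -/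
theorem nbhd_short {k : ℕ} (h B C W U : ℕ) {ρ : ℝ} (P : ℕ → (Fin k → ℤ) → Prop)
    (Hyp : ∀ U : ℕ, ∃ N₀ : ℕ, ∀ N : ℕ, N₀ ≤ N → ∀ (s₀ : Fin k → ℤ) (H : Fin k → ℕ),
      (∀ i, (N : ℝ) ^ (1 / 3 + ρ) ≤ H i) → (∀ i, H i ≤ N) → ∀ (ι : Fin k → Type) [∀ i, Fintype (ι i)] (v : ∀ i, ι i → ℤ),
      (∀ i j, |v i j| ≤ ((B + 1 : ℕ) : ℤ) * N) → (∀ i j, s₀ i ≤ v i j ∧ v i j ≤ s₀ i + H i) →
      (∀ i, (En h (v i) : ℝ) * H i ≤ Real.log N ^ C * (Fintype.card (ι i) : ℝ) ^ (2 * h)) →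
      ∀ 𝒮 : Finset (∀ i, ι i), (∀ q ∈ 𝒮, ¬ P N (fun i => v i (q i))) →
      (𝒮.card : ℝ) ≤ (∏ i, (Fintype.card (ι i) : ℝ)) / Real.log N ^ U) :
    ∃ N₀ : ℕ, ∀ N : ℕ, N₀ ≤ N → ∀ (s₀ : Fin k → ℤ) (H : Fin k → ℕ),
      (∀ i, (N : ℝ) ^ (1 / 3 + ρ) ≤ H i) → (∀ i, H i ≤ N) → ∀ (ι : Fin k → Type) [∀ i, Fintype (ι i)] (v : ∀ i, ι i → ℤ),
      (∀ i j, |v i j| ≤ B * N) → (∀ i j, s₀ i ≤ v i j ∧ v i j ≤ s₀ i + H i) →
      (∀ i, (En h (v i) : ℝ) * H i ≤ Real.log N ^ C * (Fintype.card (ι i) : ℝ) ^ (2 * h)) →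
      ∀ 𝒮 : Finset (∀ i, ι i), (∀ q ∈ 𝒮, ¬ ∀ b : Fin k → ℤ, (∀ i, |(b i : ℝ) - v i (q i)| ≤ Real.log N ^ W) → P N b) →
      (𝒮.card : ℝ) ≤ (∏ i, (Fintype.card (ι i) : ℝ)) / Real.log N ^ U := by
  classical
  obtain ⟨N₀, h0⟩ := Hyp (U + (W + 1) * k)
  obtain ⟨N₁, h1⟩ := ev_L' 3
  obtain ⟨N₂, h2⟩ := Pool.Agent.H373R2.T7.ev_log' W 1
  refine ⟨N₀ + N₁ + N₂ + 1, fun N hN s₀ H hHρ hHN ι _ v hv hvs hE 𝒮 hS => ?_⟩
  have hL3 := h1 N (by omega)
  have hLW := h2 N (by omega)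
  have h0 := h0 N (by omega) 
  obtain ⟨L, hL⟩ : ∃ L, L = Real.log (N : ℝ) := ⟨_, rfl⟩
  rw [← hL] at hL3 hLW hE h0 ⊢
  rw [one_mul] at hLW
  have hL1 : 1 ≤ L := by linarith
  have hL0 : 0 < L := by linarith
  have hN1 : (1 : ℝ) ≤ N := by exact_mod_cast (by omega : 1 ≤ N)
  obtain ⟨R, hR⟩ : ∃ R : ℕ, R = ⌊L ^ W⌋₊ := ⟨_, rfl⟩
  have hRL : (R : ℝ) ≤ L ^ W := by rw [hR]; exact Nat.floor_le (by positivity)
  have hRN : R ≤ N := by
    have h3 : (R : ℝ) ≤ N := by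
      refine hRL.trans (hLW.trans ?_)
      rw [Real.sqrt_le_left (by positivity)]
      nlinarith
    exact_mod_cast h3
  obtain ⟨E, hEd⟩ : ∃ E : Finset (Fin k → ℤ), E = Fintype.piFinset (fun _ => Icc (-(R : ℤ)) (R : ℤ)) := ⟨_, rfl⟩
  obtain ⟨T, hT⟩ : ∃ T : (Fin k → ℤ) → Finset (∀ i, ι i), T = fun e => univ.filter (fun q => ¬ P N (fun i => v i (q i) + e i)) := ⟨_, rfl⟩
  have hsub : 𝒮 ⊆ E.biUnion T := by
    intro q hq
    have h3 := hS q hq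
    push Not at h3
    obtain ⟨b, hb1, hb2⟩ := h3
    rw [mem_biUnion]
    refine ⟨fun i => b i - v i (q i), ?_, ?_⟩
    · rw [hEd, Fintype.mem_piFinset]
      intro i
      have h4 := hb1 i
      rw [← Int.cast_sub, ← Int.cast_abs, ← hL] at h4
      have h5 : ((b i - v i (q i)).natAbs : ℝ) ≤ L ^ W := by
        rw [Nat.cast_natAbs]
        exact h4
      have h6 : (b i - v i (q i)).natAbs ≤ R := by rw [hR]; exact Nat.le_floor h5
      rw [mem_Icc]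
      omega
    · rw [hT, mem_filter]
      refine ⟨mem_univ _, ?_⟩
      have e1 : (fun i => v i (q i) + (b i - v i (q i))) = b := by
        funext i
        ring
      rw [e1]
      exact hb2
  have hEcard : (E.card : ℝ) ≤ L ^ ((W + 1) * k) := by
    rw [hEd, Fintype.card_piFinset, prod_const, card_univ, Fintype.card_fin, Int.card_Icc, pow_mul]
    have e1 : ((R : ℤ) + 1 - -(R : ℤ)).toNat = 2 * R + 1 := by omega
    rw [e1]
    push_cast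
    apply pow_le_pow_left₀ (by positivity)
    have h3 : 1 ≤ L ^ W := one_le_pow₀ hL1
    rw [pow_succ]
    nlinarith
  obtain ⟨Pr, hPr⟩ : ∃ Pr : ℝ, Pr = ∏ i, (Fintype.card (ι i) : ℝ) := ⟨_, rfl⟩
  have hPr0 : 0 ≤ Pr := by rw [hPr]; exact prod_nonneg fun i _ => Nat.cast_nonneg _
  have hTcard : ∀ e ∈ E, ((T e).card : ℝ) ≤ Pr / L ^ (U + (W + 1) * k) := by
    intro e he
    rw [hEd, Fintype.mem_piFinset] at he
    rw [hPr]
    refine h0 (fun i => s₀ i + e i) H hHρ hHN ι (fun i j => v i j + e i) ?_ ?_ ?_ (T e) ?_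
    · intro i j
      have h3 := hv i j
      have h4 := mem_Icc.1 (he i)
      have h5 : |e i| ≤ (N : ℤ) := by
        rw [abs_le]
        omega
      have h6 := abs_add_le (v i j) (e i)
      push_cast
      linarith
    · intro i j
      have h3 := hvs i j
      constructor <;> linarith
    · intro i
      rw [En_add]
      exact hE i
    · intro q hq
      rw [hT, mem_filter] at hq
      exact hq.2
  rw [← hPr]
  calc (𝒮.card : ℝ) ≤ ((E.biUnion T).card : ℝ) := by exact_mod_cast card_le_card hsub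
    _ ≤ ((∑ e ∈ E, (T e).card : ℕ) : ℝ) := by exact_mod_cast card_biUnion_le
    _ ≤ ∑ _e ∈ E, Pr / L ^ (U + (W + 1) * k) := by
        push_cast
        exact sum_le_sum hTcard
    _ = E.card * (Pr / L ^ (U + (W + 1) * k)) := by rw [sum_const, nsmul_eq_mul]
    _ ≤ L ^ ((W + 1) * k) * (Pr / L ^ (U + (W + 1) * k)) := by gcongr
    _ = Pr / L ^ U := by
        rw [pow_add]
        field_simp

end Pool.Agent.KS6_25.SH
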