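import Pool.Agent.KS6_25.Ener

set_option autoImplicit false

/-!
# Exponential sums at consecutive frequencies: Parseval's identity and windows
-/

namespace Pool.Agent.KS6_25.SH

open Finset
open Pool.Agent.H807R2.Dav (ee dd norm_ee ee_add ee_zero ee_pow dd_ge dd_le dd_nonneg)

/-- the exponential sum -/
noncomputable def cf (N : ℕ) (F : ℕ → ℂ) (β : ℝ) : ℂ := ∑ n ∈ Icc 1 N, F n * ee (n * β)

/-- Parseval's identity -/
lemma pars_set (M : ℕ) (hM : 1 ≤ M) (s : Finset ℕ) (hs : ∀ n ∈ s, n < M) (c : ℕ → ℂ) :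
    ∑ t ∈ range M, ‖∑ n ∈ s, c n * ee ((n : ℝ) * ((t : ℝ) / (M : ℕ)))‖ ^ 2 = M * ∑ n ∈ s, ‖c n‖ ^ 2 := by
  have h1 := Pool.Agent.H373R2.T7.sq_expand s c (fun n => (n : ℤ)) M hM
  have h2 : ∀ i ∈ s, ∑ j ∈ s, c i * (starRingEnd ℂ) (c j) * (if (M : ℤ) ∣ (i : ℤ) - (j : ℤ) then (M : ℂ) else 0) =
      (M : ℂ) * ((‖c i‖ ^ 2 : ℝ) : ℂ) := by
    intro i hi
    rw [sum_eq_single i]
    · rw [sub_self, if_pos (dvd_zero _), Complex.mul_conj']
      push_cast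
      ring
    · intro j hj hji
      rw [if_neg, mul_zero]
      intro hd
      have hi' := hs i hi
      have hj' := hs j hj
      have h3 : |((i : ℤ) - (j : ℤ))| < (M : ℤ) := by
        rw [abs_lt]
        constructor <;> omega
      have := Int.eq_zero_of_abs_lt_dvd hd h3
      apply hji
      omega
    · intro h
      exact absurd hi h
  rw [sum_congr rfl h2, ← mul_sum] at h1
  have h3 : ∀ t ∈ range M, ‖∑ n ∈ s, c n * ee ((n : ℝ) * ((t : ℝ) / (M : ℕ)))‖ ^ 2 =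
      ‖∑ i ∈ s, c i * ee ((t : ℝ) * (((i : ℤ) : ℝ) / M))‖ ^ 2 := by
    intro t _
    congr 2
    refine sum_congr rfl fun n _ => ?_
    congr 2
    push_cast
    ring
  rw [sum_congr rfl h3]
  exact_mod_cast h1

/-- Parseval's inequality at shifted frequencies -/
lemma pars_le {N : ℕ} (F : ℕ → ℂ) (α : ℝ) {R : ℕ} (hR : R ≤ 2 * N + 1) :
    ∑ s ∈ range R, ‖cf N F (α + (s : ℝ) / ((2 * N + 1 : ℕ) : ℝ))‖ ^ 2 ≤
      (2 * N + 1 : ℕ) * ∑ n ∈ Icc 1 N, ‖F n‖ ^ 2 := by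
  have h1 := pars_set (2 * N + 1) (by omega) (Icc 1 N) (fun n hn => by rw [mem_Icc] at hn; omega)
    (fun n => F n * ee (n * α))
  have h2 : ∀ n ∈ Icc 1 N, ‖F n * ee (n * α)‖ ^ 2 = ‖F n‖ ^ 2 := by
    intro n _
    rw [norm_mul, norm_ee, mul_one]
  rw [sum_congr rfl h2] at h1
  rw [← h1]
  refine le_trans (le_of_eq ?_) (sum_le_sum_of_subset_of_nonneg (range_subset_range.2 hR) fun _ _ _ => sq_nonneg _)
  refine sum_congr rfl fun s _ => ?_
  congr 2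
  unfold cf
  refine sum_congr rfl fun n _ => ?_
  rw [mul_assoc, ← ee_add]
  congr 2
  ring

/-- lower bound for a geometric sum -/
lemma geo_lower {R : ℕ} {x : ℝ} (hx0 : 0 ≤ x) (hx : 2 * R * x ≤ 1) : (R : ℝ) / 2 ≤ ‖∑ s ∈ range R, ee (s * x)‖ := by
  rcases Nat.eq_zero_or_pos R with h0 | hR
  · subst h0
    simp
  have hR0 : (0 : ℝ) < R := by exact_mod_cast hR
  rcases hx0.eq_or_lt with h0 | h0
  · rw [← h0]
    have : ∀ s ∈ range R, ee ((s : ℝ) * 0) = 1 := by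
      intro s _
      rw [mul_zero, ee_zero]
    rw [sum_congr rfl this, sum_const, card_range, nsmul_eq_mul, mul_one, Complex.norm_natCast]
    linarith
  have h1 : (1 - ee x) * ∑ s ∈ range R, ee (s * x) = 1 - ee (R * x) := by
    simp only [ee_pow]
    have := geom_sum_mul (ee x) R
    linear_combination -this
  have h2 : dd x * ‖∑ s ∈ range R, ee (s * x)‖ = dd (R * x) := by
    unfold dd
    rw [← norm_mul, h1]
  have h3 : 4 * (R * x) ≤ dd (R * x) := by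
    have h4 := dd_ge (t := R * x) (by positivity) (by linarith)
    rwa [min_eq_left (by linarith)] at h4
  have h4 := dd_le x
  rw [abs_of_pos h0] at h4
  have hπ := Real.pi_lt_four
  have h5 : dd x * ‖∑ s ∈ range R, ee (s * x)‖ ≤ (8 * x) * ‖∑ s ∈ range R, ee (s * x)‖ := by
    apply mul_le_mul_of_nonneg_right _ (norm_nonneg _)
    nlinarith
  have h6 : (8 * x) * (R / 2) ≤ (8 * x) * ‖∑ s ∈ range R, ee (s * x)‖ := by
    calc (8 * x) * (R / 2) = 4 * (R * x) := by ring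
      _ ≤ _ := h3.trans (h2.symm.le.trans h5)
  exact le_of_mul_le_mul_left h6 (by positivity)

/-- the sum over the window `(x - H, x]` -/
noncomputable def win (N H : ℕ) (F : ℕ → ℂ) (x : ℕ) : ℂ := ∑ n ∈ (Icc 1 N).filter (fun n => n ≤ x ∧ x < n + H), F n

lemma win_transform {N H M : ℕ} (hMH : N + H ≤ M) (F : ℕ → ℂ) (γ : ℝ) :
    ∑ x ∈ range M, win N H F x * ee (x * γ) = cf N F γ * ∑ h ∈ range H, ee (h * γ) := by
  classical
  unfold win cf
  have h1 : ∀ x ∈ range M, (∑ n ∈ (Icc 1 N).filter (fun n => n ≤ x ∧ x < n + H), F n) * ee (x * γ) =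
      ∑ n ∈ Icc 1 N, if n ≤ x ∧ x < n + H then F n * ee (x * γ) else 0 := by
    intro x _
    rw [sum_mul, sum_filter]
  rw [sum_congr rfl h1, sum_comm, sum_mul]
  refine sum_congr rfl fun n hn => ?_
  rw [mem_Icc] at hn
  rw [← sum_filter, mul_sum]
  symm
  refine sum_bij (fun h _ => n + h) ?_ ?_ ?_ ?_
  · intro h hh
    rw [mem_range] at hh
    rw [mem_filter, mem_range]
    omega
  · intro a _ b _ hab
    simpa using hab
  · intro x hx
    rw [mem_filter, mem_range] at hx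
    refine ⟨x - n, ?_, by omega⟩
    rw [mem_range]
    omega
  · intro h _
    rw [mul_assoc, ← ee_add]
    congr 2
    push_cast
    ring

/-- the discrete form of Gallagher's lemma -/
lemma gallagher {N H R : ℕ} (hN : 1 ≤ N) (hH : 1 ≤ H) (hHN : H ≤ N) (hRH : 2 * R * H ≤ 2 * N + 1) (F : ℕ → ℂ) (α : ℝ) :
    ∑ s ∈ range R, ‖cf N F (α + (s : ℝ) / ((2 * N + 1 : ℕ) : ℝ))‖ ^ 2 ≤
      4 * ((2 * N + 1 : ℕ) : ℝ) / (H : ℝ) ^ 2 * ∑ x ∈ range (2 * N + 1), ‖win N H (fun n => F n * ee (n * α)) x‖ ^ 2 := by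
  obtain ⟨M, hM⟩ : ∃ M, M = 2 * N + 1 := ⟨_, rfl⟩
  rw [← hM] at hRH ⊢
  have hM0 : (0 : ℝ) < M := by rw [hM]; positivity
  have hH0 : (0 : ℝ) < H := by exact_mod_cast hH
  have hRM : R ≤ M := by
    calc R ≤ R * H := Nat.le_mul_of_pos_right _ hH
      _ ≤ 2 * R * H := by nlinarith
      _ ≤ M := hRH
  obtain ⟨G, hG⟩ : ∃ G : ℕ → ℂ, G = fun n => F n * ee (n * α) := ⟨_, rfl⟩
  rw [← hG]
  have h1 := pars_set M (by omega) (range M) (fun n hn => mem_range.1 hn) (win N H G)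
  have h2 : ∀ s ∈ range R, ‖cf N F (α + (s : ℝ) / (M : ℝ))‖ ^ 2 ≤
      4 / (H : ℝ) ^ 2 * ‖∑ x ∈ range M, win N H G x * ee ((x : ℝ) * ((s : ℝ) / (M : ℕ)))‖ ^ 2 := by
    intro s hs
    rw [mem_range] at hs
    rw [win_transform (by omega), norm_mul, mul_pow]
    have e1 : cf N G ((s : ℝ) / (M : ℕ)) = cf N F (α + (s : ℝ) / (M : ℝ)) := by
      unfold cf
      rw [hG]
      refine sum_congr rfl fun n _ => ?_
      simp only
      rw [mul_assoc, ← ee_add]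
      congr 2
      ring
    rw [e1]
    have e2 := geo_lower (R := H) (x := (s : ℝ) / (M : ℕ)) (by positivity) (by
      rw [← mul_div_assoc, div_le_one hM0]
      have : 2 * H * s ≤ M := by
        calc 2 * H * s ≤ 2 * H * R := Nat.mul_le_mul_left _ hs.le
          _ = 2 * R * H := by ring
          _ ≤ M := hRH
      exact_mod_cast this)
    have e3 : ((H : ℝ) / 2) ^ 2 ≤ ‖∑ h ∈ range H, ee (h * ((s : ℝ) / (M : ℕ)))‖ ^ 2 :=
      pow_le_pow_left₀ (by positivity) e2 2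
    calc ‖cf N F (α + (s : ℝ) / (M : ℝ))‖ ^ 2 = 4 / (H : ℝ) ^ 2 * (‖cf N F (α + (s : ℝ) / (M : ℝ))‖ ^ 2 *
          ((H : ℝ) / 2) ^ 2) := by
          field_simp
          ring
      _ ≤ _ := by gcongr
  refine (sum_le_sum h2).trans ?_
  rw [← mul_sum]
  calc 4 / (H : ℝ) ^ 2 * ∑ s ∈ range R, ‖∑ x ∈ range M, win N H G x * ee ((x : ℝ) * ((s : ℝ) / (M : ℕ)))‖ ^ 2
      ≤ 4 / (H : ℝ) ^ 2 * ∑ s ∈ range M, ‖∑ x ∈ range M, win N H G x * ee ((x : ℝ) * ((s : ℝ) / (M : ℕ)))‖ ^ 2 := by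
        gcongr
    _ = 4 / (H : ℝ) ^ 2 * (M * ∑ x ∈ range M, ‖win N H G x‖ ^ 2) := by rw [h1]
    _ = _ := by ring

end Pool.Agent.KS6_25.SH
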