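import Pool.Agent.KS6_25.SH.A1

set_option autoImplicit false

/-!
# From mean squares over consecutive frequencies to families of nearly minimal energy in short intervals
-/

namespace Pool.Agent.KS6_25.SH

open Finset
open Pool.Agent.H807R2.Dav (ee dd norm_ee ee_add ee_zero ee_pow)
open Pool.Agent.R460.GS (cv tr conv_tr norm_tr_le)

/-- the product of two exponential sums -/
lemma cf_mul (N : ℕ) (F G : ℕ → ℂ) (β : ℝ) : cf N F β * cf N G β =
    ∑ n ∈ Icc 1 (2 * N), (∑ b ∈ Icc 1 N, ∑ c ∈ Icc 1 N, if b + c = n then F b * G c else 0) * ee (n * β) := by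
  unfold cf
  have h1 : ∀ n ∈ Icc 1 (2 * N), (∑ b ∈ Icc 1 N, ∑ c ∈ Icc 1 N, if b + c = n then F b * G c else 0) * ee (n * β) =
      ∑ b ∈ Icc 1 N, ∑ c ∈ Icc 1 N, if b + c = n then F b * G c * ee (n * β) else 0 := by
    intro n _
    rw [sum_mul]
    refine sum_congr rfl fun b _ => ?_
    rw [sum_mul]
    refine sum_congr rfl fun c _ => ?_
    split_ifs <;> ring
  symm
  rw [sum_congr rfl h1, sum_mul_sum, sum_comm]
  refine sum_congr rfl fun b hb => ?_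
  rw [sum_comm]
  refine sum_congr rfl fun c hc => ?_
  rw [mem_Icc] at hb hc
  rw [sum_ite_eq, if_pos (by rw [mem_Icc]; omega)]
  push_cast
  rw [add_mul, ee_add]
  ring

lemma shift_sum {M : ℕ} (g : ℕ → ℂ) (hg : ∀ t, g (t + M) = g t) (s : ℕ) :
    ∑ t ∈ range M, g (t + s) = ∑ t ∈ range M, g t := by
  induction s with
  | zero => rfl
  | succ s ih =>
    rw [← ih]
    have h1 := sum_range_succ (fun t => g (t + s)) M
    have h2 := sum_range_succ' (fun t => g (t + s)) M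
    have h3 : g (M + s) = g (0 + s) := by
      rw [add_comm M s, hg, zero_add]
    have h4 : ∑ t ∈ range M, g (t + (s + 1)) = ∑ t ∈ range M, g (t + 1 + s) := by
      refine sum_congr rfl fun t _ => ?_
      congr 1
      ring
    rw [h4]
    have h5 : ∑ t ∈ range M, g (t + 1 + s) + g (0 + s) = ∑ t ∈ range M, g (t + s) + g (M + s) := by
      rw [← h1, ← h2]
    rw [h3] at h5
    exact add_right_cancel h5

/-- the value of a convolution from the exponential sums -/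
lemma recover1 {N : ℕ} (F G : ℕ → ℂ) (n : ℕ) (hn1 : 1 ≤ n) (hn : n ≤ 2 * N) :
    ((2 * N + 1 : ℕ) : ℂ) * (∑ b ∈ Icc 1 N, ∑ c ∈ Icc 1 N, if b + c = n then F b * G c else 0) =
      ∑ t ∈ range (2 * N + 1), (cf N F ((t : ℝ) / ((2 * N + 1 : ℕ) : ℝ)) * cf N G ((t : ℝ) / ((2 * N + 1 : ℕ) : ℝ))) *
        (starRingEnd ℂ) (ee ((n : ℝ) * ((t : ℝ) / ((2 * N + 1 : ℕ) : ℝ)))) := by
  obtain ⟨f, hf⟩ : ∃ f : ℕ → ℂ, f = fun n => ∑ b ∈ Icc 1 N, ∑ c ∈ Icc 1 N, if b + c = n then F b * G c else 0 :=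
    ⟨_, rfl⟩
  have hfn : (∑ b ∈ Icc 1 N, ∑ c ∈ Icc 1 N, if b + c = n then F b * G c else 0) = f n := by rw [hf]
  rw [hfn]
  have h1 : ∀ t ∈ range (2 * N + 1), (cf N F ((t : ℝ) / ((2 * N + 1 : ℕ) : ℝ)) *
      cf N G ((t : ℝ) / ((2 * N + 1 : ℕ) : ℝ))) * (starRingEnd ℂ) (ee ((n : ℝ) * ((t : ℝ) / ((2 * N + 1 : ℕ) : ℝ)))) =
      ∑ m ∈ Icc 1 (2 * N), f m * (ee ((m : ℝ) * ((t : ℝ) / ((2 * N + 1 : ℕ) : ℝ))) *
        (starRingEnd ℂ) (ee ((n : ℝ) * ((t : ℝ) / ((2 * N + 1 : ℕ) : ℝ))))) := by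
    intro t _
    rw [cf_mul, sum_mul]
    refine sum_congr rfl fun m _ => ?_
    rw [hf]
    ring
  rw [sum_congr rfl h1, sum_comm]
  have h2 : ∀ m ∈ Icc 1 (2 * N),
      ∑ t ∈ range (2 * N + 1), f m * (ee ((m : ℝ) * ((t : ℝ) / ((2 * N + 1 : ℕ) : ℝ))) *
        (starRingEnd ℂ) (ee ((n : ℝ) * ((t : ℝ) / ((2 * N + 1 : ℕ) : ℝ))))) =
        if m = n then ((2 * N + 1 : ℕ) : ℂ) * f n else 0 := by
    intro m hm
    rw [mem_Icc] at hm
    rw [← mul_sum, Pool.Agent.Y872.GJ.orth (2 * N + 1) m n (by omega) (by omega)]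
    split_ifs with h
    · rw [h]; ring
    · rw [mul_zero]
  rw [sum_congr rfl h2, sum_ite_eq', if_pos]
  rw [mem_Icc]
  exact ⟨hn1, hn⟩

/-- the transfer to families in short intervals -/
theorem transferS {N H R h : ℕ} (hh : 1 ≤ h) (hR : 1 ≤ R) (hRM : R ≤ 2 * N + 1) (hRH : 2 * R * H ≤ 2 * N + 1)
    (hhH : h * H < 2 * N + 1) (F G : ℕ → ℂ) {y : ℕ} (hy : y ≤ N) {K B : ℝ} (hF : ∑ n ∈ Icc 1 N, ‖F n‖ ^ 2 ≤ K)
    (hG : ∑ n ∈ Icc 1 N, ‖G n‖ ^ 2 ≤ K)
    (hB : ∀ α : ℝ, ∑ s ∈ range R, ‖cf N G (α + (s : ℝ) / ((2 * N + 1 : ℕ) : ℝ))‖ ^ 2 ≤ B)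
    {ι : Type} [Fintype ι] (n₀ : ℕ) (w : ι → ℕ) (hw : ∀ i, w i ≤ H) (hs : ∀ i, 1 ≤ n₀ + w i ∧ n₀ + w i ≤ 2 * N)
    (S : Finset ι) :
    (∑ i ∈ S, ‖cv F G y N (n₀ + w i)‖) ^ (2 * h) ≤
      4 ^ h * K ^ (2 * h - 1) * (Real.sqrt (((2 * N + 1 : ℕ) : ℝ) * K * B) / R * (energy h w : ℝ)) := by
  classical
  have hK0 : 0 ≤ K := le_trans (sum_nonneg fun _ _ => sq_nonneg _) hF
  have hB0 : 0 ≤ B := le_trans (sum_nonneg fun _ _ => sq_nonneg _) (hB 0)
  obtain ⟨M, hM⟩ : ∃ M, M = 2 * N + 1 := ⟨_, rfl⟩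
  have hM1 : 1 ≤ M := by omega
  have hM0 : (0 : ℝ) < M := by exact_mod_cast hM1
  have hR0 : (0 : ℝ) < R := by exact_mod_cast hR
  obtain ⟨F', hF'⟩ : ∃ F', F' = tr y F := ⟨_, rfl⟩
  obtain ⟨G', hG'⟩ : ∃ G', G' = tr N G := ⟨_, rfl⟩
  have hcv : ∀ n, (∑ b ∈ Icc 1 N, ∑ c ∈ Icc 1 N, if b + c = n then F' b * G' c else 0) = cv F G y N n := by
    intro n
    rw [hF', hG', conv_tr hy le_rfl]
    rfl
  have hcfG : ∀ β, cf N G' β = cf N G β := by
    intro β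
    unfold cf
    refine sum_congr rfl fun n hn => ?_
    rw [mem_Icc] at hn
    rw [hG']
    unfold tr
    rw [if_pos hn.2]
  obtain ⟨θ, hθ⟩ : ∃ θ : ℕ → ℝ, θ = fun t : ℕ => (t : ℝ) / ((2 * N + 1 : ℕ) : ℝ) := ⟨_, rfl⟩
  have hθadd : ∀ t s : ℕ, θ (t + s) = θ t + (s : ℝ) / ((2 * N + 1 : ℕ) : ℝ) := by
    intro t s
    rw [hθ]
    push_cast
    ring
  have hθM : ∀ t : ℕ, θ (t + M) = θ t + ((1 : ℤ) : ℝ) := by
    intro t
    rw [hθadd, hM]
    congr 1
    rw [div_self (by positivity)]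
    norm_num
  have hper : ∀ n t : ℕ, ee ((n : ℝ) * θ (t + M)) = ee ((n : ℝ) * θ t) := by
    intro n t
    rw [hθM, mul_add]
    have : (n : ℝ) * ((1 : ℤ) : ℝ) = ((n : ℤ) : ℝ) := by push_cast; ring
    rw [this, Pool.Agent.H807R2.Dav.ee_add_int]
  have hcfper : ∀ (X : ℕ → ℂ) (t : ℕ), cf N X (θ (t + M)) = cf N X (θ t) := by
    intro X t
    unfold cf
    exact sum_congr rfl fun n _ => by rw [hper]
  obtain ⟨Hf, hHf⟩ : ∃ Hf : ℕ → ℂ, Hf = fun t : ℕ => (1 / (R : ℂ)) * ∑ s ∈ range R,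
    (cf N F' (θ (t + s)) * cf N G' (θ (t + s))) * (starRingEnd ℂ) (ee ((n₀ : ℝ) * θ s)) := ⟨_, rfl⟩
  obtain ⟨δ, hδ⟩ : ∃ δ, δ = Real.sqrt (((2 * N + 1 : ℕ) : ℝ) * K * B) / R := ⟨_, rfl⟩
  have hδ0 : 0 ≤ δ := by rw [hδ]; positivity
  have hnormF : ∑ n ∈ Icc 1 N, ‖F' n‖ ^ 2 ≤ K := by
    refine le_trans (sum_le_sum fun n _ => ?_) hF
    rw [hF']
    exact pow_le_pow_left₀ (norm_nonneg _) (norm_tr_le _ _ _) 2
  have hnormG : ∑ n ∈ Icc 1 N, ‖G' n‖ ^ 2 ≤ K := by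
    refine le_trans (sum_le_sum fun n _ => ?_) hG
    rw [hG']
    exact pow_le_pow_left₀ (norm_nonneg _) (norm_tr_le _ _ _) 2
  have hPF : ∑ t ∈ range M, ‖cf N F' (θ t)‖ ^ 2 ≤ M * K := by
    have h1 := pars_le F' 0 (le_refl (2 * N + 1))
    rw [← hM] at h1
    simp only [zero_add] at h1
    have h2 : ∀ t ∈ range M, ‖cf N F' (θ t)‖ ^ 2 = ‖cf N F' ((t : ℝ) / ((M : ℕ) : ℝ))‖ ^ 2 := by
      intro t _
      rw [hθ, hM]
    rw [sum_congr rfl h2]
    exact h1.trans (mul_le_mul_of_nonneg_left hnormF hM0.le)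
  have hPG : ∑ t ∈ range M, ‖cf N G' (θ t)‖ ^ 2 ≤ M * K := by
    have h1 := pars_le G' 0 (le_refl (2 * N + 1))
    rw [← hM] at h1
    simp only [zero_add] at h1
    have h2 : ∀ t ∈ range M, ‖cf N G' (θ t)‖ ^ 2 = ‖cf N G' ((t : ℝ) / ((M : ℕ) : ℝ))‖ ^ 2 := by
      intro t _
      rw [hθ, hM]
    rw [sum_congr rfl h2]
    exact h1.trans (mul_le_mul_of_nonneg_left hnormG hM0.le)
  -- the supremum
  have hsup : ∀ t, ‖Hf t‖ ≤ δ := by
    intro t
    rw [hHf]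
    simp only
    rw [norm_mul, norm_div, norm_one, Complex.norm_natCast]
    have h1 : ‖∑ s ∈ range R, (cf N F' (θ (t + s)) * cf N G' (θ (t + s))) *
        (starRingEnd ℂ) (ee ((n₀ : ℝ) * θ s))‖ ≤ ∑ s ∈ range R, ‖cf N F' (θ (t + s))‖ * ‖cf N G' (θ (t + s))‖ := by
      refine (norm_sum_le _ _).trans (le_of_eq (sum_congr rfl fun s _ => ?_))
      rw [norm_mul, norm_mul, RCLike.norm_conj, norm_ee, mul_one]
    have h2 : (∑ s ∈ range R, ‖cf N F' (θ (t + s))‖ * ‖cf N G' (θ (t + s))‖) ^ 2 ≤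
        ((2 * N + 1 : ℕ) : ℝ) * K * B := by
      refine (sum_mul_sq_le_sq_mul_sq _ _ _).trans ?_
      apply mul_le_mul
      · have h3 := pars_le F' (θ t) hRM
        have h4 : ∑ s ∈ range R, ‖cf N F' (θ (t + s))‖ ^ 2 =
            ∑ s ∈ range R, ‖cf N F' (θ t + (s : ℝ) / ((2 * N + 1 : ℕ) : ℝ))‖ ^ 2 :=
          sum_congr rfl fun s _ => by rw [hθadd]
        rw [h4]
        exact h3.trans (mul_le_mul_of_nonneg_left hnormF (by positivity))
      · have h4 : ∑ s ∈ range R, ‖cf N G' (θ (t + s))‖ ^ 2 =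
            ∑ s ∈ range R, ‖cf N G (θ t + (s : ℝ) / ((2 * N + 1 : ℕ) : ℝ))‖ ^ 2 :=
          sum_congr rfl fun s _ => by rw [hθadd, hcfG]
        rw [h4]
        exact hB (θ t)
      · exact sum_nonneg fun _ _ => sq_nonneg _
      · positivity
    have h3 := Real.le_sqrt_of_sq_le h2
    rw [hδ]
    calc 1 / (R : ℝ) * ‖∑ s ∈ range R, (cf N F' (θ (t + s)) * cf N G' (θ (t + s))) *
        (starRingEnd ℂ) (ee ((n₀ : ℝ) * θ s))‖ ≤ 1 / (R : ℝ) * Real.sqrt (((2 * N + 1 : ℕ) : ℝ) * K * B) := by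
          gcongr
          exact h1.trans h3
      _ = _ := by ring
  -- the first moment
  have hL1 : ∑ t ∈ range M, ‖Hf t‖ ≤ M * K := by
    have h1 : ∀ t ∈ range M, ‖Hf t‖ ≤ 1 / (R : ℝ) * ∑ s ∈ range R, ‖cf N F' (θ (t + s))‖ * ‖cf N G' (θ (t + s))‖ := by
      intro t _
      rw [hHf]
      simp only
      rw [norm_mul, norm_div, norm_one, Complex.norm_natCast]
      gcongr
      refine (norm_sum_le _ _).trans (le_of_eq (sum_congr rfl fun s _ => ?_))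
      rw [norm_mul, norm_mul, RCLike.norm_conj, norm_ee, mul_one]
    refine (sum_le_sum h1).trans ?_
    rw [← mul_sum, sum_comm]
    have h2 : ∀ s ∈ range R, ∑ t ∈ range M, ‖cf N F' (θ (t + s))‖ * ‖cf N G' (θ (t + s))‖ ≤ M * K := by
      intro s _
      have h3 := shift_sum (M := M) (fun t => ((‖cf N F' (θ t)‖ * ‖cf N G' (θ t)‖ : ℝ) : ℂ)) (by
        intro t
        rw [hcfper, hcfper]) s
      have h4 : ∑ t ∈ range M, ‖cf N F' (θ (t + s))‖ * ‖cf N G' (θ (t + s))‖ =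
          ∑ t ∈ range M, ‖cf N F' (θ t)‖ * ‖cf N G' (θ t)‖ := by
        exact_mod_cast h3
      rw [h4]
      have h5 : (∑ t ∈ range M, ‖cf N F' (θ t)‖ * ‖cf N G' (θ t)‖) ^ 2 ≤ (M * K) ^ 2 := by
        refine (sum_mul_sq_le_sq_mul_sq _ _ _).trans ?_
        rw [sq]
        exact mul_le_mul hPF hPG (sum_nonneg fun _ _ => sq_nonneg _) (by positivity)
      exact le_of_sq_le_sq h5 (by positivity)
    calc 1 / (R : ℝ) * ∑ s ∈ range R, ∑ t ∈ range M, ‖cf N F' (θ (t + s))‖ * ‖cf N G' (θ (t + s))‖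
        ≤ 1 / (R : ℝ) * ∑ _s ∈ range R, M * K := by
          gcongr with s hs
          exact h2 s hs
      _ = M * K := by
          rw [sum_const, card_range, nsmul_eq_mul]
          field_simp
  -- the signs
  obtain ⟨φ, hφ⟩ : ∃ φ : ℕ → ℂ, φ = fun v : ℕ => (1 / (R : ℂ)) * ∑ s ∈ range R, ee ((s : ℝ) * ((v : ℝ) / (M : ℕ))) :=
    ⟨_, rfl⟩
  have hφlow : ∀ i, 1 / 2 ≤ ‖φ (w i)‖ := by
    intro i
    rw [hφ]
    simp only
    rw [norm_mul, norm_div, norm_one, Complex.norm_natCast]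
    have h1 := geo_lower (R := R) (x := (w i : ℝ) / (M : ℕ)) (by positivity) (by
      rw [← mul_div_assoc, div_le_one hM0, hM]
      have : 2 * R * w i ≤ 2 * N + 1 := (Nat.mul_le_mul_left _ (hw i)).trans hRH
      exact_mod_cast this)
    calc (1 : ℝ) / 2 = 1 / (R : ℝ) * (R / 2) := by field_simp
      _ ≤ _ := by gcongr
  have hsgn : ∀ i, ∃ e : ℂ, ‖e‖ ≤ 1 ∧ e * (φ (w i) * cv F G y N (n₀ + w i)) =
      ((‖cv F G y N (n₀ + w i)‖ / 2 : ℝ) : ℂ) := by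
    intro i
    by_cases h0 : cv F G y N (n₀ + w i) = 0
    · exact ⟨0, by simp, by rw [h0]; simp⟩
    · have hφ0 : φ (w i) ≠ 0 := by
        intro h
        have := hφlow i
        rw [h, norm_zero] at this
        linarith
      have h1 : (‖cv F G y N (n₀ + w i)‖ : ℂ) ≠ 0 := by
        rw [Complex.ofReal_ne_zero]
        exact norm_ne_zero_iff.2 h0
      refine ⟨(starRingEnd ℂ) (cv F G y N (n₀ + w i)) / ‖cv F G y N (n₀ + w i)‖ * (1 / 2) / φ (w i), ?_, ?_⟩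
      · rw [norm_div, norm_mul, norm_div, RCLike.norm_conj, Complex.norm_real, norm_norm]
        have e1 : ‖((1 : ℂ) / 2)‖ = 1 / 2 := by norm_num
        rw [e1, div_self (norm_ne_zero_iff.2 h0), one_mul, div_le_one (lt_of_lt_of_le (by norm_num) (hφlow i))]
        exact hφlow i
      · rw [div_mul_eq_mul_div, div_mul_eq_mul_div]
        rw [show (starRingEnd ℂ) (cv F G y N (n₀ + w i)) * (1 / 2) / ↑‖cv F G y N (n₀ + w i)‖ *
          (φ (w i) * cv F G y N (n₀ + w i)) / φ (w i) =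
          ((starRingEnd ℂ) (cv F G y N (n₀ + w i)) * cv F G y N (n₀ + w i)) /
            (‖cv F G y N (n₀ + w i)‖ : ℂ) * (1 / 2) by field_simp]
        rw [Complex.conj_mul']
        push_cast
        field_simp
  choose e he1 he2 using hsgn
  obtain ⟨c, hc⟩ : ∃ c : ι → ℂ, c = fun i => if i ∈ S then e i else 0 := ⟨_, rfl⟩
  have hc1 : ∀ i, ‖c i‖ ≤ 1 := by
    intro i
    rw [hc]
    simp only
    split_ifs
    · exact he1 i
    · simp
  obtain ⟨X, hX⟩ : ∃ X, X = ∑ i ∈ S, ‖cv F G y N (n₀ + w i)‖ := ⟨_, rfl⟩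
  have hX0 : 0 ≤ X := by rw [hX]; exact sum_nonneg fun _ _ => norm_nonneg _
  obtain ⟨Tf, hTf⟩ : ∃ Tf : ℕ → ℂ, Tf = fun t : ℕ => ∑ i, c i * ee ((t : ℝ) * (((-(w i : ℤ) : ℤ) : ℝ) / M)) := ⟨_, rfl⟩
  have hrec : ∀ i, (M : ℂ) * (φ (w i) * cv F G y N (n₀ + w i)) =
      ∑ t ∈ range M, Hf t * (starRingEnd ℂ) (ee ((((n₀ + w i : ℕ) : ℝ)) * θ t)) := by
    intro i
    obtain ⟨n, hn⟩ : ∃ n, n = n₀ + w i := ⟨_, rfl⟩
    have h4 := recover1 (N := N) F' G' n (by rw [hn]; exact (hs i).1) (by rw [hn]; exact (hs i).2)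
    rw [hcv] at h4
    obtain ⟨g, hg⟩ : ∃ g : ℕ → ℂ, g = fun t : ℕ => (cf N F' (θ t) * cf N G' (θ t)) *
      (starRingEnd ℂ) (ee ((n : ℝ) * θ t)) := ⟨_, rfl⟩
    have hgper : ∀ t, g (t + M) = g t := by
      intro t
      rw [hg]
      simp only
      rw [hcfper, hcfper, hper]
    have h5 : (M : ℂ) * cv F G y N n = ∑ t ∈ range M, g t := by
      rw [hM]
      rw [h4]
      refine sum_congr rfl fun t _ => ?_
      rw [hg, hθ]
    rw [← hn]
    calc (M : ℂ) * (φ (w i) * cv F G y N n) = φ (w i) * ((M : ℂ) * cv F G y N n) := by ring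
      _ = (1 / (R : ℂ)) * ∑ s ∈ range R, ee ((s : ℝ) * ((w i : ℝ) / (M : ℕ))) * ∑ t ∈ range M, g (t + s) := by
          rw [hφ]
          simp only
          rw [mul_assoc, sum_mul]
          congr 1
          refine sum_congr rfl fun s _ => ?_
          rw [h5, shift_sum g hgper s]
      _ = ∑ t ∈ range M, Hf t * (starRingEnd ℂ) (ee ((n : ℝ) * θ t)) := by
          have h6 : ∀ t ∈ range M, Hf t * (starRingEnd ℂ) (ee ((n : ℝ) * θ t)) =
              (1 / (R : ℂ)) * ∑ s ∈ range R, ee ((s : ℝ) * ((w i : ℝ) / (M : ℕ))) * g (t + s) := by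
            intro t _
            rw [hHf]
            simp only
            rw [mul_assoc, sum_mul]
            congr 1
            refine sum_congr rfl fun s _ => ?_
            rw [hg]
            simp only
            have e1 : (starRingEnd ℂ) (ee ((n₀ : ℝ) * θ s)) * (starRingEnd ℂ) (ee ((n : ℝ) * θ t)) =
                ee ((s : ℝ) * ((w i : ℝ) / (M : ℕ))) * (starRingEnd ℂ) (ee ((n : ℝ) * θ (t + s))) := by
              rw [Pool.Agent.Y872.GJ.conj_ee, Pool.Agent.Y872.GJ.conj_ee, Pool.Agent.Y872.GJ.conj_ee, ← ee_add,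
                ← ee_add]
              congr 1
              rw [hθadd, hn, hM, hθ]
              push_cast
              ring
            calc (cf N F' (θ (t + s)) * cf N G' (θ (t + s))) * (starRingEnd ℂ) (ee ((n₀ : ℝ) * θ s)) *
                (starRingEnd ℂ) (ee ((n : ℝ) * θ t)) = (cf N F' (θ (t + s)) * cf N G' (θ (t + s))) *
                ((starRingEnd ℂ) (ee ((n₀ : ℝ) * θ s)) * (starRingEnd ℂ) (ee ((n : ℝ) * θ t))) := by ring
              _ = _ := by rw [e1]; ring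
          rw [sum_congr rfl h6, ← mul_sum, sum_comm]
          congr 1
          refine sum_congr rfl fun s _ => ?_
          rw [mul_sum]
  have hid : ((M * (X / 2) : ℝ) : ℂ) = ∑ t ∈ range M, Hf t * ((starRingEnd ℂ) (ee ((n₀ : ℝ) * θ t)) * Tf t) := by
    have h1 : ((M * (X / 2) : ℝ) : ℂ) = ∑ i, c i * ((M : ℂ) * (φ (w i) * cv F G y N (n₀ + w i))) := by
      rw [hX]
      push_cast
      rw [← sum_filter_add_sum_filter_not univ (fun i => i ∈ S)]
      have h2 : ∑ i ∈ univ.filter (fun i => ¬ i ∈ S), c i * ((M : ℂ) * (φ (w i) * cv F G y N (n₀ + w i))) = 0 := by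
        refine sum_eq_zero fun i hi => ?_
        rw [mem_filter] at hi
        rw [hc]
        simp only
        rw [if_neg hi.2, zero_mul]
      rw [h2, add_zero, filter_univ_mem, sum_div, mul_sum]
      refine sum_congr rfl fun i hi => ?_
      rw [hc]
      simp only
      rw [if_pos hi]
      have := he2 i
      push_cast at this
      rw [← this]
      ring
    rw [h1]
    have h3 : ∀ t ∈ range M, Hf t * ((starRingEnd ℂ) (ee ((n₀ : ℝ) * θ t)) * Tf t) =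
        ∑ i, c i * (Hf t * (starRingEnd ℂ) (ee ((((n₀ + w i : ℕ) : ℝ)) * θ t))) := by
      intro t _
      rw [hTf]
      simp only
      rw [mul_sum, mul_sum]
      refine sum_congr rfl fun i _ => ?_
      have e1 : (starRingEnd ℂ) (ee ((((n₀ + w i : ℕ) : ℝ)) * θ t)) = (starRingEnd ℂ) (ee ((n₀ : ℝ) * θ t)) *
          ee ((t : ℝ) * (((-(w i : ℤ) : ℤ) : ℝ) / M)) := by
        rw [Pool.Agent.Y872.GJ.conj_ee, Pool.Agent.Y872.GJ.conj_ee, ← ee_add, hθ, hM]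
        congr 1
        push_cast
        ring
      rw [e1]
      ring
    rw [sum_congr rfl h3, sum_comm]
    refine sum_congr rfl fun i _ => ?_
    rw [← mul_sum, hrec]
  have hMX : M * (X / 2) ≤ ∑ t ∈ range M, ‖Hf t‖ * ‖Tf t‖ := by
    have h1 : M * (X / 2) = ‖((M * (X / 2) : ℝ) : ℂ)‖ := by
      rw [Complex.norm_real, Real.norm_of_nonneg (by positivity)]
    rw [h1, hid]
    refine (norm_sum_le _ _).trans (le_of_eq ?_)
    refine sum_congr rfl fun t _ => ?_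
    rw [norm_mul, norm_mul, RCLike.norm_conj, norm_ee, one_mul]
  obtain ⟨m, hm⟩ : ∃ m, 2 * h = m + 1 := ⟨2 * h - 1, by omega⟩
  have hm' : 2 * h - 1 = m := by omega
  have hmom := moment_le h H M hM1 (by rw [hM]; exact hhH) w hw c hc1
  have hE0 : (0 : ℝ) ≤ energy h w := Nat.cast_nonneg _
  have h1 : (M * (X / 2)) ^ (2 * h) ≤ (M : ℝ) ^ (2 * h) * (K ^ m * (δ * energy h w)) := by
    calc (M * (X / 2)) ^ (2 * h) ≤ (∑ t ∈ range M, ‖Hf t‖ * ‖Tf t‖) ^ (2 * h) :=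
          pow_le_pow_left₀ (by positivity) hMX _
      _ ≤ (∑ t ∈ range M, ‖Hf t‖) ^ m * ∑ t ∈ range M, ‖Hf t‖ * ‖Tf t‖ ^ (2 * h) := by
          rw [hm]
          exact wpow _ _ (fun _ => norm_nonneg _) (fun _ => norm_nonneg _) m
      _ ≤ (M * K) ^ m * ∑ t ∈ range M, δ * ‖Tf t‖ ^ (2 * h) := by
          apply mul_le_mul
          · exact pow_le_pow_left₀ (sum_nonneg fun _ _ => norm_nonneg _) hL1 _
          · refine sum_le_sum fun t _ => ?_
            exact mul_le_mul_of_nonneg_right (hsup t) (by positivity)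
          · exact sum_nonneg fun _ _ => by positivity
          · positivity
      _ = (M * K) ^ m * (δ * ∑ t ∈ range M, ‖Tf t‖ ^ (2 * h)) := by rw [← mul_sum]
      _ ≤ (M * K) ^ m * (δ * (M * energy h w)) := by
          rw [hTf]
          gcongr
      _ = (M : ℝ) ^ (2 * h) * (K ^ m * (δ * energy h w)) := by
          rw [hm]
          ring
  rw [mul_pow] at h1
  have h2 : (X / 2) ^ (2 * h) ≤ K ^ m * (δ * energy h w) := le_of_mul_le_mul_left h1 (by positivity)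
  rw [hm', ← hX, ← hδ]
  calc X ^ (2 * h) = 4 ^ h * (X / 2) ^ (2 * h) := by
        rw [div_pow, pow_mul 2 2 h]
        norm_num
        field_simp
    _ ≤ 4 ^ h * (K ^ m * (δ * energy h w)) := by gcongr
    _ = _ := by ring

end Pool.Agent.KS6_25.SH
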