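import Pool.Agent.KS6_25.SH.A1
import Pool.Graph.R_seed8.R460.GH.Kb

set_option autoImplicit false

/-!
# Sums of type I: mean squares over consecutive frequencies
-/

namespace Pool.Agent.KS6_25.SH

open Finset
open Pool.Agent.H807R2.Dav (ee dd KK KK_nonneg KK_neg KK_le KK_le' vino)
open Pool.Agent.R460.GH (GG0 one_sq sq_min harm)

/-- squares over an arc -/
lemma kk_arc {N r R : ℕ} (hN : 1 ≤ N) (hr : 1 ≤ r) (hrN : r ≤ N) (α : ℝ) {ℓ : ℝ}
    (hℓ : 1 + Real.log (2 * N + 1 : ℕ) ≤ ℓ) :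
    ∑ s ∈ range R, KK ((N : ℝ) / r) (r * (α + (s : ℝ) / ((2 * N + 1 : ℕ) : ℝ))) ^ 2 ≤
      144 * ℓ * ((N : ℝ) ^ 2 / (r : ℝ) ^ 2 + R * N / r) := by
  obtain ⟨M, hM⟩ : ∃ M, M = 2 * N + 1 := ⟨_, rfl⟩
  rw [← hM] at hℓ ⊢
  obtain ⟨q, hq⟩ : ∃ q, q = M / r := ⟨_, rfl⟩
  have hq1 : 1 ≤ q := by
    rw [hq]
    exact (Nat.one_le_div_iff hr).2 (by omega)
  have hM0 : (0 : ℝ) < M := by rw [hM]; positivity
  have hr0 : (0 : ℝ) < r := by exact_mod_cast hr
  have hN0 : (0 : ℝ) < N := by exact_mod_cast hN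
  have hq0 : (0 : ℝ) < q := by exact_mod_cast hq1
  have hqr : q * r ≤ M := by rw [hq]; exact Nat.div_mul_le_self M r
  have hqr' : M < q * r + r := by
    have h1 := Nat.lt_div_mul_add (a := M) (b := r) (by omega)
    rw [← hq] at h1
    exact h1
  have hqrR : (q : ℝ) * r ≤ M := by exact_mod_cast hqr
  have hqrR' : (M : ℝ) < q * r + r := by exact_mod_cast hqr'
  have hlog0 : 0 ≤ Real.log M := Real.log_natCast_nonneg M
  have hℓ1 : 1 ≤ ℓ := by linarith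
  have hα : |((r : ℝ) / M) - ((1 : ℤ) : ℝ) / q| ≤ 1 / (q : ℝ) ^ 2 := by
    have e1 : ((r : ℝ) / M) - ((1 : ℤ) : ℝ) / q = -((M - q * r) / (M * q)) := by
      push_cast
      field_simp
      ring
    rw [e1, abs_neg, abs_of_nonneg (div_nonneg (by linarith) (by positivity)), div_le_div_iff₀ (by positivity)
      (by positivity)]
    have e2 : (M - q * r : ℝ) * q ≤ M := by
      calc (M - q * r : ℝ) * q ≤ r * q := by
            apply mul_le_mul_of_nonneg_right _ hq0.le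
            linarith
        _ ≤ M := by linarith [mul_comm (r : ℝ) q]
    calc (M - q * r : ℝ) * q ^ 2 = ((M - q * r : ℝ) * q) * q := by ring
      _ ≤ M * q := mul_le_mul_of_nonneg_right e2 hq0.le
      _ = 1 * (M * q) := by ring
  have hv := vino (q := q) hq1 (a := 1) isCoprime_one_left hα (M := (N : ℝ) / r) (by positivity) (r * α) R
  have hlq : Real.log q ≤ Real.log M := by
    apply Real.log_le_log hq0
    have : (q : ℝ) ≤ q * r := le_mul_of_one_le_right hq0.le (by exact_mod_cast hr)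
    linarith
  have hqup : (q : ℝ) ≤ 3 * N / r := by
    rw [le_div_iff₀ hr0]
    have : (M : ℝ) ≤ 3 * N := by
      rw [hM]
      push_cast
      have : (1 : ℝ) ≤ N := by exact_mod_cast hN
      linarith
    linarith
  have hqlow : (N : ℝ) / r ≤ q := by
    rw [div_le_iff₀ hr0]
    have h2 : (M : ℝ) < 2 * (q * r) := by
      have : (r : ℝ) ≤ q * r := le_mul_of_one_le_left hr0.le (by exact_mod_cast hq1)
      linarith
    have h3 : (M : ℝ) = 2 * N + 1 := by rw [hM]; push_cast; ring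
    linarith
  have h1 : ∑ s ∈ range R, KK ((N : ℝ) / r) (r * (α + (s : ℝ) / ((M : ℕ) : ℝ))) ≤
      (R * r / N + 1) * (48 * ℓ * (N / r)) := by
    have e1 : ∑ s ∈ range R, KK ((N : ℝ) / r) (r * (α + (s : ℝ) / ((M : ℕ) : ℝ))) =
        ∑ j ∈ range R, KK ((N : ℝ) / r) (r * α + j * ((r : ℝ) / M)) := by
      refine sum_congr rfl fun s _ => ?_
      congr 1
      ring
    rw [e1]
    refine hv.trans ?_
    apply mul_le_mul
    · have : (R : ℝ) / q ≤ R * r / N := by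
        calc (R : ℝ) / q ≤ R / (N / r) := div_le_div_of_nonneg_left (Nat.cast_nonneg _) (by positivity) hqlow
          _ = R * r / N := by field_simp
      linarith
    · calc 39 * ((N : ℝ) / r) + 3 * q * (1 + Real.log q) ≤ 39 * ((N : ℝ) / r) * ℓ + 3 * (3 * N / r) * ℓ := by
            apply add_le_add
            · exact le_mul_of_one_le_right (by positivity) hℓ1
            · have h0 : 0 ≤ 1 + Real.log q := by
                have := Real.log_natCast_nonneg q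
                linarith
              apply mul_le_mul _ (by linarith) h0 (by positivity)
              linarith
        _ = 48 * ℓ * (N / r) := by ring
    · have := Real.log_natCast_nonneg q
      positivity
    · positivity
  calc ∑ s ∈ range R, KK ((N : ℝ) / r) (r * (α + (s : ℝ) / ((M : ℕ) : ℝ))) ^ 2
      ≤ ∑ s ∈ range R, (3 * ((N : ℝ) / r)) * KK ((N : ℝ) / r) (r * (α + (s : ℝ) / ((M : ℕ) : ℝ))) := by
        refine sum_le_sum fun s _ => ?_
        rw [sq]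
        exact mul_le_mul_of_nonneg_right (KK_le (by positivity) _) (KK_nonneg (by positivity) _)
    _ = (3 * ((N : ℝ) / r)) * ∑ s ∈ range R, KK ((N : ℝ) / r) (r * (α + (s : ℝ) / ((M : ℕ) : ℝ))) := by rw [mul_sum]
    _ ≤ (3 * ((N : ℝ) / r)) * ((R * r / N + 1) * (48 * ℓ * (N / r))) := by gcongr
    _ = _ := by
        field_simp
        ring

/-- **Sums of type I.** The mean square of the majorant over the frequencies `α + s / (2 N + 1)`, `s ∈ S`, where `S`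
is a set of numbers below `R`; the multiples by the numbers below `T` are treated by hypothesis. -/
theorem GG0_arc {N M₀ R T : ℕ} (hM₀ : 1 ≤ M₀) (h2 : 2 * M₀ ≤ N) (hT : 1 ≤ T) {ℓ α E₀ : ℝ}
    (hℓ : 1 + Real.log (2 * N + 1 : ℕ) ≤ ℓ) (S : Finset ℕ) (hSR : S ⊆ range R) (hE₀ : 0 ≤ E₀)
    (hS : ∀ r : ℕ, 1 ≤ r → r < T → ∑ s ∈ S, KK ((N : ℝ) / r) (r * (α + (s : ℝ) / ((2 * N + 1 : ℕ) : ℝ))) ^ 2 ≤ E₀) :
    ∑ s ∈ S, GG0 1 N M₀ (α + (s : ℝ) / ((2 * N + 1 : ℕ) : ℝ)) ^ 2 ≤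
      200000 * ℓ ^ 4 * (R * (M₀ : ℝ) ^ 2 + R * N + T * E₀ + (N : ℝ) ^ 2 / T) := by
  classical
  have hN : 1 ≤ N := by omega
  obtain ⟨M, hM⟩ : ∃ M, M = 2 * N + 1 := ⟨_, rfl⟩
  have hkk := fun r (hr : 1 ≤ r) (hrN : r ≤ N) => kk_arc (R := R) hN hr hrN α hℓ
  rw [← hM] at hℓ hS hkk ⊢
  have hM0 : (0 : ℝ) < M := by rw [hM]; positivity
  have hN0 : (0 : ℝ) < N := by exact_mod_cast hN
  have hN1 : (1 : ℝ) ≤ N := by exact_mod_cast hN
  have hT0 : (0 : ℝ) < T := by exact_mod_cast hT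
  have hlog0 : 0 ≤ Real.log M := Real.log_natCast_nonneg M
  have hℓ1 : 1 ≤ ℓ := by linarith
  have hcard : (S.card : ℝ) ≤ R := by
    have := card_le_card hSR
    rw [card_range] at this
    exact_mod_cast this
  have hℓM : 1 + Real.log (2 * (M₀ : ℝ)) ≤ ℓ := by
    have : Real.log (2 * (M₀ : ℝ)) ≤ Real.log M := by
      apply Real.log_le_log (by positivity)
      have : 2 * M₀ ≤ M := by omega
      exact_mod_cast this
    linarith
  have hharm : ∑ r ∈ Icc 1 (2 * M₀), (1 : ℝ) / r ≤ ℓ := by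
    have h1 := harm (2 * M₀) (by omega)
    push_cast at h1
    linarith
  -- one frequency
  have hone : ∀ s ∈ S, GG0 1 N M₀ (α + (s : ℝ) / ((M : ℕ) : ℝ)) ^ 2 ≤ 127008 * ((M₀ : ℝ) ^ 2 * ℓ ^ 2) + 8 * ℓ ^ 2 *
      ∑ r ∈ Icc 1 (2 * M₀), (52 * KK ((N : ℝ) / r) (r * (α + (s : ℝ) / ((M : ℕ) : ℝ))) ^ 2 + 36 * (N * ℓ) * (1 / r)) := by
    intro s _
    obtain ⟨γ, hγ⟩ : ∃ γ, γ = α + (s : ℝ) / ((M : ℕ) : ℝ) := ⟨_, rfl⟩
    rw [← hγ]
    have h1 := one_sq (q := 1) (N := N) (M := M₀) (γ := γ) hM₀ hℓM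
    have hfil : (Icc 1 (2 * M₀)).filter (fun r => r.Coprime 1) = Icc 1 (2 * M₀) := by
      apply filter_true_of_mem
      intro r _
      exact Nat.coprime_one_right r
    rw [hfil] at h1
    refine h1.trans ?_
    gcongr with r hr
    rw [mem_Icc] at hr
    have hr0 : (0 : ℝ) < r := by exact_mod_cast hr.1
    have h3 : ∑ c ∈ range r, KK N (γ - c / r) ^ 2 = ∑ u ∈ range r, KK N (-γ + u / r) ^ 2 := by
      refine sum_congr rfl fun c _ => ?_
      rw [← KK_neg, show -(γ - (c : ℝ) / r) = -γ + c / r by ring]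
    rw [h3]
    have h4 := sq_min (n := r) (N := N) hr.1 hN (ℓ := ℓ) (by
      have : Real.log r ≤ Real.log M := by
        apply Real.log_le_log hr0
        have : r ≤ M := by omega
        exact_mod_cast this
      linarith) (-γ)
    have h5 : KK ((N : ℝ) / r) (r * -γ) = KK ((N : ℝ) / r) (r * γ) := by
      rw [mul_neg, KK_neg]
    rw [h5] at h4
    calc 1 / (r : ℝ) ^ 2 * ∑ u ∈ range r, KK N (-γ + u / r) ^ 2
        ≤ 1 / (r : ℝ) ^ 2 * (52 * (r * KK ((N : ℝ) / r) (r * γ)) ^ 2 + 36 * (N * r * ℓ)) := by gcongr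
      _ = _ := by
          field_simp
  refine (sum_le_sum hone).trans ?_
  rw [sum_add_distrib, sum_const, nsmul_eq_mul, ← mul_sum, sum_comm]
  have hin : ∀ r ∈ Icc 1 (2 * M₀), ∑ s ∈ S, (52 * KK ((N : ℝ) / r) (r * (α + (s : ℝ) / ((M : ℕ) : ℝ))) ^ 2 +
      36 * (N * ℓ) * (1 / r)) ≤ 52 * ((if r < T then E₀ else 0) + 144 * ℓ * ((N : ℝ) ^ 2 / T * (1 / r) + R * N * (1 / r))) +
        36 * (R * N * ℓ) * (1 / r) := by
    intro r hr
    rw [mem_Icc] at hr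
    have hr0 : (0 : ℝ) < r := by exact_mod_cast hr.1
    rw [sum_add_distrib, ← mul_sum, sum_const, nsmul_eq_mul]
    apply add_le_add
    · gcongr
      by_cases hrT : r < T
      · rw [if_pos hrT]
        have := hS r hr.1 hrT
        have h0 : 0 ≤ 144 * ℓ * ((N : ℝ) ^ 2 / T * (1 / r) + R * N * (1 / r)) := by positivity
        linarith
      · rw [if_neg hrT, zero_add]
        refine (sum_le_sum_of_subset_of_nonneg hSR fun _ _ _ => sq_nonneg _).trans ?_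
        refine (hkk r hr.1 (by omega)).trans ?_
        have hTr : (T : ℝ) ≤ r := by exact_mod_cast not_lt.1 hrT
        have e1 : (N : ℝ) ^ 2 / (r : ℝ) ^ 2 ≤ (N : ℝ) ^ 2 / T * (1 / r) := by
          rw [div_mul_div_comm, mul_one]
          apply div_le_div_of_nonneg_left (by positivity) (by positivity)
          rw [sq]
          exact mul_le_mul_of_nonneg_right hTr hr0.le
        have e2 : (R : ℝ) * N / r = R * N * (1 / r) := by ring
        rw [e2]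
        gcongr
    · calc (S.card : ℝ) * (36 * (N * ℓ) * (1 / r)) ≤ R * (36 * (N * ℓ) * (1 / r)) := by gcongr
        _ = _ := by ring
  have hsum : ∑ r ∈ Icc 1 (2 * M₀), ∑ s ∈ S, (52 * KK ((N : ℝ) / r) (r * (α + (s : ℝ) / ((M : ℕ) : ℝ))) ^ 2 +
      36 * (N * ℓ) * (1 / r)) ≤ 52 * (T * E₀ + 144 * ℓ * ((N : ℝ) ^ 2 / T * ℓ + R * N * ℓ)) + 36 * (R * N * ℓ) * ℓ := by
    refine (sum_le_sum hin).trans ?_
    rw [sum_add_distrib, ← mul_sum, ← mul_sum, sum_add_distrib, ← mul_sum, sum_add_distrib, ← mul_sum, ← mul_sum]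
    have hE : ∑ r ∈ Icc 1 (2 * M₀), (if r < T then E₀ else 0) ≤ T * E₀ := by
      rw [← sum_filter, sum_const, nsmul_eq_mul]
      gcongr
      have : (Icc 1 (2 * M₀)).filter (fun r => r < T) ⊆ range T := by
        intro r hr
        rw [mem_filter] at hr
        exact mem_range.2 hr.2
      have := card_le_card this
      rwa [card_range] at this
    gcongr
  have hfin : ((S.card : ℕ) : ℝ) * (127008 * ((M₀ : ℝ) ^ 2 * ℓ ^ 2)) + 8 * ℓ ^ 2 *
      ∑ r ∈ Icc 1 (2 * M₀), ∑ s ∈ S, (52 * KK ((N : ℝ) / r) (r * (α + (s : ℝ) / ((M : ℕ) : ℝ))) ^ 2 +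
      36 * (N * ℓ) * (1 / r)) ≤ R * (127008 * ((M₀ : ℝ) ^ 2 * ℓ ^ 2)) + 8 * ℓ ^ 2 *
        (52 * (T * E₀ + 144 * ℓ * ((N : ℝ) ^ 2 / T * ℓ + R * N * ℓ)) + 36 * (R * N * ℓ) * ℓ) := by gcongr
  refine hfin.trans ?_
  have h2' : ℓ ^ 2 ≤ ℓ ^ 4 := pow_le_pow_right₀ hℓ1 (by norm_num)
  have t1 : (R : ℝ) * (127008 * ((M₀ : ℝ) ^ 2 * ℓ ^ 2)) ≤ R * (127008 * ((M₀ : ℝ) ^ 2 * ℓ ^ 4)) := by gcongr
  have t2 : 8 * ℓ ^ 2 * (52 * (T * E₀)) ≤ 8 * ℓ ^ 4 * (52 * (T * E₀)) := by gcongr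
  have t3 : 0 ≤ ℓ ^ 4 * (R * N) := by positivity
  have t4 : 0 ≤ ℓ ^ 4 * ((N : ℝ) ^ 2 / T) := by positivity
  have t5 : 0 ≤ ℓ ^ 4 * (T * E₀) := by positivity
  have t6 : 0 ≤ ℓ ^ 4 * (R * (M₀ : ℝ) ^ 2) := by positivity
  have e1 : 8 * ℓ ^ 2 * (52 * (T * E₀ + 144 * ℓ * ((N : ℝ) ^ 2 / T * ℓ + R * N * ℓ)) + 36 * (R * N * ℓ) * ℓ) =
      8 * ℓ ^ 2 * (52 * (T * E₀)) + 59904 * (ℓ ^ 4 * ((N : ℝ) ^ 2 / T)) + 60192 * (ℓ ^ 4 * (R * N)) := by ring
  rw [e1]
  nlinarith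

end Pool.Agent.KS6_25.SH
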