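import Pool.Agent.KS6_25.SH.B1
import Pool.Graph.R_seed8.R460.GH.ML

set_option autoImplicit false

/-!
# The decomposition of the von Mangoldt function
-/

namespace Pool.Agent.KS6_25.SH

open Finset
open Pool.Agent.R460.GS
open Pool.Agent.R460.GH
open Pool.Agent.Y883.GJ (LA LS FF)
open Pool.Agent.H807R2.Dav (ee)
open Pool.Agent.Y614.GJ.Core (ev_log)

/-- a decomposition of the von Mangoldt function on `[1, N]`: a sum of type I, sums of type II, an error -/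
structure Dec (N : ℕ) (I : Finset (ℕ × ℕ)) (M₀ W Z : ℕ) (P X : ℝ) (c : ℕ → ℂ) (a b : ℕ × ℕ → ℕ → ℂ) (R : ℕ → ℂ) :
    Prop where
  hc : ∀ m ∈ Icc 1 N, ‖c m‖ ≤ 2
  hc0 : ∀ m, 1 ≤ m → c m ≠ 0 → m ≤ M₀
  ha : ∀ j m, a j m ≠ 0 → W < m ∧ m ≤ Z
  ha1 : ∀ j, ∀ m ∈ Icc 1 N, ‖a j m‖ ≤ P
  hb : ∀ j, ∀ m ∈ Icc 1 N, ‖b j m‖ ≤ P
  hR : ∑ n ∈ Icc 1 N, ‖R n‖ ^ 2 ≤ X
  hid : ∀ n ∈ Icc 1 N, LA n = Real.log n * (∑ m ∈ n.divisors, c m) +
    ∑ j ∈ I, ∑ m ∈ n.divisors, a j m * b j (n / m) + R n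

/-- the first coefficients -/
noncomputable def aI (W Z : ℕ) (g : ℕ → ℕ) (x : ℕ × ℕ) (m : ℕ) : ℂ :=
  if x.2 = 0 then Real.log m * a2 W W g x.1 m else if x.2 = 1 then a2 W W g x.1 m else
    if x.2 = 2 then -(Real.log m * a1 W Z g x.1 m) else -(a1 W Z g x.1 m)

/-- the second coefficients -/
noncomputable def bI (W Z P : ℕ) (g : ℕ → ℕ) (x : ℕ × ℕ) (m : ℕ) : ℂ :=
  if x.2 = 0 then op Z P (af (b2 W g x.1)) m else if x.2 = 1 then Real.log m * op Z P (af (b2 W g x.1)) m else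
    if x.2 = 2 then op Z P (af (b1 g x.1)) m else Real.log m * op Z P (af (b1 g x.1)) m

lemma log_conv (f g : ℕ → ℂ) {n : ℕ} (hn : 1 ≤ n) : (Real.log n : ℂ) * ∑ m ∈ n.divisors, f m * g (n / m) =
    ∑ m ∈ n.divisors, (Real.log m * f m) * g (n / m) + ∑ m ∈ n.divisors, f m * (Real.log ((n / m : ℕ) : ℝ) * g (n / m)) := by
  rw [mul_sum, ← sum_add_distrib]
  refine sum_congr rfl fun m hm => ?_
  have hd := Nat.dvd_of_mem_divisors hm
  have hm0 : 0 < m := Nat.pos_of_dvd_of_pos hd hn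
  have hq0 : 0 < n / m := Nat.div_pos (Nat.le_of_dvd hn hd) hm0
  have e : Real.log n = Real.log m + Real.log ((n / m : ℕ) : ℝ) := by
    rw [← Real.log_mul (by exact_mod_cast hm0.ne') (by exact_mod_cast hq0.ne')]
    congr 1
    exact_mod_cast (Nat.mul_div_cancel' hd).symm
  rw [e]
  push_cast
  ring

lemma log_le_nat {N m : ℕ} (hm : m ∈ Icc 1 N) : 0 ≤ Real.log m ∧ Real.log m ≤ Real.log N := by
  rw [mem_Icc] at hm
  exact ⟨Real.log_natCast_nonneg m, Real.log_le_log (by exact_mod_cast hm.1) (by exact_mod_cast hm.2)⟩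

/-- the identity for the sieve function -/
lemma F1_id {W Z P J : ℕ} (g : ℕ → ℕ) (h1 : ∀ m : ℕ, (m.Prime ∧ W < m ∧ m ≤ Z) → g m < J)
    (h2 : ∀ m : ℕ, (Sm W m ∧ W < m ∧ m / pmx m ≤ W) → g (pmx m) < J) {n : ℕ} (hn : 1 ≤ n) :
    (Real.log n : ℂ) * F1 Z P n = Real.log n * (∑ m ∈ n.divisors, op Z P (af (mu1 W W)) m) +
      ∑ j ∈ range J ×ˢ range 4, ∑ m ∈ n.divisors, aI W Z g j m * bI W Z P g j (n / m) +
      Real.log n * op Z P (af (fun n => ((er W Z W g n : ℝ) : ℂ))) n := by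
  classical
  have hn0 : n ≠ 0 := by omega
  have hd : ∀ d ∈ n.divisors, d ≠ 0 ∧ n / d ≠ 0 := by
    intro d hd
    have hd' := Nat.dvd_of_mem_divisors hd
    exact ⟨fun h => hn0 (by rw [h] at hd'; exact Nat.eq_zero_of_zero_dvd hd'),
      (Nat.div_pos (Nat.le_of_dvd hn hd') (Nat.pos_of_dvd_of_pos hd' hn)).ne'⟩
  have e0 : F1 Z P = op Z P (af (mu1 W W)) * af (fun _ => 1) +
      ∑ j ∈ range J, af (a2 W W g j) * op Z P (af (b2 W g j)) -
      ∑ j ∈ range J, af (a1 W Z g j) * op Z P (af (b1 g j)) +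
      op Z P (af (fun n => ((er W Z W g n : ℝ) : ℂ))) := by
    unfold F1
    rw [dec_af g h1 h2, op_add, op_sub, op_add, op_sum, op_sum, op_mul']
    simp only [op_mul]
  have e1 : F1 Z P n = ∑ m ∈ n.divisors, op Z P (af (mu1 W W)) m +
      ∑ j ∈ range J, ∑ m ∈ n.divisors, a2 W W g j m * op Z P (af (b2 W g j)) (n / m) -
      ∑ j ∈ range J, ∑ m ∈ n.divisors, a1 W Z g j m * op Z P (af (b1 g j)) (n / m) +
      op Z P (af (fun n => ((er W Z W g n : ℝ) : ℂ))) n := by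
    rw [e0, ArithmeticFunction.add_apply, sub_ap, ArithmeticFunction.add_apply, sum_ap, sum_ap]
    simp only [mul_ap]
    have s1 : ∑ d ∈ n.divisors, op Z P (af (mu1 W W)) d * af (fun _ => 1) (n / d) =
        ∑ m ∈ n.divisors, op Z P (af (mu1 W W)) m := sum_congr rfl fun d hd' => by
      rw [af_apply (hd d hd').2, mul_one]
    have s2 : ∑ j ∈ range J, ∑ d ∈ n.divisors, af (a2 W W g j) d * op Z P (af (b2 W g j)) (n / d) =
        ∑ j ∈ range J, ∑ m ∈ n.divisors, a2 W W g j m * op Z P (af (b2 W g j)) (n / m) :=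
      sum_congr rfl fun j _ => sum_congr rfl fun d hd' => by rw [af_apply (hd d hd').1]
    have s3 : ∑ j ∈ range J, ∑ d ∈ n.divisors, af (a1 W Z g j) d * op Z P (af (b1 g j)) (n / d) =
        ∑ j ∈ range J, ∑ m ∈ n.divisors, a1 W Z g j m * op Z P (af (b1 g j)) (n / m) :=
      sum_congr rfl fun j _ => sum_congr rfl fun d hd' => by rw [af_apply (hd d hd').1]
    rw [s1, s2, s3]
  have e2 : ∑ j ∈ range J ×ˢ range 4, ∑ m ∈ n.divisors, aI W Z g j m * bI W Z P g j (n / m) =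
      (Real.log n : ℂ) * ∑ j ∈ range J, ∑ m ∈ n.divisors, a2 W W g j m * op Z P (af (b2 W g j)) (n / m) -
      (Real.log n : ℂ) * ∑ j ∈ range J, ∑ m ∈ n.divisors, a1 W Z g j m * op Z P (af (b1 g j)) (n / m) := by
    rw [sum_product, mul_sum, mul_sum, ← sum_sub_distrib]
    refine sum_congr rfl fun j _ => ?_
    rw [log_conv _ _ hn, log_conv _ _ hn]
    have q0 : ∑ m ∈ n.divisors, aI W Z g (j, 0) m * bI W Z P g (j, 0) (n / m) =
        ∑ m ∈ n.divisors, (Real.log m * a2 W W g j m) * op Z P (af (b2 W g j)) (n / m) :=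
      sum_congr rfl fun m _ => by simp only [aI, bI, if_true]
    have q1 : ∑ m ∈ n.divisors, aI W Z g (j, 1) m * bI W Z P g (j, 1) (n / m) =
        ∑ m ∈ n.divisors, a2 W W g j m * (Real.log ((n / m : ℕ) : ℝ) * op Z P (af (b2 W g j)) (n / m)) :=
      sum_congr rfl fun m _ => by simp only [aI, bI, if_true, one_ne_zero, if_false]
    have q2 : ∑ m ∈ n.divisors, aI W Z g (j, 2) m * bI W Z P g (j, 2) (n / m) =
        -∑ m ∈ n.divisors, (Real.log m * a1 W Z g j m) * op Z P (af (b1 g j)) (n / m) := by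
      rw [← sum_neg_distrib]
      refine sum_congr rfl fun m _ => ?_
      unfold aI bI
      rw [if_neg (by norm_num), if_neg (by norm_num), if_pos rfl, if_neg (by norm_num), if_neg (by norm_num),
        if_pos rfl]
      ring
    have q3 : ∑ m ∈ n.divisors, aI W Z g (j, 3) m * bI W Z P g (j, 3) (n / m) =
        -∑ m ∈ n.divisors, a1 W Z g j m * (Real.log ((n / m : ℕ) : ℝ) * op Z P (af (b1 g j)) (n / m)) := by
      rw [← sum_neg_distrib]
      refine sum_congr rfl fun m _ => ?_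
      unfold aI bI
      rw [if_neg (by norm_num), if_neg (by norm_num), if_neg (by norm_num), if_neg (by norm_num),
        if_neg (by norm_num), if_neg (by norm_num)]
      ring
    rw [sum_range_succ, sum_range_succ, sum_range_succ, sum_range_succ, sum_range_zero, zero_add, q0, q1, q2, q3]
    ring
  rw [e2, e1]
  ring

theorem dec_ex (k : ℕ) (hk : 12 ≤ k) (A : ℕ) : ∃ N₀ : ℕ, ∀ N : ℕ, N₀ ≤ N →
    ∃ (c : ℕ → ℂ) (a b : ℕ × ℕ → ℕ → ℂ) (R : ℕ → ℂ),
      Dec N (range (JJ N (A + 14)) ×ˢ range 4) (Pk k N * Wk k N) (Wk k N) (Zk k N) (2 * Real.log N)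
        (N / Real.log N ^ A) c a b R := by
  classical
  obtain ⟨N₀, hN₀⟩ := Filter.eventually_atTop.1 (ev_log (A + 7) (s := 1 / 4) (by norm_num) 20000000)
  refine ⟨max N₀ 64, fun N hN => ?_⟩
  have hN64 : 64 ≤ N := le_trans (le_max_right _ _) hN
  have hN1 : 1 ≤ N := by omega
  have hN0 : (0 : ℝ) < N := by exact_mod_cast hN1
  have hNr1 : (1 : ℝ) ≤ N := by exact_mod_cast hN1
  obtain ⟨hL, hLp⟩ := hN₀ N (le_trans (le_max_left _ _) hN)
  have hcube := Zk_cube (k := k) hN1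
  obtain ⟨g, hg⟩ : ∃ g, g = cc N (A + 14) := ⟨_, rfl⟩
  have hL0 : 0 < Real.log N := by linarith
  have h1 : ∀ m : ℕ, (m.Prime ∧ Wk k N < m ∧ m ≤ Zk k N) → g m < JJ N (A + 14) := by
    intro m hm
    rw [hg]
    exact cc_lt hm.1.one_le (hm.2.2.trans (Zk_le hk hN1)) hL0
  have h2 : ∀ m : ℕ, (Sm (Wk k N) m ∧ Wk k N < m ∧ m / pmx m ≤ Wk k N) → g (pmx m) < JJ N (A + 14) := by
    intro m hm
    rw [hg]
    have h2 := sm_le (one_le_Wk hN1) hm.1 hm.2.1 hm.2.2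
    exact cc_lt (by omega) (h2.1.trans ((Wk_le hN1).trans (Zk_le hk hN1))) hL0
  have hP1 : 1 ≤ Pk k N := (one_le_Wk (k := k) hN1).trans ((Wk_le hN1).trans (Zk_le_Pk hk hN64))
  have hnl : ∀ m : ℕ, ‖((Real.log m : ℝ) : ℂ)‖ = Real.log m := by
    intro m
    rw [Complex.norm_real, Real.norm_of_nonneg (Real.log_natCast_nonneg m)]
  obtain ⟨R, hR⟩ : ∃ R : ℕ → ℂ, R = fun n => (LA n - Real.log n * (if n.Prime then 1 else 0)) +
      (-(Real.log n * (F1 (Zk k N) (Pk k N) n - (if n.Prime then 1 else 0)))) +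
      Real.log n * op (Zk k N) (Pk k N) (af (fun n => ((er (Wk k N) (Zk k N) (Wk k N) g n : ℝ) : ℂ))) n := ⟨_, rfl⟩
  refine ⟨fun m => op (Zk k N) (Pk k N) (af (mu1 (Wk k N) (Wk k N))) m, aI (Wk k N) (Zk k N) g,
    bI (Wk k N) (Zk k N) (Pk k N) g, R, ?_, ?_, ?_, ?_, ?_, ?_, ?_⟩
  · intro m hm
    exact opb hN1 (mu1_le _ _) hm
  · intro m _ h
    exact mu1_supp hP1 h
  · intro j m h
    unfold aI at h
    split_ifs at h
    · exact a2_supp' hk hN1 (right_ne_zero_of_mul h)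
    · exact a2_supp' hk hN1 h
    · exact a1_supp' (right_ne_zero_of_mul (neg_ne_zero.1 h))
    · exact a1_supp' (neg_ne_zero.1 h)
  · intro j m hm
    obtain ⟨l0, l1⟩ := log_le_nat hm
    have k1 := a2_le (Wk k N) (Wk k N) g j.1 m
    have k2 := a1_le (Wk k N) (Zk k N) g j.1 m
    unfold aI
    split_ifs
    · rw [norm_mul, hnl]
      nlinarith [norm_nonneg (a2 (Wk k N) (Wk k N) g j.1 m)]
    · linarith
    · rw [norm_neg, norm_mul, hnl]
      nlinarith [norm_nonneg (a1 (Wk k N) (Zk k N) g j.1 m)]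
    · rw [norm_neg]
      linarith
  · intro j m hm
    obtain ⟨l0, l1⟩ := log_le_nat hm
    have k1 := opb (k := k) hN1 (b2_le (Wk k N) g j.1) hm
    have k2 := opb (k := k) hN1 (b1_le g j.1) hm
    unfold bI
    split_ifs
    · linarith
    · rw [norm_mul, hnl]
      nlinarith [norm_nonneg (op (Zk k N) (Pk k N) (af (b2 (Wk k N) g j.1)) m)]
    · linarith
    · rw [norm_mul, hnl]
      nlinarith [norm_nonneg (op (Zk k N) (Pk k N) (af (b1 g j.1)) m)]
  · -- the error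
    obtain ⟨L, hLd⟩ : ∃ L, L = Real.log (N : ℝ) := ⟨_, rfl⟩
    have hpp : ∑ n ∈ Icc 1 N, ‖LA n - Real.log n * (if n.Prime then 1 else 0)‖ ^ 2 ≤ L * (2 * Real.sqrt N * L) := by
      have k1 := Chebyshev.psi_sub_theta_le hNr1
      rw [Chebyshev.psi_sub_theta_eq_sum_not_prime, Nat.floor_natCast] at k1
      have k2 : ∑ n ∈ Icc 1 N, ‖LA n - Real.log n * (if n.Prime then 1 else 0)‖ ^ 2 ≤
          Real.log N * ∑ n ∈ (Ioc 0 N).filter (fun n => ¬ n.Prime), ArithmeticFunction.vonMangoldt n := by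
        rw [mul_sum, sum_filter]
        have e0 : Icc 1 N ⊆ Ioc 0 N := by
          intro n hn
          rw [mem_Icc] at hn
          rw [mem_Ioc]
          omega
        refine le_trans (sum_le_sum_of_subset_of_nonneg e0 fun _ _ _ => sq_nonneg _) (sum_le_sum fun n hn => ?_)
        rw [mem_Ioc] at hn
        unfold LA
        by_cases hp : n.Prime
        · rw [if_pos hp, if_neg (by simpa using hp), ArithmeticFunction.vonMangoldt_apply_prime hp]
          simp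
        · rw [if_neg hp, if_pos hp, mul_zero, sub_zero]
          rw [Complex.norm_real, Real.norm_eq_abs, abs_of_nonneg ArithmeticFunction.vonMangoldt_nonneg, sq]
          exact mul_le_mul_of_nonneg_right (vm_le' hn.1 hn.2) ArithmeticFunction.vonMangoldt_nonneg
      rw [hLd]
      refine k2.trans (mul_le_mul_of_nonneg_left k1 hL0.le)
    have hlog : ∀ n ∈ Icc 1 N, ∀ z : ℂ, ‖(Real.log n : ℂ) * z‖ ^ 2 ≤ L ^ 2 * ‖z‖ ^ 2 := by
      intro n hn z
      obtain ⟨l0, l1⟩ := log_le_nat hn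
      rw [norm_mul, hnl, mul_pow]
      rw [← hLd] at l1
      gcongr
    have hF : ∑ n ∈ Icc 1 N, ‖(Real.log n : ℂ) * (F1 (Zk k N) (Pk k N) n - (if n.Prime then 1 else 0))‖ ^ 2 ≤
        L ^ 2 * (18 * (N : ℝ) ^ (2 / 3 : ℝ)) := by
      have e1 := F1_sq (Z := Zk k N) (P := Pk k N) (N := N) rfl (Zk_le_Pk hk hN64) le_rfl hcube
      have e2 : 9 * ((Pk k N : ℝ) + Nat.sqrt N) ≤ 18 * (N : ℝ) ^ (2 / 3 : ℝ) := by
        have h2 : (Pk k N : ℝ) ≤ (N : ℝ) ^ (2 / 3 : ℝ) := (Pk_real hN1).trans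
          (Real.rpow_le_rpow_of_exponent_le hNr1 (by have := (inv_k hk).1; linarith))
        have h3 := sqrt_real hN1
        linarith
      refine (sum_le_sum fun n hn => hlog n hn _).trans ?_
      rw [← mul_sum]
      exact mul_le_mul_of_nonneg_left (e1.trans e2) (sq_nonneg _)
    have hE : ∑ n ∈ Icc 1 N, ‖(Real.log n : ℂ) * op (Zk k N) (Pk k N)
        (af (fun n => ((er (Wk k N) (Zk k N) (Wk k N) g n : ℝ) : ℂ))) n‖ ^ 2 ≤
        L ^ 2 * (4 * (64 * (L ^ (A + 14))⁻¹ * N * (1 + L) ^ 5)) := by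
      refine (sum_le_sum fun n hn => hlog n hn _).trans ?_
      rw [← mul_sum]
      apply mul_le_mul_of_nonneg_left _ (sq_nonneg _)
      have k1 := tw_sum (δ := (Real.log N ^ (A + 14))⁻¹) (by positivity) N
      rw [← hLd] at k1
      refine le_trans ?_ (mul_le_mul_of_nonneg_left k1 (by norm_num))
      rw [mul_sum]
      refine sum_le_sum fun n hn => ?_
      rw [mem_Icc] at hn
      have k2 := er_op (P := Pk k N) (Wk_le (k := k) hN1) (one_le_Wk (k := k) hN1) hn.1 hn.2 hcube g (fun a b ha hab => by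
        rw [hg]
        exact ci_mono (by positivity) a b ha hab)
      refine (pow_le_pow_left₀ (norm_nonneg _) k2 2).trans (le_of_eq ?_)
      rw [mul_pow, hg, hLd]
      norm_num
      rfl
    have hsum : ∑ n ∈ Icc 1 N, ‖R n‖ ^ 2 ≤ 3 * (L * (2 * Real.sqrt N * L) + L ^ 2 * (18 * (N : ℝ) ^ (2 / 3 : ℝ)) +
        L ^ 2 * (4 * (64 * (L ^ (A + 14))⁻¹ * N * (1 + L) ^ 5))) := by
      have k1 : ∀ n ∈ Icc 1 N, ‖R n‖ ^ 2 ≤ 3 * (‖LA n - Real.log n * (if n.Prime then 1 else 0)‖ ^ 2 +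
          ‖(Real.log n : ℂ) * (F1 (Zk k N) (Pk k N) n - (if n.Prime then 1 else 0))‖ ^ 2 +
          ‖(Real.log n : ℂ) * op (Zk k N) (Pk k N)
            (af (fun n => ((er (Wk k N) (Zk k N) (Wk k N) g n : ℝ) : ℂ))) n‖ ^ 2) := by
        intro n _
        rw [hR]
        obtain ⟨x, hx⟩ : ∃ x, x = LA n - Real.log n * (if n.Prime then 1 else 0) := ⟨_, rfl⟩
        obtain ⟨y, hy⟩ : ∃ y, y = (Real.log n : ℂ) * (F1 (Zk k N) (Pk k N) n - (if n.Prime then 1 else 0)) := ⟨_, rfl⟩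
        obtain ⟨z, hz⟩ : ∃ z, z = (Real.log n : ℂ) * op (Zk k N) (Pk k N)
            (af (fun n => ((er (Wk k N) (Zk k N) (Wk k N) g n : ℝ) : ℂ))) n := ⟨_, rfl⟩
        simp only [← hx, ← hy, ← hz]
        have h3 : ‖x + -y + z‖ ≤ ‖x‖ + ‖y‖ + ‖z‖ := by
          refine (norm_add_le _ _).trans (add_le_add ?_ le_rfl)
          refine (norm_add_le _ _).trans (le_of_eq ?_)
          rw [norm_neg]
        refine (pow_le_pow_left₀ (norm_nonneg _) h3 2).trans ?_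
        nlinarith [sq_nonneg (‖x‖ - ‖y‖), sq_nonneg (‖y‖ - ‖z‖), sq_nonneg (‖x‖ - ‖z‖)]
      refine (sum_le_sum k1).trans ?_
      rw [← mul_sum, sum_add_distrib, sum_add_distrib]
      gcongr
    refine hsum.trans ?_
    rw [← hLd] at hL hLp ⊢
    have hL0 : 0 < L := by linarith
    have hsq : Real.sqrt N ≤ (N : ℝ) ^ (2 / 3 : ℝ) := by
      rw [Real.sqrt_eq_rpow]
      exact Real.rpow_le_rpow_of_exponent_le hNr1 (by norm_num)
    have hpow : (N : ℝ) ^ (2 / 3 : ℝ) * (N : ℝ) ^ (1 / 4 : ℝ) ≤ N := by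
      rw [← Real.rpow_add hN0]
      calc (N : ℝ) ^ (2 / 3 + 1 / 4 : ℝ) ≤ (N : ℝ) ^ (1 : ℝ) := Real.rpow_le_rpow_of_exponent_le hNr1 (by norm_num)
        _ = N := Real.rpow_one _
    have t1 : 3 * (L * (2 * Real.sqrt N * L) + L ^ 2 * (18 * (N : ℝ) ^ (2 / 3 : ℝ))) ≤ (N : ℝ) / L ^ A / 2 := by
      rw [le_div_iff₀ (by norm_num), le_div_iff₀ (by positivity)]
      calc 3 * (L * (2 * Real.sqrt N * L) + L ^ 2 * (18 * (N : ℝ) ^ (2 / 3 : ℝ))) * 2 * L ^ A
          ≤ 3 * (L * (2 * (N : ℝ) ^ (2 / 3 : ℝ) * L) + L ^ 2 * (18 * (N : ℝ) ^ (2 / 3 : ℝ))) * 2 * L ^ A := by gcongr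
        _ = 120 * ((N : ℝ) ^ (2 / 3 : ℝ) * L ^ (A + 2)) := by ring
        _ ≤ L * ((N : ℝ) ^ (2 / 3 : ℝ) * L ^ (A + 2)) := by gcongr; linarith
        _ = (N : ℝ) ^ (2 / 3 : ℝ) * L ^ (A + 3) := by ring
        _ ≤ (N : ℝ) ^ (2 / 3 : ℝ) * L ^ (A + 7) := by gcongr <;> linarith
        _ ≤ (N : ℝ) ^ (2 / 3 : ℝ) * (N : ℝ) ^ (1 / 4 : ℝ) := by gcongr
        _ ≤ N := hpow
    have t2 : 3 * (L ^ 2 * (4 * (64 * (L ^ (A + 14))⁻¹ * N * (1 + L) ^ 5))) ≤ (N : ℝ) / L ^ A / 2 := by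
      calc 3 * (L ^ 2 * (4 * (64 * (L ^ (A + 14))⁻¹ * N * (1 + L) ^ 5)))
          ≤ 3 * (L ^ 2 * (4 * (64 * (L ^ (A + 14))⁻¹ * N * (2 * L) ^ 5))) := by
            gcongr
            linarith
        _ = (N : ℝ) / L ^ A / 2 * (49152 / L ^ 7) := by
            rw [pow_add L A 14]
            field_simp
            ring
        _ ≤ (N : ℝ) / L ^ A / 2 * 1 := by
            have : 49152 / L ^ 7 ≤ 1 := by
              rw [div_le_one (by positivity)]
              calc (49152 : ℝ) ≤ L := by linarith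
                _ = L ^ 1 := (pow_one L).symm
                _ ≤ L ^ 7 := pow_le_pow_right₀ (by linarith) (by norm_num)
            gcongr
        _ = _ := mul_one _
    have e3 : 3 * (L * (2 * Real.sqrt N * L) + L ^ 2 * (18 * (N : ℝ) ^ (2 / 3 : ℝ)) +
        L ^ 2 * (4 * (64 * (L ^ (A + 14))⁻¹ * N * (1 + L) ^ 5))) =
        3 * (L * (2 * Real.sqrt N * L) + L ^ 2 * (18 * (N : ℝ) ^ (2 / 3 : ℝ))) +
        3 * (L ^ 2 * (4 * (64 * (L ^ (A + 14))⁻¹ * N * (1 + L) ^ 5))) := by ring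
    rw [e3]
    linarith
  · intro n hn
    rw [mem_Icc] at hn
    have k1 := F1_id (P := Pk k N) g h1 h2 hn.1
    rw [hR]
    simp only
    linear_combination k1

end Pool.Agent.KS6_25.SH
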