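import Pool.Agent.KS6_25.SH.C1
import Pool.Graph.R_seed8.R460.GH.Asm

set_option autoImplicit false

/-!
# The parts of the decomposition at one frequency
-/

namespace Pool.Agent.KS6_25.SH

open Finset
open Pool.Agent.R460.GS (dirV abelIBV)
open Pool.Agent.R460.GH (GG0)
open Pool.Agent.Y883.GJ (LA LS FF LshStm)
open Pool.Agent.H807R2.Dav (ee KK KK_nonneg norm_ee ee_add ee_zero)
open Pool.Agent.H373R2.T7 (Vz)
open Pool.Agent.Y883.T3 (lsh)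

lemma geo_icc {N m y : ℕ} (hm : 1 ≤ m) (hy : y ≤ N / m) (γ : ℝ) :
    ‖∑ b ∈ Icc 1 y, ee ((b : ℝ) * (m * γ))‖ ≤ KK ((N : ℝ) / m) (m * γ) := by
  have hm0 : (0 : ℝ) < m := by exact_mod_cast hm
  have e6 : Icc 1 y = Ico 1 (y + 1) := by
    ext b; simp only [mem_Icc, mem_Ico]; omega
  rw [e6]
  apply Pool.Agent.H807R2.Dav.geo_bound 1 (y + 1) (Nat.le_add_left 1 _)
  push_cast
  have h1 : (y : ℝ) ≤ ((N / m : ℕ) : ℝ) := by exact_mod_cast hy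
  have h2 : ((N / m : ℕ) : ℝ) ≤ (N : ℝ) / m := Nat.cast_div_le
  linarith

lemma GG0_eq (N M : ℕ) (γ : ℝ) : GG0 1 N M γ = ∑ m ∈ Icc 1 M, KK ((N : ℝ) / m) (m * γ) := by
  unfold GG0
  rw [filter_true_of_mem fun m _ => Nat.coprime_one_right m]

/-- sums with a logarithmic weight -/
lemma log_geo {N m : ℕ} (hN : 1 ≤ N) (hm : 1 ≤ m) (hmN : m ≤ N) (γ : ℝ) :
    ‖∑ k ∈ Icc 1 (N / m), (Real.log ((m * k : ℕ) : ℝ) : ℂ) • ee ((k : ℝ) * (m * γ))‖ ≤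
      KK ((N : ℝ) / m) (m * γ) * (2 * Real.log N) := by
  have hL0 := Real.log_natCast_nonneg N
  have h := abelIBV (V := ℂ) (fun k => ee ((k : ℝ) * (m * γ))) (fun k => ((Real.log ((m * k : ℕ) : ℝ) : ℝ) : ℂ))
    (KK ((N : ℝ) / m) (m * γ)) (Real.log N) (Real.log N) (N / m) (fun y hy => geo_icc hm hy γ)
    (fun k hk => by
      rw [mem_Icc] at hk
      rw [Complex.norm_real, Real.norm_of_nonneg (Real.log_natCast_nonneg _)]
      apply Real.log_le_log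
      · exact_mod_cast Nat.mul_pos hm hk.1
      · exact_mod_cast (Nat.mul_le_mul_left m hk.2).trans (Nat.mul_div_le N m)) (by
      have e1 : ∀ i ∈ range (N / m), ‖((Real.log ((m * (i + 1) : ℕ) : ℝ) : ℝ) : ℂ) - ((Real.log ((m * i : ℕ) : ℝ) : ℝ) : ℂ)‖ =
          Real.log ((m * (i + 1) : ℕ) : ℝ) - Real.log ((m * i : ℕ) : ℝ) := by
        intro i _
        rw [← Complex.ofReal_sub, Complex.norm_real, Real.norm_eq_abs, abs_of_nonneg]
        rw [sub_nonneg]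
        rcases Nat.eq_zero_or_pos i with h0 | h0
        · subst h0
          simp only [mul_zero, Nat.cast_zero, Real.log_zero]
          exact Real.log_natCast_nonneg _
        · apply Real.log_le_log
          · exact_mod_cast Nat.mul_pos hm h0
          · exact_mod_cast Nat.mul_le_mul_left m (Nat.le_succ i)
      rw [sum_congr rfl e1, sum_range_sub (fun i : ℕ => Real.log ((m * i : ℕ) : ℝ))]
      simp only [mul_zero, Nat.cast_zero, Real.log_zero, sub_zero]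
      apply Real.log_le_log
      · have : 0 < N / m := Nat.div_pos hmN hm
        exact_mod_cast Nat.mul_pos hm this
      · exact_mod_cast Nat.mul_div_le N m) hL0
  refine h.trans (le_of_eq ?_)
  ring

/-- the sum of type I -/
lemma t1_pt {N M₀ : ℕ} (hN : 1 ≤ N) {c : ℕ → ℂ} (hc : ∀ m ∈ Icc 1 N, ‖c m‖ ≤ 2)
    (hc0 : ∀ m, 1 ≤ m → c m ≠ 0 → m ≤ M₀) (γ : ℝ) :
    ‖cf N (fun n => Real.log n * ∑ m ∈ n.divisors, c m) γ‖ ≤ 4 * Real.log N * GG0 1 N M₀ γ := by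
  classical
  have hL0 := Real.log_natCast_nonneg N
  have e1 : cf N (fun n => Real.log n * ∑ m ∈ n.divisors, c m) γ =
      ∑ m ∈ Icc 1 N, c m * ∑ k ∈ Icc 1 (N / m), (Real.log ((m * k : ℕ) : ℝ) : ℂ) • ee ((k : ℝ) * (m * γ)) := by
    unfold cf
    have h1 : ∀ n ∈ Icc 1 N, ((Real.log n : ℂ) * ∑ m ∈ n.divisors, c m) * ee (n * γ) =
        ∑ m ∈ n.divisors, c m * ((Real.log ((m * (n / m) : ℕ) : ℝ) : ℂ) * ee (((m * (n / m) : ℕ) : ℝ) * γ)) := by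
      intro n _
      rw [mul_assoc, mul_comm (Real.log n : ℂ), mul_assoc, sum_mul]
      refine sum_congr rfl fun m hm => ?_
      rw [Nat.mul_div_cancel' (Nat.dvd_of_mem_divisors hm)]
      ring
    rw [sum_congr rfl h1, dirV N (fun m k => c m * ((Real.log ((m * k : ℕ) : ℝ) : ℂ) * ee (((m * k : ℕ) : ℝ) * γ)))]
    refine sum_congr rfl fun m _ => ?_
    rw [mul_sum]
    refine sum_congr rfl fun k _ => ?_
    rw [smul_eq_mul]
    congr 3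
    push_cast
    ring
  rw [e1, GG0_eq]
  refine (norm_sum_le _ _).trans ?_
  have h2 : ∀ m ∈ Icc 1 N, ‖c m * ∑ k ∈ Icc 1 (N / m), (Real.log ((m * k : ℕ) : ℝ) : ℂ) • ee ((k : ℝ) * (m * γ))‖ ≤
      if m ≤ M₀ then 4 * Real.log N * KK ((N : ℝ) / m) (m * γ) else 0 := by
    intro m hm
    have hm' := mem_Icc.1 hm
    split_ifs with hmM
    · rw [norm_mul]
      have h3 := log_geo hN hm'.1 hm'.2 γ
      have h4 := KK_nonneg (M := (N : ℝ) / m) (by positivity) (m * γ)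
      calc ‖c m‖ * ‖∑ k ∈ Icc 1 (N / m), (Real.log ((m * k : ℕ) : ℝ) : ℂ) • ee ((k : ℝ) * (m * γ))‖
          ≤ 2 * (KK ((N : ℝ) / m) (m * γ) * (2 * Real.log N)) :=
            mul_le_mul (hc m hm) h3 (norm_nonneg _) (by norm_num)
        _ = _ := by ring
    · have : c m = 0 := by
        by_contra h
        exact hmM (hc0 m hm'.1 h)
      rw [this, zero_mul, norm_zero]
  refine (sum_le_sum h2).trans ?_
  rw [← sum_filter, mul_sum]
  apply sum_le_sum_of_subset_of_nonneg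
  · intro m hm
    rw [mem_filter, mem_Icc] at hm
    rw [mem_Icc]
    exact ⟨hm.1.1, hm.2⟩
  · intro m _ _
    have := KK_nonneg (M := (N : ℝ) / m) (by positivity) (m * γ)
    positivity

/-- the sieve model -/
lemma ls_pt {N z r : ℕ} (hD : (z + 1) ^ r ≤ N) (γ : ℝ) :
    ‖cf N (LS z r) γ‖ ≤ (Vz z)⁻¹ * GG0 1 N ((z + 1) ^ r) γ := by
  have h := Pool.Agent.Y812.GJ.lsh_le ℂ (fun n => ee ((n : ℝ) * γ)) N z r
    (fun d => KK ((N : ℝ) / d) (d * γ)) (fun d hd => by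
      rw [mem_Icc] at hd
      have h1 := geo_icc (N := N) (m := d) (y := N / d) hd.1 le_rfl γ
      refine le_trans (le_of_eq ?_) h1
      congr 1
      refine sum_congr rfl fun b _ => ?_
      congr 1
      push_cast
      ring)
  rw [GG0_eq]
  refine le_trans (le_of_eq ?_) h
  unfold cf
  congr 1

/-- the sum of type II -/
noncomputable def T2 (I : Finset (ℕ × ℕ)) (a b : ℕ × ℕ → ℕ → ℂ) (n : ℕ) : ℂ :=
  ∑ j ∈ I, ∑ m ∈ n.divisors, a j m * b j (n / m)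

lemma cf_add (N : ℕ) (F G : ℕ → ℂ) (γ : ℝ) : cf N (fun n => F n + G n) γ = cf N F γ + cf N G γ := by
  unfold cf
  rw [← sum_add_distrib]
  exact sum_congr rfl fun n _ => by ring

lemma cf_sub (N : ℕ) (F G : ℕ → ℂ) (γ : ℝ) : cf N (fun n => F n - G n) γ = cf N F γ - cf N G γ := by
  unfold cf
  rw [← sum_sub_distrib]
  exact sum_congr rfl fun n _ => by ring

lemma cf_congr {N : ℕ} {F G : ℕ → ℂ} (h : ∀ n ∈ Icc 1 N, F n = G n) (γ : ℝ) : cf N F γ = cf N G γ := by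
  unfold cf
  exact sum_congr rfl fun n hn => by rw [h n hn]

/-- the frequencies -/
noncomputable def gam (N : ℕ) (α : ℝ) (s : ℕ) : ℝ := α + (s : ℝ) / ((2 * N + 1 : ℕ) : ℝ)

/-- all parts together -/
theorem all_parts {N N₃ M₀ W Z z r R₀ : ℕ} {I : Finset (ℕ × ℕ)} {P X : ℝ} {c : ℕ → ℂ} {a b : ℕ × ℕ → ℕ → ℂ} {R : ℕ → ℂ}
    (hN : 1 ≤ N) (hNN : N ≤ N₃) (hD : Dec N₃ I M₀ W Z P X c a b R) (hz : (z + 1) ^ r ≤ N) (hV : (Vz z)⁻¹ ≤ Real.log N)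
    (hR₀ : R₀ ≤ 2 * N + 1) (α : ℝ) (S : Finset ℕ) (hS : S ⊆ range R₀) :
    ∑ s ∈ S, ‖cf N (FF z r) (gam N α s)‖ ^ 2 ≤ 64 * Real.log N ^ 2 * ∑ s ∈ S, GG0 1 N M₀ (gam N α s) ^ 2 +
      4 * Real.log N ^ 2 * ∑ s ∈ S, GG0 1 N ((z + 1) ^ r) (gam N α s) ^ 2 +
      4 * ∑ s ∈ S, ‖cf N (T2 I a b) (gam N α s)‖ ^ 2 + 4 * ((2 * N + 1 : ℕ) * X) := by
  have hsub : Icc 1 N ⊆ Icc 1 N₃ := Icc_subset_Icc le_rfl hNN
  have hid : ∀ γ, cf N (FF z r) γ = cf N (fun n => Real.log n * ∑ m ∈ n.divisors, c m) γ + cf N (T2 I a b) γ +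
      cf N R γ - cf N (LS z r) γ := by
    intro γ
    rw [← cf_add, ← cf_add, ← cf_sub]
    apply cf_congr
    intro n hn
    have h1 := hD.hid n (hsub hn)
    have h2 : FF z r n = LA n - LS z r n := congrFun (Pool.Agent.R460.GH.FF_eq z r) n
    rw [h2, h1]
    rfl
  have hL0 := Real.log_natCast_nonneg N
  have h4 : ∀ s ∈ S, ‖cf N (FF z r) (gam N α s)‖ ^ 2 ≤ 64 * Real.log N ^ 2 * GG0 1 N M₀ (gam N α s) ^ 2 +
      4 * Real.log N ^ 2 * GG0 1 N ((z + 1) ^ r) (gam N α s) ^ 2 + 4 * ‖cf N (T2 I a b) (gam N α s)‖ ^ 2 +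
      4 * ‖cf N R (gam N α s)‖ ^ 2 := by
    intro s _
    obtain ⟨γ, hγ⟩ : ∃ γ, γ = gam N α s := ⟨_, rfl⟩
    rw [← hγ, hid]
    have k1 := t1_pt hN (c := c) (fun m hm => hD.hc m (hsub hm)) (fun m hm h => hD.hc0 m hm h) γ
    have k2 := ls_pt (r := r) hz γ
    have hG0 : 0 ≤ GG0 1 N ((z + 1) ^ r) γ := by
      rw [GG0_eq]
      exact sum_nonneg fun m _ => KK_nonneg (by positivity) _
    have k3 : ‖cf N (LS z r) γ‖ ≤ Real.log N * GG0 1 N ((z + 1) ^ r) γ :=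
      k2.trans (mul_le_mul_of_nonneg_right hV hG0)
    obtain ⟨x, hx⟩ : ∃ x, x = cf N (fun n => Real.log n * ∑ m ∈ n.divisors, c m) γ := ⟨_, rfl⟩
    obtain ⟨y, hy⟩ : ∃ y, y = cf N (T2 I a b) γ := ⟨_, rfl⟩
    obtain ⟨w, hw⟩ : ∃ w, w = cf N R γ := ⟨_, rfl⟩
    obtain ⟨v, hv⟩ : ∃ v, v = cf N (LS z r) γ := ⟨_, rfl⟩
    rw [← hx] at k1
    rw [← hv] at k3
    rw [← hx, ← hy, ← hw, ← hv]
    have h5 : ‖x + y + w - v‖ ≤ ‖x‖ + ‖y‖ + ‖w‖ + ‖v‖ := by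
      refine (norm_sub_le _ _).trans (add_le_add ?_ le_rfl)
      refine (norm_add_le _ _).trans (add_le_add ?_ le_rfl)
      exact norm_add_le _ _
    have h6 := pow_le_pow_left₀ (norm_nonneg _) h5 2
    have h7 := pow_le_pow_left₀ (norm_nonneg _) k1 2
    have h8 := pow_le_pow_left₀ (norm_nonneg _) k3 2
    rw [mul_pow, mul_pow] at h7
    rw [mul_pow] at h8
    have h9 : (‖x‖ + ‖y‖ + ‖w‖ + ‖v‖) ^ 2 ≤ 4 * (‖x‖ ^ 2 + ‖y‖ ^ 2 + ‖w‖ ^ 2 + ‖v‖ ^ 2) := by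
      nlinarith [sq_nonneg (‖x‖ - ‖y‖), sq_nonneg (‖x‖ - ‖w‖), sq_nonneg (‖x‖ - ‖v‖), sq_nonneg (‖y‖ - ‖w‖),
        sq_nonneg (‖y‖ - ‖v‖), sq_nonneg (‖w‖ - ‖v‖)]
    nlinarith
  refine (sum_le_sum h4).trans ?_
  rw [sum_add_distrib, sum_add_distrib, sum_add_distrib, ← mul_sum, ← mul_sum, ← mul_sum, ← mul_sum]
  have h5 : ∑ s ∈ S, ‖cf N R (gam N α s)‖ ^ 2 ≤ (2 * N + 1 : ℕ) * X := by
    refine (sum_le_sum_of_subset_of_nonneg hS fun _ _ _ => sq_nonneg _).trans ?_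
    refine (pars_le R α hR₀).trans ?_
    apply mul_le_mul_of_nonneg_left _ (Nat.cast_nonneg _)
    exact (sum_le_sum_of_subset_of_nonneg hsub fun _ _ _ => sq_nonneg _).trans hD.hR
  linarith

end Pool.Agent.KS6_25.SH
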