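import Pool.Agent.KS6_25.SH.C2

set_option autoImplicit false

/-!
# Sums of type II in short intervals: minor arcs
-/

namespace Pool.Agent.KS6_25.SH

open Finset
open Pool.Agent.R460.GS (dirV)
open Pool.Agent.H807R2.Dav (ee KK KK_nonneg KK_neg norm_ee ee_add ee_zero geo_bound vino)

/-- sums over sets of consecutive integers -/
lemma geo_conv {M : ℕ} (s : Finset ℕ) (hs : ∀ m ∈ s, M < m ∧ m ≤ 2 * M)
    (hc : ∀ a ∈ s, ∀ b ∈ s, ∀ m, a ≤ m → m ≤ b → m ∈ s) (θ : ℝ) : ‖∑ m ∈ s, ee ((m : ℝ) * θ)‖ ≤ KK M θ := by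
  classical
  rcases s.eq_empty_or_nonempty with h0 | h0
  · rw [h0, sum_empty, norm_zero]
    exact KK_nonneg (Nat.cast_nonneg _) _
  · obtain ⟨a, ha⟩ : ∃ a, a = s.min' h0 := ⟨_, rfl⟩
    obtain ⟨b, hb⟩ : ∃ b, b = s.max' h0 := ⟨_, rfl⟩
    have has : a ∈ s := ha ▸ min'_mem s h0
    have hbs : b ∈ s := hb ▸ max'_mem s h0
    have hab : a ≤ b := by
      rw [ha]
      exact min'_le s b hbs
    have e : s = Ico a (b + 1) := by
      ext m
      rw [mem_Ico]
      constructor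
      · intro hm
        exact ⟨ha ▸ min'_le s m hm, Nat.lt_succ_of_le (hb ▸ le_max' s m hm)⟩
      · rintro ⟨h1, h2⟩
        exact hc a has b hbs m h1 (Nat.lt_succ_iff.1 h2)
    rw [e]
    apply geo_bound a (b + 1) (by omega)
    have h1 := hs a has
    have h2 := hs b hbs
    have h3 : ((b + 1 : ℕ) : ℝ) ≤ a + M := by exact_mod_cast (by omega : b + 1 ≤ a + M)
    linarith

/-- the window of one value of the first variable -/
noncomputable def wm (N H : ℕ) (b : ℕ → ℂ) (α : ℝ) (B m x : ℕ) : ℂ :=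
  ∑ l ∈ Icc 1 B, if m * l ≤ N ∧ m * l ≤ x ∧ x < m * l + H then b l * ee (((m * l : ℕ) : ℝ) * α) else 0

/-- one pair of the second variables -/
lemma pair_le {N H M X : ℕ} (hX : N + H ≤ X) (α : ℝ) (l l' d : ℕ) (hd : l' = l + d) :
    ‖∑ m ∈ Ioc M (2 * M), ∑ x ∈ range X,
      (if (m * l ≤ N ∧ m * l ≤ x ∧ x < m * l + H) ∧ (m * l' ≤ N ∧ m * l' ≤ x ∧ x < m * l' + H)
        then ee (((m * l' : ℕ) : ℝ) * α) * (starRingEnd ℂ) (ee (((m * l : ℕ) : ℝ) * α)) else 0)‖ ≤
      if M * d < H then H * KK M (d * α) else 0 := by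
  classical
  have hKK := KK_nonneg (M := (M : ℝ)) (Nat.cast_nonneg _) (d * α)
  have hee : ∀ m : ℕ, ee (((m * l' : ℕ) : ℝ) * α) * (starRingEnd ℂ) (ee (((m * l : ℕ) : ℝ) * α)) = ee ((m : ℝ) * (d * α)) := by
    intro m
    have h1 : (starRingEnd ℂ) (ee (((m * l : ℕ) : ℝ) * α)) = ee (-(((m * l : ℕ) : ℝ) * α)) := by
      unfold ee
      rw [← Complex.exp_conj]
      congr 1
      simp only [map_mul, Complex.conj_ofReal, Complex.conj_I, Complex.ofReal_neg]
      have : (starRingEnd ℂ) 2 = 2 := Complex.conj_ofReal 2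
      rw [this]
      ring
    rw [h1, ← ee_add, hd]
    congr 1
    push_cast
    ring
  -- count over x
  have hx : ∀ m ∈ Ioc M (2 * M), ∑ x ∈ range X,
      (if (m * l ≤ N ∧ m * l ≤ x ∧ x < m * l + H) ∧ (m * l' ≤ N ∧ m * l' ≤ x ∧ x < m * l' + H)
        then ee (((m * l' : ℕ) : ℝ) * α) * (starRingEnd ℂ) (ee (((m * l : ℕ) : ℝ) * α)) else 0) =
      ∑ t ∈ range H, if m * l' ≤ N ∧ m * d ≤ t then ee ((m : ℝ) * (d * α)) else 0 := by
    intro m _
    rw [hee, ← sum_filter, ← sum_filter, sum_const, sum_const]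
    congr 1
    refine card_bij (fun x _ => x - m * l) ?_ ?_ ?_
    · intro x hx
      rw [mem_filter, mem_range] at hx ⊢
      obtain ⟨h1, ⟨h2, h3, h4⟩, h5, h6, h7⟩ := hx
      have e : m * l' = m * l + m * d := by rw [hd]; ring
      omega
    · intro x hx y hy hxy
      rw [mem_filter, mem_range] at hx hy
      obtain ⟨h1, ⟨h2, h3, h4⟩, h5, h6, h7⟩ := hx
      obtain ⟨k1, ⟨k2, k3, k4⟩, k5, k6, k7⟩ := hy
      omega
    · intro t ht
      rw [mem_filter, mem_range] at ht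
      have e : m * l' = m * l + m * d := by rw [hd]; ring
      refine ⟨m * l + t, ?_, by omega⟩
      rw [mem_filter, mem_range]
      omega
  rw [sum_congr rfl hx, sum_comm]
  by_cases hMd : M * d < H
  · rw [if_pos hMd]
    refine (norm_sum_le _ _).trans ?_
    have h2 : ∀ t ∈ range H, ‖∑ m ∈ Ioc M (2 * M), if m * l' ≤ N ∧ m * d ≤ t then ee ((m : ℝ) * (d * α)) else 0‖ ≤
        KK M (d * α) := by
      intro t _
      rw [← sum_filter]
      apply geo_conv
      · intro m hm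
        rw [mem_filter, mem_Ioc] at hm
        exact hm.1
      · intro a ha b hb m h1 h2
        rw [mem_filter, mem_Ioc] at ha hb ⊢
        refine ⟨⟨by omega, by omega⟩, (Nat.mul_le_mul_right _ h2).trans hb.2.1, (Nat.mul_le_mul_right _ h2).trans hb.2.2⟩
    refine (sum_le_sum h2).trans ?_
    rw [sum_const, card_range, nsmul_eq_mul]
  · rw [if_neg hMd, sum_eq_zero, norm_zero]
    intro t ht
    rw [mem_range] at ht
    apply sum_eq_zero
    intro m hm
    rw [mem_Ioc] at hm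
    rw [if_neg]
    rintro ⟨-, h2⟩
    have : M * d ≤ m * d := Nat.mul_le_mul_right _ hm.1.le
    omega

/-- the sum over all pairs of the second variables -/
lemma wm_sum {N H M X B D : ℕ} (hX : N + H ≤ X) (b : ℕ → ℂ) {P : ℝ} (hP : 0 ≤ P) (hb : ∀ l ∈ Icc 1 B, ‖b l‖ ≤ P)
    (α : ℝ) (hD : ∀ d, M * d < H → d < D) :
    ∑ m ∈ Ioc M (2 * M), ∑ x ∈ range X, ‖wm N H b α B m x‖ ^ 2 ≤
      2 * P ^ 2 * B * H * ∑ d ∈ range D, KK M (d * α) := by
  classical
  obtain ⟨f, hf⟩ : ∃ f : ℕ → ℝ, f = fun d => if M * d < H then H * KK M (d * α) else 0 := ⟨_, rfl⟩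
  have hf0 : ∀ d, 0 ≤ f d := by
    intro d
    rw [hf]
    have := KK_nonneg (M := (M : ℝ)) (Nat.cast_nonneg _) (d * α)
    simp only
    split_ifs <;> positivity
  obtain ⟨g, hg⟩ : ∃ g : ℕ → ℕ → ℕ → ℂ, g = fun m x l =>
    if m * l ≤ N ∧ m * l ≤ x ∧ x < m * l + H then b l * ee (((m * l : ℕ) : ℝ) * α) else 0 := ⟨_, rfl⟩
  -- expansion of the square
  have hexp : ∀ m x, ((‖wm N H b α B m x‖ ^ 2 : ℝ) : ℂ) = ∑ l ∈ Icc 1 B, ∑ l' ∈ Icc 1 B, g m x l' * (starRingEnd ℂ) (g m x l) := by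
    intro m x
    have h1 : wm N H b α B m x = ∑ l ∈ Icc 1 B, g m x l := by rw [hg]; rfl
    push_cast
    rw [← Complex.mul_conj', h1, map_sum, mul_comm, sum_mul]
    refine sum_congr rfl fun l _ => ?_
    rw [mul_sum]
    refine sum_congr rfl fun l' _ => ?_
    ring
  have hpair : ∀ l l' : ℕ, ∀ m x, g m x l' * (starRingEnd ℂ) (g m x l) = (b l' * (starRingEnd ℂ) (b l)) *
      (if (m * l ≤ N ∧ m * l ≤ x ∧ x < m * l + H) ∧ (m * l' ≤ N ∧ m * l' ≤ x ∧ x < m * l' + H)
        then ee (((m * l' : ℕ) : ℝ) * α) * (starRingEnd ℂ) (ee (((m * l : ℕ) : ℝ) * α)) else 0) := by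
    intro l l' m x
    rw [hg]
    simp only
    by_cases h1 : m * l ≤ N ∧ m * l ≤ x ∧ x < m * l + H
    · by_cases h2 : m * l' ≤ N ∧ m * l' ≤ x ∧ x < m * l' + H
      · rw [if_pos h1, if_pos h2, if_pos ⟨h1, h2⟩, map_mul]
        ring
      · have h3 : ¬ ((m * l ≤ N ∧ m * l ≤ x ∧ x < m * l + H) ∧ (m * l' ≤ N ∧ m * l' ≤ x ∧ x < m * l' + H)) :=
          fun h => h2 h.2
        rw [if_neg h2, if_neg h3, zero_mul, mul_zero]
    · have h3 : ¬ ((m * l ≤ N ∧ m * l ≤ x ∧ x < m * l + H) ∧ (m * l' ≤ N ∧ m * l' ≤ x ∧ x < m * l' + H)) :=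
        fun h => h1 h.1
      rw [if_neg h1, if_neg h3, map_zero, mul_zero, mul_zero]
  have hbd : ∀ l ∈ Icc 1 B, ∀ l' ∈ Icc 1 B, ‖∑ m ∈ Ioc M (2 * M), ∑ x ∈ range X, g m x l' * (starRingEnd ℂ) (g m x l)‖ ≤
      P ^ 2 * f ((l : ℤ) - l').natAbs := by
    intro l hl l' hl'
    have hPP : ‖b l' * (starRingEnd ℂ) (b l)‖ ≤ P ^ 2 := by
      rw [norm_mul, RCLike.norm_conj, sq]
      exact mul_le_mul (hb l' hl') (hb l hl) (norm_nonneg _) hP
    have h1 : ∑ m ∈ Ioc M (2 * M), ∑ x ∈ range X, g m x l' * (starRingEnd ℂ) (g m x l) =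
        (b l' * (starRingEnd ℂ) (b l)) * ∑ m ∈ Ioc M (2 * M), ∑ x ∈ range X,
      (if (m * l ≤ N ∧ m * l ≤ x ∧ x < m * l + H) ∧ (m * l' ≤ N ∧ m * l' ≤ x ∧ x < m * l' + H)
        then ee (((m * l' : ℕ) : ℝ) * α) * (starRingEnd ℂ) (ee (((m * l : ℕ) : ℝ) * α)) else 0) := by
      rw [mul_sum]
      refine sum_congr rfl fun m _ => ?_
      rw [mul_sum]
      exact sum_congr rfl fun x _ => hpair l l' m x
    rw [h1, norm_mul]
    apply mul_le_mul hPP _ (norm_nonneg _) (sq_nonneg _)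
    rcases le_total l l' with h | h
    · have e : ((l : ℤ) - l').natAbs = l' - l := by omega
      rw [e, hf]
      exact pair_le hX α l l' (l' - l) (by omega)
    · have e : ((l : ℤ) - l').natAbs = l - l' := by omega
      rw [e, hf]
      refine le_trans (le_of_eq ?_) (pair_le hX α l' l (l - l') (by omega))
      rw [← RCLike.norm_conj, map_sum]
      congr 1
      refine sum_congr rfl fun m _ => ?_
      rw [map_sum]
      refine sum_congr rfl fun x _ => ?_
      by_cases h1 : m * l ≤ N ∧ m * l ≤ x ∧ x < m * l + H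
      · by_cases h2 : m * l' ≤ N ∧ m * l' ≤ x ∧ x < m * l' + H
        · rw [if_pos ⟨h1, h2⟩, if_pos ⟨h2, h1⟩, map_mul, Complex.conj_conj, mul_comm]
        · have h3 : ¬ ((m * l ≤ N ∧ m * l ≤ x ∧ x < m * l + H) ∧ (m * l' ≤ N ∧ m * l' ≤ x ∧ x < m * l' + H)) :=
            fun h => h2 h.2
          have h4 : ¬ ((m * l' ≤ N ∧ m * l' ≤ x ∧ x < m * l' + H) ∧ (m * l ≤ N ∧ m * l ≤ x ∧ x < m * l + H)) :=
            fun h => h2 h.1
          rw [if_neg h3, if_neg h4, map_zero]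
      · have h3 : ¬ ((m * l ≤ N ∧ m * l ≤ x ∧ x < m * l + H) ∧ (m * l' ≤ N ∧ m * l' ≤ x ∧ x < m * l' + H)) :=
          fun h => h1 h.1
        have h4 : ¬ ((m * l' ≤ N ∧ m * l' ≤ x ∧ x < m * l' + H) ∧ (m * l ≤ N ∧ m * l ≤ x ∧ x < m * l + H)) :=
          fun h => h1 h.2
        rw [if_neg h3, if_neg h4, map_zero]
  have htot : ((∑ m ∈ Ioc M (2 * M), ∑ x ∈ range X, ‖wm N H b α B m x‖ ^ 2 : ℝ) : ℂ) =
      ∑ l ∈ Icc 1 B, ∑ l' ∈ Icc 1 B, ∑ m ∈ Ioc M (2 * M), ∑ x ∈ range X, g m x l' * (starRingEnd ℂ) (g m x l) := by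
    rw [Complex.ofReal_sum]
    have h1 : ∀ m ∈ Ioc M (2 * M), ((∑ x ∈ range X, ‖wm N H b α B m x‖ ^ 2 : ℝ) : ℂ) =
        ∑ l ∈ Icc 1 B, ∑ l' ∈ Icc 1 B, ∑ x ∈ range X, g m x l' * (starRingEnd ℂ) (g m x l) := by
      intro m _
      rw [Complex.ofReal_sum]
      simp only [hexp]
      rw [sum_comm]
      refine sum_congr rfl fun l _ => ?_
      rw [sum_comm]
    rw [sum_congr rfl h1, sum_comm]
    refine sum_congr rfl fun l _ => ?_
    rw [sum_comm]
  have hnn : 0 ≤ ∑ m ∈ Ioc M (2 * M), ∑ x ∈ range X, ‖wm N H b α B m x‖ ^ 2 :=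
    sum_nonneg fun _ _ => sum_nonneg fun _ _ => sq_nonneg _
  have hle : ∑ m ∈ Ioc M (2 * M), ∑ x ∈ range X, ‖wm N H b α B m x‖ ^ 2 ≤
      ∑ l ∈ Icc 1 B, ∑ l' ∈ Icc 1 B, P ^ 2 * f ((l : ℤ) - l').natAbs := by
    have h2 := congrArg norm htot
    rw [Complex.norm_real, Real.norm_of_nonneg hnn] at h2
    rw [h2]
    refine (norm_sum_le _ _).trans (sum_le_sum fun l hl => ?_)
    exact (norm_sum_le _ _).trans (sum_le_sum fun l' hl' => hbd l hl l' hl')
  refine hle.trans ?_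
  -- the sum over the differences
  have hdiff : ∀ l ∈ Icc 1 B, ∑ l' ∈ Icc 1 B, P ^ 2 * f ((l : ℤ) - l').natAbs ≤
      2 * P ^ 2 * ∑ d ∈ range D, H * KK M (d * α) := by
    intro l _
    rw [← mul_sum]
    have h1 : ∑ l' ∈ Icc 1 B, f ((l : ℤ) - l').natAbs ≤ 2 * ∑ d ∈ range D, H * KK M (d * α) := by
      have h2 : ∑ l' ∈ Icc 1 B, f ((l : ℤ) - l').natAbs ≤
          ∑ l' ∈ (Icc 1 B).filter (fun l' => l' ≤ l), f (l - l') + ∑ l' ∈ (Icc 1 B).filter (fun l' => ¬ l' ≤ l), f (l' - l) := by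
        rw [← sum_filter_add_sum_filter_not (Icc 1 B) (fun l' => l' ≤ l)]
        apply add_le_add
        · refine le_of_eq (sum_congr rfl fun l' hl' => ?_)
          rw [mem_filter] at hl'
          congr 1
          omega
        · refine le_of_eq (sum_congr rfl fun l' hl' => ?_)
          rw [mem_filter] at hl'
          congr 1
          omega
      have hgen : ∀ (s : Finset ℕ) (φ : ℕ → ℕ), (∀ x ∈ s, ∀ y ∈ s, φ x = φ y → x = y) →
          ∑ x ∈ s, f (φ x) ≤ ∑ d ∈ range D, H * KK M (d * α) := by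
        intro s φ hφ
        rw [← sum_image (f := f) (fun x hx y hy h => hφ x hx y hy h)]
        have h3 : ∑ d ∈ s.image φ, f d = ∑ d ∈ (s.image φ).filter (fun d => M * d < H), f d := by
          symm
          apply sum_filter_of_ne
          intro d _ hd
          by_contra h
          apply hd
          rw [hf]
          simp only
          rw [if_neg h]
        rw [h3]
        calc ∑ d ∈ (s.image φ).filter (fun d => M * d < H), f d =
            ∑ d ∈ (s.image φ).filter (fun d => M * d < H), H * KK M (d * α) := by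
              refine sum_congr rfl fun d hd => ?_
              rw [mem_filter] at hd
              rw [hf]
              simp only
              rw [if_pos hd.2]
          _ ≤ ∑ d ∈ range D, H * KK M (d * α) := by
              apply sum_le_sum_of_subset_of_nonneg
              · intro d hd
                rw [mem_filter] at hd
                exact mem_range.2 (hD d hd.2)
              · intro d _ _
                have := KK_nonneg (M := (M : ℝ)) (Nat.cast_nonneg _) (d * α)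
                positivity
      have h4 := hgen ((Icc 1 B).filter (fun l' => l' ≤ l)) (fun l' => l - l') (by
        intro x hx y hy h
        rw [mem_filter, mem_Icc] at hx hy
        omega)
      have h5 := hgen ((Icc 1 B).filter (fun l' => ¬ l' ≤ l)) (fun l' => l' - l) (by
        intro x hx y hy h
        rw [mem_filter, mem_Icc] at hx hy
        omega)
      linarith
    calc P ^ 2 * ∑ l' ∈ Icc 1 B, f ((l : ℤ) - l').natAbs ≤ P ^ 2 * (2 * ∑ d ∈ range D, H * KK M (d * α)) := by gcongr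
      _ = _ := by ring
  refine (sum_le_sum hdiff).trans ?_
  rw [sum_const, Nat.card_Icc, nsmul_eq_mul, Nat.add_sub_cancel, ← mul_sum]
  apply le_of_eq
  ring

/-- the window sums of a sum of type II, one dyadic range -/
lemma win_bil {N H M X B D : ℕ} (hX : N + H ≤ X) (hB : N ≤ M * B) (a b : ℕ → ℂ) {P : ℝ} (hP : 0 ≤ P)
    (ha : ∀ m ∈ Ioc M (2 * M), ‖a m‖ ≤ P) (hb : ∀ l ∈ Icc 1 B, ‖b l‖ ≤ P) (α : ℝ) (hD : ∀ d, M * d < H → d < D) :
    ∑ x ∈ range X, ‖win N H (fun n => (∑ m ∈ n.divisors.filter (fun m => M < m ∧ m ≤ 2 * M), a m * b (n / m)) *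
      ee (n * α)) x‖ ^ 2 ≤ 2 * P ^ 4 * M * B * H * ∑ d ∈ range D, KK M (d * α) := by
  classical
  have hwin : ∀ x ∈ range X, win N H (fun n => (∑ m ∈ n.divisors.filter (fun m => M < m ∧ m ≤ 2 * M),
      a m * b (n / m)) * ee (n * α)) x = ∑ m ∈ Ioc M (2 * M), a m * wm N H b α B m x := by
    intro x _
    unfold win wm
    rw [sum_filter]
    have h1 : ∀ n ∈ Icc 1 N, (if n ≤ x ∧ x < n + H then (∑ m ∈ n.divisors.filter (fun m => M < m ∧ m ≤ 2 * M),
        a m * b (n / m)) * ee (n * α) else 0) = ∑ m ∈ n.divisors, (if (M < m ∧ m ≤ 2 * M) ∧ (m * (n / m) ≤ x ∧ x < m * (n / m) + H)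
          then a m * (b (n / m) * ee (((m * (n / m) : ℕ) : ℝ) * α)) else 0) := by
      intro n _
      by_cases h : n ≤ x ∧ x < n + H
      · rw [if_pos h, sum_filter, sum_mul]
        refine sum_congr rfl fun m hm => ?_
        rw [Nat.mul_div_cancel' (Nat.dvd_of_mem_divisors hm)]
        by_cases h2 : M < m ∧ m ≤ 2 * M
        · rw [if_pos h2, if_pos ⟨h2, h⟩]
          ring
        · rw [if_neg h2, if_neg (fun h3 => h2 h3.1), zero_mul]
      · rw [if_neg h]
        symm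
        apply sum_eq_zero
        intro m hm
        rw [Nat.mul_div_cancel' (Nat.dvd_of_mem_divisors hm), if_neg (fun h3 => h h3.2)]
    rw [sum_congr rfl h1, dirV N (fun m k => if (M < m ∧ m ≤ 2 * M) ∧ (m * k ≤ x ∧ x < m * k + H)
          then a m * (b k * ee (((m * k : ℕ) : ℝ) * α)) else 0)]
    have h2 : ∀ m ∈ Icc 1 N, ∑ k ∈ Icc 1 (N / m), (if (M < m ∧ m ≤ 2 * M) ∧ (m * k ≤ x ∧ x < m * k + H)
          then a m * (b k * ee (((m * k : ℕ) : ℝ) * α)) else 0) =
        if M < m ∧ m ≤ 2 * M then a m * ∑ l ∈ Icc 1 B, (if m * l ≤ N ∧ m * l ≤ x ∧ x < m * l + H then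
          b l * ee (((m * l : ℕ) : ℝ) * α) else 0) else 0 := by
      intro m hm
      rw [mem_Icc] at hm
      by_cases h3 : M < m ∧ m ≤ 2 * M
      · rw [if_pos h3, mul_sum]
        have hsub : Icc 1 (N / m) ⊆ Icc 1 B := by
          apply Icc_subset_Icc le_rfl
          calc N / m ≤ N / M := Nat.div_le_div_left h3.1.le (by
                rcases Nat.eq_zero_or_pos M with h0 | h0
                · exfalso
                  subst h0
                  omega
                · exact h0)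
            _ ≤ (M * B) / M := Nat.div_le_div_right hB
            _ ≤ B := by
              rcases Nat.eq_zero_or_pos M with h0 | h0
              · exfalso
                subst h0
                omega
              · rw [Nat.mul_div_cancel_left _ h0]
        rw [← sum_subset hsub (fun l hl hl' => ?_)]
        · refine sum_congr rfl fun k hk => ?_
          rw [mem_Icc] at hk
          have hk' : m * k ≤ N := (Nat.mul_le_mul_left m hk.2).trans (Nat.mul_div_le N m)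
          by_cases h4 : m * k ≤ x ∧ x < m * k + H
          · rw [if_pos ⟨h3, h4⟩, if_pos ⟨hk', h4⟩]
          · rw [if_neg (fun h5 => h4 h5.2), if_neg (fun h5 => h4 h5.2), mul_zero]
        · rw [mem_Icc] at hl
          rw [if_neg, mul_zero]
          rintro ⟨h5, -⟩
          apply hl'
          rw [mem_Icc]
          exact ⟨hl.1, (Nat.le_div_iff_mul_le (by omega)).2 (by rw [mul_comm]; exact h5)⟩
      · rw [if_neg h3]
        apply sum_eq_zero
        intro k _
        rw [if_neg (fun h4 => h3 h4.1)]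
    rw [sum_congr rfl h2, ← sum_filter]
    have hsub : (Icc 1 N).filter (fun m => M < m ∧ m ≤ 2 * M) ⊆ Ioc M (2 * M) := by
      intro m hm
      rw [mem_filter] at hm
      rw [mem_Ioc]
      exact hm.2
    apply sum_subset hsub
    intro m hm hm'
    rw [mem_Ioc] at hm
    rw [sum_eq_zero, mul_zero]
    intro l hl
    rw [mem_Icc] at hl
    rw [if_neg]
    rintro ⟨h5, -⟩
    apply hm'
    rw [mem_filter, mem_Icc]
    have : m ≤ m * l := Nat.le_mul_of_pos_right _ (by omega)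
    exact ⟨⟨by omega, by omega⟩, hm⟩
  have hcs : ∀ x ∈ range X, ‖win N H (fun n => (∑ m ∈ n.divisors.filter (fun m => M < m ∧ m ≤ 2 * M),
      a m * b (n / m)) * ee (n * α)) x‖ ^ 2 ≤ (P ^ 2 * M) * ∑ m ∈ Ioc M (2 * M), ‖wm N H b α B m x‖ ^ 2 := by
    intro x hx
    rw [hwin x hx]
    have h1 : ‖∑ m ∈ Ioc M (2 * M), a m * wm N H b α B m x‖ ≤ P * ∑ m ∈ Ioc M (2 * M), ‖wm N H b α B m x‖ := by
      rw [mul_sum]
      refine (norm_sum_le _ _).trans (sum_le_sum fun m hm => ?_)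
      rw [norm_mul]
      exact mul_le_mul_of_nonneg_right (ha m hm) (norm_nonneg _)
    have h2 := pow_le_pow_left₀ (norm_nonneg _) h1 2
    have h3 := sq_sum_le_card_mul_sum_sq (s := Ioc M (2 * M)) (f := fun m => ‖wm N H b α B m x‖)
    rw [Nat.card_Ioc, show 2 * M - M = M by omega] at h3
    calc _ ≤ (P * ∑ m ∈ Ioc M (2 * M), ‖wm N H b α B m x‖) ^ 2 := h2
      _ = P ^ 2 * (∑ m ∈ Ioc M (2 * M), ‖wm N H b α B m x‖) ^ 2 := by ring
      _ ≤ P ^ 2 * (M * ∑ m ∈ Ioc M (2 * M), ‖wm N H b α B m x‖ ^ 2) := by gcongr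
      _ = _ := by ring
  refine (sum_le_sum hcs).trans ?_
  rw [← mul_sum, sum_comm]
  have h4 := wm_sum (B := B) (M := M) hX b hP hb α hD
  calc (P ^ 2 * M) * ∑ m ∈ Ioc M (2 * M), ∑ x ∈ range X, ‖wm N H b α B m x‖ ^ 2
      ≤ (P ^ 2 * M) * (2 * P ^ 2 * B * H * ∑ d ∈ range D, KK M (d * α)) := by gcongr
    _ = _ := by ring

end Pool.Agent.KS6_25.SH
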