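import Pool.Agent.KS6_25.SH.C3

set_option autoImplicit false

/-!
# The decomposition with bounds in terms of `N`; sums of type I in mean square
-/

namespace Pool.Agent.KS6_25.SH

open Finset
open Pool.Agent.R460.GS
open Pool.Agent.R460.GH
open Pool.Agent.Y883.GJ (LA LS FF)
open Pool.Agent.H807R2.Dav (ee KK KK_nonneg dd)
open Pool.Agent.H373R2.T7 (Vz)
open Pool.Agent.Y614.GJ.Core (ev_log)

/-- the decomposition of the von Mangoldt function on `[1, 3 N]` -/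
structure Good (A : ℕ) (κ : ℝ) (N : ℕ) (I : Finset (ℕ × ℕ)) (M₀ W Z : ℕ) (c : ℕ → ℂ) (a b : ℕ × ℕ → ℕ → ℂ)
    (R : ℕ → ℂ) : Prop where
  dec : Dec (3 * N) I M₀ W Z (3 * Real.log N) (N / Real.log N ^ A) c a b R
  hI : (I.card : ℝ) ≤ Real.log N ^ (A + 20)
  hM1 : 1 ≤ M₀
  hM : (M₀ : ℝ) ≤ 3 * (N : ℝ) ^ (2 / 3 : ℝ)
  hW1 : 1 ≤ W
  hW : (N : ℝ) ^ κ ≤ 2 * W
  hZ : (Z : ℝ) ≤ 3 * (N : ℝ) ^ (1 / 3 + κ)

lemma log3 {N : ℕ} (hL : 10 ≤ Real.log N) : Real.log N ≤ Real.log ((3 * N : ℕ) : ℝ) ∧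
    Real.log ((3 * N : ℕ) : ℝ) ≤ 3 / 2 * Real.log N := by
  have hN0 : (0 : ℝ) < N := by
    by_contra h
    have : (N : ℝ) = 0 := le_antisymm (not_lt.1 h) (Nat.cast_nonneg _)
    rw [this, Real.log_zero] at hL
    linarith
  push_cast
  rw [Real.log_mul (by norm_num) hN0.ne']
  have h1 : (0 : ℝ) ≤ Real.log 3 := Real.log_nonneg (by norm_num)
  have h2 : Real.log 3 ≤ 2 := by
    have := Real.log_le_sub_one_of_pos (show (0 : ℝ) < 3 by norm_num)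
    linarith
  constructor <;> linarith

theorem good_ex (k : ℕ) (hk : 12 ≤ k) (A : ℕ) : ∃ N₀ : ℕ, ∀ N : ℕ, N₀ ≤ N →
    ∃ (I : Finset (ℕ × ℕ)) (M₀ W Z : ℕ) (c : ℕ → ℂ) (a b : ℕ × ℕ → ℕ → ℂ) (R : ℕ → ℂ),
      Good A (1 / (k : ℝ)) N I M₀ W Z c a b R := by
  obtain ⟨N₁, h1⟩ := dec_ex k hk (A + 2)
  obtain ⟨N₀, hN₀⟩ := Filter.eventually_atTop.1 (ev_log 1 (s := 1 / 4) (by norm_num)
    (10 + 4 * (3 / 2 : ℝ) ^ (A + 18)))
  refine ⟨max N₁ (max N₀ 64), fun N hN => ?_⟩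
  have hN64 : 64 ≤ N := le_trans (le_trans (le_max_right _ _) (le_max_right _ _)) hN
  have hN1 : 1 ≤ N := by omega
  obtain ⟨hL, -⟩ := hN₀ N (le_trans (le_trans (le_max_left _ _) (le_max_right _ _)) hN)
  obtain ⟨c, a, b, R, hd⟩ := h1 (3 * N) (by
    have := le_trans (le_max_left _ _) hN
    omega)
  have hpos : (0 : ℝ) < (3 / 2 : ℝ) ^ (A + 18) := by positivity
  obtain ⟨l1, l2⟩ := log3 (N := N) (by linarith)
  have hL10 : 10 ≤ Real.log N := by linarith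
  have hL0 : 0 < Real.log N := by linarith
  have hN0 : (0 : ℝ) < N := by exact_mod_cast hN1
  have h3N1 : 1 ≤ 3 * N := by omega
  have hk0 : (0 : ℝ) < k := by
    have : (12 : ℝ) ≤ k := by exact_mod_cast hk
    linarith
  refine ⟨_, _, _, _, c, a, b, R, ⟨hd.hc, hd.hc0, hd.ha, ?_, ?_, ?_, hd.hid⟩, ?_, ?_, ?_, ?_, ?_, ?_⟩
  · intro j m hm
    exact (hd.ha1 j m hm).trans (by linarith)
  · intro j m hm
    exact (hd.hb j m hm).trans (by linarith)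
  · refine hd.hR.trans ?_
    have hL3 : 0 < Real.log ((3 * N : ℕ) : ℝ) := by linarith
    rw [div_le_div_iff₀ (pow_pos hL3 _) (pow_pos hL0 _)]
    calc ((3 * N : ℕ) : ℝ) * Real.log N ^ A = N * (3 * Real.log N ^ A) := by push_cast; ring
      _ ≤ N * (Real.log N ^ 2 * Real.log N ^ A) := by
          gcongr
          nlinarith
      _ = N * Real.log N ^ (A + 2) := by ring
      _ ≤ N * Real.log ((3 * N : ℕ) : ℝ) ^ (A + 2) := by gcongr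
  · rw [card_product, card_range, card_range]
    push_cast
    have h2 := JJ_le (N := 3 * N) (U := A + 2 + 14) (by linarith)
    calc (JJ (3 * N) (A + 2 + 14) : ℝ) * 4 ≤ Real.log ((3 * N : ℕ) : ℝ) ^ (A + 2 + 14 + 2) * 4 := by gcongr
      _ ≤ (3 / 2 * Real.log N) ^ (A + 2 + 14 + 2) * 4 := by
          gcongr
      _ = (4 * (3 / 2 : ℝ) ^ (A + 18)) * Real.log N ^ (A + 18) := by
          rw [mul_pow, show A + 2 + 14 + 2 = A + 18 by ring]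
          ring
      _ ≤ Real.log N * Real.log N ^ (A + 18) := by
          gcongr
          linarith
      _ = Real.log N ^ (A + 19) := by ring
      _ ≤ Real.log N ^ (A + 20) := pow_le_pow_right₀ (by linarith) (by omega)
  · exact Nat.mul_pos ((one_le_Wk (k := k) h3N1).trans ((Wk_le h3N1).trans
      (Zk_le_Pk hk (by omega)))) (one_le_Wk h3N1)
  · refine (PW_real h3N1).trans ?_
    push_cast
    rw [Real.mul_rpow (by norm_num) hN0.le]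
    have : (3 : ℝ) ^ (2 / 3 : ℝ) ≤ 3 := by
      calc (3 : ℝ) ^ (2 / 3 : ℝ) ≤ (3 : ℝ) ^ (1 : ℝ) := Real.rpow_le_rpow_of_exponent_le (by norm_num) (by norm_num)
        _ = 3 := Real.rpow_one _
    gcongr
  · exact one_le_Wk h3N1
  · have h2 : ((3 * N : ℕ) : ℝ) ^ (1 / (k : ℝ)) < (Wk k (3 * N) : ℝ) + 1 := Nat.lt_floor_add_one _
    have h3 : (1 : ℝ) ≤ Wk k (3 * N) := by exact_mod_cast one_le_Wk h3N1
    have h4 : (N : ℝ) ^ (1 / (k : ℝ)) ≤ ((3 * N : ℕ) : ℝ) ^ (1 / (k : ℝ)) := by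
      apply Real.rpow_le_rpow hN0.le _ (by positivity)
      push_cast
      linarith
    linarith
  · refine Zk_real.trans ?_
    push_cast
    rw [Real.mul_rpow (by norm_num) hN0.le]
    have hk12 := (inv_k hk).2
    have : (3 : ℝ) ^ (1 / 3 + 1 / (k : ℝ)) ≤ 3 := by
      calc (3 : ℝ) ^ (1 / 3 + 1 / (k : ℝ)) ≤ (3 : ℝ) ^ (1 : ℝ) :=
            Real.rpow_le_rpow_of_exponent_le (by norm_num) (by linarith)
        _ = 3 := Real.rpow_one _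
    gcongr

/-- the parameter of the sums of type I -/
noncomputable def TT (N A : ℕ) : ℕ := ⌊Real.log N ^ (A + 8)⌋₊ + 1

/-- sums of type I over sets of consecutive frequencies -/
theorem smooth_part (A : ℕ) {ρ : ℝ} (hρ : 0 < ρ) (hρ1 : ρ ≤ 1 / 4) : ∃ N₀ : ℕ, ∀ N : ℕ, N₀ ≤ N → ∀ (M₀ D R₀ : ℕ),
    1 ≤ M₀ → (M₀ : ℝ) ≤ 3 * (N : ℝ) ^ (2 / 3 : ℝ) → 1 ≤ D → (D : ℝ) ≤ (N : ℝ) ^ (1 / 100 : ℝ) →
    (R₀ : ℝ) ≤ (N : ℝ) ^ (2 / 3 - ρ) → ∀ (α E₀ : ℝ) (S : Finset ℕ), S ⊆ range R₀ → 0 ≤ E₀ →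
    E₀ ≤ (N : ℝ) ^ 2 / Real.log N ^ (2 * (A + 8)) →
    (∀ r : ℕ, 1 ≤ r → r < TT N A → ∑ s ∈ S, KK ((N : ℝ) / r) (r * gam N α s) ^ 2 ≤ E₀) →
    64 * Real.log N ^ 2 * ∑ s ∈ S, GG0 1 N M₀ (gam N α s) ^ 2 +
      4 * Real.log N ^ 2 * ∑ s ∈ S, GG0 1 N D (gam N α s) ^ 2 ≤ (N : ℝ) ^ 2 / Real.log N ^ A := by
  obtain ⟨N₁, h1⟩ := Filter.eventually_atTop.1 (ev_log (A + 8) (s := ρ) hρ 200000)
  refine ⟨max N₁ 1000000, fun N hN M₀ D R₀ hM1 hM hD1 hD hR α E₀ S hS hE0 hE hfar => ?_⟩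
  obtain ⟨hL, hLp⟩ := h1 N (le_trans (le_max_left _ _) hN)
  have hNbig : 1000000 ≤ N := le_trans (le_max_right _ _) hN
  have hN1 : 1 ≤ N := by omega
  have hN0 : (0 : ℝ) < N := by exact_mod_cast hN1
  have hNr1 : (1 : ℝ) ≤ N := by exact_mod_cast hN1
  obtain ⟨L, hLd⟩ : ∃ L, L = Real.log (N : ℝ) := ⟨_, rfl⟩
  have hTT : (TT N A : ℝ) = (⌊L ^ (A + 8)⌋₊ : ℝ) + 1 := by
    unfold TT
    rw [hLd]
    push_cast
    rfl
  rw [← hLd] at hL hLp hE ⊢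
  have hL0 : 0 < L := by linarith
  have hT1 : 1 ≤ TT N A := by
    unfold TT
    omega
  obtain ⟨T, hT⟩ : ∃ T, T = TT N A := ⟨_, rfl⟩
  rw [← hT] at hfar hTT hT1
  have hLt0 : 0 < L ^ (A + 8) := by positivity
  have hLt1 : 1 ≤ L ^ (A + 8) := one_le_pow₀ (by linarith)
  have hTlow : L ^ (A + 8) ≤ T := by
    rw [hTT]
    exact (Nat.lt_floor_add_one _).le
  have hTup : (T : ℝ) ≤ 2 * L ^ (A + 8) := by
    rw [hTT]
    have := Nat.floor_le hLt0.le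
    linarith
  have hℓ : 1 + Real.log ((2 * N + 1 : ℕ) : ℝ) ≤ 2 * L := by
    have h2 : Real.log ((2 * N + 1 : ℕ) : ℝ) ≤ Real.log (3 * N) := by
      apply Real.log_le_log (by positivity)
      push_cast
      linarith
    rw [Real.log_mul (by norm_num) hN0.ne'] at h2
    have h3 : Real.log 3 ≤ 2 := by
      have := Real.log_le_sub_one_of_pos (show (0 : ℝ) < 3 by norm_num)
      linarith
    rw [← hLd] at h2
    linarith
  -- general bound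
  have gen : ∀ K : ℕ, 1 ≤ K → (K : ℝ) ≤ 3 * (N : ℝ) ^ (2 / 3 : ℝ) → 2 * K ≤ N →
      ∑ s ∈ S, GG0 1 N K (gam N α s) ^ 2 ≤ 3200000 * L ^ 4 * (13 * ((N : ℝ) ^ 2 / L ^ (A + 8))) := by
    intro K hK1 hK hK2
    have h2 := GG0_arc (N := N) (M₀ := K) (R := R₀) (T := T) hK1 hK2 hT1 (ℓ := 2 * L) (α := α) (E₀ := E₀) hℓ S hS hE0
      hfar
    refine h2.trans ?_
    have e1 : 200000 * (2 * L) ^ 4 = 3200000 * L ^ 4 := by ring
    rw [e1]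
    apply mul_le_mul_of_nonneg_left _ (by positivity)
    have hρN : (N : ℝ) ^ (2 - ρ) ≤ (N : ℝ) ^ 2 / L ^ (A + 8) := by
      rw [le_div_iff₀ hLt0]
      calc (N : ℝ) ^ (2 - ρ) * L ^ (A + 8) ≤ (N : ℝ) ^ (2 - ρ) * (N : ℝ) ^ ρ := by gcongr
        _ = (N : ℝ) ^ 2 := by
            rw [← Real.rpow_add hN0, ← Real.rpow_natCast]
            congr 1
            push_cast
            ring
    have k1 : (R₀ : ℝ) * (K : ℝ) ^ 2 ≤ 9 * ((N : ℝ) ^ 2 / L ^ (A + 8)) := by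
      calc (R₀ : ℝ) * (K : ℝ) ^ 2 ≤ (N : ℝ) ^ (2 / 3 - ρ) * (3 * (N : ℝ) ^ (2 / 3 : ℝ)) ^ 2 := by gcongr
        _ = 9 * ((N : ℝ) ^ (2 / 3 - ρ) * ((N : ℝ) ^ (2 / 3 : ℝ) * (N : ℝ) ^ (2 / 3 : ℝ))) := by ring
        _ = 9 * (N : ℝ) ^ (2 - ρ) := by
            rw [← Real.rpow_add hN0, ← Real.rpow_add hN0]
            congr 2
            ring
        _ ≤ _ := by gcongr
    have k2 : (R₀ : ℝ) * N ≤ (N : ℝ) ^ 2 / L ^ (A + 8) := by
      refine le_trans ?_ hρN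
      calc (R₀ : ℝ) * N ≤ (N : ℝ) ^ (2 / 3 - ρ) * (N : ℝ) ^ (1 : ℝ) := by
            rw [Real.rpow_one]
            gcongr
        _ = (N : ℝ) ^ (2 / 3 - ρ + 1) := by rw [← Real.rpow_add hN0]
        _ ≤ (N : ℝ) ^ (2 - ρ) := Real.rpow_le_rpow_of_exponent_le hNr1 (by linarith)
    have k3 : (T : ℝ) * E₀ ≤ 2 * ((N : ℝ) ^ 2 / L ^ (A + 8)) := by
      calc (T : ℝ) * E₀ ≤ (2 * L ^ (A + 8)) * ((N : ℝ) ^ 2 / L ^ (2 * (A + 8))) := by gcongr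
        _ = _ := by
            rw [two_mul (A + 8), pow_add L (A + 8) (A + 8)]
            field_simp
    have k4 : (N : ℝ) ^ 2 / T ≤ (N : ℝ) ^ 2 / L ^ (A + 8) := by gcongr
    linarith
  have hNpow : (100 : ℝ) ≤ (N : ℝ) ^ (1 / 3 : ℝ) := by
    calc (100 : ℝ) = (1000000 : ℝ) ^ (1 / 3 : ℝ) := by
          rw [show (1000000 : ℝ) = 100 ^ (3 : ℝ) by norm_num, ← Real.rpow_mul (by norm_num)]
          norm_num
      _ ≤ _ := by
          apply Real.rpow_le_rpow (by norm_num) (by exact_mod_cast hNbig) (by norm_num)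
  have h6 : (6 : ℝ) * (N : ℝ) ^ (2 / 3 : ℝ) ≤ N := by
    calc (6 : ℝ) * (N : ℝ) ^ (2 / 3 : ℝ) ≤ (N : ℝ) ^ (1 / 3 : ℝ) * (N : ℝ) ^ (2 / 3 : ℝ) := by
          gcongr
          linarith
      _ = N := by
          rw [← Real.rpow_add hN0]
          norm_num
  have hM2 : 2 * M₀ ≤ N := by
    have : (2 : ℝ) * M₀ ≤ N := by linarith
    exact_mod_cast this
  have hD' : (D : ℝ) ≤ 3 * (N : ℝ) ^ (2 / 3 : ℝ) := by
    have : (N : ℝ) ^ (1 / 100 : ℝ) ≤ (N : ℝ) ^ (2 / 3 : ℝ) := Real.rpow_le_rpow_of_exponent_le hNr1 (by norm_num)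
    have h0 : 0 ≤ (N : ℝ) ^ (2 / 3 : ℝ) := by positivity
    linarith
  have hD2 : 2 * D ≤ N := by
    have : (2 : ℝ) * D ≤ N := by linarith
    exact_mod_cast this
  have g1 := gen M₀ hM1 hM hM2
  have g2 := gen D hD1 hD' hD2
  calc 64 * L ^ 2 * ∑ s ∈ S, GG0 1 N M₀ (gam N α s) ^ 2 + 4 * L ^ 2 * ∑ s ∈ S, GG0 1 N D (gam N α s) ^ 2
      ≤ 64 * L ^ 2 * (3200000 * L ^ 4 * (13 * ((N : ℝ) ^ 2 / L ^ (A + 8)))) +
        4 * L ^ 2 * (3200000 * L ^ 4 * (13 * ((N : ℝ) ^ 2 / L ^ (A + 8)))) := by gcongr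
    _ = (N : ℝ) ^ 2 / L ^ A * (2828800000 / L ^ 2) := by
        rw [pow_add L A 8]
        field_simp
        ring
    _ ≤ (N : ℝ) ^ 2 / L ^ A * 1 := by
        have : 2828800000 / L ^ 2 ≤ 1 := by
          rw [div_le_one (by positivity)]
          nlinarith
        gcongr
    _ = _ := mul_one _

end Pool.Agent.KS6_25.SH
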