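import Pool.Agent.KS6_25.SH.C4

set_option autoImplicit false

/-!
# Minor arcs
-/

namespace Pool.Agent.KS6_25.SH

open Finset
open Pool.Agent.R460.GS
open Pool.Agent.R460.GH
open Pool.Agent.Y883.GJ (LA LS FF)
open Pool.Agent.H807R2.Dav (ee KK KK_nonneg KK_le' dd vino)
open Pool.Agent.H373R2.T7 (Vz)
open Pool.Agent.Y614.GJ.Core (ev_log)

lemma dyad_filter (s : Finset ℕ) (f : ℕ → ℂ) (W : ℕ) : ∀ I₀ : ℕ,
    ∑ i ∈ range I₀, ∑ m ∈ s.filter (fun m => W * 2 ^ i < m ∧ m ≤ 2 * (W * 2 ^ i)), f m =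
      ∑ m ∈ s.filter (fun m => W < m ∧ m ≤ W * 2 ^ I₀), f m := by
  intro I₀
  induction I₀ with
  | zero =>
    rw [sum_range_zero]
    symm
    rw [filter_false_of_mem, sum_empty]
    intro m _ h
    rw [pow_zero, mul_one] at h
    omega
  | succ n ih =>
    rw [sum_range_succ, ih, ← sum_union]
    · congr 1
      ext m
      rw [mem_union, mem_filter, mem_filter, mem_filter]
      have e : W * 2 ^ (n + 1) = 2 * (W * 2 ^ n) := by ring
      have e2 : W ≤ W * 2 ^ n := Nat.le_mul_of_pos_right _ (by positivity)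
      rw [e]
      constructor
      · rintro (⟨h1, h2, h3⟩ | ⟨h1, h2, h3⟩)
        · exact ⟨h1, h2, by omega⟩
        · exact ⟨h1, by omega, h3⟩
      · rintro ⟨h1, h2, h3⟩
        rcases le_or_gt m (W * 2 ^ n) with h | h
        · exact Or.inl ⟨h1, h2, h⟩
        · exact Or.inr ⟨h1, h, h3⟩
    · rw [disjoint_filter]
      intro m _ h1 h2
      omega

lemma cf_sum {ι : Type*} (N : ℕ) (s : Finset ι) (F : ι → ℕ → ℂ) (γ : ℝ) :
    cf N (fun n => ∑ j ∈ s, F j n) γ = ∑ j ∈ s, cf N (F j) γ := by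
  unfold cf
  rw [sum_comm]
  exact sum_congr rfl fun n _ => by rw [sum_mul]

lemma sq_norm_sum {ι : Type*} (s : Finset ι) (x : ι → ℂ) : ‖∑ j ∈ s, x j‖ ^ 2 ≤ (s.card : ℝ) * ∑ j ∈ s, ‖x j‖ ^ 2 :=
  (pow_le_pow_left₀ (norm_nonneg _) (norm_sum_le _ _) 2).trans sq_sum_le_card_mul_sum_sq

/-- the dyadic pieces -/
noncomputable def pc (a b : ℕ → ℂ) (M n : ℕ) : ℂ :=
  ∑ m ∈ n.divisors.filter (fun m => M < m ∧ m ≤ 2 * M), a m * b (n / m)

lemma T2_dyad {I : Finset (ℕ × ℕ)} {a b : ℕ × ℕ → ℕ → ℂ} {W Z I₀ : ℕ} (ha : ∀ j m, a j m ≠ 0 → W < m ∧ m ≤ Z)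
    (hI : Z ≤ W * 2 ^ I₀) (n : ℕ) : T2 I a b n = ∑ x ∈ I ×ˢ range I₀, pc (a x.1) (b x.1) (W * 2 ^ x.2) n := by
  unfold T2 pc
  rw [sum_product]
  refine sum_congr rfl fun j _ => ?_
  simp only
  rw [dyad_filter n.divisors (fun m => a j m * b j (n / m)) W I₀]
  symm
  apply sum_filter_of_ne
  intro m _ h
  have := ha j m (left_ne_zero_of_mul h)
  exact ⟨this.1, this.2.trans hI⟩

/-- the sums of type II on the minor arcs -/
theorem t2_minor {N N₃ M₀ W Z R₀ H k : ℕ} {I : Finset (ℕ × ℕ)} {P X : ℝ} {c : ℕ → ℂ} {a b : ℕ × ℕ → ℕ → ℂ} {R : ℕ → ℂ}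
    (hN : 1 ≤ N) (hNN : 3 * N ≤ N₃) (hD : Dec N₃ I M₀ W Z P X c a b R) (hP : 0 ≤ P) (hW : 1 ≤ W) (hZ : Z ≤ N)
    (hH1 : 1 ≤ H) (hHN : H ≤ N) (hRH : 2 * R₀ * H ≤ 2 * N + 1) (hL : 2 ≤ Real.log N)
    (hk : 1 ≤ k) {h : ℤ} (hcop : IsCoprime h (k : ℤ)) {α : ℝ} (hα : |α - h / k| ≤ 1 / (k : ℝ) ^ 2) (hkN : k ≤ N) :
    ∑ s ∈ range R₀, ‖cf N (T2 I a b) (gam N α s)‖ ^ 2 ≤
      (I.card : ℝ) ^ 2 * (400000 * Real.log N ^ 3) * P ^ 4 * (N : ℝ) ^ 2 *
        (1 / k + 1 / W + Z / H + k / H) := by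
  classical
  obtain ⟨L, hLd⟩ : ∃ L, L = Real.log (N : ℝ) := ⟨_, rfl⟩
  rw [← hLd] at hL ⊢
  have hN0 : (0 : ℝ) < N := by exact_mod_cast hN
  have hN1r : (1 : ℝ) ≤ N := by exact_mod_cast hN
  have hH0 : (0 : ℝ) < H := by exact_mod_cast hH1
  have hk0 : (0 : ℝ) < k := by exact_mod_cast hk
  have hk1r : (1 : ℝ) ≤ k := by exact_mod_cast hk
  have hW0 : (0 : ℝ) < W := by exact_mod_cast hW
  obtain ⟨I₀, hI₀⟩ : ∃ I₀, I₀ = Nat.log 2 N + 1 := ⟨_, rfl⟩
  have hI₀L : (I₀ : ℝ) ≤ 3 * L := by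
    have := log2_le hN
    rw [← hI₀, ← hLd] at this
    linarith
  have hZI : Z ≤ W * 2 ^ I₀ := by
    have h1 : N < 2 ^ I₀ := by
      rw [hI₀]
      exact Nat.lt_pow_succ_log_self (by norm_num) N
    calc Z ≤ N := hZ
      _ ≤ 1 * 2 ^ I₀ := by omega
      _ ≤ _ := Nat.mul_le_mul_right _ hW
  have hlogk : Real.log k ≤ L := by
    rw [hLd]
    exact Real.log_le_log hk0 (by exact_mod_cast hkN)
  have hlogk0 : 0 ≤ Real.log k := Real.log_natCast_nonneg k
  obtain ⟨Q, hQ⟩ : ∃ Q : ℝ, Q = 1 / k + 1 / W + Z / H + k / H := ⟨_, rfl⟩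
  have hQ0 : 0 ≤ Q := by rw [hQ]; positivity
  rw [← hQ]
  -- one piece
  have hpiece : ∀ x ∈ I ×ˢ range I₀, ∑ s ∈ range R₀, ‖cf N (pc (a x.1) (b x.1) (W * 2 ^ x.2)) (gam N α s)‖ ^ 2 ≤
      14000 * L * P ^ 4 * (N : ℝ) ^ 2 * Q := by
    intro x _
    obtain ⟨M, hM⟩ : ∃ M, M = W * 2 ^ x.2 := ⟨_, rfl⟩
    rw [← hM]
    have hWM : W ≤ M := by
      rw [hM]
      exact Nat.le_mul_of_pos_right _ (by positivity)
    have hM1 : 1 ≤ M := hW.trans hWM
    have hM0 : (0 : ℝ) < M := by exact_mod_cast hM1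
    have hrhs : 0 ≤ 14000 * L * P ^ 4 * (N : ℝ) ^ 2 * Q := by
      have : 0 < L := by linarith
      positivity
    by_cases hMZ : M ≤ Z
    · obtain ⟨B, hB⟩ : ∃ B, B = N / M + 1 := ⟨_, rfl⟩
      obtain ⟨D, hDd⟩ : ∃ D, D = H / M + 1 := ⟨_, rfl⟩
      have hMN : M ≤ N := hMZ.trans hZ
      have hNMB : N ≤ M * B := by
        rw [hB]
        have := Nat.lt_mul_div_succ N hM1
        omega
      have hMB : M * B ≤ 2 * N := by
        rw [hB, mul_add, mul_one]
        have := Nat.mul_div_le N M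
        omega
      have hB3 : B ≤ N₃ := by
        rw [hB]
        have := Nat.div_le_self N M
        omega
      have hdiv : ∀ d, M * d < H → d < D := by
        intro d hd
        rw [hDd, Nat.lt_succ_iff, Nat.le_div_iff_mul_le hM1, mul_comm]
        exact hd.le
      have hg := gallagher hN hH1 hHN hRH (pc (a x.1) (b x.1) M) α
      have hw := win_bil (N := N) (H := H) (M := M) (X := 2 * N + 1) (B := B) (D := D) (by omega) hNMB (a x.1) (b x.1)
        hP (fun m hm => by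
          rw [mem_Ioc] at hm
          exact hD.ha1 _ m (mem_Icc.2 ⟨by omega, by omega⟩)) (fun l hl => by
          rw [mem_Icc] at hl
          exact hD.hb _ l (mem_Icc.2 ⟨hl.1, hl.2.trans hB3⟩)) α hdiv
      have hv := vino hk hcop hα (M := (M : ℝ)) hM0.le 0 D
      simp only [zero_add] at hv
      have hKKs : ∑ d ∈ range D, KK M (d * α) ≤ 123 * L * (H * Q) := by
        refine hv.trans ?_
        have hDr : (D : ℝ) ≤ H / M + 1 := by
          rw [hDd]
          push_cast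
          have := Nat.cast_div_le (α := ℝ) (m := H) (n := M)
          linarith
        have hMZr : (M : ℝ) ≤ Z := by exact_mod_cast hMZ
        have hWMr : (W : ℝ) ≤ M := by exact_mod_cast hWM
        have e1 : (D : ℝ) / k + 1 ≤ H / (M * k) + 2 := by
          calc (D : ℝ) / k + 1 ≤ (H / M + 1) / k + 1 := by gcongr
            _ = H / (M * k) + (1 / k + 1) := by field_simp; ring
            _ ≤ H / (M * k) + 2 := by
                have : 1 / (k : ℝ) ≤ 1 := by rw [div_le_one hk0]; exact hk1r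
                linarith
        have e2 : 39 * (M : ℝ) + 3 * k * (1 + Real.log k) ≤ 39 * M + 6 * L * k := by
          have : 3 * (k : ℝ) * (1 + Real.log k) ≤ 3 * k * (2 * L) := by
            gcongr
            linarith
          linarith
        calc ((D : ℝ) / k + 1) * (39 * M + 3 * k * (1 + Real.log k))
            ≤ (H / (M * k) + 2) * (39 * M + 6 * L * k) := by gcongr
          _ = 39 * (H / k) + 6 * L * (H / M) + 78 * M + 12 * L * k := by
              field_simp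
              ring
          _ ≤ 39 * (H / k) + 6 * L * (H / W) + 78 * Z + 12 * L * k := by gcongr
          _ = H * (39 * (1 / k) + 6 * L * (1 / W) + 78 * (Z / H) + 12 * L * (k / H)) := by
              field_simp
          _ ≤ H * (123 * L * (1 / k) + 123 * L * (1 / W) + 123 * L * (Z / H) + 123 * L * (k / H)) := by
              gcongr <;> linarith
          _ = 123 * L * (H * Q) := by
              rw [hQ]
              ring
      have hL0 : 0 < L := by linarith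
      have hMBr : (M : ℝ) * B ≤ 2 * N := by exact_mod_cast hMB
      have h3N : (((2 * N + 1 : ℕ) : ℕ) : ℝ) ≤ 3 * N := by
        push_cast
        linarith
      refine hg.trans ?_
      calc 4 * ((2 * N + 1 : ℕ) : ℝ) / (H : ℝ) ^ 2 * ∑ x_1 ∈ range (2 * N + 1),
          ‖win N H (fun n => pc (a x.1) (b x.1) M n * ee (n * α)) x_1‖ ^ 2
          ≤ 4 * (3 * N) / (H : ℝ) ^ 2 * (2 * P ^ 4 * M * B * H * ∑ d ∈ range D, KK M (d * α)) := by
            apply mul_le_mul _ hw (sum_nonneg fun _ _ => sq_nonneg _) (by positivity)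
            gcongr
        _ ≤ 4 * (3 * N) / (H : ℝ) ^ 2 * (2 * P ^ 4 * M * B * H * (123 * L * (H * Q))) := by gcongr
        _ = 2952 * L * P ^ 4 * N * (M * B) * Q := by
            field_simp
            ring
        _ ≤ 2952 * L * P ^ 4 * N * (2 * N) * Q := by gcongr
        _ ≤ 14000 * L * P ^ 4 * (N : ℝ) ^ 2 * Q := by
            have : 0 ≤ L * P ^ 4 * (N : ℝ) ^ 2 * Q := by positivity
            nlinarith
    · have h0 : ∀ n, pc (a x.1) (b x.1) M n = 0 := by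
        intro n
        unfold pc
        apply sum_eq_zero
        intro m hm
        rw [mem_filter] at hm
        have : a x.1 m = 0 := by
          by_contra h1
          have := (hD.ha _ _ h1).2
          omega
        rw [this, zero_mul]
      have h1 : ∀ γ, cf N (pc (a x.1) (b x.1) M) γ = 0 := by
        intro γ
        unfold cf
        apply sum_eq_zero
        intro n _
        rw [h0, zero_mul]
      simp only [h1, norm_zero]
      rw [sum_eq_zero (fun _ _ => by norm_num)]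
      exact hrhs
  -- all pieces
  have hT : ∀ γ, cf N (T2 I a b) γ = ∑ x ∈ I ×ˢ range I₀, cf N (pc (a x.1) (b x.1) (W * 2 ^ x.2)) γ := by
    intro γ
    rw [← cf_sum]
    exact cf_congr (fun n _ => T2_dyad hD.ha hZI n) γ
  have hL0 : 0 < L := by linarith
  have hcard : ((I ×ˢ range I₀).card : ℝ) ≤ I.card * (3 * L) := by
    rw [card_product, card_range]
    push_cast
    gcongr
  calc ∑ s ∈ range R₀, ‖cf N (T2 I a b) (gam N α s)‖ ^ 2
      ≤ ∑ s ∈ range R₀, ((I ×ˢ range I₀).card : ℝ) *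
        ∑ x ∈ I ×ˢ range I₀, ‖cf N (pc (a x.1) (b x.1) (W * 2 ^ x.2)) (gam N α s)‖ ^ 2 := by
        refine sum_le_sum fun s _ => ?_
        rw [hT]
        exact sq_norm_sum _ _
    _ = ((I ×ˢ range I₀).card : ℝ) * ∑ x ∈ I ×ˢ range I₀, ∑ s ∈ range R₀,
        ‖cf N (pc (a x.1) (b x.1) (W * 2 ^ x.2)) (gam N α s)‖ ^ 2 := by
        rw [← mul_sum, sum_comm]
    _ ≤ ((I ×ˢ range I₀).card : ℝ) * ∑ x ∈ I ×ˢ range I₀, 14000 * L * P ^ 4 * (N : ℝ) ^ 2 * Q := by
        gcongr with x hx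
        exact hpiece x hx
    _ = ((I ×ˢ range I₀).card : ℝ) * (((I ×ˢ range I₀).card : ℝ) * (14000 * L * P ^ 4 * (N : ℝ) ^ 2 * Q)) := by
        rw [sum_const, nsmul_eq_mul]
    _ ≤ (I.card * (3 * L)) * ((I.card * (3 * L)) * (14000 * L * P ^ 4 * (N : ℝ) ^ 2 * Q)) := by gcongr
    _ = (I.card : ℝ) ^ 2 * (126000 * L ^ 3) * P ^ 4 * (N : ℝ) ^ 2 * Q := by ring
    _ ≤ (I.card : ℝ) ^ 2 * (400000 * L ^ 3) * P ^ 4 * (N : ℝ) ^ 2 * Q := by
        gcongr
        norm_num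

end Pool.Agent.KS6_25.SH
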