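import Pool.Agent.KS6_25.SH.C5

set_option autoImplicit false

/-!
# The minor arcs: conclusion
-/

namespace Pool.Agent.KS6_25.SH

open Finset
open Pool.Agent.R460.GS
open Pool.Agent.R460.GH
open Pool.Agent.Y883.GJ (LA LS FF)
open Pool.Agent.H807R2.Dav (ee KK KK_nonneg KK_le' dd vino)
open Pool.Agent.H373R2.T7 (Vz)
open Pool.Agent.Y614.GJ.Core (ev_log)

/-- the multiples of the frequencies are far from the integers -/
lemma far_minor {k r : ℕ} {h : ℤ} {γ α δ : ℝ} (hk : 1 ≤ k) (hcop : IsCoprime h (k : ℤ)) (hr : 1 ≤ r) (hrk : r < k)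
    (hα : |α - h / k| ≤ δ) (h1 : r * δ ≤ 1 / (4 * k)) (h2 : r * |γ - α| ≤ 1 / (4 * k)) : 2 / (k : ℝ) ≤ dd (r * γ) := by
  have hk0 : (0 : ℝ) < k := by exact_mod_cast hk
  have key := dd_ge_dist (x := r * γ) (δ := 1 / (2 * (k : ℝ))) (by
    intro n
    have hne : (r : ℤ) * h - n * k ≠ 0 := by
      intro h0
      have h3 : (k : ℤ) ∣ (r : ℤ) * h := ⟨n, by linarith⟩
      have h4 : (k : ℤ) ∣ (r : ℤ) := (hcop.symm).dvd_of_dvd_mul_right h3
      have h5 : k ∣ r := by exact_mod_cast h4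
      have := Nat.le_of_dvd (by omega) h5
      omega
    have h3 : (1 : ℝ) ≤ |(r : ℝ) * h - n * k| := by
      have : (1 : ℤ) ≤ |(r : ℤ) * h - n * k| := Int.one_le_abs hne
      exact_mod_cast this
    have h4 : 1 / (k : ℝ) ≤ |(r : ℝ) * ((h : ℝ) / k) - n| := by
      have e : (r : ℝ) * (h / k) - n = ((r : ℝ) * h - n * k) / k := by field_simp
      rw [e, abs_div, abs_of_pos hk0]
      exact div_le_div_of_nonneg_right h3 hk0.le
    have h5 : |(r : ℝ) * (α - h / k)| ≤ 1 / (4 * k) := by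
      rw [abs_mul, abs_of_nonneg (Nat.cast_nonneg r)]
      exact (mul_le_mul_of_nonneg_left hα (Nat.cast_nonneg r)).trans h1
    have h6 : |(r : ℝ) * (γ - α)| ≤ 1 / (4 * k) := by
      rw [abs_mul, abs_of_nonneg (Nat.cast_nonneg r)]
      exact h2
    have h7 : (r : ℝ) * ((h : ℝ) / k) - n = (r * γ - n) - ((r : ℝ) * (γ - α) + (r : ℝ) * (α - h / k)) := by ring
    have h8 := abs_sub (r * γ - n : ℝ) ((r : ℝ) * (γ - α) + (r : ℝ) * (α - h / k))
    rw [← h7] at h8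
    have h9 := abs_add_le ((r : ℝ) * (γ - α)) ((r : ℝ) * (α - h / k))
    have h10 : 1 / (k : ℝ) = 1 / (2 * k) + (1 / (4 * k) + 1 / (4 * k)) := by field_simp; norm_num
    linarith)
  have h6 : 2 / (k : ℝ) = 4 * (1 / (2 * k)) := by field_simp; norm_num
  rw [h6]
  exact key

theorem minor (A : ℕ) {ρ κ : ℝ} (hρ : 0 < ρ) (hρ1 : ρ ≤ 1 / 4) (hκ0 : 0 < κ) (hκ : κ ≤ ρ / 4) : ∃ C N₀ : ℕ,
    ∀ N : ℕ, N₀ ≤ N → ∀ (I : Finset (ℕ × ℕ)) (M₀ W Z : ℕ) (c : ℕ → ℂ) (a b : ℕ × ℕ → ℕ → ℂ) (R : ℕ → ℂ),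
    Good (A + 8) κ N I M₀ W Z c a b R → ∀ z r : ℕ, ((((z + 1) ^ r) ^ 100 : ℕ) : ℝ) ≤ N → (Vz z)⁻¹ ≤ Real.log N →
    ∀ R₀ H : ℕ, 1 ≤ H → H ≤ N → 2 * R₀ * H ≤ 2 * N + 1 → (R₀ : ℝ) ≤ (N : ℝ) ^ (2 / 3 - ρ) →
    (N : ℝ) ^ (1 / 3 + ρ / 2) ≤ H → ∀ (α : ℝ) (k : ℕ) (h : ℤ), IsCoprime h (k : ℤ) → Real.log N ^ C ≤ k →
    (k : ℝ) * Real.log N ^ C ≤ H → |α - h / k| ≤ Real.log N ^ C / (k * H) →
    ∑ s ∈ range R₀, ‖cf N (FF z r) (gam N α s)‖ ^ 2 ≤ (N : ℝ) ^ 2 / Real.log N ^ A := by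
  obtain ⟨C, hC⟩ : ∃ C, C = 2 * (A + 28) + 7 + A + 4 := ⟨_, rfl⟩
  obtain ⟨s₀, hs₀⟩ : ∃ s₀ : ℝ, s₀ = min κ (ρ / 4) := ⟨_, rfl⟩
  have hs0 : 0 < s₀ := by rw [hs₀]; exact lt_min hκ0 (by positivity)
  obtain ⟨N₁, h1⟩ := smooth_part (A + 1) hρ hρ1
  obtain ⟨N₂, h2⟩ := Filter.eventually_atTop.1 (ev_log (C + A + 12) (s := s₀) hs0 10000000000)
  refine ⟨C, max N₁ (max N₂ 1000000), fun N hN I M₀ W Z c a b R hG z r hD hV R₀ H hH1 hHN hRH hR hHρ α k h hcop hk1 hk2 hα => ?_⟩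
  have hS := h1 N (le_trans (le_max_left _ _) hN)
  obtain ⟨hL, hLp⟩ := h2 N (le_trans (le_trans (le_max_left _ _) (le_max_right _ _)) hN)
  have hNbig : 1000000 ≤ N := le_trans (le_trans (le_max_right _ _) (le_max_right _ _)) hN
  have hN1 : 1 ≤ N := by omega
  have hN0 : (0 : ℝ) < N := by exact_mod_cast hN1
  have hNr1 : (1 : ℝ) ≤ N := by exact_mod_cast hN1
  obtain ⟨L, hLd⟩ : ∃ L, L = Real.log (N : ℝ) := ⟨_, rfl⟩
  obtain ⟨Dz, hDz⟩ : ∃ Dz, Dz = (z + 1) ^ r := ⟨_, rfl⟩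
  have hDz1 : 1 ≤ Dz := by
    rw [hDz]
    exact Nat.one_le_pow _ _ (by omega)
  have hDr : (Dz : ℝ) ≤ (N : ℝ) ^ (1 / 100 : ℝ) := by
    rw [hDz]
    exact Pool.Agent.R462.GS.D_le hD
  have hDN : (z + 1) ^ r ≤ N := by
    have i1 : Dz ^ 100 ≤ N := by
      rw [hDz]
      exact_mod_cast hD
    rw [← hDz]
    exact (Nat.le_self_pow (by norm_num) Dz).trans i1
  rw [← hLd] at hk1 hk2 hα hL hLp
  have hL0 : 0 < L := by linarith
  have hL1 : 1 ≤ L := by linarith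
  have hLC0 : 0 < L ^ C := by positivity
  have hLC1 : 1 ≤ L ^ C := one_le_pow₀ hL1
  have hk0 : (0 : ℝ) < k := by linarith
  have hkn : 1 ≤ k := by exact_mod_cast hk0
  have hH0 : (0 : ℝ) < H := by exact_mod_cast hH1
  have hkH : (k : ℝ) ≤ H := by
    calc (k : ℝ) = k * 1 := (mul_one _).symm
      _ ≤ k * L ^ C := by gcongr
      _ ≤ H := hk2
  have hHNr : (H : ℝ) ≤ N := by exact_mod_cast hHN
  have hkN : k ≤ N := by
    have : (k : ℝ) ≤ N := hkH.trans hHNr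
    exact_mod_cast this
  obtain ⟨hp1, hp2⟩ := log3 (N := N) (by rw [← hLd]; linarith)
  -- the range of `Z`
  have hZs : (Z : ℝ) * L ^ (C + A + 12) ≤ 3 * H := by
    calc (Z : ℝ) * L ^ (C + A + 12) ≤ (3 * (N : ℝ) ^ (1 / 3 + κ)) * (N : ℝ) ^ s₀ := by
          gcongr
          exact hG.hZ
      _ = 3 * (N : ℝ) ^ (1 / 3 + κ + s₀) := by rw [mul_assoc, ← Real.rpow_add hN0]
      _ ≤ 3 * (N : ℝ) ^ (1 / 3 + ρ / 2) := by
          have : s₀ ≤ ρ / 4 := by rw [hs₀]; exact min_le_right _ _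
          have := Real.rpow_le_rpow_of_exponent_le hNr1 (show 1 / 3 + κ + s₀ ≤ 1 / 3 + ρ / 2 by linarith)
          linarith
      _ ≤ 3 * H := by linarith
  have hLbig : L ≤ L ^ (C + A + 12) := by
    calc L = L ^ 1 := (pow_one L).symm
      _ ≤ _ := pow_le_pow_right₀ hL1 (by omega)
  have hZN : Z ≤ N := by
    have h3 : (Z : ℝ) * 3 ≤ 3 * N := by
      calc (Z : ℝ) * 3 ≤ Z * L ^ (C + A + 12) := by
            gcongr
            linarith
        _ ≤ 3 * H := hZs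
        _ ≤ 3 * N := by linarith
    have : (Z : ℝ) ≤ N := by linarith
    exact_mod_cast this
  have hWs : L ^ (C + A + 12) ≤ 2 * W := by
    refine hLp.trans (le_trans ?_ hG.hW)
    exact Real.rpow_le_rpow_of_exponent_le hNr1 (by rw [hs₀]; exact min_le_left _ _)
  have hα2 : |α - h / k| ≤ 1 / (k : ℝ) ^ 2 := by
    refine hα.trans ?_
    rw [div_le_div_iff₀ (by positivity) (by positivity)]
    calc L ^ C * (k : ℝ) ^ 2 = (k * L ^ C) * k := by ring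
      _ ≤ H * k := by gcongr
      _ = 1 * (k * H) := by ring
  have hRM : R₀ ≤ 2 * N + 1 := by
    calc R₀ ≤ R₀ * H := Nat.le_mul_of_pos_right _ hH1
      _ ≤ 2 * R₀ * H := by nlinarith
      _ ≤ 2 * N + 1 := hRH
  have hRHr : 2 * (R₀ : ℝ) * H ≤ 3 * N := by
    have : ((2 * R₀ * H : ℕ) : ℝ) ≤ ((2 * N + 1 : ℕ) : ℝ) := by exact_mod_cast hRH
    push_cast at this
    linarith
  have hM0 : (0 : ℝ) < ((2 * N + 1 : ℕ) : ℝ) := by positivity
  -- type I
  obtain ⟨E₀, hE₀⟩ : ∃ E₀ : ℝ, E₀ = R₀ * (9 / 4 * (k : ℝ) ^ 2) := ⟨_, rfl⟩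
  have hE0 : 0 ≤ E₀ := by rw [hE₀]; positivity
  have hE1 : E₀ ≤ (N : ℝ) ^ 2 / L ^ (2 * (A + 1 + 8)) := by
    rw [hE₀, le_div_iff₀ (by positivity)]
    calc (R₀ : ℝ) * (9 / 4 * (k : ℝ) ^ 2) * L ^ (2 * (A + 1 + 8))
        ≤ (R₀ : ℝ) * (9 / 4 * (k : ℝ) ^ 2) * (L ^ C * L ^ C / 4) := by
          have : L ^ (2 * (A + 1 + 8)) ≤ L ^ C * L ^ C / 4 := by
            rw [← pow_add, le_div_iff₀ (by norm_num)]
            calc L ^ (2 * (A + 1 + 8)) * 4 ≤ L ^ (2 * (A + 1 + 8)) * L := by gcongr; linarith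
              _ = L ^ (2 * (A + 1 + 8) + 1) := by ring
              _ ≤ L ^ (C + C) := pow_le_pow_right₀ hL1 (by omega)
          gcongr
      _ = 9 / 16 * (R₀ * ((k * L ^ C) * (k * L ^ C))) := by ring
      _ ≤ 9 / 16 * (R₀ * (H * N)) := by gcongr; exact hk2.trans hHNr
      _ = 9 / 32 * ((2 * R₀ * H) * N) := by ring
      _ ≤ 9 / 32 * ((3 * N) * N) := by gcongr
      _ ≤ (N : ℝ) ^ 2 := by nlinarith [sq_nonneg (N : ℝ)]
  have hTT : (TT N (A + 1) : ℝ) ≤ 2 * L ^ (A + 1 + 8) := by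
    unfold TT
    rw [← hLd]
    push_cast
    have h3 : 1 ≤ L ^ (A + 1 + 8) := one_le_pow₀ hL1
    have := Nat.floor_le (show 0 ≤ L ^ (A + 1 + 8) by positivity)
    linarith
  have hTC : 8 * (TT N (A + 1) : ℝ) ≤ L ^ C := by
    calc 8 * (TT N (A + 1) : ℝ) ≤ 16 * L ^ (A + 1 + 8) := by linarith
      _ ≤ L * L ^ (A + 1 + 8) := by gcongr; linarith
      _ = L ^ (A + 10) := by ring
      _ ≤ L ^ C := pow_le_pow_right₀ hL1 (by omega)
  have hfar : ∀ r : ℕ, 1 ≤ r → r < TT N (A + 1) → ∑ s ∈ range R₀, KK ((N : ℝ) / r) (r * gam N α s) ^ 2 ≤ E₀ := by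
    intro r hr1 hrT
    have hr0 : (0 : ℝ) < r := by exact_mod_cast hr1
    have hrTr : (r : ℝ) ≤ TT N (A + 1) := by exact_mod_cast hrT.le
    have hrC : 8 * (r : ℝ) ≤ L ^ C := by linarith
    have hrk : r < k := by
      have : (r : ℝ) < k := by linarith
      exact_mod_cast this
    have hpt : ∀ s ∈ range R₀, KK ((N : ℝ) / r) (r * gam N α s) ^ 2 ≤ 9 / 4 * (k : ℝ) ^ 2 := by
      intro s hs
      rw [mem_range] at hs
      have h5 := far_minor (γ := gam N α s) hkn hcop hr1 hrk hα (by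
        rw [mul_div_assoc', div_le_div_iff₀ (by positivity) (by positivity)]
        have h6 : 4 * (r : ℝ) * L ^ C ≤ H := by
          calc 4 * (r : ℝ) * L ^ C ≤ L ^ C * L ^ C := by
                gcongr
                linarith
            _ ≤ k * L ^ C := by gcongr
            _ ≤ H := hk2
        calc (r : ℝ) * L ^ C * (4 * k) = (4 * r * L ^ C) * k := by ring
          _ ≤ H * k := by gcongr
          _ = 1 * (k * H) := by ring) (by
        have h6 : |gam N α s - α| ≤ R₀ / ((2 * N + 1 : ℕ) : ℝ) := by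
          unfold gam
          rw [add_sub_cancel_left, abs_of_nonneg (by positivity)]
          gcongr
        rw [le_div_iff₀ (by positivity)]
        calc (r : ℝ) * |gam N α s - α| * (4 * k) ≤ r * (R₀ / ((2 * N + 1 : ℕ) : ℝ)) * (4 * k) := by gcongr
          _ = (4 * r * k * R₀) / ((2 * N + 1 : ℕ) : ℝ) := by ring
          _ ≤ 1 := by
              rw [div_le_one hM0]
              calc 4 * (r : ℝ) * k * R₀ ≤ L ^ C * k * R₀ := by
                    gcongr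
                    linarith
                _ = (k * L ^ C) * R₀ := by ring
                _ ≤ H * R₀ := by gcongr
                _ = (2 * R₀ * H) / 2 := by ring
                _ ≤ ((2 * N + 1 : ℕ) : ℝ) := by
                    have : ((2 * R₀ * H : ℕ) : ℝ) ≤ ((2 * N + 1 : ℕ) : ℝ) := by exact_mod_cast hRH
                    push_cast at this ⊢
                    linarith)
      have h7 : KK ((N : ℝ) / r) (r * gam N α s) ≤ 3 / (2 / (k : ℝ)) :=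
        KK_le' (by positivity) (by positivity) h5
      have h8 : 3 / (2 / (k : ℝ)) = 3 / 2 * k := by field_simp
      rw [h8] at h7
      calc KK ((N : ℝ) / r) (r * gam N α s) ^ 2 ≤ (3 / 2 * (k : ℝ)) ^ 2 :=
            pow_le_pow_left₀ (KK_nonneg (by positivity) _) h7 2
        _ = _ := by ring
    refine (sum_le_sum hpt).trans (le_of_eq ?_)
    rw [sum_const, card_range, nsmul_eq_mul, hE₀]
  rw [hLd] at hE1
  have hsm := hS M₀ Dz R₀ hG.hM1 hG.hM hDz1 hDr hR α E₀ (range R₀) subset_rfl hE0 hE1 hfar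
  -- type II
  have ht2 := t2_minor (N := N) (N₃ := 3 * N) hN1 le_rfl hG.dec (by rw [← hLd]; positivity) hG.hW1 hZN hH1 hHN hRH
    (by rw [← hLd]; linarith) hkn hcop hα2 hkN
  have hall := all_parts hN1 (by omega : N ≤ 3 * N) hG.dec hDN hV hRM α (range R₀) subset_rfl
  rw [← hLd] at hsm ht2 hall ⊢
  rw [hDz] at hsm
  have hW0 : (0 : ℝ) < W := by exact_mod_cast hG.hW1
  have hI := hG.hI
  rw [← hLd] at hI
  have hQ : 1 / (k : ℝ) + 1 / W + Z / H + k / H ≤ 7 / L ^ C := by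
    have q1 : 1 / (k : ℝ) ≤ 1 / L ^ C := one_div_le_one_div_of_le hLC0 hk1
    have hLC2 : L ^ C ≤ L ^ (C + A + 12) := pow_le_pow_right₀ hL1 (by omega)
    have q2 : 1 / (W : ℝ) ≤ 2 / L ^ C := by
      rw [div_le_div_iff₀ hW0 hLC0]
      linarith
    have q3 : (Z : ℝ) / H ≤ 3 / L ^ C := by
      rw [div_le_div_iff₀ hH0 hLC0]
      calc (Z : ℝ) * L ^ C ≤ Z * L ^ (C + A + 12) := by gcongr
        _ ≤ 3 * H := hZs
    have q4 : (k : ℝ) / H ≤ 1 / L ^ C := by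
      rw [div_le_div_iff₀ hH0 hLC0]
      linarith
    have e : 7 / L ^ C = 1 / L ^ C + 2 / L ^ C + 3 / L ^ C + 1 / L ^ C := by ring
    rw [e]
    linarith
  have ht2' : 4 * ∑ s ∈ range R₀, ‖cf N (T2 I a b) (gam N α s)‖ ^ 2 ≤ (N : ℝ) ^ 2 / L ^ A / 4 := by
    calc 4 * ∑ s ∈ range R₀, ‖cf N (T2 I a b) (gam N α s)‖ ^ 2
        ≤ 4 * ((I.card : ℝ) ^ 2 * (400000 * L ^ 3) * (3 * L) ^ 4 * (N : ℝ) ^ 2 *
          (1 / k + 1 / W + Z / H + k / H)) := by gcongr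
      _ ≤ 4 * ((L ^ (A + 8 + 20)) ^ 2 * (400000 * L ^ 3) * (3 * L) ^ 4 * (N : ℝ) ^ 2 * (7 / L ^ C)) := by
          gcongr
      _ = (N : ℝ) ^ 2 / L ^ A / 4 * (3628800000 / L ^ 4) := by
          have e : L ^ C = (L ^ (A + 8 + 20)) ^ 2 * L ^ 7 * L ^ A * L ^ 4 := by
            rw [hC]
            ring
          rw [e]
          have : L ^ (A + 8 + 20) ≠ 0 := by positivity
          have : L ^ A ≠ 0 := by positivity
          generalize L ^ (A + 8 + 20) = u at *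
          generalize L ^ A = v at *
          field_simp
          ring
      _ ≤ (N : ℝ) ^ 2 / L ^ A / 4 * 1 := by
          have : 3628800000 / L ^ 4 ≤ 1 := by
            rw [div_le_one (by positivity)]
            calc (3628800000 : ℝ) ≤ L := by linarith
              _ = L ^ 1 := (pow_one L).symm
              _ ≤ L ^ 4 := pow_le_pow_right₀ hL1 (by norm_num)
          gcongr
      _ = _ := mul_one _
  have hX : 4 * (((2 * N + 1 : ℕ) : ℝ) * ((N : ℝ) / L ^ (A + 8))) ≤ (N : ℝ) ^ 2 / L ^ A / 4 := by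
    have h3N : ((2 * N + 1 : ℕ) : ℝ) ≤ 3 * N := by
      push_cast
      linarith
    calc 4 * (((2 * N + 1 : ℕ) : ℝ) * ((N : ℝ) / L ^ (A + 8))) ≤ 4 * ((3 * N) * ((N : ℝ) / L ^ (A + 8))) := by gcongr
      _ = (N : ℝ) ^ 2 / L ^ A / 4 * (48 / L ^ 8) := by
          rw [pow_add]
          field_simp
          ring
      _ ≤ (N : ℝ) ^ 2 / L ^ A / 4 * 1 := by
          have : 48 / L ^ 8 ≤ 1 := by
            rw [div_le_one (by positivity)]
            calc (48 : ℝ) ≤ L := by linarith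
              _ = L ^ 1 := (pow_one L).symm
              _ ≤ L ^ 8 := pow_le_pow_right₀ hL1 (by norm_num)
          gcongr
      _ = _ := mul_one _
  have hsm' : (N : ℝ) ^ 2 / L ^ (A + 1) ≤ (N : ℝ) ^ 2 / L ^ A / 4 := by
    have hLA : 0 < L ^ A := by positivity
    rw [div_div]
    apply div_le_div_of_nonneg_left (by positivity) (by positivity)
    rw [pow_succ]
    exact mul_le_mul_of_nonneg_left (by linarith) hLA.le
  have hpos : 0 ≤ (N : ℝ) ^ 2 / L ^ A := by positivity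
  linarith

end Pool.Agent.KS6_25.SH
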