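import Pool.Graph.R_pool_sql_team_seeded_620a6dc7.helper24_UT_.II

set_option autoImplicit false

/-!
# Large values of Dirichlet polynomials at integral frequencies
-/

namespace Pool.Agent.KS6_25.SH

open Finset
open Pool.Agent.helper24_UT.II (tau tau_nonneg one_le_tau tau_mono tau_pow_sum collect energy Mv)
open Pool.Agent.H376R2.MR (ch er DP FK)

/-- powers of Dirichlet polynomials -/
lemma powDP (s : Finset ℕ) (X : ℕ) (hs : ∀ n ∈ s, 1 ≤ n ∧ n ≤ X) (a : ℕ → ℂ) {P : ℝ} (hP : 0 ≤ P)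
    (ha : ∀ n ∈ s, ‖a n‖ ≤ P) (l : ℕ) : ∃ w : ℕ → ℂ, (∀ n ∈ Icc 1 (X ^ l), ‖w n‖ ≤ P ^ l * tau n ^ l) ∧
      ∀ k : ℤ, DP s a k ^ l = DP (Icc 1 (X ^ l)) w k := by
  classical
  induction l with
  | zero =>
    refine ⟨fun _ => 1, fun n _ => by simp, fun k => ?_⟩
    unfold DP ch
    simp
  | succ l ih =>
    obtain ⟨w, hw, hw2⟩ := ih
    obtain ⟨T, hT⟩ : ∃ T, T = s ×ˢ Icc 1 (X ^ l) := ⟨_, rfl⟩
    have hTm : ∀ p ∈ T, (1 ≤ p.1 ∧ p.1 ≤ X) ∧ p.1 ∈ s ∧ (1 ≤ p.2 ∧ p.2 ≤ X ^ l) := by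
      intro p hp
      rw [hT, mem_product, mem_Icc] at hp
      exact ⟨hs _ hp.1, hp.1, hp.2⟩
    refine ⟨fun n => ∑ p ∈ T.filter (fun p => p.1 * p.2 = n), a p.1 * w p.2, fun n hn => ?_, fun k => ?_⟩
    · rw [mem_Icc] at hn
      have hn0 : n ≠ 0 := by omega
      have h1 : ∀ p ∈ T.filter (fun p => p.1 * p.2 = n), ‖a p.1 * w p.2‖ ≤ P ^ (l + 1) * tau n ^ l := by
        intro p hp
        rw [mem_filter] at hp
        obtain ⟨h2, h3, h4⟩ := hTm p hp.1
        rw [norm_mul]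
        have h5 : tau p.2 ≤ tau n := tau_mono hn0 ⟨p.1, by rw [← hp.2, mul_comm]⟩
        calc ‖a p.1‖ * ‖w p.2‖ ≤ P * (P ^ l * tau p.2 ^ l) :=
              mul_le_mul (ha _ h3) (hw _ (mem_Icc.2 h4)) (norm_nonneg _) hP
          _ ≤ P * (P ^ l * tau n ^ l) := by
              have := tau_nonneg p.2
              gcongr
          _ = _ := by ring
      refine (norm_sum_le_of_le _ h1).trans ?_
      rw [sum_const, nsmul_eq_mul]
      have h6 : ((T.filter (fun p => p.1 * p.2 = n)).card : ℝ) ≤ tau n := by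
        unfold tau
        have : (T.filter (fun p => p.1 * p.2 = n)).card ≤ n.divisors.card := by
          apply card_le_card_of_injOn (fun p => p.1)
          · intro p hp
            rw [mem_coe, mem_filter] at hp
            rw [mem_coe, Nat.mem_divisors]
            exact ⟨⟨p.2, hp.2.symm⟩, hn0⟩
          · intro p hp q hq hpq
            rw [mem_coe, mem_filter] at hp hq
            have h7 : p.1 = q.1 := hpq
            have h8 : p.1 * p.2 = p.1 * q.2 := by rw [hp.2, h7, hq.2]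
            have h9 := Nat.eq_of_mul_eq_mul_left (by have := (hTm p hp.1).1.1; omega) h8
            exact Prod.ext h7 h9
        exact_mod_cast this
      calc ((T.filter (fun p => p.1 * p.2 = n)).card : ℝ) * (P ^ (l + 1) * tau n ^ l)
          ≤ tau n * (P ^ (l + 1) * tau n ^ l) := by
            have := tau_nonneg n
            gcongr
        _ = _ := by ring
    · rw [pow_succ, hw2, mul_comm]
      have h1 := collect (Icc 1 (X ^ (l + 1))) T a w k (fun p hp => by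
        have := hTm p hp
        omega) (fun p hp => by
        obtain ⟨h2, h3, h4⟩ := hTm p hp
        rw [mem_Icc]
        refine ⟨Nat.mul_pos h2.1 h4.1, ?_⟩
        rw [pow_succ, mul_comm (X ^ l)]
        exact Nat.mul_le_mul h2.2 h4.2)
      rw [← h1, hT, sum_product]
      unfold DP
      rw [sum_mul_sum]

/-- few frequencies have large values -/
lemma bad_count {C : ℝ} (hC : 0 < C) (hmv : Mv C) (s : Finset ℕ) (X : ℕ) (hX : 1 ≤ X) (hs : ∀ n ∈ s, 1 ≤ n ∧ n ≤ X)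
    (a : ℕ → ℂ) {P : ℝ} (hP : 0 ≤ P) (ha : ∀ n ∈ s, ‖a n‖ ≤ P) (l K : ℕ) (hK : 1 ≤ K) {T : ℝ} (hT : 0 < T) :
    (((FK K).filter (fun k => T < ‖DP s a k‖)).card : ℝ) * T ^ (2 * l) ≤
      C * (1 + l * Real.log X) * (((X : ℝ) ^ l + K) * (P ^ (2 * l) * ((X : ℝ) ^ l * (1 + l * Real.log X) ^ (2 ^ (2 * l))))) := by
  classical
  obtain ⟨w, hw, hw2⟩ := powDP s X hs a hP ha l
  have hXl : 1 ≤ X ^ l := Nat.one_le_pow _ _ hX
  have hlog : Real.log ((X ^ l : ℕ) : ℝ) = l * Real.log X := by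
    rw [Nat.cast_pow, Real.log_pow]
  have hG : ∑ n ∈ Icc 1 (X ^ l), ‖w n‖ ^ 2 ≤ P ^ (2 * l) * ((X : ℝ) ^ l * (1 + l * Real.log X) ^ (2 ^ (2 * l))) := by
    calc ∑ n ∈ Icc 1 (X ^ l), ‖w n‖ ^ 2 ≤ ∑ n ∈ Icc 1 (X ^ l), P ^ (2 * l) * tau n ^ (2 * l) := by
          refine sum_le_sum fun n hn => ?_
          refine (pow_le_pow_left₀ (norm_nonneg _) (hw n hn) 2).trans (le_of_eq ?_)
          rw [mul_pow, ← pow_mul, ← pow_mul, mul_comm l 2]
      _ = P ^ (2 * l) * ∑ n ∈ Icc 1 (X ^ l), tau n ^ (2 * l) := by rw [mul_sum]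
      _ ≤ P ^ (2 * l) * (((X ^ l : ℕ) : ℝ) * (1 + Real.log ((X ^ l : ℕ) : ℝ)) ^ (2 ^ (2 * l))) := by
          apply mul_le_mul_of_nonneg_left _ (by positivity)
          exact tau_pow_sum (2 * l) (X ^ l) hXl
      _ = _ := by
          rw [hlog]
          push_cast
          ring
  have hE := energy hC hmv (Icc 1 (X ^ l)) w ((X ^ l : ℕ) : ℝ) ((X ^ l : ℕ) : ℝ) _ K (by exact_mod_cast hXl)
    (Nat.cast_nonneg _) le_rfl (fun n hn => by
      rw [mem_Icc] at hn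
      exact ⟨hn.1, by exact_mod_cast hn.2⟩) hG hK
  rw [hlog] at hE
  push_cast at hE
  refine le_trans ?_ hE
  calc (((FK K).filter (fun k => T < ‖DP s a k‖)).card : ℝ) * T ^ (2 * l) =
      ∑ k ∈ (FK K).filter (fun k => T < ‖DP s a k‖), T ^ (2 * l) := by rw [sum_const, nsmul_eq_mul]
    _ ≤ ∑ k ∈ (FK K).filter (fun k => T < ‖DP s a k‖), ‖DP (Icc 1 (X ^ l)) w k‖ ^ 2 := by
        refine sum_le_sum fun k hk => ?_
        rw [mem_filter] at hk
        rw [← hw2 k, norm_pow, ← pow_mul, mul_comm l 2]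
        exact pow_le_pow_left₀ hT.le hk.2.le _
    _ ≤ ∑ k ∈ FK K, ‖DP (Icc 1 (X ^ l)) w k‖ ^ 2 :=
        sum_le_sum_of_subset_of_nonneg (filter_subset _ _) fun _ _ _ => sq_nonneg _

end Pool.Agent.KS6_25.SH
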