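import Pool.Agent.KS6_25.SH.D1

set_option autoImplicit false

/-!
# Bilinear sums in residue classes, mean square over the good frequencies
-/

namespace Pool.Agent.KS6_25.SH

open Finset
open Pool.Agent.helper24_UT
open Pool.Agent.helper24_UT.II (tau tau_nonneg one_le_tau tau_mono tau_pow_sum collect energy Mv ce Qs Sh MM MM_ge
  MM_succ decomp sd1 sd2 Sh_sub errE card_Qs exp_le_two)
open Pool.Agent.H376R2.MR (ch er DP FK)

lemma pair_count (n : ℕ) (hn : 1 ≤ n) (S : Finset (ℕ × ℕ)) (hS : ∀ p ∈ S, p.1 * p.2 = n) (f : ℕ × ℕ → ℂ) {X : ℝ}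
    (hX : 0 ≤ X) (hf : ∀ p ∈ S, ‖f p‖ ≤ X) : ‖∑ p ∈ S, f p‖ ≤ X * tau n := by
  classical
  refine (norm_sum_le_of_le _ hf).trans ?_
  rw [sum_const, nsmul_eq_mul, mul_comm]
  apply mul_le_mul_of_nonneg_left _ hX
  unfold tau
  have hn0 : n ≠ 0 := by omega
  have : S.card ≤ n.divisors.card := by
    apply card_le_card_of_injOn (fun p => p.1)
    · intro p hp
      rw [mem_coe] at hp
      rw [mem_coe, Nat.mem_divisors]
      exact ⟨⟨p.2, (hS p hp).symm⟩, hn0⟩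
    · intro p hp q hq hpq
      rw [mem_coe] at hp hq
      have h7 : p.1 = q.1 := hpq
      have h8 : p.1 * p.2 = p.1 * q.2 := by rw [hS p hp, h7, hS q hq]
      have h0 : 0 < p.1 := by
        rcases Nat.eq_zero_or_pos p.1 with h | h
        · have := hS p hp
          rw [h, zero_mul] at this
          omega
        · exact h
      have h9 := Nat.eq_of_mul_eq_mul_left h0 h8
      exact Prod.ext h7 h9
  exact_mod_cast this

/-- separation of the variables -/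
lemma bl_id {D : ℝ} (hD : 2 ≤ D) {U Y q r : ℕ} (hU : 1 ≤ U) (hq : 1 ≤ q) {P : ℝ} (hP : 0 ≤ P) (a b : ℕ → ℂ)
    (ha : ∀ m, a m ≠ 0 → U < m) (ha1 : ∀ m ∈ Icc 1 (3 * Y), ‖a m‖ ≤ P) (hb1 : ∀ m ∈ Icc 1 (3 * Y), ‖b m‖ ≤ P) :
    ∃ e : ℕ → ℂ, (∀ n ∈ Sh D Y, ‖e n‖ ≤ 2 * (P ^ 2 * tau n)) ∧ ∀ k : ℤ,
      DP ((Ioc Y (3 * Y)).filter (fun n => n % q = r % q)) (fun n => ∑ m ∈ n.divisors, a m * b (n / m)) k =
      DP (Sh D Y) e k + ∑ j ∈ range ⌈D * Real.log ((3 * Y : ℕ) : ℝ)⌉₊ ×ˢ Qs q r,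
        DP ((ce D U Y j.1).filter (fun m => m % q = j.2.1)) a k *
        DP ((II.JJ D U 0 Y j.1).filter (fun m => m % q = j.2.2)) b k := by
  classical
  have hD0 : 0 < D := by linarith
  obtain ⟨c1, hc1⟩ : ∃ c1 : ℕ → ℂ, c1 = fun n => ∑ p ∈ (II.T1 U 0 Y q r \ II.T2 D U 0 Y q r).filter
    (fun p => p.1 * p.2 = n), a p.1 * b p.2 := ⟨_, rfl⟩
  obtain ⟨c2, hc2⟩ : ∃ c2 : ℕ → ℂ, c2 = fun n => ∑ p ∈ (II.T2 D U 0 Y q r \ II.T1 U 0 Y q r).filter
    (fun p => p.1 * p.2 = n), a p.1 * b p.2 := ⟨_, rfl⟩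
  have hT1 : ∀ p ∈ II.T1 U 0 Y q r, (p.1 ∈ Icc 1 (3 * Y) ∧ p.2 ∈ Icc 1 (3 * Y)) := by
    intro p hp
    simp only [II.T1, Finset.mem_filter, Finset.mem_product, Finset.mem_Ioc] at hp
    rw [mem_Icc, mem_Icc]
    omega
  have hT2 : ∀ p ∈ II.T2 D U 0 Y q r, (p.1 ∈ Icc 1 (3 * Y) ∧ p.2 ∈ Icc 1 (3 * Y)) := by
    intro p hp
    simp only [II.T2, Finset.mem_filter, Finset.mem_product, Finset.mem_Ioc] at hp
    rw [mem_Icc, mem_Icc]
    omega
  have hne : ∀ p : ℕ × ℕ, (p.1 ∈ Icc 1 (3 * Y) ∧ p.2 ∈ Icc 1 (3 * Y)) → p.1 ≠ 0 ∧ p.2 ≠ 0 := by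
    intro p hp
    rw [mem_Icc, mem_Icc] at hp
    omega
  have hab : ∀ p : ℕ × ℕ, (p.1 ∈ Icc 1 (3 * Y) ∧ p.2 ∈ Icc 1 (3 * Y)) → ‖a p.1 * b p.2‖ ≤ P ^ 2 := by
    intro p hp
    rw [norm_mul, sq]
    exact mul_le_mul (ha1 _ hp.1) (hb1 _ hp.2) (norm_nonneg _) hP
  refine ⟨fun n => c1 n - c2 n, fun n hn => ?_, fun k => ?_⟩
  · have hn1 := Finset.mem_Icc.mp (Sh_sub hD Y hn)
    refine (norm_sub_le _ _).trans ?_
    have h3 : ‖c1 n‖ ≤ P ^ 2 * tau n := by
      rw [hc1]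
      exact pair_count n hn1.1 _ (fun p hp => (mem_filter.1 hp).2) _ (sq_nonneg P)
        (fun p hp => hab p (hT1 p (mem_sdiff.1 (mem_filter.1 hp).1).1))
    have h4 : ‖c2 n‖ ≤ P ^ 2 * tau n := by
      rw [hc2]
      exact pair_count n hn1.1 _ (fun p hp => (mem_filter.1 hp).2) _ (sq_nonneg P)
        (fun p hp => hab p (hT2 p (mem_sdiff.1 (mem_filter.1 hp).1).1))
    linarith
  · obtain ⟨F, hF⟩ : ∃ F : ℕ × ℕ → ℂ, F = fun p => (a p.1 * ch k (Real.log p.1)) * (b p.2 * ch k (Real.log p.2)) :=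
      ⟨_, rfl⟩
    have h1 : DP ((Ioc Y (3 * Y)).filter (fun n => n % q = r % q)) (fun n => ∑ m ∈ n.divisors, a m * b (n / m)) k =
        ∑ p ∈ II.T1 U 0 Y q r, F p := by
      rw [hF, collect ((Ioc Y (3 * Y)).filter (fun n => n % q = r % q)) (II.T1 U 0 Y q r) a b k
        (fun p hp => hne p (hT1 p hp))]
      · unfold DP
        refine Finset.sum_congr rfl fun n hn => ?_
        congr 1
        beta_reduce
        rw [← Nat.sum_divisorsAntidiagonal (fun x y => a x * b y)]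
        have h2 : ∑ x ∈ n.divisorsAntidiagonal, a x.1 * b x.2 = ∑ x ∈ n.divisorsAntidiagonal.filter
            (fun x => U < x.1 ∧ 0 < x.2), a x.1 * b x.2 := by
          symm
          apply sum_filter_of_ne
          intro x hx h
          rw [Nat.mem_divisorsAntidiagonal] at hx
          refine ⟨ha _ (left_ne_zero_of_mul h), ?_⟩
          rcases Nat.eq_zero_or_pos x.2 with h0 | h0
          · rw [h0, mul_zero] at hx
            omega
          · exact h0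
        rw [h2]
        refine Finset.sum_congr ?_ fun _ _ => rfl
        ext p
        simp only [Finset.mem_filter, Finset.mem_Ioc] at hn
        simp only [II.T1, Finset.mem_filter, Finset.mem_product, Finset.mem_Ioc, Nat.mem_divisorsAntidiagonal]
        constructor
        · rintro ⟨⟨h2, h3⟩, h4, h5⟩
          have h6 : p.1 ≤ n := by rw [← h2]; exact Nat.le_mul_of_pos_right _ (by omega)
          have h7 : p.2 ≤ n := by rw [← h2]; exact Nat.le_mul_of_pos_left _ (by omega)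
          rw [h2]
          exact ⟨⟨⟨⟨h4, by omega⟩, h5, by omega⟩, ⟨hn.1.1, hn.1.2⟩, hn.2⟩, rfl⟩
        · rintro ⟨⟨⟨⟨h2, h3⟩, h4, h5⟩, _, _⟩, h8⟩
          exact ⟨⟨h8, by omega⟩, h2, h4⟩
      · intro p hp
        simp only [II.T1, Finset.mem_filter, Finset.mem_product, Finset.mem_Ioc] at hp
        simp only [Finset.mem_filter, Finset.mem_Ioc]
        exact ⟨hp.2.1, hp.2.2⟩
    have h2 : ∑ p ∈ II.T2 D U 0 Y q r, F p = ∑ j ∈ range ⌈D * Real.log ((3 * Y : ℕ) : ℝ)⌉₊ ×ˢ Qs q r,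
        DP ((ce D U Y j.1).filter (fun m => m % q = j.2.1)) a k *
        DP ((II.JJ D U 0 Y j.1).filter (fun m => m % q = j.2.2)) b k := by
      rw [hF]
      exact decomp hD0 hU hq (fun m => a m * ch k (Real.log m)) (fun l => b l * ch k (Real.log l))
    have h3 : ∑ p ∈ II.T1 U 0 Y q r \ II.T2 D U 0 Y q r, F p = DP (Sh D Y) c1 k := by
      rw [hF, collect (Sh D Y) _ a b k (fun p hp => hne p (hT1 p (Finset.mem_sdiff.mp hp).1))
        (fun p hp => sd1 hD0 hU hp), hc1]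
    have h4 : ∑ p ∈ II.T2 D U 0 Y q r \ II.T1 U 0 Y q r, F p = DP (Sh D Y) c2 k := by
      rw [hF, collect (Sh D Y) _ a b k (fun p hp => hne p (hT2 p (Finset.mem_sdiff.mp hp).1))
        (fun p hp => sd2 hD0 hU hp), hc2]
    have h5 := Finset.sum_sdiff_sub_sum_sdiff (s₁ := II.T1 U 0 Y q r) (s₂ := II.T2 D U 0 Y q r) (f := F)
    have h6 : DP (Sh D Y) (fun n => c1 n - c2 n) k = DP (Sh D Y) c1 k - DP (Sh D Y) c2 k := by
      unfold DP
      rw [← Finset.sum_sub_distrib]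
      refine Finset.sum_congr rfl fun n _ => ?_
      ring
    rw [h1, h6, ← h2, ← h3, ← h4]
    linear_combination h5

open Classical in
/-- the bad frequencies -/
noncomputable def Bad (D H : ℝ) (U Z Y q K : ℕ) (a : ℕ → ℂ) : Finset ℤ :=
  (range ⌈D * Real.log ((3 * Y : ℕ) : ℝ)⌉₊ ×ˢ range q).biUnion (fun x => if MM D U x.1 ≤ Z then
    (FK K).filter (fun k => MM D U x.1 / H < ‖DP ((ce D U Y x.1).filter (fun m => m % q = x.2)) a k‖) else ∅)

lemma bad_card {C : ℝ} (hC : 0 < C) (hmv : Mv C) {D ℓ H P : ℝ} {Y U Z K l q : ℕ} (hD : 2 ≤ D) (hK : 1 ≤ K)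
    (hU : 1 ≤ U) (hY : 1 ≤ Y) (hl : 1 ≤ ℓ) (hlog : Real.log (9 * Y) ≤ 2 * ℓ) (hH : 0 < H) (hP : 0 ≤ P)
    (hKU : (K : ℝ) ≤ (2 * U) ^ l) (a : ℕ → ℂ) (ha1 : ∀ m ∈ Icc 1 (3 * Y), ‖a m‖ ≤ P) :
    ((Bad D H U Z Y q K a).card : ℝ) ≤ ⌈D * Real.log ((3 * Y : ℕ) : ℝ)⌉₊ * q *
      (2 * C * 4 ^ l * (H * P) ^ (2 * l) * (1 + 2 * l * ℓ) ^ (2 ^ (2 * l) + 1)) := by
  classical
  have hD0 : 0 < D := by linarith
  have hU0 : (1 : ℝ) ≤ U := by exact_mod_cast hU
  have hR0 : 0 ≤ 2 * C * 4 ^ l * (H * P) ^ (2 * l) * (1 + 2 * l * ℓ) ^ (2 ^ (2 * l) + 1) := by positivity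
  have h1 : ∀ x ∈ range ⌈D * Real.log ((3 * Y : ℕ) : ℝ)⌉₊ ×ˢ range q, (((if MM D U x.1 ≤ Z then
      (FK K).filter (fun k => MM D U x.1 / H < ‖DP ((ce D U Y x.1).filter (fun m => m % q = x.2)) a k‖) else ∅ :
        Finset ℤ).card : ℕ) : ℝ) ≤ 2 * C * 4 ^ l * (H * P) ^ (2 * l) * (1 + 2 * l * ℓ) ^ (2 ^ (2 * l) + 1) := by
    intro x _
    split_ifs with hx
    · obtain ⟨M, hM⟩ : ∃ M, M = MM D U x.1 := ⟨_, rfl⟩
      have hMU : (U : ℝ) ≤ M := hM ▸ MM_ge hD0 U x.1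
      have hMs : MM D U (x.1 + 1) = M * Real.exp (1 / D) := by rw [hM]; exact MM_succ U x.1
      have hexp : Real.exp (1 / D) ≤ 2 := by
        have h2 : 1 / D ≤ 1 / 2 := one_div_le_one_div_of_le (by norm_num) hD
        have := exp_le_two (by positivity) h2
        linarith
      have hexp1 : 1 ≤ Real.exp (1 / D) := Real.one_le_exp (by positivity)
      have hM1 : 1 ≤ M := hU0.trans hMU
      have hM0 : 0 < M := by linarith
      rw [← hM]
      by_cases hMY : M ≤ 3 * Y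
      · obtain ⟨X, hX⟩ : ∃ X, X = min ⌊MM D U (x.1 + 1)⌋₊ (3 * Y) := ⟨_, rfl⟩
        have hX1 : 1 ≤ X := by
          rw [hX]
          apply le_min
          · apply Nat.le_floor
            rw [hMs]
            push_cast
            nlinarith
          · omega
        have hXM : (X : ℝ) ≤ 2 * M := by
          have h3 : (X : ℝ) ≤ MM D U (x.1 + 1) := by
            rw [hX]
            exact (Nat.cast_le.mpr (min_le_left _ _)).trans (Nat.floor_le (by rw [hMs]; positivity))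
          rw [hMs] at h3
          nlinarith
        have hXY : X ≤ 3 * Y := by
          rw [hX]
          exact min_le_right _ _
        have hX0 : (0 : ℝ) < X := by exact_mod_cast hX1
        have hlX : Real.log X ≤ 2 * ℓ := by
          refine le_trans (Real.log_le_log hX0 ?_) hlog
          have : (X : ℝ) ≤ 3 * Y := by exact_mod_cast hXY
          have : (0 : ℝ) ≤ Y := Nat.cast_nonneg _
          linarith
        have hlX0 : 0 ≤ Real.log X := Real.log_natCast_nonneg X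
        have h4 := bad_count hC hmv ((ce D U Y x.1).filter (fun m => m % q = x.2)) X hX1 (fun n hn => by
            rw [mem_filter, ce, mem_Ioc] at hn
            rw [hX]
            exact ⟨by omega, hn.1.2⟩) a hP (fun n hn => by
            rw [mem_filter, ce, mem_Ioc] at hn
            exact ha1 n (mem_Icc.2 ⟨by omega, hn.1.2.trans (min_le_right _ _)⟩)) l K hK (T := M / H) (by positivity)
        have h5 : ((X : ℝ) ^ l + K) ≤ 2 * (2 * M) ^ l := by
          have k1 : (X : ℝ) ^ l ≤ (2 * M) ^ l := pow_le_pow_left₀ hX0.le hXM l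
          have k2 : (K : ℝ) ≤ (2 * M) ^ l := hKU.trans (pow_le_pow_left₀ (by positivity) (by linarith) l)
          linarith
        have h6 : (1 + l * Real.log X) ≤ 1 + 2 * l * ℓ := by
          have : (l : ℝ) * Real.log X ≤ l * (2 * ℓ) := by gcongr
          linarith
        have h60 : 0 ≤ 1 + l * Real.log X := by positivity
        have h7 : C * (1 + l * Real.log X) * (((X : ℝ) ^ l + K) * (P ^ (2 * l) * ((X : ℝ) ^ l *
            (1 + l * Real.log X) ^ (2 ^ (2 * l))))) ≤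
            C * (1 + 2 * l * ℓ) * ((2 * (2 * M) ^ l) * (P ^ (2 * l) * ((2 * M) ^ l * (1 + 2 * l * ℓ) ^ (2 ^ (2 * l))))) := by
          gcongr
        have h8 := h4.trans h7
        have h9 : (M / H) ^ (2 * l) > 0 := by positivity
        have e1 : C * (1 + 2 * l * ℓ) * ((2 * (2 * M) ^ l) * (P ^ (2 * l) * ((2 * M) ^ l * (1 + 2 * l * ℓ) ^ (2 ^ (2 * l))))) =
            (2 * C * 4 ^ l * (H * P) ^ (2 * l) * (1 + 2 * l * ℓ) ^ (2 ^ (2 * l) + 1)) * (M / H) ^ (2 * l) := by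
          rw [mul_pow 2 M l, div_pow, mul_pow H P, pow_succ (1 + 2 * l * ℓ)]
          have e2 : (4 : ℝ) ^ l = 2 ^ l * 2 ^ l := by
            rw [← mul_pow]
            norm_num
          have e3 : M ^ (2 * l) = M ^ l * M ^ l := by rw [two_mul, pow_add]
          rw [e2, e3]
          have : H ^ (2 * l) ≠ 0 := by positivity
          field_simp
        rw [e1] at h8
        exact le_of_mul_le_mul_right h8 h9
      · have hemp : ce D U Y x.1 = ∅ := by
          unfold ce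
          apply Ioc_eq_empty
          intro h
          have h2 : min ⌊MM D U (x.1 + 1)⌋₊ (3 * Y) ≤ 3 * Y := min_le_right _ _
          have h3 : 3 * Y ≤ ⌊MM D U x.1⌋₊ := by
            apply Nat.le_floor
            rw [← hM]
            push_cast
            linarith
          omega
        rw [hemp]
        have : (FK K).filter (fun k => M / H < ‖DP (filter (fun m => m % q = x.2) ∅) a k‖) = ∅ := by
          apply filter_false_of_mem
          intro k _
          unfold DP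
          rw [filter_empty, sum_empty, norm_zero, not_lt]
          positivity
        rw [this, card_empty, Nat.cast_zero]
        exact hR0
    · rw [card_empty, Nat.cast_zero]
      exact hR0
  unfold Bad
  calc _ ≤ ((∑ x ∈ range ⌈D * Real.log ((3 * Y : ℕ) : ℝ)⌉₊ ×ˢ range q, (if MM D U x.1 ≤ Z then
      (FK K).filter (fun k => MM D U x.1 / H < ‖DP ((ce D U Y x.1).filter (fun m => m % q = x.2)) a k‖) else ∅ :
        Finset ℤ).card : ℕ) : ℝ) := by exact_mod_cast card_biUnion_le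
    _ ≤ ∑ x ∈ range ⌈D * Real.log ((3 * Y : ℕ) : ℝ)⌉₊ ×ˢ range q,
        (2 * C * 4 ^ l * (H * P) ^ (2 * l) * (1 + 2 * l * ℓ) ^ (2 ^ (2 * l) + 1)) := by
        rw [Nat.cast_sum]
        exact sum_le_sum h1
    _ = _ := by
        rw [sum_const, card_product, card_range, card_range, nsmul_eq_mul]
        push_cast
        ring

/-- the mean square over the good frequencies -/
theorem bl_good {C : ℝ} (hC : 0 < C) (hmv : Mv C) {D ℓ E H P : ℝ} {Y q r U Z K : ℕ} (hD : 2 ≤ D) (hK : 1 ≤ K)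
    (hY : 3 ≤ Y) (hU : 1 ≤ U) (hq : 1 ≤ q) (hKZ : (K : ℝ) * Z ≤ Y) (hUZ : U ≤ Z)
    (hl : 1 ≤ ℓ) (hlog : Real.log (9 * Y) ≤ 2 * ℓ) (hH : 0 < H) (hE0 : 0 < E) (hE : E ^ 2 ≤ D) (hP : 1 ≤ P)
    (a b : ℕ → ℂ) (ha : ∀ m, a m ≠ 0 → U < m ∧ m ≤ Z) (ha1 : ∀ m ∈ Icc 1 (3 * Y), ‖a m‖ ≤ P)
    (hb1 : ∀ m ∈ Icc 1 (3 * Y), ‖b m‖ ≤ P) :
    ∑ k ∈ FK K \ Bad D H U Z Y q K a, ‖DP ((Ioc Y (3 * Y)).filter (fun n => n % q = r % q))
      (fun n => ∑ m ∈ n.divisors, a m * b (n / m)) k‖ ^ 2 ≤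
    2 * (P ^ 4 * (28343520 * C * ℓ ^ 11 * Y ^ 2 / E)) +
      2 * (((⌈D * Real.log ((3 * Y : ℕ) : ℝ)⌉₊ : ℝ) * q ^ 2) ^ 2 * (36 * C * ℓ * P ^ 2 * Y ^ 2 / H ^ 2)) := by
  classical
  have hD0 : 0 < D := by linarith
  have hY1 : (1 : ℝ) ≤ Y := by exact_mod_cast (by omega : 1 ≤ Y)
  have hY3 : (3 : ℝ) ≤ Y := by exact_mod_cast hY
  have hY0 : (0 : ℝ) < Y := by linarith
  have hP0 : 0 < P := by linarith
  have hU1 : (1 : ℝ) ≤ U := by exact_mod_cast hU
  have hUZr : (U : ℝ) ≤ Z := by exact_mod_cast hUZ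
  have hZ0 : (0 : ℝ) < Z := by linarith
  have hlog3 : Real.log (3 * Y) ≤ 2 * ℓ := by
    refine (Real.log_le_log (by positivity) ?_).trans hlog
    linarith
  have hKY : (K : ℝ) ≤ Y := by
    have : (K : ℝ) ≤ K * Z := le_mul_of_one_le_right (Nat.cast_nonneg _) (by linarith)
    linarith
  obtain ⟨e, he, hmain⟩ := bl_id (r := r) hD (Y := Y) hU hq hP0.le a b (fun m h => (ha m h).1) ha1 hb1
  obtain ⟨J, hJ⟩ : ∃ J, J = range ⌈D * Real.log ((3 * Y : ℕ) : ℝ)⌉₊ ×ˢ Qs q r := ⟨_, rfl⟩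
  obtain ⟨G, hG⟩ : ∃ G, G = FK K \ Bad D H U Z Y q K a := ⟨_, rfl⟩
  rw [← hG]
  have hGK : G ⊆ FK K := by rw [hG]; exact sdiff_subset
  rw [← hJ] at hmain
  -- the error term
  have herr : ∑ k ∈ G, ‖DP (Sh D Y) e k‖ ^ 2 ≤ P ^ 4 * (28343520 * C * ℓ ^ 11 * Y ^ 2 / E) := by
    refine le_trans (Finset.sum_le_sum_of_subset_of_nonneg hGK fun _ _ _ => by positivity) ?_
    obtain ⟨e', he'⟩ : ∃ e' : ℕ → ℂ, e' = fun n => e n / ((P ^ 2 : ℝ) : ℂ) := ⟨_, rfl⟩
    have hPc : ((P ^ 2 : ℝ) : ℂ) ≠ 0 := by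
      have : P ^ 2 ≠ 0 := by positivity
      exact_mod_cast this
    have h1 := errE hC hmv D ℓ E Y K hD hK (by omega) hKY hl hlog hE0 hE e' (by
      intro n hn
      rw [he']
      simp only
      rw [norm_div, Complex.norm_real, Real.norm_of_nonneg (by positivity), div_le_iff₀ (by positivity)]
      refine (he n hn).trans ?_
      have h2 : 1 ≤ Real.log n := by
        have h3 : 3 ≤ n := by
          unfold Sh at hn
          rw [mem_union, mem_Ioc, mem_Ioc] at hn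
          omega
        rw [Real.le_log_iff_exp_le (by exact_mod_cast (by omega : 0 < n))]
        have := Real.exp_one_lt_d9
        have h4 : (3 : ℝ) ≤ n := by exact_mod_cast h3
        linarith
      have h5 := tau_nonneg n
      have h6 : tau n ≤ tau n * Real.log n := le_mul_of_one_le_right h5 h2
      have h7 : 0 ≤ P ^ 2 := by positivity
      nlinarith [mul_le_mul_of_nonneg_left h6 h7])
    have h2 : ∀ k, ‖DP (Sh D Y) e k‖ ^ 2 = P ^ 4 * ‖DP (Sh D Y) e' k‖ ^ 2 := by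
      intro k
      have h3 : DP (Sh D Y) e k = ((P ^ 2 : ℝ) : ℂ) * DP (Sh D Y) e' k := by
        unfold DP
        rw [mul_sum]
        refine sum_congr rfl fun n _ => ?_
        rw [he']
        simp only
        rw [← mul_assoc, mul_div_cancel₀ _ hPc]
      rw [h3, norm_mul, Complex.norm_real, Real.norm_of_nonneg (by positivity), mul_pow]
      ring
    simp only [h2]
    rw [← mul_sum]
    exact mul_le_mul_of_nonneg_left h1 (by positivity)
  -- the products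
  have hprod : ∀ j ∈ J, ∑ k ∈ G, (‖DP ((ce D U Y j.1).filter (fun m => m % q = j.2.1)) a k‖ *
      ‖DP ((II.JJ D U 0 Y j.1).filter (fun m => m % q = j.2.2)) b k‖) ^ 2 ≤ 36 * C * ℓ * P ^ 2 * Y ^ 2 / H ^ 2 := by
    intro j hj
    simp only [hJ, Finset.mem_product, Finset.mem_range, Qs, Finset.mem_filter] at hj
    obtain ⟨hj1, ⟨hj2, hj3⟩, hj4⟩ := hj
    have hR0 : 0 ≤ 36 * C * ℓ * P ^ 2 * Y ^ 2 / H ^ 2 := by positivity
    obtain ⟨M, hM⟩ : ∃ M, M = MM D U j.1 := ⟨_, rfl⟩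
    have hMU : (U : ℝ) ≤ M := hM ▸ MM_ge hD0 U j.1
    have hM1 : 1 ≤ M := hU1.trans hMU
    have hM0 : 0 < M := by linarith
    by_cases hMZ : M ≤ Z
    · have hA : ∀ k ∈ G, ‖DP ((ce D U Y j.1).filter (fun m => m % q = j.2.1)) a k‖ ≤ M / H := by
        intro k hk
        rw [hG, mem_sdiff] at hk
        by_contra h
        rw [not_le] at h
        apply hk.2
        unfold Bad
        rw [mem_biUnion]
        refine ⟨(j.1, j.2.1), ?_, ?_⟩
        · rw [mem_product, mem_range, mem_range]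
          exact ⟨hj1, hj2⟩
        · simp only
          rw [← hM, if_pos hMZ, mem_filter]
          exact ⟨hk.1, h⟩
      have hKM : (K : ℝ) ≤ Y / M := by
        rw [le_div_iff₀ hM0]
        calc (K : ℝ) * M ≤ K * Z := by gcongr
          _ ≤ Y := hKZ
      obtain ⟨X, hX⟩ : ∃ X, X = min ⌊3 * (Y : ℝ) / M⌋₊ (3 * Y) := ⟨_, rfl⟩
      have hXr : (X : ℝ) ≤ 3 * Y / M := by
        rw [hX]
        exact (Nat.cast_le.mpr (min_le_left _ _)).trans (Nat.floor_le (by positivity))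
      have hsub : (II.JJ D U 0 Y j.1).filter (fun m => m % q = j.2.2) ⊆ Icc 1 X := by
        intro n hn
        rw [Finset.mem_filter, II.JJ, Finset.mem_Ioc, ← hM, ← hX] at hn
        rw [Finset.mem_Icc]
        exact ⟨by omega, hn.1.2⟩
      have hXY : X ≤ 3 * Y := by
        rw [hX]
        exact min_le_right _ _
      have hEn : ∑ k ∈ FK K, ‖DP ((II.JJ D U 0 Y j.1).filter (fun m => m % q = j.2.2)) b k‖ ^ 2 ≤
          C * (1 + Real.log (3 * Y)) * ((3 * Y / M + K) * (3 * Y / M * P ^ 2)) := by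
        refine energy hC hmv _ _ (3 * Y) (3 * Y / M) _ K (by linarith) (by positivity) (div_le_self (by positivity) hM1)
          ?_ ?_ hK
        · intro n hn
          have := mem_Icc.1 (hsub hn)
          exact ⟨this.1, (Nat.cast_le.mpr this.2).trans hXr⟩
        · calc ∑ n ∈ (II.JJ D U 0 Y j.1).filter (fun m => m % q = j.2.2), ‖b n‖ ^ 2
              ≤ ∑ n ∈ Icc 1 X, ‖b n‖ ^ 2 :=
                Finset.sum_le_sum_of_subset_of_nonneg hsub fun _ _ _ => by positivity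
            _ ≤ ∑ n ∈ Icc 1 X, P ^ 2 := by
                refine Finset.sum_le_sum fun n hn => ?_
                rw [Finset.mem_Icc] at hn
                exact pow_le_pow_left₀ (norm_nonneg _) (hb1 n (mem_Icc.2 ⟨hn.1, hn.2.trans hXY⟩)) 2
            _ = X * P ^ 2 := by rw [Finset.sum_const, Nat.card_Icc]; simp
            _ ≤ _ := by gcongr
      calc ∑ k ∈ G, (‖DP ((ce D U Y j.1).filter (fun m => m % q = j.2.1)) a k‖ *
          ‖DP ((II.JJ D U 0 Y j.1).filter (fun m => m % q = j.2.2)) b k‖) ^ 2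
          ≤ ∑ k ∈ G, (M / H) ^ 2 * ‖DP ((II.JJ D U 0 Y j.1).filter (fun m => m % q = j.2.2)) b k‖ ^ 2 := by
            refine Finset.sum_le_sum fun k hk => ?_
            rw [mul_pow]
            exact mul_le_mul_of_nonneg_right (pow_le_pow_left₀ (norm_nonneg _) (hA k hk) 2) (by positivity)
        _ = (M / H) ^ 2 * ∑ k ∈ G, ‖DP ((II.JJ D U 0 Y j.1).filter (fun m => m % q = j.2.2)) b k‖ ^ 2 := by
            rw [Finset.mul_sum]
        _ ≤ (M / H) ^ 2 * ∑ k ∈ FK K, ‖DP ((II.JJ D U 0 Y j.1).filter (fun m => m % q = j.2.2)) b k‖ ^ 2 := by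
            gcongr
        _ ≤ (M / H) ^ 2 * (C * (1 + Real.log (3 * Y)) * ((3 * Y / M + K) * (3 * Y / M * P ^ 2))) := by gcongr
        _ ≤ (M / H) ^ 2 * (C * (3 * ℓ) * ((3 * Y / M + Y / M) * (3 * Y / M * P ^ 2))) := by
            have : 1 + Real.log (3 * Y) ≤ 3 * ℓ := by linarith
            have hlog0 : 0 ≤ 1 + Real.log (3 * Y) := by
              have : 0 ≤ Real.log (3 * (Y : ℝ)) := Real.log_nonneg (by linarith)
              linarith
            gcongr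
        _ = 36 * C * ℓ * P ^ 2 * Y ^ 2 / H ^ 2 := by
            field_simp
            ring
    · have hA : ∀ k, DP ((ce D U Y j.1).filter (fun m => m % q = j.2.1)) a k = 0 := by
        intro k
        unfold DP
        apply sum_eq_zero
        intro n hn
        rw [mem_filter, ce, mem_Ioc, ← hM] at hn
        have h2 : M < n := (Nat.floor_lt hM0.le).1 hn.1.1
        have : a n = 0 := by
          by_contra h3
          have h4 : (n : ℝ) ≤ Z := by exact_mod_cast (ha n h3).2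
          linarith
        rw [this, zero_mul]
      simp only [hA, norm_zero, zero_mul]
      rw [sum_eq_zero (fun _ _ => by norm_num)]
      exact hR0
  have hsum : ∑ k ∈ G, ‖∑ j ∈ J, DP ((ce D U Y j.1).filter (fun m => m % q = j.2.1)) a k *
        DP ((II.JJ D U 0 Y j.1).filter (fun m => m % q = j.2.2)) b k‖ ^ 2 ≤
      (J.card : ℝ) ^ 2 * (36 * C * ℓ * P ^ 2 * Y ^ 2 / H ^ 2) := by
    calc _ ≤ ∑ k ∈ G, (J.card : ℝ) * ∑ j ∈ J, (‖DP ((ce D U Y j.1).filter (fun m => m % q = j.2.1)) a k‖ *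
          ‖DP ((II.JJ D U 0 Y j.1).filter (fun m => m % q = j.2.2)) b k‖) ^ 2 := by
          refine Finset.sum_le_sum fun k _ => ?_
          refine (pow_le_pow_left₀ (norm_nonneg _) (norm_sum_le _ _) 2).trans ?_
          simp only [norm_mul]
          exact sq_sum_le_card_mul_sum_sq
      _ = (J.card : ℝ) * ∑ j ∈ J, ∑ k ∈ G, (‖DP ((ce D U Y j.1).filter (fun m => m % q = j.2.1)) a k‖ *
          ‖DP ((II.JJ D U 0 Y j.1).filter (fun m => m % q = j.2.2)) b k‖) ^ 2 := by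
          rw [← Finset.mul_sum, Finset.sum_comm]
      _ ≤ (J.card : ℝ) * ∑ j ∈ J, (36 * C * ℓ * P ^ 2 * Y ^ 2 / H ^ 2) := by
          refine mul_le_mul_of_nonneg_left (Finset.sum_le_sum hprod) (Nat.cast_nonneg _)
      _ = _ := by rw [Finset.sum_const, nsmul_eq_mul]; ring
  have hcard : (J.card : ℝ) ≤ (⌈D * Real.log ((3 * Y : ℕ) : ℝ)⌉₊ : ℝ) * q ^ 2 := by
    rw [hJ, Finset.card_product, Finset.card_range, Nat.cast_mul]
    exact mul_le_mul_of_nonneg_left (card_Qs q r) (Nat.cast_nonneg _)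
  calc ∑ k ∈ G, ‖DP ((Ioc Y (3 * Y)).filter (fun n => n % q = r % q)) (fun n => ∑ m ∈ n.divisors, a m * b (n / m)) k‖ ^ 2
      ≤ ∑ k ∈ G, (2 * ‖DP (Sh D Y) e k‖ ^ 2 + 2 * ‖∑ j ∈ J, DP ((ce D U Y j.1).filter (fun m => m % q = j.2.1)) a k *
        DP ((II.JJ D U 0 Y j.1).filter (fun m => m % q = j.2.2)) b k‖ ^ 2) := by
        refine Finset.sum_le_sum fun k _ => ?_
        rw [hmain k]
        obtain ⟨x, hx⟩ : ∃ x, x = DP (Sh D Y) e k := ⟨_, rfl⟩
        obtain ⟨y, hy⟩ : ∃ y, y = ∑ j ∈ J, DP ((ce D U Y j.1).filter (fun m => m % q = j.2.1)) a k *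
          DP ((II.JJ D U 0 Y j.1).filter (fun m => m % q = j.2.2)) b k := ⟨_, rfl⟩
        rw [← hx, ← hy]
        have h2 := pow_le_pow_left₀ (norm_nonneg _) (norm_add_le x y) 2
        nlinarith [sq_nonneg (‖x‖ - ‖y‖)]
    _ = 2 * ∑ k ∈ G, ‖DP (Sh D Y) e k‖ ^ 2 +
        2 * ∑ k ∈ G, ‖∑ j ∈ J, DP ((ce D U Y j.1).filter (fun m => m % q = j.2.1)) a k *
        DP ((II.JJ D U 0 Y j.1).filter (fun m => m % q = j.2.2)) b k‖ ^ 2 := by
        rw [Finset.sum_add_distrib, Finset.mul_sum, Finset.mul_sum]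
    _ ≤ _ := by
        have h1 : (J.card : ℝ) ^ 2 * (36 * C * ℓ * P ^ 2 * Y ^ 2 / H ^ 2) ≤
            ((⌈D * Real.log ((3 * Y : ℕ) : ℝ)⌉₊ : ℝ) * q ^ 2) ^ 2 * (36 * C * ℓ * P ^ 2 * Y ^ 2 / H ^ 2) := by
          gcongr
        linarith

end Pool.Agent.KS6_25.SH
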