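import Pool.Agent.KS6_25.SH.D2
import Pool.Agent.KS6_25.SH.C5

set_option autoImplicit false

/-!
# The sums of type II in residue classes: few bad frequencies
-/

namespace Pool.Agent.KS6_25.SH

open Finset
open Pool.Agent.helper24_UT
open Pool.Agent.helper24_UT.II (Mv)
open Pool.Agent.H376R2.MR (ch er DP FK)
open Pool.Agent.Y614.GJ.Core (ev_log)

lemma DP_sum {ι : Type*} (s : Finset ℕ) (J : Finset ι) (F : ι → ℕ → ℂ) (k : ℤ) :
    DP s (fun n => ∑ j ∈ J, F j n) k = ∑ j ∈ J, DP s (F j) k := by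
  unfold DP
  rw [sum_comm]
  exact sum_congr rfl fun n _ => by rw [sum_mul]

theorem bl_all (A A₁ B₂ k₀ : ℕ) (hk₀ : 12 ≤ k₀) : ∃ C₃ N₀ : ℕ, ∀ N : ℕ, N₀ ≤ N →
    ∀ (I : Finset (ℕ × ℕ)) (M₀ W Z : ℕ) (c : ℕ → ℂ) (a b : ℕ × ℕ → ℕ → ℂ) (R : ℕ → ℂ),
    Good A₁ (1 / (k₀ : ℝ)) N I M₀ W Z c a b R → ∀ Y : ℕ, 3 ≤ Y → Y ≤ N →
    ∀ q : ℕ, 1 ≤ q → (q : ℝ) ≤ Real.log N ^ B₂ → ∀ K : ℕ, 1 ≤ K → (K : ℝ) * Z ≤ Y →
    ∃ Bd : Finset ℤ, Bd ⊆ FK K ∧ (Bd.card : ℝ) ≤ Real.log N ^ C₃ ∧ ∀ r : ℕ,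
      ∑ k ∈ FK K \ Bd, ‖DP ((Ioc Y (3 * Y)).filter (fun n => n % q = r % q)) (T2 I a b) k‖ ^ 2 ≤
        (N : ℝ) ^ 2 / Real.log N ^ A := by
  classical
  obtain ⟨C, hC, hmv⟩ := Pool.Agent.H376R2.MR.mv
  have hmv : Mv C := hmv
  obtain ⟨e, he⟩ : ∃ e, e = A + 2 * (A₁ + 20) + 17 := ⟨_, rfl⟩
  obtain ⟨h, hh⟩ : ∃ h, h = 2 * e + 2 * B₂ + A₁ + 20 + A + 5 := ⟨_, rfl⟩
  obtain ⟨E, hE⟩ : ∃ E, E = 2 ^ (2 * k₀) + 1 := ⟨_, rfl⟩
  obtain ⟨C₀, hC₀⟩ : ∃ C₀ : ℝ, C₀ = 6 * C * 4 ^ k₀ * 9 ^ k₀ * (3 * k₀) ^ E := ⟨_, rfl⟩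
  have hC₀0 : 0 < C₀ := by
    have : (0 : ℝ) < k₀ := by exact_mod_cast (by omega : 0 < k₀)
    rw [hC₀]
    positivity
  obtain ⟨N₁, h1⟩ := Filter.eventually_atTop.1 (ev_log 1 (s := 1) (by norm_num) (C₀ + 100000000000 * C + 100))
  refine ⟨A₁ + 20 + (2 * e + 1) + B₂ + (h + 1) * (2 * k₀) + E + 1, max N₁ 1, ?_⟩
  intro N hN I M₀ W Z c a b R hG Y hY3 hYN q hq hqL K hK hKZ
  obtain ⟨hLb, -⟩ := h1 N (le_trans (le_max_left _ _) hN)
  have hN1 : 1 ≤ N := le_trans (le_max_right _ _) hN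
  have hN0 : (0 : ℝ) < N := by exact_mod_cast hN1
  obtain ⟨L, hLd⟩ : ∃ L, L = Real.log (N : ℝ) := ⟨_, rfl⟩
  have hI := hG.hI
  have hYNr : (Y : ℝ) ≤ N := by exact_mod_cast hYN
  have hY0 : (0 : ℝ) < Y := by
    have : (3 : ℝ) ≤ Y := by exact_mod_cast hY3
    linarith
  have ha1 : ∀ j, ∀ m ∈ Icc 1 (3 * Y), ‖a j m‖ ≤ 3 * Real.log N := by
    intro j m hm
    rw [mem_Icc] at hm
    exact hG.dec.ha1 j m (mem_Icc.2 ⟨hm.1, by omega⟩)
  have hb1 : ∀ j, ∀ m ∈ Icc 1 (3 * Y), ‖b j m‖ ≤ 3 * Real.log N := by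
    intro j m hm
    rw [mem_Icc] at hm
    exact hG.dec.hb j m (mem_Icc.2 ⟨hm.1, by omega⟩)
  have hlog : Real.log (9 * Y) ≤ 2 * Real.log N := by
    have h9 : Real.log 9 ≤ 8 := by
      have := Real.log_le_sub_one_of_pos (show (0 : ℝ) < 9 by norm_num)
      linarith
    rw [Real.log_mul (by norm_num) hY0.ne']
    have := Real.log_le_log hY0 hYNr
    have : 0 < 100000000000 * C := by positivity
    linarith
  rw [← hLd] at hLb hqL hI ha1 hb1 hlog ⊢
  have hCp : 0 < 100000000000 * C := by positivity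
  have hL100 : 100 ≤ L := by linarith
  have hL0 : 0 < L := by linarith
  have hL1 : 1 ≤ L := by linarith
  have hLC₀ : C₀ ≤ L := by linarith
  have hLC : 100000000000 * C ≤ L := by linarith
  by_cases hWZ : W ≤ Z
  · have hZ1 : (1 : ℝ) ≤ Z := by exact_mod_cast hG.hW1.trans hWZ
    have hKY : (K : ℝ) ≤ Y := by
      have : (K : ℝ) ≤ K * Z := le_mul_of_one_le_right (Nat.cast_nonneg _) hZ1
      linarith
    have hKU : (K : ℝ) ≤ (2 * (W : ℝ)) ^ k₀ := by
      have hk₀r : (k₀ : ℝ) ≠ 0 := by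
        have : 0 < k₀ := by omega
        exact_mod_cast this.ne'
      calc (K : ℝ) ≤ N := hKY.trans hYNr
        _ = ((N : ℝ) ^ (1 / (k₀ : ℝ))) ^ k₀ := by
            rw [← Real.rpow_natCast, ← Real.rpow_mul hN0.le, one_div, inv_mul_cancel₀ hk₀r, Real.rpow_one]
        _ ≤ (2 * (W : ℝ)) ^ k₀ := pow_le_pow_left₀ (by positivity) hG.hW k₀
    have hD2 : 2 ≤ L ^ (2 * e) := by
      calc (2 : ℝ) ≤ L := by linarith
        _ = L ^ 1 := (pow_one L).symm
        _ ≤ L ^ (2 * e) := pow_le_pow_right₀ hL1 (by omega)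
    have hceil : (⌈L ^ (2 * e) * Real.log ((3 * Y : ℕ) : ℝ)⌉₊ : ℝ) ≤ 3 * L ^ (2 * e + 1) := by
      have h3 : Real.log ((3 * Y : ℕ) : ℝ) ≤ 2 * L := by
        refine le_trans (Real.log_le_log ?_ ?_) hlog
        · have : 0 < 3 * Y := by omega
          exact_mod_cast this
        · push_cast
          linarith
      have h30 : 0 ≤ Real.log ((3 * Y : ℕ) : ℝ) := Real.log_natCast_nonneg _
      have h4 := Nat.ceil_lt_add_one (show 0 ≤ L ^ (2 * e) * Real.log ((3 * Y : ℕ) : ℝ) by positivity)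
      have h5 : L ^ (2 * e) * Real.log ((3 * Y : ℕ) : ℝ) ≤ 2 * L ^ (2 * e + 1) := by
        calc L ^ (2 * e) * Real.log ((3 * Y : ℕ) : ℝ) ≤ L ^ (2 * e) * (2 * L) := by gcongr
          _ = _ := by ring
      have h6 : 1 ≤ L ^ (2 * e + 1) := one_le_pow₀ hL1
      linarith
    have hq1 : (1 : ℝ) ≤ q := by exact_mod_cast hq
    obtain ⟨Bd, hBd⟩ : ∃ Bd : Finset ℤ, Bd = I.biUnion (fun j => FK K ∩ Bad (L ^ (2 * e)) (L ^ h) W Z Y q K (a j)) :=
      ⟨_, rfl⟩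
    refine ⟨Bd, ?_, ?_, ?_⟩
    · rw [hBd]
      exact biUnion_subset.2 fun j _ => inter_subset_left
    · have h2 : ∀ j ∈ I, ((FK K ∩ Bad (L ^ (2 * e)) (L ^ h) W Z Y q K (a j)).card : ℝ) ≤
          3 * L ^ (2 * e + 1) * L ^ B₂ * (2 * C * 4 ^ k₀ * (L ^ h * (3 * L)) ^ (2 * k₀) * (3 * k₀ * L) ^ E) := by
        intro j _
        have h3 : ((FK K ∩ Bad (L ^ (2 * e)) (L ^ h) W Z Y q K (a j)).card : ℝ) ≤
            (Bad (L ^ (2 * e)) (L ^ h) W Z Y q K (a j)).card := by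
          exact_mod_cast card_le_card inter_subset_right
        refine h3.trans ?_
        have h4 := bad_card (Z := Z) (q := q) hC hmv hD2 hK hG.hW1 (by omega : 1 ≤ Y) hL1 hlog
          (show 0 < L ^ h by positivity) (show 0 ≤ 3 * L by positivity) hKU (a j) (ha1 j)
        refine h4.trans ?_
        have hk1 : (1 : ℝ) ≤ k₀ := by exact_mod_cast (by omega : 1 ≤ k₀)
        have h5 : 1 + 2 * (k₀ : ℝ) * L ≤ 3 * k₀ * L := by nlinarith
        rw [hE]
        gcongr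
      calc (Bd.card : ℝ) ≤ ∑ j ∈ I, ((FK K ∩ Bad (L ^ (2 * e)) (L ^ h) W Z Y q K (a j)).card : ℝ) := by
            rw [hBd]
            exact_mod_cast card_biUnion_le
        _ ≤ ∑ j ∈ I, (3 * L ^ (2 * e + 1) * L ^ B₂ *
            (2 * C * 4 ^ k₀ * (L ^ h * (3 * L)) ^ (2 * k₀) * (3 * k₀ * L) ^ E)) := sum_le_sum h2
        _ = (I.card : ℝ) * (3 * L ^ (2 * e + 1) * L ^ B₂ *
            (2 * C * 4 ^ k₀ * (L ^ h * (3 * L)) ^ (2 * k₀) * (3 * k₀ * L) ^ E)) := by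
            rw [sum_const, nsmul_eq_mul]
        _ ≤ L ^ (A₁ + 20) * (3 * L ^ (2 * e + 1) * L ^ B₂ *
            (2 * C * 4 ^ k₀ * (L ^ h * (3 * L)) ^ (2 * k₀) * (3 * k₀ * L) ^ E)) := by gcongr
        _ = C₀ * (L ^ (A₁ + 20) * L ^ (2 * e + 1) * L ^ B₂ * L ^ ((h + 1) * (2 * k₀)) * L ^ E) := by
            rw [hC₀]
            have e1 : (L ^ h * (3 * L)) ^ (2 * k₀) = 9 ^ k₀ * L ^ ((h + 1) * (2 * k₀)) := by
              have : L ^ h * (3 * L) = 3 * L ^ (h + 1) := by ring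
              rw [this, mul_pow, ← pow_mul, pow_mul (3 : ℝ) 2 k₀]
              norm_num
            rw [e1, mul_pow (3 * (k₀ : ℝ)) L E]
            ring
        _ ≤ L * (L ^ (A₁ + 20) * L ^ (2 * e + 1) * L ^ B₂ * L ^ ((h + 1) * (2 * k₀)) * L ^ E) := by gcongr
        _ = L ^ (A₁ + 20 + (2 * e + 1) + B₂ + (h + 1) * (2 * k₀) + E + 1) := by
            rw [← pow_add, ← pow_add, ← pow_add, ← pow_add, ← pow_succ']
    · intro r
      have hone : ∀ j ∈ I, ∑ k ∈ FK K \ Bd, ‖DP ((Ioc Y (3 * Y)).filter (fun n => n % q = r % q))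
          (fun n => ∑ m ∈ n.divisors, a j m * b j (n / m)) k‖ ^ 2 ≤
          (N : ℝ) ^ 2 * (6000000000 * C * L ^ 15 / L ^ e + 6000 * C * L ^ (4 * e + 4 * B₂ + 5) / (L ^ h) ^ 2) := by
        intro j hj
        have hsub : FK K \ Bd ⊆ FK K \ Bad (L ^ (2 * e)) (L ^ h) W Z Y q K (a j) := by
          intro k hk
          rw [mem_sdiff] at hk ⊢
          refine ⟨hk.1, fun h2 => hk.2 ?_⟩
          rw [hBd, mem_biUnion]
          exact ⟨j, hj, mem_inter.2 ⟨hk.1, h2⟩⟩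
        refine (sum_le_sum_of_subset_of_nonneg hsub fun _ _ _ => sq_nonneg _).trans ?_
        have h4 := bl_good (r := r) hC hmv hD2 hK hY3 hG.hW1 hq hKZ hWZ hL1 hlog (show 0 < L ^ h by positivity)
          (show 0 < L ^ e by positivity) (by rw [← pow_mul, mul_comm e 2]) (show 1 ≤ 3 * L by linarith) (a j) (b j)
          (fun m hm => hG.dec.ha j m hm) (ha1 j) (hb1 j)
        refine h4.trans ?_
        have e1 : 2 * ((3 * L) ^ 4 * (28343520 * C * L ^ 11 * (Y : ℝ) ^ 2 / L ^ e)) ≤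
            (N : ℝ) ^ 2 * (6000000000 * C * L ^ 15 / L ^ e) := by
          calc 2 * ((3 * L) ^ 4 * (28343520 * C * L ^ 11 * (Y : ℝ) ^ 2 / L ^ e)) =
              (Y : ℝ) ^ 2 * (4591650240 * C * L ^ 15 / L ^ e) := by ring
            _ ≤ (N : ℝ) ^ 2 * (6000000000 * C * L ^ 15 / L ^ e) := by
                gcongr
                norm_num
        have e2 : 2 * (((⌈L ^ (2 * e) * Real.log ((3 * Y : ℕ) : ℝ)⌉₊ : ℝ) * q ^ 2) ^ 2 *
            (36 * C * L * (3 * L) ^ 2 * Y ^ 2 / (L ^ h) ^ 2)) ≤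
            (N : ℝ) ^ 2 * (6000 * C * L ^ (4 * e + 4 * B₂ + 5) / (L ^ h) ^ 2) := by
          calc 2 * (((⌈L ^ (2 * e) * Real.log ((3 * Y : ℕ) : ℝ)⌉₊ : ℝ) * q ^ 2) ^ 2 *
              (36 * C * L * (3 * L) ^ 2 * Y ^ 2 / (L ^ h) ^ 2))
              ≤ 2 * (((3 * L ^ (2 * e + 1)) * (L ^ B₂) ^ 2) ^ 2 *
              (36 * C * L * (3 * L) ^ 2 * N ^ 2 / (L ^ h) ^ 2)) := by gcongr
            _ = (N : ℝ) ^ 2 * (5832 * C * L ^ (4 * e + 4 * B₂ + 5) / (L ^ h) ^ 2) := by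
                have : L ^ (4 * e + 4 * B₂ + 5) = ((L ^ (2 * e + 1)) * (L ^ B₂) ^ 2) ^ 2 * L ^ 3 := by ring
                rw [this]
                ring
            _ ≤ (N : ℝ) ^ 2 * (6000 * C * L ^ (4 * e + 4 * B₂ + 5) / (L ^ h) ^ 2) := by
                gcongr
                norm_num
        calc _ ≤ (N : ℝ) ^ 2 * (6000000000 * C * L ^ 15 / L ^ e) +
            (N : ℝ) ^ 2 * (6000 * C * L ^ (4 * e + 4 * B₂ + 5) / (L ^ h) ^ 2) := add_le_add e1 e2
          _ = _ := by ring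
      calc ∑ k ∈ FK K \ Bd, ‖DP ((Ioc Y (3 * Y)).filter (fun n => n % q = r % q)) (T2 I a b) k‖ ^ 2
          ≤ ∑ k ∈ FK K \ Bd, (I.card : ℝ) * ∑ j ∈ I, ‖DP ((Ioc Y (3 * Y)).filter (fun n => n % q = r % q))
            (fun n => ∑ m ∈ n.divisors, a j m * b j (n / m)) k‖ ^ 2 := by
            refine sum_le_sum fun k _ => ?_
            have : DP ((Ioc Y (3 * Y)).filter (fun n => n % q = r % q)) (T2 I a b) k =
                ∑ j ∈ I, DP ((Ioc Y (3 * Y)).filter (fun n => n % q = r % q))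
                (fun n => ∑ m ∈ n.divisors, a j m * b j (n / m)) k := by
              rw [← DP_sum]
              rfl
            rw [this]
            exact sq_norm_sum _ _
        _ = (I.card : ℝ) * ∑ j ∈ I, ∑ k ∈ FK K \ Bd, ‖DP ((Ioc Y (3 * Y)).filter (fun n => n % q = r % q))
            (fun n => ∑ m ∈ n.divisors, a j m * b j (n / m)) k‖ ^ 2 := by
            rw [← mul_sum, sum_comm]
        _ ≤ (I.card : ℝ) * ∑ j ∈ I, (N : ℝ) ^ 2 * (6000000000 * C * L ^ 15 / L ^ e +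
            6000 * C * L ^ (4 * e + 4 * B₂ + 5) / (L ^ h) ^ 2) := by
            gcongr with j hj
            exact hone j hj
        _ = (I.card : ℝ) * (I.card * ((N : ℝ) ^ 2 * (6000000000 * C * L ^ 15 / L ^ e +
            6000 * C * L ^ (4 * e + 4 * B₂ + 5) / (L ^ h) ^ 2))) := by rw [sum_const, nsmul_eq_mul]
        _ ≤ L ^ (A₁ + 20) * (L ^ (A₁ + 20) * ((N : ℝ) ^ 2 * (6000000000 * C * L ^ 15 / L ^ e +
            6000 * C * L ^ (4 * e + 4 * B₂ + 5) / (L ^ h) ^ 2))) := by gcongr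
        _ = (N : ℝ) ^ 2 / L ^ A * (6000000000 * C / L ^ 2 + 6000 * C / L ^ (A + 5)) := by
            have e1 : L ^ e = L ^ A * (L ^ (A₁ + 20) * L ^ (A₁ + 20)) * L ^ 15 * L ^ 2 := by
              rw [he]
              ring
            have e2 : (L ^ h) ^ 2 = L ^ A * (L ^ (A₁ + 20) * L ^ (A₁ + 20)) * L ^ (4 * e + 4 * B₂ + 5) * L ^ (A + 5) := by
              rw [hh]
              ring
            rw [e1, e2]
            have g1 : L ^ (A₁ + 20) ≠ 0 := by positivity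
            have g2 : L ^ (4 * e + 4 * B₂ + 5) ≠ 0 := by positivity
            have g3 : L ^ A ≠ 0 := by positivity
            have g4 : L ^ (A + 5) ≠ 0 := by positivity
            generalize L ^ (A₁ + 20) = u at *
            generalize L ^ (4 * e + 4 * B₂ + 5) = v at *
            generalize L ^ (A + 5) = w at *
            generalize L ^ A = x at *
            field_simp
        _ ≤ (N : ℝ) ^ 2 / L ^ A * 1 := by
            have f1 : 6000000000 * C / L ^ 2 ≤ 1 / 2 := by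
              rw [div_le_div_iff₀ (by positivity) (by norm_num)]
              nlinarith
            have f2 : 6000 * C / L ^ (A + 5) ≤ 1 / 2 := by
              rw [div_le_div_iff₀ (by positivity) (by norm_num)]
              have : L ≤ L ^ (A + 5) := by
                calc L = L ^ 1 := (pow_one L).symm
                  _ ≤ L ^ (A + 5) := pow_le_pow_right₀ hL1 (by omega)
              linarith
            gcongr
            linarith
        _ = _ := mul_one _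
  · refine ⟨∅, empty_subset _, ?_, fun r => ?_⟩
    · rw [card_empty, Nat.cast_zero]
      positivity
    · have h0 : ∀ n, T2 I a b n = 0 := by
        intro n
        unfold T2
        apply sum_eq_zero
        intro j _
        apply sum_eq_zero
        intro m _
        have : a j m = 0 := by
          by_contra h3
          have := hG.dec.ha j m h3
          omega
        rw [this, zero_mul]
      have h2 : ∀ k, DP ((Ioc Y (3 * Y)).filter (fun n => n % q = r % q)) (T2 I a b) k = 0 := by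
        intro k
        unfold DP
        exact sum_eq_zero fun n _ => by rw [h0, zero_mul]
      simp only [h2, norm_zero]
      rw [sum_eq_zero (fun _ _ => by norm_num)]
      positivity

end Pool.Agent.KS6_25.SH
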