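import Pool.Agent.KS6_25.SH.D3
import Pool.Graph.R_pool_sql_team_seeded_620a6dc7.helper24_UT_.Ch1

set_option autoImplicit false

/-!
# Large frequencies: pointwise bounds
-/

namespace Pool.Agent.KS6_25.SH

open Finset
open Pool.Agent.helper24_UT
open Pool.Agent.helper24_UT.II (supb ch_eq_tw ch_mul)
open Pool.Agent.helper24_UT.Fr2 (psum norm_ch)
open Pool.Agent.H376R2.MR (ch er DP FK)
open Pool.Agent.Y614.GJ.Core (ev_log)
open Pool.Agent.Y883.GJ (LA)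

/-- partial summation with a monotone weight -/
lemma wsum {u v : ℕ} (huv : u ≤ v) (a : ℕ → ℂ) (w : ℕ → ℝ) {B Λ : ℝ}
    (hB : ∀ m, u ≤ m → m ≤ v → ‖∑ n ∈ Ioc u m, a n‖ ≤ B) (hw0 : ∀ n, u ≤ n → n ≤ v → 0 ≤ w n)
    (hw : ∀ n, u ≤ n → n < v → w n ≤ w (n + 1)) (hΛ : w v ≤ Λ) :
    ‖∑ n ∈ Ioc u v, a n * (w n : ℂ)‖ ≤ B * (2 * Λ) := by
  have hB0 : 0 ≤ B := (norm_nonneg _).trans (hB u le_rfl huv)
  have hwv := hw0 v huv le_rfl
  rw [psum a (fun n => ((w n : ℝ) : ℂ)) u v huv]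
  have h1 : ‖(∑ n ∈ Ioc u v, a n) * ((w v : ℝ) : ℂ)‖ ≤ B * Λ := by
    rw [norm_mul, Complex.norm_real, Real.norm_of_nonneg hwv]
    exact mul_le_mul (hB v huv le_rfl) hΛ hwv hB0
  have h2 : ‖∑ n ∈ Ico u v, (∑ j ∈ Ioc u n, a j) * (((w (n + 1) : ℝ) : ℂ) - ((w n : ℝ) : ℂ))‖ ≤ B * Λ := by
    refine (norm_sum_le _ _).trans ?_
    have h3 : ∀ n ∈ Ico u v, ‖(∑ j ∈ Ioc u n, a j) * (((w (n + 1) : ℝ) : ℂ) - ((w n : ℝ) : ℂ))‖ ≤
        B * (w (n + 1) - w n) := by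
      intro n hn
      rw [mem_Ico] at hn
      rw [norm_mul, ← Complex.ofReal_sub, Complex.norm_real, Real.norm_of_nonneg (by linarith [hw n hn.1 hn.2])]
      exact mul_le_mul_of_nonneg_right (hB n hn.1 hn.2.le) (by linarith [hw n hn.1 hn.2])
    refine (sum_le_sum h3).trans ?_
    rw [← mul_sum]
    apply mul_le_mul_of_nonneg_left _ hB0
    rw [Finset.sum_Ico_sub (f := w) huv]
    linarith [hw0 u le_rfl huv]
  refine (norm_sub_le _ _).trans ?_
  have e : B * (2 * Λ) = B * Λ + B * Λ := by ring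
  rw [e]
  exact add_le_add h1 h2

/-- the logarithm as a weight -/
lemma wlog {u v m : ℕ} (huv : u ≤ v) (hu : 1 ≤ u) (hm : 1 ≤ m) (a : ℕ → ℂ) {B Λ : ℝ}
    (hB : ∀ w, u ≤ w → w ≤ v → ‖∑ n ∈ Ioc u w, a n‖ ≤ B) (hΛ : Real.log ((m * v : ℕ) : ℝ) ≤ Λ) :
    ‖∑ n ∈ Ioc u v, a n * ((Real.log ((m * n : ℕ) : ℝ) : ℝ) : ℂ)‖ ≤ B * (2 * Λ) := by
  apply wsum huv a (fun n => Real.log ((m * n : ℕ) : ℝ)) hB
  · intro n _ _
    exact Real.log_natCast_nonneg _
  · intro n hn _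
    apply Real.log_le_log
    · exact_mod_cast Nat.mul_pos hm (by omega)
    · exact_mod_cast Nat.mul_le_mul_left m (Nat.le_succ n)
  · exact hΛ

lemma sum_filter_Ioc (u v : ℕ) (p : ℕ → Prop) [DecidablePred p] (f : ℕ → ℂ) :
    ∑ n ∈ (Ioc u v).filter p, f n = ∑ n ∈ Ioc u v, (if p n then f n else 0) := by
  rw [sum_filter]

/-- the sum of type I as a sum over the first variable -/
lemma t1_dp {Y q r M₀ : ℕ} (c : ℕ → ℂ) (hc0 : ∀ m, 1 ≤ m → c m ≠ 0 → m ≤ M₀) (k : ℤ) :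
    DP ((Ioc Y (3 * Y)).filter (fun n => n % q = r % q)) (fun n => Real.log n * ∑ m ∈ n.divisors, c m) k =
      ∑ m ∈ Icc 1 M₀, c m * ∑ b ∈ (Ioc (Y / m) (3 * Y / m)).filter (fun b => m * b % q = r % q),
        ch k (Real.log ((m * b : ℕ) : ℝ)) * ((Real.log ((m * b : ℕ) : ℝ) : ℝ) : ℂ) := by
  classical
  unfold DP
  have h1 : ∀ n ∈ (Ioc Y (3 * Y)).filter (fun n => n % q = r % q),
      ((Real.log n : ℂ) * ∑ m ∈ n.divisors, c m) * ch k (Real.log n) =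
      ∑ m ∈ Icc 1 M₀, (if m ∣ n then c m * (ch k (Real.log n) * ((Real.log n : ℝ) : ℂ)) else 0) := by
    intro n hn
    rw [mem_filter, mem_Ioc] at hn
    have hn0 : n ≠ 0 := by omega
    have h2 : ∑ m ∈ n.divisors, c m = ∑ m ∈ Icc 1 M₀, (if m ∣ n then c m else 0) := by
      rw [← sum_filter]
      symm
      apply sum_subset_zero_on_sdiff
      · intro m hm
        rw [mem_filter, mem_Icc] at hm
        rw [Nat.mem_divisors]
        exact ⟨hm.2, hn0⟩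
      · intro m hm
        rw [mem_sdiff, Nat.mem_divisors, mem_filter, mem_Icc] at hm
        by_contra h
        have hm1 : 1 ≤ m := Nat.pos_of_dvd_of_pos hm.1.1 (by omega)
        exact hm.2 ⟨⟨hm1, hc0 m hm1 h⟩, hm.1.1⟩
      · intro _ _
        rfl
    rw [h2, mul_sum, sum_mul]
    refine sum_congr rfl fun m _ => ?_
    split_ifs
    · ring
    · ring
  rw [sum_congr rfl h1, sum_comm]
  refine sum_congr rfl fun m hm => ?_
  rw [mem_Icc] at hm
  have hm0 : 0 < m := hm.1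
  rw [← sum_filter, mul_sum]
  symm
  apply sum_bij (fun b _ => m * b)
  · intro b hb
    rw [mem_filter, mem_Ioc] at hb
    rw [mem_filter, mem_filter, mem_Ioc]
    refine ⟨⟨⟨?_, ?_⟩, hb.2⟩, Dvd.intro _ rfl⟩
    · have := (Nat.div_lt_iff_lt_mul hm0).1 hb.1.1
      rw [mul_comm]
      exact this
    · have := (Nat.le_div_iff_mul_le hm0).1 hb.1.2
      rw [mul_comm]
      exact this
  · intro b _ b' _ h
    exact Nat.eq_of_mul_eq_mul_left hm0 h
  · intro n hn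
    rw [mem_filter, mem_filter, mem_Ioc] at hn
    obtain ⟨⟨⟨h2, h3⟩, h4⟩, b, rfl⟩ := hn
    refine ⟨b, ?_, rfl⟩
    rw [mem_filter, mem_Ioc]
    refine ⟨⟨?_, ?_⟩, h4⟩
    · rw [Nat.div_lt_iff_lt_mul hm0, mul_comm]
      exact h2
    · rw [Nat.le_div_iff_mul_le hm0, mul_comm]
      exact h3
  · intro b _
    rfl

/-- splitting into classes -/
lemma class_split {u v m q r : ℕ} (hq : 1 ≤ q) (f : ℕ → ℂ) :
    ∑ b ∈ (Ioc u v).filter (fun b => m * b % q = r % q), f b =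
      ∑ s ∈ (range q).filter (fun s => m * s % q = r % q), ∑ b ∈ (Ioc u v).filter (fun b => b % q = s), f b := by
  classical
  rw [← sum_fiberwise_of_maps_to (s := (Ioc u v).filter (fun b => m * b % q = r % q))
    (t := (range q).filter (fun s => m * s % q = r % q)) (g := fun b => b % q)]
  · refine sum_congr rfl fun s hs => ?_
    rw [mem_filter, mem_range] at hs
    congr 1
    ext b
    rw [mem_filter, mem_filter, mem_filter]
    constructor
    · rintro ⟨⟨h1, h2⟩, h3⟩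
      exact ⟨h1, h3⟩
    · rintro ⟨h1, h3⟩
      refine ⟨⟨h1, ?_⟩, h3⟩
      rw [← hs.2, ← h3, Nat.mul_mod_mod]
  · intro b hb
    rw [mem_filter] at hb
    rw [mem_filter, mem_range]
    refine ⟨Nat.mod_lt _ hq, ?_⟩
    rw [← hb.2, Nat.mul_mod_mod]

/-- the sum of type I at one frequency -/
lemma t1_freq {Y q r M₀ : ℕ} (hq : 1 ≤ q) (hM : 1 ≤ M₀) (hMY : M₀ ≤ Y) (c : ℕ → ℂ)
    (hc : ∀ m ∈ Icc 1 M₀, ‖c m‖ ≤ 2) (hc0 : ∀ m, 1 ≤ m → c m ≠ 0 → m ≤ M₀) (k : ℤ) {Q Λ : ℝ} (hQ : 0 ≤ Q)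
    (hΛ : Real.log ((3 * Y : ℕ) : ℝ) ≤ Λ)
    (h : ∀ s < q, ∀ u w : ℕ, Y / M₀ ≤ u → u ≤ w → w ≤ 3 * Y →
      ‖∑ b ∈ Ioc u w, (if b % q = s then ch k (Real.log b) else 0)‖ ≤ w * Q) :
    ‖DP ((Ioc Y (3 * Y)).filter (fun n => n % q = r % q)) (fun n => Real.log n * ∑ m ∈ n.divisors, c m) k‖ ≤
      12 * q * Y * Q * Λ * (1 + Real.log M₀) := by
  classical
  have hΛ0 : 0 ≤ Λ := (Real.log_natCast_nonneg _).trans hΛ
  rw [t1_dp c hc0 k]
  have h1 : ∀ m ∈ Icc 1 M₀, ‖c m * ∑ b ∈ (Ioc (Y / m) (3 * Y / m)).filter (fun b => m * b % q = r % q),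
        ch k (Real.log ((m * b : ℕ) : ℝ)) * ((Real.log ((m * b : ℕ) : ℝ) : ℝ) : ℂ)‖ ≤
      12 * q * Y * Q * Λ * (1 / m) := by
    intro m hm
    have hm' := mem_Icc.1 hm
    have hm0 : (0 : ℝ) < m := by exact_mod_cast hm'.1
    rw [norm_mul, class_split hq]
    have hu1 : 1 ≤ Y / m := Nat.div_pos (hm'.2.trans hMY) hm'.1
    have huv : Y / m ≤ 3 * Y / m := Nat.div_le_div_right (by omega)
    have h2 : ∀ s ∈ (range q).filter (fun s => m * s % q = r % q),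
        ‖∑ b ∈ (Ioc (Y / m) (3 * Y / m)).filter (fun b => b % q = s),
          ch k (Real.log ((m * b : ℕ) : ℝ)) * ((Real.log ((m * b : ℕ) : ℝ) : ℝ) : ℂ)‖ ≤
        (3 * Y / m : ℝ) * Q * (2 * Λ) := by
      intro s hs
      rw [mem_filter, mem_range] at hs
      have h3 : ∑ b ∈ (Ioc (Y / m) (3 * Y / m)).filter (fun b => b % q = s),
          ch k (Real.log ((m * b : ℕ) : ℝ)) * ((Real.log ((m * b : ℕ) : ℝ) : ℝ) : ℂ) =
          ch k (Real.log m) * ∑ b ∈ Ioc (Y / m) (3 * Y / m), (if b % q = s then ch k (Real.log b) else 0) *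
            ((Real.log ((m * b : ℕ) : ℝ) : ℝ) : ℂ) := by
        rw [sum_filter, mul_sum]
        refine sum_congr rfl fun b hb => ?_
        rw [mem_Ioc] at hb
        split_ifs
        · rw [ch_mul k (by omega) (by omega)]
          ring
        · ring
      rw [h3, norm_mul, norm_ch, one_mul]
      apply wlog huv hu1 hm'.1
      · intro w hw1 hw2
        have h4 := h s hs.1 (Y / m) w (Nat.div_le_div_left hm'.2 hm'.1) hw1 (hw2.trans (Nat.div_le_self _ _))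
        refine h4.trans ?_
        apply mul_le_mul_of_nonneg_right _ hQ
        have h5 : (w : ℝ) ≤ ((3 * Y / m : ℕ) : ℝ) := by exact_mod_cast hw2
        have h6 : ((3 * Y / m : ℕ) : ℝ) ≤ ((3 * Y : ℕ) : ℝ) / m := Nat.cast_div_le
        push_cast at h6
        linarith
      · refine le_trans (Real.log_le_log ?_ ?_) hΛ
        · exact_mod_cast Nat.mul_pos hm'.1 (lt_of_lt_of_le hu1 huv)
        · exact_mod_cast Nat.mul_div_le (3 * Y) m
    have h3 := norm_sum_le_of_le _ h2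
    rw [sum_const, nsmul_eq_mul] at h3
    have h4 : (((range q).filter (fun s => m * s % q = r % q)).card : ℝ) ≤ q := by
      have := card_filter_le (range q) (fun s => m * s % q = r % q)
      rw [card_range] at this
      exact_mod_cast this
    calc ‖c m‖ * ‖∑ s ∈ (range q).filter (fun s => m * s % q = r % q),
          ∑ b ∈ (Ioc (Y / m) (3 * Y / m)).filter (fun b => b % q = s),
          ch k (Real.log ((m * b : ℕ) : ℝ)) * ((Real.log ((m * b : ℕ) : ℝ) : ℝ) : ℂ)‖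
        ≤ 2 * (q * ((3 * Y / m : ℝ) * Q * (2 * Λ))) := by
          apply mul_le_mul (hc m hm) _ (norm_nonneg _) (by norm_num)
          refine h3.trans ?_
          gcongr
      _ = _ := by ring
  refine (norm_sum_le_of_le _ h1).trans ?_
  rw [← mul_sum]
  have h2 := Pool.Agent.R460.GH.harm M₀ hM
  gcongr

/-- the frequencies of the smooth sums -/
lemma one_class (B K : ℕ) : ∃ K₂ N₀ : ℕ, ∀ N : ℕ, N₀ ≤ N → ∀ q : ℕ, 1 ≤ q → (q : ℝ) ≤ Real.log N ^ B →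
    ∀ k : ℤ, Real.log N ^ K₂ ≤ |(k : ℝ)| → |(k : ℝ)| ≤ N → ∀ s < q, ∀ u w : ℕ, (N : ℝ) ^ (1 / 4 : ℝ) ≤ u →
    u ≤ w → ‖∑ b ∈ Ioc u w, (if b % q = s then ch k (Real.log b) else 0)‖ ≤ w * (2 / Real.log N ^ K) := by
  obtain ⟨η, hη0, hη1, hT⟩ := Ch.t_T1
  obtain ⟨K₂, L₀, hL₀, h1⟩ := hT 1 B K
  have ht : ∀ᶠ N : ℕ in Filter.atTop, L₀ ≤ Real.log N ∧ 4 ≤ Real.log N ^ η := by
    have t1 : Filter.Tendsto (fun N : ℕ => Real.log N) Filter.atTop Filter.atTop :=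
      Real.tendsto_log_atTop.comp tendsto_natCast_atTop_atTop
    have t2 : Filter.Tendsto (fun N : ℕ => Real.log N ^ η) Filter.atTop Filter.atTop :=
      (tendsto_rpow_atTop hη0).comp t1
    exact (t1.eventually_ge_atTop L₀).and (t2.eventually_ge_atTop 4)
  obtain ⟨N₀, hN₀⟩ := Filter.eventually_atTop.1 ht
  refine ⟨K₂, max N₀ 1, fun N hN q hq hqL k hk1 hk2 s hs u w hu huw => ?_⟩
  obtain ⟨hL, hLη⟩ := hN₀ N (le_trans (le_max_left _ _) hN)
  have hN1 : 1 ≤ N := le_trans (le_max_right _ _) hN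
  have hN0 : (0 : ℝ) < N := by exact_mod_cast hN1
  have hL0 : 0 < Real.log N := by linarith
  have hexp : Real.exp (Real.log N) = N := Real.exp_log hN0
  have hexp2 : Real.exp (Real.log N ^ (1 - η)) ≤ (N : ℝ) ^ (1 / 4 : ℝ) := by
    rw [Real.rpow_def_of_pos hN0]
    apply Real.exp_le_exp.2
    have e : Real.log N ^ (1 - η) * Real.log N ^ η = Real.log N := by
      rw [← Real.rpow_add hL0]
      simp
    have h2 : 0 < Real.log N ^ (1 - η) := Real.rpow_pos_of_pos hL0 _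
    nlinarith
  have h2 := supb (fun _ => (1 : ℂ)) k q s u w (Real.log N ^ K) (by positivity) (fun N' hN' _ => by
    have h3 := h1 (Real.log N) hL q s hq hqL k hk1 (by rw [Nat.cast_one, one_mul, hexp]; exact hk2) N' (by
      have : (u : ℝ) ≤ N' := by exact_mod_cast hN'
      linarith)
    simpa using h3) u w le_rfl le_rfl
  have e : DP ((Ioc u w).filter (fun n => n % q = s)) (fun _ => (1 : ℂ)) k =
      ∑ b ∈ Ioc u w, (if b % q = s then ch k (Real.log b) else 0) := by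
    unfold DP
    rw [sum_filter]
    refine sum_congr rfl fun b _ => ?_
    split_ifs
    · rw [one_mul]
    · rfl
  rw [e] at h2
  refine h2.trans (le_of_eq ?_)
  ring

/-- the sum of type I at the large frequencies -/
theorem t1_large (B K : ℕ) : ∃ K₂ N₀ : ℕ, ∀ N : ℕ, N₀ ≤ N → ∀ M₀ : ℕ, 1 ≤ M₀ → (M₀ : ℝ) ≤ 3 * (N : ℝ) ^ (2 / 3 : ℝ) →
    ∀ c : ℕ → ℂ, (∀ m ∈ Icc 1 (3 * N), ‖c m‖ ≤ 2) → (∀ m, 1 ≤ m → c m ≠ 0 → m ≤ M₀) →
    ∀ Y : ℕ, (N : ℝ) / Real.log N ^ B ≤ Y → Y ≤ N → ∀ q : ℕ, 1 ≤ q → (q : ℝ) ≤ Real.log N ^ B →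
    ∀ k : ℤ, Real.log N ^ K₂ ≤ |(k : ℝ)| → |(k : ℝ)| ≤ N → ∀ r : ℕ,
    ‖DP ((Ioc Y (3 * Y)).filter (fun n => n % q = r % q)) (fun n => Real.log n * ∑ m ∈ n.divisors, c m) k‖ ≤
      N / Real.log N ^ K := by
  obtain ⟨K₂, N₁, h1⟩ := one_class B (K + B + 3)
  obtain ⟨N₂, h2⟩ := Filter.eventually_atTop.1 (ev_log (B + 1) (s := 1 / 12) (by norm_num) 1000)
  refine ⟨K₂, max N₁ (max N₂ 1), fun N hN M₀ hM1 hM c hc hc0 Y hY1 hY2 q hq hqL k hk1 hk2 r => ?_⟩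
  obtain ⟨hL, hLp⟩ := h2 N (le_trans (le_trans (le_max_left _ _) (le_max_right _ _)) hN)
  have hN1 : 1 ≤ N := le_trans (le_trans (le_max_right _ _) (le_max_right _ _)) hN
  have hN0 : (0 : ℝ) < N := by exact_mod_cast hN1
  have hNr1 : (1 : ℝ) ≤ N := by exact_mod_cast hN1
  have h3 := h1 N (le_trans (le_max_left _ _) hN) q hq hqL k hk1 hk2
  obtain ⟨L, hLd⟩ : ∃ L, L = Real.log (N : ℝ) := ⟨_, rfl⟩
  rw [← hLd] at hL hLp hY1 hqL h3 ⊢
  have hL0 : 0 < L := by linarith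
  have hL1 : 1 ≤ L := by linarith
  have hM0 : (0 : ℝ) < M₀ := by exact_mod_cast hM1
  -- the length of the smooth sums
  have hlen : 2 * (N : ℝ) ^ (1 / 4 : ℝ) * M₀ ≤ Y := by
    refine le_trans ?_ hY1
    rw [le_div_iff₀ (by positivity)]
    calc 2 * (N : ℝ) ^ (1 / 4 : ℝ) * M₀ * L ^ B ≤ 2 * (N : ℝ) ^ (1 / 4 : ℝ) * (3 * (N : ℝ) ^ (2 / 3 : ℝ)) * L ^ B := by
          gcongr
      _ = (N : ℝ) ^ (1 / 4 : ℝ) * (N : ℝ) ^ (2 / 3 : ℝ) * (6 * L ^ B) := by ring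
      _ ≤ (N : ℝ) ^ (1 / 4 : ℝ) * (N : ℝ) ^ (2 / 3 : ℝ) * (L * L ^ B) := by
          gcongr
          linarith
      _ ≤ (N : ℝ) ^ (1 / 4 : ℝ) * (N : ℝ) ^ (2 / 3 : ℝ) * (N : ℝ) ^ (1 / 12 : ℝ) := by
          gcongr
          calc L * L ^ B = L ^ (B + 1) := by ring
            _ ≤ _ := hLp
      _ = N := by
          rw [← Real.rpow_add hN0, ← Real.rpow_add hN0]
          norm_num
  have hN4 : 1 ≤ (N : ℝ) ^ (1 / 4 : ℝ) := Real.one_le_rpow hNr1 (by norm_num)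
  have hdiv : (N : ℝ) ^ (1 / 4 : ℝ) ≤ ((Y / M₀ : ℕ) : ℝ) := by
    have h4 : (Y : ℝ) / M₀ < ((Y / M₀ : ℕ) : ℝ) + 1 := by
      rw [div_lt_iff₀ hM0]
      have := Nat.lt_div_mul_add (a := Y) (b := M₀) (by omega)
      have h5 : (Y : ℝ) < ((Y / M₀ : ℕ) : ℝ) * M₀ + M₀ := by exact_mod_cast this
      linarith
    have h5 : 2 * (N : ℝ) ^ (1 / 4 : ℝ) ≤ Y / M₀ := by
      rw [le_div_iff₀ hM0]
      exact hlen
    linarith
  have hMY : M₀ ≤ Y := by
    have : (M₀ : ℝ) ≤ Y := by nlinarith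
    exact_mod_cast this
  have hYr : (Y : ℝ) ≤ N := by exact_mod_cast hY2
  have hY0 : 0 < Y := lt_of_lt_of_le hM1 hMY
  have hlog3 : Real.log ((3 * Y : ℕ) : ℝ) ≤ 2 * L := by
    have h4 : Real.log ((3 * Y : ℕ) : ℝ) ≤ Real.log (3 * N) := by
      apply Real.log_le_log
      · exact_mod_cast (by omega : 0 < 3 * Y)
      · push_cast
        linarith
    rw [Real.log_mul (by norm_num) hN0.ne', ← hLd] at h4
    have h5 : Real.log 3 ≤ 2 := by
      have := Real.log_le_sub_one_of_pos (show (0 : ℝ) < 3 by norm_num)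
      linarith
    linarith
  have hlogM : 1 + Real.log M₀ ≤ 2 * L := by
    have h4 : Real.log M₀ ≤ L := by
      rw [hLd]
      apply Real.log_le_log hM0
      have : (M₀ : ℝ) ≤ Y := by exact_mod_cast hMY
      linarith
    linarith
  have h4 := t1_freq (r := r) hq hM1 hMY c (fun m hm => hc m (by
      rw [mem_Icc] at hm ⊢
      omega)) hc0 k (Q := 2 / L ^ (K + B + 3)) (Λ := 2 * L) (by positivity) hlog3
    (fun s hs u w hu huw _ => h3 s hs u w (hdiv.trans (by exact_mod_cast hu)) huw)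
  refine h4.trans ?_
  have hlogM0 : 0 ≤ 1 + Real.log M₀ := by
    have := Real.log_natCast_nonneg M₀
    linarith
  calc 12 * (q : ℝ) * Y * (2 / L ^ (K + B + 3)) * (2 * L) * (1 + Real.log M₀)
      ≤ 12 * L ^ B * N * (2 / L ^ (K + B + 3)) * (2 * L) * (2 * L) := by gcongr
    _ = N / L ^ K * (96 / L) := by
        rw [show K + B + 3 = K + B + 2 + 1 by ring, pow_succ, pow_add, pow_add]
        field_simp
        ring
    _ ≤ N / L ^ K * 1 := by
        have : 96 / L ≤ 1 := by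
          rw [div_le_one hL0]
          linarith
        gcongr
    _ = _ := mul_one _

/-- the von Mangoldt function at the large frequencies -/
theorem la_large (B K : ℕ) : ∃ K₂ N₀ : ℕ, ∀ N : ℕ, N₀ ≤ N →
    ∀ Y : ℕ, (N : ℝ) / Real.log N ^ B ≤ Y → Y ≤ N → ∀ q : ℕ, 1 ≤ q → (q : ℝ) ≤ Real.log N ^ B →
    ∀ k : ℤ, Real.log N ^ K₂ ≤ |(k : ℝ)| → |(k : ℝ)| ≤ N → ∀ r : ℕ,
    ‖DP ((Ioc Y (3 * Y)).filter (fun n => n % q = r % q)) LA k‖ ≤ N / Real.log N ^ K := by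
  obtain ⟨K₂, L₀, hL₀, h1⟩ := Ch.t_PAP 1 B (K + 1)
  obtain ⟨N₁, h2⟩ := Pool.Agent.H373R2.T7.lam_ap B (K + 1)
  obtain ⟨N₂, h3⟩ := Filter.eventually_atTop.1 (ev_log (B + 1) (s := 1 / 4) (by norm_num)
    (L₀ + 1000 + (3 / 2 : ℝ) ^ K₂))
  refine ⟨K₂ + 1, max N₁ (max N₂ 1), fun N hN Y hY1 hY2 q hq hqL k hk1 hk2 r => ?_⟩
  obtain ⟨hL, hLp⟩ := h3 N (le_trans (le_trans (le_max_left _ _) (le_max_right _ _)) hN)
  have hN1 : 1 ≤ N := le_trans (le_trans (le_max_right _ _) (le_max_right _ _)) hN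
  have hN0 : (0 : ℝ) < N := by exact_mod_cast hN1
  have hNr1 : (1 : ℝ) ≤ N := by exact_mod_cast hN1
  have hpow0 : (0 : ℝ) < (3 / 2 : ℝ) ^ K₂ := by positivity
  obtain ⟨l1, l2⟩ := log3 (N := N) (by linarith)
  have hap := h2 (3 * N) (by have := le_trans (le_max_left _ _) hN; omega)
  obtain ⟨L, hLd⟩ : ∃ L, L = Real.log (N : ℝ) := ⟨_, rfl⟩
  obtain ⟨L', hLd'⟩ : ∃ L', L' = Real.log ((3 * N : ℕ) : ℝ) := ⟨_, rfl⟩
  rw [← hLd'] at hap
  rw [← hLd, ← hLd'] at l1 l2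
  rw [← hLd] at hL hLp hY1 hqL hk1 ⊢
  have hL0 : 0 < L := by linarith
  have hL1 : 1 ≤ L := by linarith
  have hL'0 : 0 < L' := by linarith
  have hYr : (Y : ℝ) ≤ N := by exact_mod_cast hY2
  have h3Nr : ((3 * Y : ℕ) : ℝ) ≤ ((3 * N : ℕ) : ℝ) := by exact_mod_cast Nat.mul_le_mul_left 3 hY2
  have hexp : Real.exp L' = ((3 * N : ℕ) : ℝ) := by
    rw [hLd', Real.exp_log]
    exact_mod_cast (by omega : 0 < 3 * N)
  have hq' : (q : ℝ) ≤ L' ^ B := hqL.trans (pow_le_pow_left₀ hL0.le l1 B)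
  have hDPeq : DP ((Ioc Y (3 * Y)).filter (fun n => n % q = r % q)) LA k =
      DP ((Ioc Y (3 * Y)).filter (fun n => n % q = r % q)) (fun n => (ArithmeticFunction.vonMangoldt n : ℂ)) k := rfl
  by_cases hr : r.Coprime q
  · have hYlow : Real.exp (L' / (((1 : ℕ) : ℝ) + 1)) ≤ Y := by
      have e1 : Real.exp (L' / (((1 : ℕ) : ℝ) + 1)) = ((3 * N : ℕ) : ℝ) ^ (1 / 2 : ℝ) := by
        rw [← hexp, ← Real.exp_mul]
        congr 1
        norm_num
        ring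
      rw [e1]
      refine le_trans ?_ hY1
      rw [le_div_iff₀ (by positivity)]
      push_cast
      rw [Real.mul_rpow (by norm_num) hN0.le]
      have e2 : (3 : ℝ) ^ (1 / 2 : ℝ) ≤ 3 := by
        calc (3 : ℝ) ^ (1 / 2 : ℝ) ≤ (3 : ℝ) ^ (1 : ℝ) := Real.rpow_le_rpow_of_exponent_le (by norm_num) (by norm_num)
          _ = 3 := Real.rpow_one _
      calc (3 : ℝ) ^ (1 / 2 : ℝ) * (N : ℝ) ^ (1 / 2 : ℝ) * L ^ B ≤ 3 * (N : ℝ) ^ (1 / 2 : ℝ) * L ^ B := by gcongr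
        _ = (N : ℝ) ^ (1 / 2 : ℝ) * (3 * L ^ B) := by ring
        _ ≤ (N : ℝ) ^ (1 / 2 : ℝ) * (L * L ^ B) := by gcongr; linarith
        _ = (N : ℝ) ^ (1 / 2 : ℝ) * L ^ (B + 1) := by ring
        _ ≤ (N : ℝ) ^ (1 / 2 : ℝ) * (N : ℝ) ^ (1 / 4 : ℝ) := by gcongr
        _ = (N : ℝ) ^ (3 / 4 : ℝ) := by
            rw [← Real.rpow_add hN0]
            norm_num
        _ ≤ (N : ℝ) ^ (1 : ℝ) := Real.rpow_le_rpow_of_exponent_le hNr1 (by norm_num)
        _ = N := Real.rpow_one _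
    have hkl : L' ^ K₂ ≤ |(k : ℝ)| := by
      refine le_trans ?_ hk1
      calc L' ^ K₂ ≤ (3 / 2 * L) ^ K₂ := pow_le_pow_left₀ hL'0.le l2 K₂
        _ = (3 / 2 : ℝ) ^ K₂ * L ^ K₂ := mul_pow _ _ _
        _ ≤ L * L ^ K₂ := by gcongr; linarith
        _ = L ^ (K₂ + 1) := by ring
    have hsup := supb (fun n => (ArithmeticFunction.vonMangoldt n : ℂ)) k q (r % q) Y (3 * Y) (L' ^ (K + 1))
      (by positivity) (fun N' hN'1 hN'2 => by
        refine h1 L' (by linarith) q r hq hq' hr k hkl (by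
          rw [Nat.cast_one, one_mul, hexp]
          refine hk2.trans ?_
          push_cast
          linarith) N' (hYlow.trans (by exact_mod_cast hN'1)) (by
          rw [hexp]
          refine le_trans ?_ h3Nr
          exact_mod_cast hN'2)) Y (3 * Y) le_rfl le_rfl
    rw [hDPeq]
    refine hsup.trans ?_
    push_cast
    calc 2 * (3 * (Y : ℝ)) / L' ^ (K + 1) ≤ 2 * (3 * N) / L ^ (K + 1) := by gcongr
      _ = N / L ^ K * (6 / L) := by
          rw [pow_succ]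
          field_simp
          ring
      _ ≤ N / L ^ K * 1 := by
          have : 6 / L ≤ 1 := by
            rw [div_le_one hL0]
            linarith
          gcongr
      _ = _ := mul_one _
  · have h4 := hap q hq hq' r (3 * Y) (Nat.mul_le_mul_left 3 hY2)
    rw [if_neg hr, sub_zero] at h4
    have h5 := le_of_abs_le h4
    rw [hDPeq]
    unfold DP
    have h6 : ‖∑ n ∈ (Ioc Y (3 * Y)).filter (fun n => n % q = r % q), (ArithmeticFunction.vonMangoldt n : ℂ) *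
        ch k (Real.log n)‖ ≤ ∑ n ∈ (Icc 1 (3 * Y)).filter (fun n => n ≡ r [MOD q]), ArithmeticFunction.vonMangoldt n := by
      refine (norm_sum_le _ _).trans ?_
      have h7 : ∀ n ∈ (Ioc Y (3 * Y)).filter (fun n => n % q = r % q), ‖(ArithmeticFunction.vonMangoldt n : ℂ) *
          ch k (Real.log n)‖ = ArithmeticFunction.vonMangoldt n := by
        intro n _
        rw [norm_mul, norm_ch, mul_one, Complex.norm_real, Real.norm_of_nonneg ArithmeticFunction.vonMangoldt_nonneg]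
      rw [sum_congr rfl h7]
      apply sum_le_sum_of_subset_of_nonneg
      · intro n hn
        rw [mem_filter, mem_Ioc] at hn
        rw [mem_filter, mem_Icc]
        exact ⟨⟨by omega, hn.1.2⟩, hn.2⟩
      · intro n _ _
        exact ArithmeticFunction.vonMangoldt_nonneg
    refine h6.trans (h5.trans ?_)
    push_cast
    calc 3 * (N : ℝ) / L' ^ (K + 1) ≤ 3 * N / L ^ (K + 1) := by gcongr
      _ = N / L ^ K * (3 / L) := by
          rw [pow_succ]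
          field_simp
      _ ≤ N / L ^ K * 1 := by
          have : 3 / L ≤ 1 := by
            rw [div_le_one hL0]
            linarith
          gcongr
      _ = _ := mul_one _

end Pool.Agent.KS6_25.SH
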