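import Pool.Agent.KS6_25.SH.D4

set_option autoImplicit false

/-!
# Small frequencies and smooth sums
-/

namespace Pool.Agent.KS6_25.SH

open Finset
open Pool.Agent.helper24_UT
open Pool.Agent.helper24_UT.II (supb ch_eq_tw ch_mul)
open Pool.Agent.helper24_UT.Fr2 (psum norm_ch DP_small Z_aux F_norm FK_sum_le inv_sq_sum' card_FK card_small)
open Pool.Agent.H376R2.MR (ch er DP FK)
open Pool.Agent.Y614.GJ.Core (ev_log)
open Pool.Agent.Y883.GJ (LA)

/-- the number of the elements of a residue class -/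
lemma class_card {q s B : ℕ} (hs : s < q) {y : ℝ} (hy : |(B : ℝ) - y| ≤ 1) :
    |(((Ioc 0 B).filter (fun b => b % q = s)).card : ℝ) - y / q| ≤ 2 := by
  have hq : 0 < q := by omega
  have hq0 : (0 : ℝ) < q := by exact_mod_cast hq
  have hq1 : (1 : ℝ) ≤ q := by exact_mod_cast hq
  have h1 := Nat.Ioc_filter_modEq_card 0 B hq s
  have h2 : (Ioc 0 B).filter (fun b => b % q = s) = (Ioc 0 B).filter (fun b => b ≡ s [MOD q]) := by
    apply filter_congr
    intro b _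
    unfold Nat.ModEq
    rw [Nat.mod_eq_of_lt hs]
  rw [h2]
  obtain ⟨x, hx⟩ : ∃ x : ℤ, x = ⌊((B : ℚ) - s) / (q : ℚ)⌋ := ⟨_, rfl⟩
  obtain ⟨z, hz⟩ : ∃ z : ℤ, z = ⌊(((0 : ℕ) : ℚ) - s) / (q : ℚ)⌋ := ⟨_, rfl⟩
  rw [← hx, ← hz] at h1
  have hqQ : (0 : ℚ) < q := by exact_mod_cast hq
  have x1 : (x : ℝ) ≤ ((B : ℝ) - s) / q := by
    have := Int.floor_le (((B : ℚ) - s) / (q : ℚ))
    rw [← hx] at this
    exact_mod_cast this
  have x2 : ((B : ℝ) - s) / q < x + 1 := by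
    have := Int.lt_floor_add_one (((B : ℚ) - s) / (q : ℚ))
    rw [← hx] at this
    exact_mod_cast this
  have z1 : (z : ℝ) ≤ (((0 : ℕ) : ℝ) - s) / q := by
    have := Int.floor_le ((((0 : ℕ) : ℚ) - s) / (q : ℚ))
    rw [← hz] at this
    exact_mod_cast this
  have z2 : (((0 : ℕ) : ℝ) - s) / q < z + 1 := by
    have := Int.lt_floor_add_one ((((0 : ℕ) : ℚ) - s) / (q : ℚ))
    rw [← hz] at this
    exact_mod_cast this
  have e1 : ((B : ℝ) - s) / q - (((0 : ℕ) : ℝ) - s) / q = B / q := by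
    push_cast
    ring
  have hB0 : 0 ≤ (B : ℝ) / q := by positivity
  have hxz : 0 ≤ x - z := by
    have : (-1 : ℝ) < x - z := by linarith
    have : (-1 : ℤ) < x - z := by exact_mod_cast this
    omega
  have h3 : (((Ioc 0 B).filter (fun b => b ≡ s [MOD q])).card : ℝ) = x - z := by
    rw [max_eq_left hxz] at h1
    have h4 : ((((Ioc 0 B).filter (fun b => b ≡ s [MOD q])).card : ℤ) : ℝ) = ((x - z : ℤ) : ℝ) := by
      rw [h1]
    push_cast at h4
    exact h4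
  rw [h3]
  have h5 : |(B : ℝ) / q - y / q| ≤ 1 := by
    rw [← sub_div, abs_div, abs_of_pos hq0, div_le_one hq0]
    linarith
  rw [abs_le] at h5 ⊢
  constructor <;> linarith

/-- the density of the sum of type I in a class -/
noncomputable def kap (q r M₀ : ℕ) (c : ℕ → ℂ) : ℂ :=
  ∑ m ∈ Icc 1 M₀, c m * ((((range q).filter (fun s => m * s % q = r % q)).card : ℂ) / ((m : ℂ) * q))

/-- the density of the primes in a class -/
noncomputable def crd (q r : ℕ) : ℂ := ((if r.Coprime q then 1 / (Nat.totient q : ℝ) else 0 : ℝ) : ℂ)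

lemma crd_norm {q r : ℕ} (hq : 1 ≤ q) : ‖crd q r‖ ≤ 1 := by
  unfold crd
  split_ifs
  · have : (1 : ℝ) ≤ (Nat.totient q : ℝ) := by exact_mod_cast Nat.totient_pos.2 hq
    rw [Complex.norm_real, Real.norm_of_nonneg (by positivity), div_le_one (by linarith)]
    exact this
  · simp

lemma kap_norm {q r M₀ : ℕ} (hq : 1 ≤ q) (hM : 1 ≤ M₀) {c : ℕ → ℂ} (hc : ∀ m ∈ Icc 1 M₀, ‖c m‖ ≤ 2) :
    ‖kap q r M₀ c‖ ≤ 2 * (1 + Real.log M₀) := by
  unfold kap
  have h1 : ∀ m ∈ Icc 1 M₀, ‖c m * ((((range q).filter (fun s => m * s % q = r % q)).card : ℂ) / ((m : ℂ) * q))‖ ≤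
      2 * (1 / m) := by
    intro m hm
    have hm' := mem_Icc.1 hm
    have hm0 : (0 : ℝ) < m := by exact_mod_cast hm'.1
    have hq0 : (0 : ℝ) < q := by exact_mod_cast hq
    rw [norm_mul, norm_div, norm_mul, Complex.norm_natCast, Complex.norm_natCast, Complex.norm_natCast]
    have h2 : (((range q).filter (fun s => m * s % q = r % q)).card : ℝ) ≤ q := by
      have := card_filter_le (range q) (fun s => m * s % q = r % q)
      rw [card_range] at this
      exact_mod_cast this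
    apply mul_le_mul (hc m hm) _ (by positivity) (by norm_num)
    calc (((range q).filter (fun s => m * s % q = r % q)).card : ℝ) / ((m : ℝ) * q) ≤ q / (m * q) := by gcongr
      _ = 1 / m := by field_simp
  refine (norm_sum_le_of_le _ h1).trans ?_
  rw [← mul_sum]
  have := Pool.Agent.R460.GH.harm M₀ hM
  linarith

/-- the sum of type I in a class -/
lemma t1_class_count {q r M₀ y : ℕ} (hq : 1 ≤ q) {c : ℕ → ℂ} (hc : ∀ m ∈ Icc 1 M₀, ‖c m‖ ≤ 2)
    (hc0 : ∀ m, 1 ≤ m → c m ≠ 0 → m ≤ M₀) :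
    ‖∑ n ∈ Ioc 0 y, (if n % q = r % q then ∑ m ∈ n.divisors, c m else 0) - kap q r M₀ c * y‖ ≤ 4 * q * M₀ := by
  classical
  have h1 : ∑ n ∈ Ioc 0 y, (if n % q = r % q then ∑ m ∈ n.divisors, c m else 0) =
      ∑ m ∈ Icc 1 M₀, c m * (((Ioc 0 (y / m)).filter (fun b => m * b % q = r % q)).card : ℂ) := by
    have h2 : ∀ n ∈ Ioc 0 y, (if n % q = r % q then ∑ m ∈ n.divisors, c m else 0) =
        ∑ m ∈ Icc 1 M₀, (if m ∣ n ∧ n % q = r % q then c m else 0) := by
      intro n hn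
      rw [mem_Ioc] at hn
      have hn0 : n ≠ 0 := by omega
      have h3 : ∑ m ∈ n.divisors, c m = ∑ m ∈ Icc 1 M₀, (if m ∣ n then c m else 0) := by
        rw [← sum_filter]
        symm
        apply sum_subset_zero_on_sdiff
        · intro m hm
          rw [mem_filter, mem_Icc] at hm
          rw [Nat.mem_divisors]
          exact ⟨hm.2, hn0⟩
        · intro m hm
          rw [mem_sdiff, Nat.mem_divisors, mem_filter, mem_Icc] at hm
          by_contra h
          have hm1 : 1 ≤ m := Nat.pos_of_dvd_of_pos hm.1.1 (by omega)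
          exact hm.2 ⟨⟨hm1, hc0 m hm1 h⟩, hm.1.1⟩
        · intro _ _
          rfl
      rw [h3]
      split_ifs with h4
      · exact sum_congr rfl fun m _ => by simp only [h4, and_true]
      · exact (sum_eq_zero fun m _ => by simp only [h4, and_false, if_false]).symm
    rw [sum_congr rfl h2, sum_comm]
    refine sum_congr rfl fun m hm => ?_
    rw [mem_Icc] at hm
    have hm0 : 0 < m := hm.1
    rw [← sum_filter, sum_const, nsmul_eq_mul, mul_comm]
    congr 2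
    symm
    apply card_bij (fun b _ => m * b)
    · intro b hb
      rw [mem_filter, mem_Ioc] at hb
      rw [mem_filter, mem_Ioc]
      refine ⟨⟨Nat.mul_pos hm0 hb.1.1, ?_⟩, Dvd.intro _ rfl, hb.2⟩
      have := (Nat.le_div_iff_mul_le hm0).1 hb.1.2
      rw [mul_comm]
      exact this
    · intro b _ b' _ h
      exact Nat.eq_of_mul_eq_mul_left hm0 h
    · intro n hn
      rw [mem_filter, mem_Ioc] at hn
      obtain ⟨⟨h3, h4⟩, ⟨b, rfl⟩, h5⟩ := hn
      refine ⟨b, ?_, rfl⟩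
      rw [mem_filter, mem_Ioc]
      refine ⟨⟨Nat.pos_of_mul_pos_left h3, ?_⟩, h5⟩
      rw [Nat.le_div_iff_mul_le hm0, mul_comm]
      exact h4
  rw [h1]
  unfold kap
  rw [sum_mul, ← sum_sub_distrib]
  have h2 : ∀ m ∈ Icc 1 M₀, ‖c m * (((Ioc 0 (y / m)).filter (fun b => m * b % q = r % q)).card : ℂ) -
      c m * ((((range q).filter (fun s => m * s % q = r % q)).card : ℂ) / ((m : ℂ) * q)) * y‖ ≤ 4 * q := by
    intro m hm
    have hm' := mem_Icc.1 hm
    have hm0 : (0 : ℝ) < m := by exact_mod_cast hm'.1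
    have hmc : (m : ℂ) ≠ 0 := by exact_mod_cast hm0.ne'
    have hq0 : (0 : ℝ) < q := by exact_mod_cast hq
    have hqc : (q : ℂ) ≠ 0 := by exact_mod_cast hq0.ne'
    have e1 : (((Ioc 0 (y / m)).filter (fun b => m * b % q = r % q)).card : ℂ) =
        ∑ s ∈ (range q).filter (fun s => m * s % q = r % q), (((Ioc 0 (y / m)).filter (fun b => b % q = s)).card : ℂ) := by
      have h3 := class_split (u := 0) (v := y / m) (m := m) (r := r) hq (fun _ => (1 : ℂ))
      simpa using h3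
    have e2 : c m * (((Ioc 0 (y / m)).filter (fun b => m * b % q = r % q)).card : ℂ) -
      c m * ((((range q).filter (fun s => m * s % q = r % q)).card : ℂ) / ((m : ℂ) * q)) * y =
      c m * ∑ s ∈ (range q).filter (fun s => m * s % q = r % q),
        ((((((Ioc 0 (y / m)).filter (fun b => b % q = s)).card : ℝ) - ((y : ℝ) / m) / q) : ℝ) : ℂ) := by
      rw [e1]
      push_cast
      rw [sum_sub_distrib, sum_const, nsmul_eq_mul]
      field_simp
    rw [e2, norm_mul]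
    have h3 : ∀ s ∈ (range q).filter (fun s => m * s % q = r % q),
        ‖((((((Ioc 0 (y / m)).filter (fun b => b % q = s)).card : ℝ) - ((y : ℝ) / m) / q) : ℝ) : ℂ)‖ ≤ 2 := by
      intro s hs
      rw [mem_filter, mem_range] at hs
      rw [Complex.norm_real, Real.norm_eq_abs]
      apply class_card hs.1
      have h4 : ((y / m : ℕ) : ℝ) ≤ (y : ℝ) / m := Nat.cast_div_le
      have h5 : (y : ℝ) / m ≤ ((y / m : ℕ) : ℝ) + 1 := by
        rw [div_le_iff₀ hm0]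
        have := Nat.lt_div_mul_add (a := y) (b := m) hm'.1
        have h6 : (y : ℝ) < ((y / m : ℕ) : ℝ) * m + m := by exact_mod_cast this
        linarith
      rw [abs_le]
      constructor <;> linarith
    have h4 := norm_sum_le_of_le _ h3
    rw [sum_const, nsmul_eq_mul] at h4
    have h5 : (((range q).filter (fun s => m * s % q = r % q)).card : ℝ) ≤ q := by
      have := card_filter_le (range q) (fun s => m * s % q = r % q)
      rw [card_range] at this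
      exact_mod_cast this
    calc ‖c m‖ * _ ≤ 2 * (q * 2) := by
          apply mul_le_mul (hc m hm) _ (norm_nonneg _) (by norm_num)
          refine h4.trans ?_
          gcongr
      _ = 4 * q := by ring
  refine (norm_sum_le_of_le _ h2).trans (le_of_eq ?_)
  rw [sum_const, Nat.card_Icc, nsmul_eq_mul, Nat.add_sub_cancel]
  ring

/-- the function whose windows are considered -/
noncomputable def del (q r M₀ : ℕ) (c : ℕ → ℂ) (F : ℕ → ℂ) (n : ℕ) : ℂ :=
  (if n % q = r % q then F n else 0) - (crd q r - kap q r M₀ c * ((Real.log n : ℝ) : ℂ))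

lemma Ioc_sub {u v : ℕ} (huv : u ≤ v) (f : ℕ → ℂ) : ∑ n ∈ Ioc u v, f n = ∑ n ∈ Ioc 0 v, f n - ∑ n ∈ Ioc 0 u, f n := by
  rw [eq_sub_iff_add_eq, add_comm]
  exact Finset.sum_Ioc_consecutive f (Nat.zero_le u) huv

/-- the partial sums of the sum of type I in a class with logarithms -/
lemma t1_part {q r M₀ Y m : ℕ} (hq : 1 ≤ q) (hY : 1 ≤ Y) (hYm : Y ≤ m) {c : ℕ → ℂ} (hc : ∀ m ∈ Icc 1 M₀, ‖c m‖ ≤ 2)
    (hc0 : ∀ m, 1 ≤ m → c m ≠ 0 → m ≤ M₀) {Λ : ℝ} (hΛ : Real.log m ≤ Λ) :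
    ‖∑ n ∈ Ioc Y m, ((if n % q = r % q then (Real.log n : ℂ) * ∑ m ∈ n.divisors, c m else 0) -
      kap q r M₀ c * ((Real.log n : ℝ) : ℂ))‖ ≤ 8 * q * M₀ * (2 * Λ) := by
  have h1 : ∀ n ∈ Ioc Y m, ((if n % q = r % q then (Real.log n : ℂ) * ∑ m ∈ n.divisors, c m else 0) -
      kap q r M₀ c * ((Real.log n : ℝ) : ℂ)) =
      ((if n % q = r % q then ∑ m ∈ n.divisors, c m else 0) - kap q r M₀ c) * ((Real.log ((1 * n : ℕ) : ℝ) : ℝ) : ℂ) := by
    intro n _
    rw [one_mul]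
    split_ifs
    · ring
    · ring
  rw [sum_congr rfl h1]
  apply wlog hYm hY le_rfl
  · intro w hw1 hw2
    have e1 : ∀ y : ℕ, ∑ n ∈ Ioc 0 y, ((if n % q = r % q then ∑ m ∈ n.divisors, c m else 0) - kap q r M₀ c) =
        ∑ n ∈ Ioc 0 y, (if n % q = r % q then ∑ m ∈ n.divisors, c m else 0) - kap q r M₀ c * y := by
      intro y
      rw [sum_sub_distrib, sum_const, Nat.card_Ioc, nsmul_eq_mul, Nat.sub_zero]
      ring
    rw [Ioc_sub hw1, e1, e1]
    refine (norm_sub_le _ _).trans ?_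
    have h2 := t1_class_count (r := r) (y := w) hq hc hc0
    have h3 := t1_class_count (r := r) (y := Y) hq hc hc0
    linarith
  · rw [one_mul]
    exact hΛ

/-- smooth sums at large frequencies -/
lemma sm_freq {q r M₀ Y : ℕ} (hq : 1 ≤ q) (hY : 1 ≤ Y) (hM : 1 ≤ M₀) {c : ℕ → ℂ} (hc : ∀ m ∈ Icc 1 M₀, ‖c m‖ ≤ 2)
    {k : ℤ} (hk : k ≠ 0) {Λ : ℝ} (hΛ1 : 1 ≤ Λ) (hΛ : Real.log ((3 * Y : ℕ) : ℝ) ≤ Λ) (hΛM : 1 + Real.log M₀ ≤ Λ) :
    ‖DP (Ioc Y (3 * Y)) (fun n => crd q r - kap q r M₀ c * ((Real.log n : ℝ) : ℂ)) k‖ ≤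
      (2 * |(k : ℝ)| + 4 * Y / |(k : ℝ)|) * (5 * Λ ^ 2) := by
  have hY0 : (0 : ℝ) < Y := by exact_mod_cast hY
  have hk0 : 0 < |(k : ℝ)| := abs_pos.2 (by exact_mod_cast hk)
  obtain ⟨B, hB⟩ : ∃ B, B = 2 * |(k : ℝ)| + 4 * Y / |(k : ℝ)| := ⟨_, rfl⟩
  have hB0 : 0 ≤ B := by rw [hB]; positivity
  rw [← hB]
  have hpart : ∀ m, Y ≤ m → m ≤ 3 * Y → ‖∑ n ∈ Ioc Y m, ch k (Real.log n)‖ ≤ B := by
    intro m hm1 hm2
    have h1 := Z_aux k hY m hm1
    have h2 := F_norm hk (x := (m : ℝ)) (Nat.cast_nonneg _)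
    have h3 := F_norm hk (x := (Y : ℝ)) hY0.le
    have hmr : (m : ℝ) ≤ 3 * Y := by exact_mod_cast hm2
    have h4 : ((m : ℝ) - Y) * (|(k : ℝ)| / Y) ≤ 2 * |(k : ℝ)| := by
      calc ((m : ℝ) - Y) * (|(k : ℝ)| / Y) ≤ (2 * Y) * (|(k : ℝ)| / Y) := by
            gcongr
            linarith
        _ = _ := by field_simp
    have h5 : ‖∑ n ∈ Ioc Y m, ch k (Real.log n)‖ ≤ ‖∑ n ∈ Ioc Y m, ch k (Real.log n) - (Fr2.F k m - Fr2.F k Y)‖ +
        ‖Fr2.F k m - Fr2.F k Y‖ := by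
      have := norm_add_le (∑ n ∈ Ioc Y m, ch k (Real.log n) - (Fr2.F k m - Fr2.F k Y)) (Fr2.F k m - Fr2.F k Y)
      rwa [sub_add_cancel] at this
    have h6 := norm_sub_le (Fr2.F k m) (Fr2.F k Y)
    have h7 : (m : ℝ) / |(k : ℝ)| + Y / |(k : ℝ)| ≤ 4 * Y / |(k : ℝ)| := by
      rw [← add_div]
      gcongr
      linarith
    rw [hB]
    linarith
  have hlogs : ‖∑ n ∈ Ioc Y (3 * Y), ch k (Real.log n) * ((Real.log ((1 * n : ℕ) : ℝ) : ℝ) : ℂ)‖ ≤ B * (2 * Λ) := by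
    apply wlog (by omega) hY le_rfl _ hpart
    rw [one_mul]
    exact hΛ
  have e : DP (Ioc Y (3 * Y)) (fun n => crd q r - kap q r M₀ c * ((Real.log n : ℝ) : ℂ)) k =
      crd q r * ∑ n ∈ Ioc Y (3 * Y), ch k (Real.log n) -
      kap q r M₀ c * ∑ n ∈ Ioc Y (3 * Y), ch k (Real.log n) * ((Real.log ((1 * n : ℕ) : ℝ) : ℝ) : ℂ) := by
    unfold DP
    rw [mul_sum, mul_sum, ← sum_sub_distrib]
    refine sum_congr rfl fun n _ => ?_
    rw [one_mul]
    ring
  rw [e]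
  refine (norm_sub_le _ _).trans ?_
  rw [norm_mul, norm_mul]
  have h1 := crd_norm (r := r) hq
  have h2 := kap_norm (r := r) hq hM hc
  have h3 := hpart (3 * Y) (by omega) le_rfl
  calc ‖crd q r‖ * ‖∑ n ∈ Ioc Y (3 * Y), ch k (Real.log n)‖ + ‖kap q r M₀ c‖ *
      ‖∑ n ∈ Ioc Y (3 * Y), ch k (Real.log n) * ((Real.log ((1 * n : ℕ) : ℝ) : ℝ) : ℂ)‖
      ≤ 1 * B + (2 * Λ) * (B * (2 * Λ)) := by
        gcongr
        linarith
    _ = B * (1 + 4 * Λ ^ 2) := by ring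
    _ ≤ B * (5 * Λ ^ 2) := by
        apply mul_le_mul_of_nonneg_left _ hB0
        nlinarith

end Pool.Agent.KS6_25.SH
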