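import Pool.Agent.KS6_25.SH.D5

set_option autoImplicit false

/-!
# The mean square of the Dirichlet polynomial of the windowed function
-/

namespace Pool.Agent.KS6_25.SH

open Finset
open Pool.Agent.helper24_UT
open Pool.Agent.helper24_UT.II (supb ch_eq_tw ch_mul Mv)
open Pool.Agent.helper24_UT.Fr2 (psum norm_ch DP_small Z_aux F_norm FK_sum_le inv_sq_sum' card_FK card_small)
open Pool.Agent.H376R2.MR (ch er DP FK)
open Pool.Agent.Y614.GJ.Core (ev_log)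
open Pool.Agent.Y883.GJ (LA)

lemma DP_add' (s : Finset ℕ) (F G : ℕ → ℂ) (k : ℤ) : DP s (fun n => F n + G n) k = DP s F k + DP s G k := by
  unfold DP
  rw [← sum_add_distrib]
  exact sum_congr rfl fun n _ => by ring

lemma DP_sub' (s : Finset ℕ) (F G : ℕ → ℂ) (k : ℤ) : DP s (fun n => F n - G n) k = DP s F k - DP s G k := by
  unfold DP
  rw [← sum_sub_distrib]
  exact sum_congr rfl fun n _ => by ring

lemma DP_congr' {s : Finset ℕ} {F G : ℕ → ℂ} (h : ∀ n ∈ s, F n = G n) (k : ℤ) : DP s F k = DP s G k := by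
  unfold DP
  exact sum_congr rfl fun n hn => by rw [h n hn]

lemma DP_ite (u v q r : ℕ) (F : ℕ → ℂ) (k : ℤ) : DP (Ioc u v) (fun n => if n % q = r % q then F n else 0) k =
    DP ((Ioc u v).filter (fun n => n % q = r % q)) F k := by
  unfold DP
  rw [sum_filter]
  refine sum_congr rfl fun n _ => ?_
  by_cases h : n % q = r % q
  · simp only [h, if_true]
  · simp only [h, if_false, zero_mul]

lemma natAbs_abs (k : ℤ) : ((k.natAbs : ℕ) : ℝ) = |(k : ℝ)| := by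
  rw [Nat.cast_natAbs, Int.cast_abs]

lemma abs_le_of_FK {K : ℕ} {k : ℤ} (hk : k ∈ FK K) : |(k : ℝ)| ≤ K := by
  unfold FK at hk
  rw [mem_Ioo] at hk
  have h3 : |k| < (K : ℤ) := abs_lt.2 hk
  have h4 : |(k : ℝ)| < (K : ℝ) := by exact_mod_cast h3
  exact h4.le

lemma sq_four (x1 x2 x3 x4 : ℂ) : ‖x1 - x2 - x3 - x4‖ ^ 2 ≤
    4 * ((‖x1‖ ^ 2 + ‖x2‖ ^ 2) + ‖x3‖ ^ 2 + ‖x4‖ ^ 2) := by
  have e2 : ‖x1 - x2 - x3 - x4‖ ≤ ‖x1‖ + ‖x2‖ + ‖x3‖ + ‖x4‖ := by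
    refine (norm_sub_le _ _).trans ?_
    have := norm_sub_le (x1 - x2) x3
    have := norm_sub_le x1 x2
    linarith
  have e3 := pow_le_pow_left₀ (norm_nonneg _) e2 2
  nlinarith [sq_nonneg (‖x1‖ - ‖x2‖), sq_nonneg (‖x1‖ - ‖x3‖), sq_nonneg (‖x1‖ - ‖x4‖),
    sq_nonneg (‖x2‖ - ‖x3‖), sq_nonneg (‖x2‖ - ‖x4‖), sq_nonneg (‖x3‖ - ‖x4‖)]

lemma sq_two (x1 x2 : ℂ) : ‖x1 - x2‖ ^ 2 ≤ 2 * ‖x1‖ ^ 2 + 2 * ‖x2‖ ^ 2 := by
  have e3 := pow_le_pow_left₀ (norm_nonneg _) (norm_sub_le x1 x2) 2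
  nlinarith [sq_nonneg (‖x1‖ - ‖x2‖)]

/-- the smooth sums in mean square over the large frequencies -/
lemma sm_sum {q r M₀ Y K : ℕ} (hq : 1 ≤ q) (hY : 1 ≤ Y) (hM : 1 ≤ M₀) {c : ℕ → ℂ} (hc : ∀ m ∈ Icc 1 M₀, ‖c m‖ ≤ 2)
    {T : ℝ} (hT : 1 ≤ T) {Λ : ℝ} (hΛ1 : 1 ≤ Λ) (hΛ : Real.log ((3 * Y : ℕ) : ℝ) ≤ Λ) (hΛM : 1 + Real.log M₀ ≤ Λ) :
    ∑ k ∈ (FK K).filter (fun k : ℤ => T ≤ |(k : ℝ)|),
      ‖DP (Ioc Y (3 * Y)) (fun n => crd q r - kap q r M₀ c * ((Real.log n : ℝ) : ℂ)) k‖ ^ 2 ≤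
      (16 * (K : ℝ) ^ 3 + 128 * (Y : ℝ) ^ 2 / T) * (25 * Λ ^ 4) := by
  have hT0 : 0 < T := by linarith
  have hterm : ∀ k ∈ (FK K).filter (fun k : ℤ => T ≤ |(k : ℝ)|),
      ‖DP (Ioc Y (3 * Y)) (fun n => crd q r - kap q r M₀ c * ((Real.log n : ℝ) : ℂ)) k‖ ^ 2 ≤
      (8 * (K : ℝ) ^ 2 + 32 * (Y : ℝ) ^ 2 * (if T ≤ ((k.natAbs : ℕ) : ℝ) then 1 / ((k.natAbs : ℕ) : ℝ) ^ 2 else 0)) *
        (25 * Λ ^ 4) := by
    intro k hk
    rw [mem_filter] at hk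
    have hk0 : 0 < |(k : ℝ)| := by linarith [hk.2]
    have hkne : k ≠ 0 := by
      rintro rfl
      simp at hk0
    rw [natAbs_abs, if_pos hk.2]
    have h1 := sm_freq (r := r) hq hY hM hc hkne hΛ1 hΛ hΛM
    have h2 := abs_le_of_FK hk.1
    have h3 : (2 * |(k : ℝ)| + 4 * Y / |(k : ℝ)|) ^ 2 ≤ 8 * (K : ℝ) ^ 2 + 32 * (Y : ℝ) ^ 2 * (1 / |(k : ℝ)| ^ 2) := by
      have e1 : (2 * |(k : ℝ)| + 4 * Y / |(k : ℝ)|) ^ 2 ≤ 2 * (2 * |(k : ℝ)|) ^ 2 + 2 * (4 * Y / |(k : ℝ)|) ^ 2 := by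
        nlinarith [sq_nonneg (2 * |(k : ℝ)| - 4 * Y / |(k : ℝ)|)]
      have e2 : 2 * (4 * Y / |(k : ℝ)|) ^ 2 = 32 * (Y : ℝ) ^ 2 * (1 / |(k : ℝ)| ^ 2) := by
        field_simp
        ring
      have e3 : |(k : ℝ)| ^ 2 ≤ (K : ℝ) ^ 2 := pow_le_pow_left₀ hk0.le h2 2
      have e4 : 2 * (2 * |(k : ℝ)|) ^ 2 = 8 * |(k : ℝ)| ^ 2 := by ring
      linarith
    calc ‖DP (Ioc Y (3 * Y)) (fun n => crd q r - kap q r M₀ c * ((Real.log n : ℝ) : ℂ)) k‖ ^ 2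
        ≤ ((2 * |(k : ℝ)| + 4 * Y / |(k : ℝ)|) * (5 * Λ ^ 2)) ^ 2 := pow_le_pow_left₀ (norm_nonneg _) h1 2
      _ = (2 * |(k : ℝ)| + 4 * Y / |(k : ℝ)|) ^ 2 * (25 * Λ ^ 4) := by ring
      _ ≤ _ := mul_le_mul_of_nonneg_right h3 (by positivity)
  refine (sum_le_sum hterm).trans ?_
  rw [← sum_mul]
  apply mul_le_mul_of_nonneg_right _ (by positivity)
  rw [sum_add_distrib, sum_const, nsmul_eq_mul, ← mul_sum]
  have h1 : (((FK K).filter (fun k : ℤ => T ≤ |(k : ℝ)|)).card : ℝ) ≤ 2 * K := by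
    refine le_trans ?_ (card_FK K)
    exact_mod_cast card_le_card (filter_subset _ _)
  have h2 : ∑ k ∈ (FK K).filter (fun k : ℤ => T ≤ |(k : ℝ)|),
      (if T ≤ ((k.natAbs : ℕ) : ℝ) then 1 / ((k.natAbs : ℕ) : ℝ) ^ 2 else 0) ≤ 2 * (2 / T) := by
    have h3 : ∀ m : ℕ, 0 ≤ (if T ≤ (m : ℝ) then 1 / (m : ℝ) ^ 2 else 0) := by
      intro m
      split_ifs <;> positivity
    refine le_trans (sum_le_sum_of_subset_of_nonneg (filter_subset _ _) (fun k _ _ => h3 k.natAbs)) ?_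
    refine (FK_sum_le K (fun m => if T ≤ (m : ℝ) then 1 / (m : ℝ) ^ 2 else 0) h3).trans ?_
    have h4 := inv_sq_sum' hT K
    linarith
  have h5 : (((FK K).filter (fun k : ℤ => T ≤ |(k : ℝ)|)).card : ℝ) * (8 * (K : ℝ) ^ 2) ≤ 16 * (K : ℝ) ^ 3 := by
    calc (((FK K).filter (fun k : ℤ => T ≤ |(k : ℝ)|)).card : ℝ) * (8 * (K : ℝ) ^ 2) ≤ 2 * K * (8 * (K : ℝ) ^ 2) := by
          gcongr
      _ = _ := by ring
  have h6 : 32 * (Y : ℝ) ^ 2 * ∑ k ∈ (FK K).filter (fun k : ℤ => T ≤ |(k : ℝ)|),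
      (if T ≤ ((k.natAbs : ℕ) : ℝ) then 1 / ((k.natAbs : ℕ) : ℝ) ^ 2 else 0) ≤ 128 * (Y : ℝ) ^ 2 / T := by
    calc _ ≤ 32 * (Y : ℝ) ^ 2 * (2 * (2 / T)) := by gcongr
      _ = _ := by ring
  linarith

/-- the partial sums of the von Mangoldt function in a class -/
lemma la_part {q r Y m X : ℕ} {E : ℝ} (hap : ∀ c y : ℕ, y ≤ X →
    |∑ n ∈ (Icc 1 y).filter (fun n => n ≡ c [MOD q]), ArithmeticFunction.vonMangoldt n -
      (if c.Coprime q then (y : ℝ) / (Nat.totient q : ℝ) else 0)| ≤ E) (hYm : Y ≤ m) (hm : m ≤ X) :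
    ‖∑ n ∈ Ioc Y m, ((if n % q = r % q then LA n else 0) - crd q r)‖ ≤ 2 * E := by
  have e1 : ∀ y : ℕ, ∑ n ∈ Ioc 0 y, ((if n % q = r % q then LA n else 0) - crd q r) =
      ((∑ n ∈ (Icc 1 y).filter (fun n => n ≡ r [MOD q]), ArithmeticFunction.vonMangoldt n -
      (if r.Coprime q then (y : ℝ) / (Nat.totient q : ℝ) else 0) : ℝ) : ℂ) := by
    intro y
    rw [sum_sub_distrib, sum_const, Nat.card_Ioc, nsmul_eq_mul, Nat.sub_zero, ← sum_filter]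
    have e2 : (Ioc 0 y).filter (fun n => n % q = r % q) = (Icc 1 y).filter (fun n => n ≡ r [MOD q]) := by
      apply Finset.ext
      intro n
      rw [mem_filter, mem_filter, mem_Ioc, mem_Icc]
      exact Iff.rfl
    rw [e2]
    unfold crd
    push_cast
    congr 1
    split_ifs
    · push_cast
      ring
    · simp
  rw [Ioc_sub hYm, e1, e1]
  refine (norm_sub_le _ _).trans ?_
  rw [Complex.norm_real, Complex.norm_real, Real.norm_eq_abs, Real.norm_eq_abs]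
  have h1 := hap r m hm
  have h2 := hap r Y (hYm.trans hm)
  linarith

theorem del_dp (E A B k₀ A₁ : ℕ) (hk₀ : 12 ≤ k₀) (hA₁ : E + 4 ≤ A₁) {ρ' : ℝ} (hρ' : 0 < ρ') : ∃ N₀ : ℕ,
    ∀ N : ℕ, N₀ ≤ N → ∀ (I : Finset (ℕ × ℕ)) (M₀ W Z : ℕ) (c : ℕ → ℂ) (a b : ℕ × ℕ → ℕ → ℂ) (R : ℕ → ℂ),
    Good A₁ (1 / (k₀ : ℝ)) N I M₀ W Z c a b R → ∀ Y : ℕ, (N : ℝ) / Real.log N ^ B ≤ Y → Y ≤ N →
    ∀ q : ℕ, 1 ≤ q → (q : ℝ) ≤ Real.log N ^ B → ∀ K : ℕ, 1 ≤ K → (K : ℝ) * Z ≤ Y →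
    (K : ℝ) ≤ (N : ℝ) ^ (2 / 3 - ρ') → ∀ r : ℕ,
      ∑ k ∈ FK K, ‖DP (Ioc Y (3 * Y)) (del q r M₀ c (T2 I a b)) k‖ ^ 2 ≤
        (N : ℝ) * Y / Real.log N ^ E + (N : ℝ) ^ 2 / Real.log N ^ A := by
  classical
  obtain ⟨C, hC, hmv⟩ := Pool.Agent.H376R2.MR.mv
  have hmv : Mv C := hmv
  obtain ⟨C₃, N₁, h1⟩ := bl_all (A + 3) A₁ B k₀ hk₀
  obtain ⟨K', hK'⟩ : ∃ K', K' = A + C₃ + 4 := ⟨_, rfl⟩
  obtain ⟨K₂, N₂, h2⟩ := t1_large B K'
  obtain ⟨K₂', N₃, h3⟩ := la_large B K'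
  obtain ⟨K₃, hK₃⟩ : ∃ K₃, K₃ = max (max K₂ K₂') (A + 10) := ⟨_, rfl⟩
  obtain ⟨U, hU⟩ : ∃ U, U = 2 * K₃ + A + 6 := ⟨_, rfl⟩
  obtain ⟨N₄, h4⟩ := Pool.Agent.H373R2.T7.lam_ap B U
  obtain ⟨N₅, h5⟩ := Filter.eventually_atTop.1 (ev_log (B + U + 2 + A + 10) (s := 1 / 4) (by norm_num)
    (10000000 + 2000 * C))
  obtain ⟨N₆, h6⟩ := Filter.eventually_atTop.1 (ev_log (A + 10) (s := ρ') hρ' 1)
  refine ⟨max (max (max N₁ N₂) (max N₃ N₄)) (max (max N₅ N₆) 16), ?_⟩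
  intro N hN I M₀ W Z c a b R hG Y hY1 hY2 q hq hqL K hK hKZ hKN r
  have hNa := le_trans (le_max_left _ _) hN
  have hNb := le_trans (le_max_right _ _) hN
  have hN1 : N₁ ≤ N := le_trans (le_trans (le_max_left _ _) (le_max_left _ _)) hNa
  have hN2 : N₂ ≤ N := le_trans (le_trans (le_max_right _ _) (le_max_left _ _)) hNa
  have hN3 : N₃ ≤ N := le_trans (le_trans (le_max_left _ _) (le_max_right _ _)) hNa
  have hN4 : N₄ ≤ N := le_trans (le_trans (le_max_right _ _) (le_max_right _ _)) hNa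
  have hN5 : N₅ ≤ N := le_trans (le_trans (le_max_left _ _) (le_max_left _ _)) hNb
  have hN6 : N₆ ≤ N := le_trans (le_trans (le_max_right _ _) (le_max_left _ _)) hNb
  have hN16 : 16 ≤ N := le_trans (le_max_right _ _) hNb
  have hN0 : (0 : ℝ) < N := by exact_mod_cast (by omega : 0 < N)
  have hNr1 : (1 : ℝ) ≤ N := by exact_mod_cast (by omega : 1 ≤ N)
  obtain ⟨hL, hLp⟩ := h5 N hN5
  obtain ⟨-, hLρ⟩ := h6 N hN6
  obtain ⟨l1, l2⟩ := log3 (N := N) (by linarith)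
  have h2' := h2 N hN2 M₀ hG.hM1 hG.hM c hG.dec.hc hG.dec.hc0 Y hY1 hY2 q hq hqL
  have h3' := h3 N hN3 Y hY1 hY2 q hq hqL
  have h4' := h4 (3 * N) (by omega) q hq
  have hM := hG.hM
  have hM1 := hG.hM1
  have hRR := hG.dec.hR
  obtain ⟨L, hLd⟩ : ∃ L, L = Real.log (N : ℝ) := ⟨_, rfl⟩
  obtain ⟨L', hLd'⟩ : ∃ L', L' = Real.log ((3 * N : ℕ) : ℝ) := ⟨_, rfl⟩
  have hL0 : 0 < L := by rw [hLd]; linarith
  have hL1 : 1 ≤ L := by rw [hLd]; linarith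
  have hY3 : 3 ≤ Y := by
    have e1 : (3 : ℝ) ≤ Y := by
      refine le_trans ?_ hY1
      rw [← hLd, le_div_iff₀ (by positivity)]
      have e2 : L ^ B ≤ (N : ℝ) ^ (1 / 4 : ℝ) := by
        refine le_trans ?_ hLp
        rw [← hLd]
        exact pow_le_pow_right₀ hL1 (by omega)
      have e3 : (3 : ℝ) ≤ (N : ℝ) ^ (1 / 4 : ℝ) := by
        refine le_trans ?_ hLp
        rw [← hLd]
        calc (3 : ℝ) ≤ L := by rw [hLd]; linarith
          _ = L ^ 1 := (pow_one L).symm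
          _ ≤ _ := pow_le_pow_right₀ hL1 (by omega)
      calc 3 * L ^ B ≤ (N : ℝ) ^ (1 / 4 : ℝ) * (N : ℝ) ^ (1 / 4 : ℝ) := by gcongr
        _ = (N : ℝ) ^ (1 / 2 : ℝ) := by
            rw [← Real.rpow_add hN0]
            norm_num
        _ ≤ (N : ℝ) ^ (1 : ℝ) := Real.rpow_le_rpow_of_exponent_le hNr1 (by norm_num)
        _ = N := Real.rpow_one _
    exact_mod_cast e1
  obtain ⟨Bd, hBd1, hBd2, hBd3⟩ := h1 N hN1 I M₀ W Z c a b R hG Y hY3 hY2 q hq hqL K hK hKZ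
  have hBd3 := hBd3 r
  rw [← hLd'] at h4'
  rw [← hLd, ← hLd'] at l1 l2
  rw [← hLd] at hL hLp hLρ h2' h3' hqL hBd2 hBd3 hRR hY1 ⊢
  have hL'0 : 0 < L' := by linarith
  have hL'1 : 1 ≤ L' := by linarith
  have hq' : (q : ℝ) ≤ L' ^ B := hqL.trans (pow_le_pow_left₀ hL0.le l1 B)
  have hap := h4' hq'
  have hYr : (Y : ℝ) ≤ N := by exact_mod_cast hY2
  have hY0 : (0 : ℝ) < Y := by exact_mod_cast (by omega : 0 < Y)
  have hcM : ∀ m ∈ Icc 1 M₀, ‖c m‖ ≤ 2 := by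
    intro m hm
    rw [mem_Icc] at hm
    apply hG.dec.hc m
    rw [mem_Icc]
    refine ⟨hm.1, ?_⟩
    have e1 : (m : ℝ) ≤ ((3 * N : ℕ) : ℝ) := by
      calc (m : ℝ) ≤ M₀ := by exact_mod_cast hm.2
        _ ≤ 3 * (N : ℝ) ^ (2 / 3 : ℝ) := hM
        _ ≤ 3 * (N : ℝ) ^ (1 : ℝ) :=
            mul_le_mul_of_nonneg_left (Real.rpow_le_rpow_of_exponent_le hNr1 (by norm_num)) (by norm_num)
        _ = ((3 * N : ℕ) : ℝ) := by
            rw [Real.rpow_one]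
            push_cast
            ring
    exact_mod_cast e1
  obtain ⟨Q, hQ⟩ : ∃ Q, Q = (N : ℝ) ^ 2 / L ^ A := ⟨_, rfl⟩
  rw [← hQ]
  have hQ0 : 0 < Q := by rw [hQ]; positivity
  -- the frequencies
  obtain ⟨T, hT⟩ : ∃ T, T = L ^ K₃ := ⟨_, rfl⟩
  have hT1 : 1 ≤ T := by rw [hT]; exact one_le_pow₀ hL1
  have hT0 : 0 < T := by linarith
  have hTK₂ : L ^ K₂ ≤ T := by
    rw [hT]
    exact pow_le_pow_right₀ hL1 (by rw [hK₃]; exact le_trans (le_max_left _ _) (le_max_left _ _))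
  have hTK₂' : L ^ K₂' ≤ T := by
    rw [hT]
    exact pow_le_pow_right₀ hL1 (by rw [hK₃]; exact le_trans (le_max_right _ _) (le_max_left _ _))
  have hTA : L ^ (A + 10) ≤ T := by
    rw [hT]
    exact pow_le_pow_right₀ hL1 (by rw [hK₃]; exact le_max_right _ _)
  obtain ⟨S, hS⟩ : ∃ S, S = (Ioc Y (3 * Y)).filter (fun n => n % q = r % q) := ⟨_, rfl⟩
  obtain ⟨sm, hsm⟩ : ∃ sm : ℕ → ℂ, sm = fun n : ℕ => crd q r - kap q r M₀ c * ((Real.log n : ℝ) : ℂ) := ⟨_, rfl⟩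
  -- the decomposition
  have hid : ∀ n ∈ Ioc Y (3 * Y), T2 I a b n = LA n - Real.log n * (∑ m ∈ n.divisors, c m) - R n := by
    intro n hn
    rw [mem_Ioc] at hn
    have := hG.dec.hid n (mem_Icc.2 ⟨by omega, by omega⟩)
    rw [this]
    unfold T2
    ring
  have hdec1 : ∀ k : ℤ, DP (Ioc Y (3 * Y)) (del q r M₀ c (T2 I a b)) k = DP S (T2 I a b) k - DP (Ioc Y (3 * Y)) sm k := by
    intro k
    rw [hS, ← DP_ite, ← DP_sub']
    apply DP_congr'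
    intro n _
    unfold del
    rw [hsm]
  have hdec2 : ∀ k : ℤ, DP S (T2 I a b) k = DP S LA k - DP S (fun n => Real.log n * (∑ m ∈ n.divisors, c m)) k -
      DP S R k := by
    intro k
    rw [← DP_sub', ← DP_sub']
    apply DP_congr'
    intro n hn
    rw [hS, mem_filter] at hn
    exact hid n hn.1
  obtain ⟨G, hGd⟩ : ∃ G : ℕ → ℂ, G = fun n => ((if n % q = r % q then LA n else 0) - crd q r) -
      ((if n % q = r % q then (Real.log n : ℂ) * ∑ m ∈ n.divisors, c m else 0) -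
      kap q r M₀ c * ((Real.log n : ℝ) : ℂ)) := ⟨_, rfl⟩
  have hdec3 : ∀ k : ℤ, DP (Ioc Y (3 * Y)) (del q r M₀ c (T2 I a b)) k = DP (Ioc Y (3 * Y)) G k - DP S R k := by
    intro k
    rw [hS, ← DP_ite, ← DP_sub']
    apply DP_congr'
    intro n hn
    rw [hGd]
    unfold del
    simp only []
    split_ifs with hc
    · rw [hid n hn]
      ring
    · ring
  -- the error
  have hRsum : ∑ k ∈ FK K, ‖DP S R k‖ ^ 2 ≤ (N : ℝ) * Y / L ^ E / 100 := by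
    have e1 := Pool.Agent.helper24_UT.II.energy hC hmv S R (3 * N) (3 * Y) (N / L ^ A₁) K (by linarith) (by positivity)
      (by linarith) (by
      intro n hn
      rw [hS, mem_filter, mem_Ioc] at hn
      refine ⟨by omega, ?_⟩
      have : (n : ℝ) ≤ ((3 * Y : ℕ) : ℝ) := by exact_mod_cast hn.1.2
      push_cast at this
      exact this) (by
      refine le_trans ?_ hRR
      apply sum_le_sum_of_subset_of_nonneg
      · intro n hn
        rw [hS, mem_filter, mem_Ioc] at hn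
        rw [mem_Icc]
        omega
      · intro _ _ _
        positivity) hK
    refine e1.trans ?_
    have e2 : Real.log (3 * (N : ℝ)) = L' := by
      rw [hLd']
      push_cast
      rfl
    rw [e2]
    have e3 : (K : ℝ) ≤ Y := by
      refine hKN.trans (le_trans ?_ hY1)
      rw [le_div_iff₀ (by positivity)]
      have e4 : L ^ B ≤ (N : ℝ) ^ (1 / 4 : ℝ) := by
        refine le_trans ?_ hLp
        exact pow_le_pow_right₀ hL1 (by omega)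
      calc (N : ℝ) ^ (2 / 3 - ρ') * L ^ B ≤ (N : ℝ) ^ (2 / 3 - ρ') * (N : ℝ) ^ (1 / 4 : ℝ) := by gcongr
        _ = (N : ℝ) ^ (2 / 3 - ρ' + 1 / 4) := (Real.rpow_add hN0 _ _).symm
        _ ≤ (N : ℝ) ^ (1 : ℝ) := Real.rpow_le_rpow_of_exponent_le hNr1 (by linarith)
        _ = N := Real.rpow_one _
    have hQ1 : 0 ≤ (N : ℝ) * Y / L ^ E := by positivity
    calc C * (1 + L') * ((3 * Y + K) * (N / L ^ A₁)) ≤ C * (3 * L) * ((3 * Y + Y) * (N / L ^ (E + 2))) := by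
          gcongr
          · linarith
          · omega
      _ = (N : ℝ) * Y / L ^ E * (12 * C / L) := by
          rw [pow_add]
          field_simp
          ring
      _ ≤ (N : ℝ) * Y / L ^ E * (1 / 100) := by
          apply mul_le_mul_of_nonneg_left _ hQ1
          rw [div_le_div_iff₀ hL0 (by norm_num)]
          linarith
      _ = (N : ℝ) * Y / L ^ E / 100 := by ring
  -- the smooth sums
  have hΛ : Real.log ((3 * Y : ℕ) : ℝ) ≤ 2 * L := by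
    have : Real.log ((3 * Y : ℕ) : ℝ) ≤ L' := by
      rw [hLd']
      apply Real.log_le_log
      · exact_mod_cast (by omega : 0 < 3 * Y)
      · exact_mod_cast Nat.mul_le_mul_left 3 hY2
    linarith
  have hΛM : 1 + Real.log M₀ ≤ 2 * L := by
    have : Real.log M₀ ≤ L' := by
      rw [hLd']
      apply Real.log_le_log
      · exact_mod_cast hM1
      · push_cast
        calc (M₀ : ℝ) ≤ 3 * (N : ℝ) ^ (2 / 3 : ℝ) := hM
          _ ≤ 3 * (N : ℝ) ^ (1 : ℝ) :=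
              mul_le_mul_of_nonneg_left (Real.rpow_le_rpow_of_exponent_le hNr1 (by norm_num)) (by norm_num)
          _ = 3 * N := by rw [Real.rpow_one]
    linarith
  have hsmall : ∑ k ∈ (FK K).filter (fun k : ℤ => T ≤ |(k : ℝ)|), ‖DP (Ioc Y (3 * Y)) sm k‖ ^ 2 ≤ Q / 50 := by
    have e1 := sm_sum (q := q) (r := r) (K := K) hq (by omega : 1 ≤ Y) hM1 hcM hT1 (by linarith : 1 ≤ 2 * L) hΛ hΛM
    rw [← hsm] at e1
    refine e1.trans ?_
    have e2 : (K : ℝ) ^ 3 ≤ (N : ℝ) ^ 2 / L ^ (A + 10) := by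
      rw [le_div_iff₀ (by positivity)]
      calc (K : ℝ) ^ 3 * L ^ (A + 10) ≤ ((N : ℝ) ^ (2 / 3 - ρ')) ^ 3 * (N : ℝ) ^ ρ' := by
            gcongr
        _ = (N : ℝ) ^ ((2 / 3 - ρ') * 3) * (N : ℝ) ^ ρ' := by
            rw [← Real.rpow_natCast, ← Real.rpow_mul hN0.le]
            norm_num
        _ = (N : ℝ) ^ (2 - 2 * ρ') := by
            rw [← Real.rpow_add hN0]
            congr 1
            ring
        _ ≤ (N : ℝ) ^ (2 : ℝ) := Real.rpow_le_rpow_of_exponent_le hNr1 (by linarith)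
        _ = (N : ℝ) ^ 2 := by
            rw [← Real.rpow_natCast]
            norm_num
    have e3 : 128 * (Y : ℝ) ^ 2 / T ≤ 128 * ((N : ℝ) ^ 2 / L ^ (A + 10)) := by
      rw [mul_div_assoc]
      gcongr
    calc (16 * (K : ℝ) ^ 3 + 128 * (Y : ℝ) ^ 2 / T) * (25 * (2 * L) ^ 4) ≤
        (16 * ((N : ℝ) ^ 2 / L ^ (A + 10)) + 128 * ((N : ℝ) ^ 2 / L ^ (A + 10))) * (25 * (2 * L) ^ 4) := by
          gcongr
      _ = Q * (57600 / L ^ 6) := by
          rw [hQ, pow_add]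
          field_simp
          ring
      _ ≤ Q * (1 / 50) := by
          apply mul_le_mul_of_nonneg_left _ hQ0.le
          rw [div_le_div_iff₀ (by positivity) (by norm_num)]
          have : L ≤ L ^ 6 := by
            calc L = L ^ 1 := (pow_one L).symm
              _ ≤ L ^ 6 := pow_le_pow_right₀ hL1 (by norm_num)
          linarith
      _ = Q / 50 := by ring
  -- the bad frequencies
  have hbad : ∀ k ∈ (FK K).filter (fun k : ℤ => T ≤ |(k : ℝ)|),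
      ‖DP S LA k‖ ^ 2 + ‖DP S (fun n => Real.log n * (∑ m ∈ n.divisors, c m)) k‖ ^ 2 ≤ 2 * (N / L ^ K') ^ 2 := by
    intro k hk
    rw [mem_filter] at hk
    have e0 : |(k : ℝ)| ≤ N := by
      refine (abs_le_of_FK hk.1).trans (hKN.trans ?_)
      calc (N : ℝ) ^ (2 / 3 - ρ') ≤ (N : ℝ) ^ (1 : ℝ) := Real.rpow_le_rpow_of_exponent_le hNr1 (by linarith)
        _ = N := Real.rpow_one _
    have e1 := h3' k (hTK₂'.trans hk.2) e0 r
    have e2 := h2' k (hTK₂.trans hk.2) e0 r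
    rw [← hS] at e1 e2
    have e3 := pow_le_pow_left₀ (norm_nonneg _) e1 2
    have e4 := pow_le_pow_left₀ (norm_nonneg _) e2 2
    linarith
  -- the small frequencies
  have hlow : ∀ k : ℤ, ¬ T ≤ |(k : ℝ)| → ‖DP (Ioc Y (3 * Y)) G k‖ ≤ (7 * (N / L ^ U)) * (3 * T) := by
    intro k hk
    rw [not_le] at hk
    have hEL : ((3 * N : ℕ) : ℝ) / L' ^ U ≤ 3 * (N / L ^ U) := by
      push_cast
      rw [mul_div_assoc]
      gcongr
    have e1 : ∀ m, Y ≤ m → m ≤ 3 * Y → ‖∑ n ∈ Ioc Y m, G n‖ ≤ 7 * (N / L ^ U) := by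
      intro m hm1 hm2
      rw [hGd, sum_sub_distrib]
      refine (norm_sub_le _ _).trans ?_
      have e2 := la_part (q := q) (r := r) (E := ((3 * N : ℕ) : ℝ) / L' ^ U) hap hm1 (by omega : m ≤ 3 * N)
      have e3 := t1_part (r := r) (Λ := 2 * L) hq (by omega : 1 ≤ Y) hm1 hcM hG.dec.hc0 (by
        refine le_trans ?_ hΛ
        apply Real.log_le_log
        · exact_mod_cast (by omega : 0 < m)
        · exact_mod_cast hm2)
      have e4 : 8 * (q : ℝ) * M₀ * (2 * (2 * L)) ≤ N / L ^ U := by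
        rw [le_div_iff₀ (by positivity)]
        calc 8 * (q : ℝ) * M₀ * (2 * (2 * L)) * L ^ U ≤ 8 * L ^ B * (3 * (N : ℝ) ^ (2 / 3 : ℝ)) * (2 * (2 * L)) * L ^ U := by
              gcongr
          _ = (N : ℝ) ^ (2 / 3 : ℝ) * (96 * L ^ (B + U + 1)) := by
              rw [pow_add, pow_add]
              ring
          _ ≤ (N : ℝ) ^ (2 / 3 : ℝ) * (L * L ^ (B + U + 1)) := by
              gcongr
              linarith
          _ = (N : ℝ) ^ (2 / 3 : ℝ) * L ^ (B + U + 2) := by ring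
          _ ≤ (N : ℝ) ^ (2 / 3 : ℝ) * (N : ℝ) ^ (1 / 4 : ℝ) := by
              gcongr
              refine le_trans ?_ hLp
              exact pow_le_pow_right₀ hL1 (by omega)
          _ = (N : ℝ) ^ (11 / 12 : ℝ) := by
              rw [← Real.rpow_add hN0]
              norm_num
          _ ≤ (N : ℝ) ^ (1 : ℝ) := Real.rpow_le_rpow_of_exponent_le hNr1 (by norm_num)
          _ = N := Real.rpow_one _
      linarith
    have e5 := DP_small (by omega : 1 ≤ Y) G (by positivity) e1 k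
    refine e5.trans ?_
    gcongr
    linarith
  -- the sum
  have hpt : ∀ k ∈ FK K, ‖DP (Ioc Y (3 * Y)) (del q r M₀ c (T2 I a b)) k‖ ^ 2 ≤
      4 * ‖DP S R k‖ ^ 2 + (if T ≤ |(k : ℝ)| then 4 * ‖DP (Ioc Y (3 * Y)) sm k‖ ^ 2 else 0) +
      (if k ∈ FK K \ Bd then 2 * ‖DP S (T2 I a b) k‖ ^ 2 else 0) + (if k ∈ Bd then 8 * (N / L ^ K') ^ 2 else 0) +
      (if ¬ T ≤ |(k : ℝ)| then 2 * ((7 * (N / L ^ U)) * (3 * T)) ^ 2 else 0) := by
    intro k hk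
    by_cases hkT : T ≤ |(k : ℝ)|
    · rw [if_pos hkT, if_neg (not_not.2 hkT)]
      by_cases hkB : k ∈ Bd
      · rw [if_pos hkB, if_neg (by rw [mem_sdiff]; exact fun h => h.2 hkB)]
        rw [hdec1, hdec2]
        have e1 := hbad k (mem_filter.2 ⟨hk, hkT⟩)
        obtain ⟨x1, hx1⟩ : ∃ x1, x1 = DP S LA k := ⟨_, rfl⟩
        obtain ⟨x2, hx2⟩ : ∃ x2, x2 = DP S (fun n => Real.log n * (∑ m ∈ n.divisors, c m)) k := ⟨_, rfl⟩
        obtain ⟨x3, hx3⟩ : ∃ x3, x3 = DP S R k := ⟨_, rfl⟩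
        obtain ⟨x4, hx4⟩ : ∃ x4, x4 = DP (Ioc Y (3 * Y)) sm k := ⟨_, rfl⟩
        rw [← hx1, ← hx2] at e1
        rw [← hx1, ← hx2, ← hx3, ← hx4]
        have e2 := sq_four x1 x2 x3 x4
        linarith only [e1, e2]
      · rw [if_neg hkB, if_pos (mem_sdiff.2 ⟨hk, hkB⟩), hdec1]
        obtain ⟨x1, hx1⟩ : ∃ x1, x1 = DP S (T2 I a b) k := ⟨_, rfl⟩
        obtain ⟨x4, hx4⟩ : ∃ x4, x4 = DP (Ioc Y (3 * Y)) sm k := ⟨_, rfl⟩
        rw [← hx1, ← hx4]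
        have e2 := sq_two x1 x4
        have e4 : 0 ≤ ‖DP S R k‖ ^ 2 := by positivity
        have e5 : 0 ≤ ‖x4‖ ^ 2 := by positivity
        linarith only [e2, e4, e5]
    · rw [if_neg hkT, if_pos hkT, hdec3]
      have e1 := hlow k hkT
      obtain ⟨x1, hx1⟩ : ∃ x1, x1 = DP (Ioc Y (3 * Y)) G k := ⟨_, rfl⟩
      obtain ⟨x3, hx3⟩ : ∃ x3, x3 = DP S R k := ⟨_, rfl⟩
      rw [← hx1] at e1
      rw [← hx1, ← hx3]
      have e2 := sq_two x1 x3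
      have e7 : 0 ≤ ‖x3‖ ^ 2 := by positivity
      have e4 := pow_le_pow_left₀ (norm_nonneg _) e1 2
      have e5 : 0 ≤ (if k ∈ FK K \ Bd then 2 * ‖DP S (T2 I a b) k‖ ^ 2 else 0) := by split_ifs <;> positivity
      have e6 : 0 ≤ (if k ∈ Bd then 8 * ((N : ℝ) / L ^ K') ^ 2 else 0) := by split_ifs <;> positivity
      linarith only [e2, e4, e5, e6, e7]
  refine (sum_le_sum hpt).trans ?_
  rw [sum_add_distrib, sum_add_distrib, sum_add_distrib, sum_add_distrib, ← mul_sum]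
  have f1 : ∑ k ∈ FK K, (if T ≤ |(k : ℝ)| then 4 * ‖DP (Ioc Y (3 * Y)) sm k‖ ^ 2 else 0) ≤ 4 * (Q / 50) := by
    rw [← sum_filter, ← mul_sum]
    linarith
  have f2 : ∑ k ∈ FK K, (if k ∈ FK K \ Bd then 2 * ‖DP S (T2 I a b) k‖ ^ 2 else 0) ≤ Q / 50 := by
    rw [← sum_filter]
    have e1 : (FK K).filter (fun k => k ∈ FK K \ Bd) = FK K \ Bd := by
      apply Finset.ext
      intro k
      rw [mem_filter, mem_sdiff]
      tauto
    rw [e1, ← mul_sum, hS]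
    have e2 : (N : ℝ) ^ 2 / L ^ (A + 3) ≤ Q / 100 := by
      have e3 : (N : ℝ) ^ 2 / L ^ (A + 3) = Q / L ^ 3 := by
        rw [hQ, pow_add]
        field_simp
      rw [e3]
      apply div_le_div_of_nonneg_left hQ0.le (by norm_num)
      calc (100 : ℝ) ≤ L := by linarith
        _ = L ^ 1 := (pow_one L).symm
        _ ≤ L ^ 3 := pow_le_pow_right₀ hL1 (by norm_num)
    linarith
  have f3 : ∑ k ∈ FK K, (if k ∈ Bd then 8 * ((N : ℝ) / L ^ K') ^ 2 else 0) ≤ Q / 50 := by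
    rw [← sum_filter]
    have e1 : (FK K).filter (fun k => k ∈ Bd) = Bd := by
      apply Finset.ext
      intro k
      rw [mem_filter]
      exact ⟨fun h => h.2, fun h => ⟨hBd1 h, h⟩⟩
    rw [e1, sum_const, nsmul_eq_mul]
    calc (Bd.card : ℝ) * (8 * ((N : ℝ) / L ^ K') ^ 2) ≤ L ^ C₃ * (8 * ((N : ℝ) / L ^ K') ^ 2) := by gcongr
      _ = Q * (8 / L ^ (A + C₃ + 8)) := by
          rw [hQ, hK']
          have e2 : L ^ (A + C₃ + 4) ^ 1 = L ^ (A + C₃ + 4) := by rw [pow_one]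
          rw [div_pow, ← pow_mul]
          field_simp
          ring
      _ ≤ Q * (1 / 50) := by
          apply mul_le_mul_of_nonneg_left _ hQ0.le
          rw [div_le_div_iff₀ (by positivity) (by norm_num)]
          have : L ≤ L ^ (A + C₃ + 8) := by
            calc L = L ^ 1 := (pow_one L).symm
              _ ≤ _ := pow_le_pow_right₀ hL1 (by omega)
          linarith
      _ = Q / 50 := by ring
  have f4 : ∑ k ∈ FK K, (if ¬ T ≤ |(k : ℝ)| then 2 * ((7 * ((N : ℝ) / L ^ U)) * (3 * T)) ^ 2 else 0) ≤ Q / 50 := by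
    rw [← sum_filter, sum_const, nsmul_eq_mul]
    have e1 := card_small hT1 K
    calc _ ≤ 4 * T * (2 * ((7 * ((N : ℝ) / L ^ U)) * (3 * T)) ^ 2) := by gcongr
      _ = Q * (3528 * T ^ 3 * L ^ A / L ^ (2 * U)) := by
          rw [hQ, pow_mul']
          field_simp
          ring
      _ ≤ Q * (1 / 50) := by
          apply mul_le_mul_of_nonneg_left _ hQ0.le
          rw [div_le_div_iff₀ (by positivity) (by norm_num), hT, one_mul]
          calc 3528 * (L ^ K₃) ^ 3 * L ^ A * 50 = 176400 * (L ^ K₃) ^ 3 * L ^ A := by ring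
            _ ≤ L * (L ^ K₃) ^ 3 * L ^ A := by
                gcongr
                linarith
            _ = L ^ (3 * K₃ + A + 1) := by
                rw [← pow_mul]
                ring
            _ ≤ L ^ (2 * U) := pow_le_pow_right₀ hL1 (by omega)
      _ = Q / 50 := by ring
  have hQ1 : 0 ≤ (N : ℝ) * Y / L ^ E := by positivity
  linarith only [hQ0, hQ1, f1, f2, f3, f4, hRsum]

end Pool.Agent.KS6_25.SH
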