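import Pool.Agent.KS6_25.SH.D6
import Pool.Agent.KS6_25.SH.A1
import Pool.Graph.R_pool_sql_team_seeded_620a6dc7.helper24_UT_.Sil2
import Pool.Graph.R_pool_sql_team_seeded_620a6dc7.helper24_UT_.Win
import Pool.Graph.R_seed8.H510R2.Div

set_option autoImplicit false

/-!
# Windows of the function in a class
-/

namespace Pool.Agent.KS6_25.SH

open Finset
open Pool.Agent.helper24_UT
open Pool.Agent.helper24_UT.II (tau tau_nonneg one_le_tau tau_mono tau_pow_sum)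
open Pool.Agent.H376R2.MR (ch er DP FK)
open Pool.Agent.Y614.GJ.Core (ev_log)
open Pool.Agent.Y883.GJ (LA)

lemma win_card (N W x : ℕ) : ((Icc 1 N).filter (fun n => n ≤ x ∧ x < n + W)).card ≤ W := by
  calc ((Icc 1 N).filter (fun n => n ≤ x ∧ x < n + W)).card ≤ (Ioc (x - W) x).card := by
        apply card_le_card
        intro n hn
        rw [mem_filter, mem_Icc] at hn
        rw [mem_Ioc]
        omega
    _ = x - (x - W) := Nat.card_Ioc _ _
    _ ≤ W := by omega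

/-- the windows in mean square -/
lemma win_l2 (N W X : ℕ) (G : ℕ → ℂ) : ∑ x ∈ range X, ‖win N W G x‖ ^ 2 ≤
    (W : ℝ) ^ 2 * ∑ n ∈ (Icc 1 N).filter (fun n => n < X), ‖G n‖ ^ 2 := by
  classical
  have h1 : ∀ x ∈ range X, ‖win N W G x‖ ^ 2 ≤
      (W : ℝ) * ∑ n ∈ (Icc 1 N).filter (fun n => n < X), (if n ≤ x ∧ x < n + W then ‖G n‖ ^ 2 else 0) := by
    intro x hx
    rw [mem_range] at hx
    unfold win
    have e1 : ‖∑ n ∈ (Icc 1 N).filter (fun n => n ≤ x ∧ x < n + W), G n‖ ^ 2 ≤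
        (((Icc 1 N).filter (fun n => n ≤ x ∧ x < n + W)).card : ℝ) *
        ∑ n ∈ (Icc 1 N).filter (fun n => n ≤ x ∧ x < n + W), ‖G n‖ ^ 2 := by
      have e2 := norm_sum_le ((Icc 1 N).filter (fun n => n ≤ x ∧ x < n + W)) G
      exact (pow_le_pow_left₀ (norm_nonneg _) e2 2).trans (sq_sum_le_card_mul_sum_sq)
    have e3 : (((Icc 1 N).filter (fun n => n ≤ x ∧ x < n + W)).card : ℝ) ≤ W := by exact_mod_cast win_card N W x
    have e4 : ∑ n ∈ (Icc 1 N).filter (fun n => n ≤ x ∧ x < n + W), ‖G n‖ ^ 2 =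
        ∑ n ∈ (Icc 1 N).filter (fun n => n < X), (if n ≤ x ∧ x < n + W then ‖G n‖ ^ 2 else 0) := by
      rw [← sum_filter, filter_filter]
      apply sum_congr _ fun _ _ => rfl
      apply filter_congr
      intro n _
      constructor
      · intro h
        exact ⟨by omega, h⟩
      · intro h
        exact h.2
    rw [← e4]
    exact e1.trans (mul_le_mul_of_nonneg_right e3 (sum_nonneg fun _ _ => by positivity))
  refine (sum_le_sum h1).trans ?_
  rw [← mul_sum, sum_comm]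
  have h2 : ∀ n ∈ (Icc 1 N).filter (fun n => n < X),
      ∑ x ∈ range X, (if n ≤ x ∧ x < n + W then ‖G n‖ ^ 2 else 0) ≤ W * ‖G n‖ ^ 2 := by
    intro n _
    rw [← sum_filter, sum_const, nsmul_eq_mul]
    apply mul_le_mul_of_nonneg_right _ (by positivity)
    have : ((range X).filter (fun x => n ≤ x ∧ x < n + W)).card ≤ W := by
      calc ((range X).filter (fun x => n ≤ x ∧ x < n + W)).card ≤ (Ico n (n + W)).card := by
            apply card_le_card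
            intro x hx
            rw [mem_filter] at hx
            rw [mem_Ico]
            exact hx.2
        _ = W := by rw [Nat.card_Ico]; omega
    exact_mod_cast this
  calc (W : ℝ) * _ ≤ W * ∑ n ∈ (Icc 1 N).filter (fun n => n < X), W * ‖G n‖ ^ 2 := by
        apply mul_le_mul_of_nonneg_left (sum_le_sum h2) (by positivity)
    _ = _ := by
        rw [← mul_sum]
        ring

/-- a bound for the sums of type II -/
lemma T2_le {A : ℕ} {κ : ℝ} {N : ℕ} {I : Finset (ℕ × ℕ)} {M₀ W Z : ℕ} {c : ℕ → ℂ} {a b : ℕ × ℕ → ℕ → ℂ} {R : ℕ → ℂ}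
    (hG : Good A κ N I M₀ W Z c a b R) (hL : 10 ≤ Real.log N) {n : ℕ} (hn : n ∈ Icc 1 (3 * N)) :
    ‖T2 I a b n‖ ≤ 9 * Real.log N ^ (A + 22) * tau n := by
  have hI := hG.hI
  obtain ⟨L, hLd⟩ : ∃ L, L = Real.log (N : ℝ) := ⟨_, rfl⟩
  rw [mem_Icc] at hn
  unfold T2
  have h1 : ∀ j ∈ I, ‖∑ m ∈ n.divisors, a j m * b j (n / m)‖ ≤ 9 * L ^ 2 * tau n := by
    intro j _
    have h2 : ∀ m ∈ n.divisors, ‖a j m * b j (n / m)‖ ≤ (3 * L) * (3 * L) := by
      intro m hm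
      have hd := Nat.dvd_of_mem_divisors hm
      have hm0 : 0 < m := Nat.pos_of_dvd_of_pos hd (by omega)
      have hmn : m ≤ n := Nat.le_of_dvd (by omega) hd
      have hq0 : 0 < n / m := Nat.div_pos hmn hm0
      have hqn : n / m ≤ n := Nat.div_le_self _ _
      rw [norm_mul, hLd]
      have := hG.dec.ha1 j m (mem_Icc.2 ⟨hm0, by omega⟩)
      have := hG.dec.hb j (n / m) (mem_Icc.2 ⟨hq0, by omega⟩)
      gcongr
    refine (norm_sum_le_of_le _ h2).trans (le_of_eq ?_)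
    rw [sum_const, nsmul_eq_mul]
    unfold tau
    ring
  refine (norm_sum_le_of_le _ h1).trans ?_
  rw [sum_const, nsmul_eq_mul]
  have ht := tau_nonneg n
  rw [← hLd] at hI ⊢
  have hL0 : 0 < L := by rw [hLd]; linarith
  calc (I.card : ℝ) * (9 * L ^ 2 * tau n) ≤ L ^ (A + 20) * (9 * L ^ 2 * tau n) := by gcongr
    _ = _ := by ring

/-- a bound for the function -/
lemma del_le {A : ℕ} {κ : ℝ} {N : ℕ} {I : Finset (ℕ × ℕ)} {M₀ W Z : ℕ} {c : ℕ → ℂ} {a b : ℕ × ℕ → ℕ → ℂ} {R : ℕ → ℂ}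
    (hG : Good A κ N I M₀ W Z c a b R) (hL : 10 ≤ Real.log N) {q r : ℕ} (hq : 1 ≤ q) {n : ℕ} (hn : n ∈ Icc 1 (3 * N)) :
    ‖crd q r - kap q r M₀ c * ((Real.log n : ℝ) : ℂ)‖ ≤ 9 * Real.log N ^ 2 ∧
    ‖del q r M₀ c (T2 I a b) n‖ ≤ Real.log N ^ (A + 24) * tau n := by
  have h1 := T2_le hG hL hn
  obtain ⟨l1, l2⟩ := log3 hL
  have hM := hG.hM
  have hM1 := hG.hM1
  obtain ⟨L, hLd⟩ : ∃ L, L = Real.log (N : ℝ) := ⟨_, rfl⟩
  have hN0 : (0 : ℝ) < N := by
    by_contra h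
    have : (N : ℝ) = 0 := le_antisymm (not_lt.1 h) (Nat.cast_nonneg _)
    rw [this, Real.log_zero] at hL
    linarith
  have hNr1 : (1 : ℝ) ≤ N := by
    have : 0 < N := by exact_mod_cast hN0
    exact_mod_cast this
  rw [← hLd] at hL h1 l1 l2 ⊢
  have hL0 : 0 < L := by linarith
  have hM3 : (M₀ : ℝ) ≤ ((3 * N : ℕ) : ℝ) := by
    calc (M₀ : ℝ) ≤ 3 * (N : ℝ) ^ (2 / 3 : ℝ) := hM
      _ ≤ 3 * (N : ℝ) ^ (1 : ℝ) :=
          mul_le_mul_of_nonneg_left (Real.rpow_le_rpow_of_exponent_le hNr1 (by norm_num)) (by norm_num)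
      _ = ((3 * N : ℕ) : ℝ) := by
          rw [Real.rpow_one]
          push_cast
          ring
  have hcM : ∀ m ∈ Icc 1 M₀, ‖c m‖ ≤ 2 := by
    intro m hm
    rw [mem_Icc] at hm
    apply hG.dec.hc m
    rw [mem_Icc]
    refine ⟨hm.1, ?_⟩
    have : M₀ ≤ 3 * N := by exact_mod_cast hM3
    omega
  have hlM : Real.log M₀ ≤ 3 / 2 * L := by
    refine le_trans (Real.log_le_log (by exact_mod_cast hM1) hM3) l2
  rw [mem_Icc] at hn
  have hln : Real.log n ≤ 3 / 2 * L := by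
    refine le_trans (Real.log_le_log (by exact_mod_cast hn.1) ?_) l2
    exact_mod_cast hn.2
  have hln0 : 0 ≤ Real.log n := Real.log_natCast_nonneg n
  have h2 := crd_norm (r := r) hq
  have h3 := kap_norm (r := r) hq hM1 hcM
  have h4 : ‖crd q r - kap q r M₀ c * ((Real.log n : ℝ) : ℂ)‖ ≤ 9 * L ^ 2 := by
    refine (norm_sub_le _ _).trans ?_
    rw [norm_mul, Complex.norm_real, Real.norm_of_nonneg hln0]
    calc ‖crd q r‖ + ‖kap q r M₀ c‖ * Real.log n ≤ 1 + (2 * (1 + 3 / 2 * L)) * (3 / 2 * L) := by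
          gcongr
          linarith
      _ ≤ 9 * L ^ 2 := by nlinarith
  refine ⟨h4, ?_⟩
  have ht : 1 ≤ tau n := one_le_tau (by omega)
  have h5 : ‖del q r M₀ c (T2 I a b) n‖ ≤ ‖T2 I a b n‖ + 9 * L ^ 2 := by
    unfold del
    refine (norm_sub_le _ _).trans (add_le_add ?_ h4)
    split_ifs
    · exact le_rfl
    · rw [norm_zero]
      exact norm_nonneg _
  have hL1 : 1 ≤ L := by linarith
  have h6 : L ^ 2 ≤ L ^ (A + 22) * tau n := by
    calc L ^ 2 ≤ L ^ (A + 22) := pow_le_pow_right₀ hL1 (by omega)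
      _ = L ^ (A + 22) * 1 := (mul_one _).symm
      _ ≤ _ := by gcongr
  have h7 : 0 ≤ L ^ (A + 22) * tau n := by positivity
  calc ‖del q r M₀ c (T2 I a b) n‖ ≤ 18 * (L ^ (A + 22) * tau n) := by linarith
    _ ≤ L ^ 2 * (L ^ (A + 22) * tau n) := by
        apply mul_le_mul_of_nonneg_right _ h7
        nlinarith
    _ = L ^ (A + 24) * tau n := by ring

/-- the divisor bound -/
lemma ptw (A : ℕ) {ε : ℝ} (hε : 0 < ε) : ∃ N₀ : ℕ, ∀ N : ℕ, N₀ ≤ N → ∀ n ∈ Icc 1 (3 * N),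
    Real.log N ^ A * tau n ≤ (N : ℝ) ^ ε := by
  obtain ⟨C, hC, h1⟩ := Pool.Agent.H510R2.divisor_bound (ε / 2) (by positivity)
  obtain ⟨N₁, h2⟩ := Filter.eventually_atTop.1 (ev_log (A + 1) (s := ε / 2) (by positivity)
    (1 + C * (3 : ℝ) ^ (ε / 2)))
  refine ⟨max N₁ 1, fun N hN n hn => ?_⟩
  obtain ⟨hL, hLp⟩ := h2 N (le_trans (le_max_left _ _) hN)
  have hN1 : 1 ≤ N := le_trans (le_max_right _ _) hN
  have hN0 : (0 : ℝ) < N := by exact_mod_cast hN1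
  rw [mem_Icc] at hn
  have h3 := h1 n hn.1
  obtain ⟨L, hLd⟩ : ∃ L, L = Real.log (N : ℝ) := ⟨_, rfl⟩
  rw [← hLd] at hL hLp ⊢
  have h30 : (0 : ℝ) < (3 : ℝ) ^ (ε / 2) := by positivity
  have hL0 : 0 < L := by
    have : 0 < C * (3 : ℝ) ^ (ε / 2) := by positivity
    linarith
  have h4 : (n : ℝ) ^ (ε / 2) ≤ (3 : ℝ) ^ (ε / 2) * (N : ℝ) ^ (ε / 2) := by
    rw [← Real.mul_rpow (by norm_num) hN0.le]
    apply Real.rpow_le_rpow (by positivity) _ (by positivity)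
    exact_mod_cast hn.2
  unfold tau
  calc L ^ A * (n.divisors.card : ℝ) ≤ L ^ A * (C * ((3 : ℝ) ^ (ε / 2) * (N : ℝ) ^ (ε / 2))) := by
        gcongr
        exact h3.trans (by gcongr)
    _ = (C * (3 : ℝ) ^ (ε / 2)) * L ^ A * (N : ℝ) ^ (ε / 2) := by ring
    _ ≤ L * L ^ A * (N : ℝ) ^ (ε / 2) := by
        gcongr
        linarith
    _ = L ^ (A + 1) * (N : ℝ) ^ (ε / 2) := by ring
    _ ≤ (N : ℝ) ^ (ε / 2) * (N : ℝ) ^ (ε / 2) := by gcongr
    _ = (N : ℝ) ^ ε := by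
        rw [← Real.rpow_add hN0]
        congr 1
        ring

end Pool.Agent.KS6_25.SH
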