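import Pool.Agent.KS6_25.SH.D7

set_option autoImplicit false

/-!
# Windows of the function in a class, II
-/

namespace Pool.Agent.KS6_25.SH

open Finset
open Pool.Agent.helper24_UT
open Pool.Agent.helper24_UT.II (tau tau_nonneg one_le_tau tau_mono tau_pow_sum)
open Pool.Agent.H376R2.MR (ch er DP FK)
open Pool.Agent.Y614.GJ.Core (ev_log)
open Pool.Agent.Y883.GJ (LA)

/-- the arithmetic of a dyadic block -/
lemma block_arith {C L N Y w J K S P ε : ℝ} {E c : ℕ} (hC : 1 ≤ C) (hL : 100 * C ≤ L) (hN : 1 ≤ N)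
    (hY : 1 ≤ Y) (hYN : Y ≤ N) (hYc : N / L ^ c ≤ Y) (hw : N ^ (4 * ε) ≤ w) (hε : 0 < ε) (hP : P = N ^ ε)
    (hJ1 : N ^ (2 * ε) ≤ J) (hJ2 : J ≤ 2 * N ^ (2 * ε)) (hK : Y / w * N ^ (4 * ε) ≤ K)
    (hS : S ≤ N * Y / L ^ (E + 1) + N ^ 2 / L ^ (E + 1 + c)) (hLN : L ^ (E + 1) ≤ N ^ (2 * ε)) :
    C * (w ^ 2 / Y * S + J ^ 2 * Y ^ 2 * P ^ 2 * (Y / K ^ 2 + 1 / K) + Y * P ^ 2 * (w ^ 2 / J ^ 2 + 1)) ≤
      N * w ^ 2 / L ^ E := by
  have hN0 : 0 < N := by linarith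
  have hY0 : 0 < Y := by linarith
  have hL0 : 0 < L := by linarith
  have hL1 : 1 ≤ L := by linarith
  obtain ⟨x, hx⟩ : ∃ x, x = N ^ ε := ⟨_, rfl⟩
  have hx0 : 0 < x := by rw [hx]; positivity
  have hx1 : 1 ≤ x := by rw [hx]; exact Real.one_le_rpow hN hε.le
  have e2 : N ^ (2 * ε) = x ^ 2 := by
    rw [hx, ← Real.rpow_natCast, ← Real.rpow_mul hN0.le]
    congr 1
    push_cast
    ring
  have e4 : N ^ (4 * ε) = x ^ 4 := by
    rw [hx, ← Real.rpow_natCast, ← Real.rpow_mul hN0.le]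
    congr 1
    push_cast
    ring
  rw [e2] at hJ1 hJ2 hLN
  rw [e4] at hw hK
  rw [hP, ← hx]
  have hw0 : 0 < w := lt_of_lt_of_le (by positivity) hw
  have hJ0 : 0 < J := lt_of_lt_of_le (by positivity) hJ1
  have hK0 : 0 < K := lt_of_lt_of_le (by positivity) hK
  obtain ⟨D, hD⟩ : ∃ D, D = N * w ^ 2 / L ^ (E + 1) := ⟨_, rfl⟩
  have hD0 : 0 < D := by rw [hD]; positivity
  have hxL : 1 / x ^ 2 ≤ 1 / L ^ (E + 1) := one_div_le_one_div_of_le (by positivity) hLN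
  have t0 : N * w ^ 2 * (1 / x ^ 2) ≤ D := by
    rw [hD]
    calc N * w ^ 2 * (1 / x ^ 2) ≤ N * w ^ 2 * (1 / L ^ (E + 1)) := by gcongr
      _ = _ := by ring
  have t1 : w ^ 2 / Y * S ≤ 2 * D := by
    calc w ^ 2 / Y * S ≤ w ^ 2 / Y * (N * Y / L ^ (E + 1) + N ^ 2 / L ^ (E + 1 + c)) := by gcongr
      _ = D + w ^ 2 * N / L ^ (E + 1) * ((N / L ^ c) / Y) := by
          rw [hD, pow_add L (E + 1) c]
          field_simp
      _ ≤ D + w ^ 2 * N / L ^ (E + 1) * 1 := by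
          have : (N / L ^ c) / Y ≤ 1 := by
            rw [div_le_one hY0]
            exact hYc
          gcongr
      _ = 2 * D := by
          rw [hD]
          ring
  have hK2 : Y / K ^ 2 ≤ w ^ 2 / (Y * x ^ 8) := by
    rw [div_le_div_iff₀ (by positivity) (by positivity)]
    have : (Y / w * x ^ 4) ^ 2 ≤ K ^ 2 := pow_le_pow_left₀ (by positivity) hK 2
    calc Y * (Y * x ^ 8) = w ^ 2 * (Y / w * x ^ 4) ^ 2 := by
          field_simp
      _ ≤ w ^ 2 * K ^ 2 := by gcongr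
  have hK1 : 1 / K ≤ w / (Y * x ^ 4) := by
    rw [div_le_div_iff₀ hK0 (by positivity)]
    calc 1 * (Y * x ^ 4) = w * (Y / w * x ^ 4) := by field_simp
      _ ≤ w * K := by gcongr
  have hJ4 : J ^ 2 ≤ 4 * x ^ 4 := by
    calc J ^ 2 ≤ (2 * x ^ 2) ^ 2 := pow_le_pow_left₀ hJ0.le hJ2 2
      _ = _ := by ring
  have t2 : J ^ 2 * Y ^ 2 * x ^ 2 * (Y / K ^ 2 + 1 / K) ≤ 8 * D := by
    calc J ^ 2 * Y ^ 2 * x ^ 2 * (Y / K ^ 2 + 1 / K) ≤ (4 * x ^ 4) * Y ^ 2 * x ^ 2 * (w ^ 2 / (Y * x ^ 8) + w / (Y * x ^ 4)) := by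
          gcongr
      _ = 4 * (Y * w ^ 2 * (1 / x ^ 2)) + 4 * (Y * w * x ^ 2) := by
          field_simp
      _ ≤ 4 * (N * w ^ 2 * (1 / x ^ 2)) + 4 * (N * w ^ 2 * (1 / x ^ 2)) := by
          have : w * x ^ 2 ≤ w ^ 2 * (1 / x ^ 2) := by
            rw [mul_one_div, le_div_iff₀ (by positivity)]
            calc w * x ^ 2 * x ^ 2 = w * x ^ 4 := by ring
              _ ≤ w * w := by gcongr
              _ = w ^ 2 := by ring
          have h2 : Y * w * x ^ 2 ≤ N * w ^ 2 * (1 / x ^ 2) := by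
            calc Y * w * x ^ 2 = Y * (w * x ^ 2) := by ring
              _ ≤ N * (w ^ 2 * (1 / x ^ 2)) := by gcongr
              _ = _ := by ring
          have h3 : Y * w ^ 2 * (1 / x ^ 2) ≤ N * w ^ 2 * (1 / x ^ 2) := by gcongr
          linarith
      _ ≤ 8 * D := by linarith
  have t3 : Y * x ^ 2 * (w ^ 2 / J ^ 2 + 1) ≤ 2 * D := by
    have h1 : w ^ 2 / J ^ 2 ≤ w ^ 2 / x ^ 4 := by
      have : x ^ 4 ≤ J ^ 2 := by
        calc x ^ 4 = (x ^ 2) ^ 2 := by ring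
          _ ≤ J ^ 2 := pow_le_pow_left₀ (by positivity) hJ1 2
      gcongr
    have h2 : 1 ≤ w ^ 2 / x ^ 4 := by
      rw [le_div_iff₀ (by positivity), one_mul]
      have h1x : (1 : ℝ) ≤ x ^ 4 := one_le_pow₀ hx1
      calc x ^ 4 = 1 * x ^ 4 := (one_mul _).symm
        _ ≤ x ^ 4 * x ^ 4 := by gcongr
        _ ≤ w * w := by gcongr
        _ = w ^ 2 := by ring
    calc Y * x ^ 2 * (w ^ 2 / J ^ 2 + 1) ≤ N * x ^ 2 * (w ^ 2 / x ^ 4 + w ^ 2 / x ^ 4) := by gcongr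
      _ = 2 * (N * w ^ 2 * (1 / x ^ 2)) := by
          field_simp
          ring
      _ ≤ 2 * D := by linarith
  have hfin : N * w ^ 2 / L ^ E = L * D := by
    rw [hD, pow_succ L E]
    field_simp
  rw [hfin]
  calc C * (w ^ 2 / Y * S + J ^ 2 * Y ^ 2 * x ^ 2 * (Y / K ^ 2 + 1 / K) + Y * x ^ 2 * (w ^ 2 / J ^ 2 + 1))
      ≤ C * (2 * D + 8 * D + 2 * D) := by gcongr
    _ = 12 * C * D := by ring
    _ ≤ L * D := by
        apply mul_le_mul_of_nonneg_right _ hD0.le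
        linarith

/-- a dyadic block of the windows -/
lemma block (E c₁ B k₀ A₁ : ℕ) (hk₀ : 12 ≤ k₀) (hA₁ : E + 5 ≤ A₁) {ρ : ℝ} (hρ : 0 < ρ) (hρ1 : ρ ≤ 1 / 4)
    (hk : 1 / (k₀ : ℝ) ≤ ρ / 8) : ∃ N₀ : ℕ,
    ∀ N : ℕ, N₀ ≤ N → ∀ (I : Finset (ℕ × ℕ)) (M₀ W Z : ℕ) (c : ℕ → ℂ) (a b : ℕ × ℕ → ℕ → ℂ) (R : ℕ → ℂ),
    Good A₁ (1 / (k₀ : ℝ)) N I M₀ W Z c a b R → ∀ Y : ℕ, (N : ℝ) / Real.log N ^ c₁ ≤ Y → Y ≤ N →
    ∀ q : ℕ, 1 ≤ q → (q : ℝ) ≤ Real.log N ^ B → ∀ W₁ : ℕ, (N : ℝ) ^ (1 / 3 + ρ / 2) ≤ W₁ →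
    (W₁ : ℝ) ≤ (N : ℝ) ^ (2 / 3 : ℝ) → ∀ r : ℕ,
      ∑ u ∈ Ico Y (2 * Y), ‖∑ n ∈ Ioc u (u + W₁), del q r M₀ c (T2 I a b) n‖ ^ 2 ≤
        (N : ℝ) * W₁ ^ 2 / Real.log N ^ E := by
  obtain ⟨C, hC, hwin⟩ := Pool.Agent.helper24_UT.Win.main
  obtain ⟨N₁, h1⟩ := del_dp (E + 1) (E + 1 + c₁) (max B c₁) k₀ A₁ hk₀ (by omega) (ρ' := ρ / 8) (by positivity)
  obtain ⟨N₂, h2⟩ := ptw (A₁ + 24) (ε := ρ / 16) (by positivity)
  obtain ⟨N₃, h3⟩ := Filter.eventually_atTop.1 (ev_log (E + 1) (s := ρ / 8) (by positivity) (100 * C + 10))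
  obtain ⟨N₄, h4⟩ := Filter.eventually_atTop.1 (ev_log (c₁ + 1) (s := 1 / 4) (by norm_num) 10)
  refine ⟨max (max N₁ N₂) (max (max N₃ N₄) 1), ?_⟩
  intro N hN I M₀ W Z c a b R hG Y hY1 hY2 q hq hqL W₁ hW1 hW2 r
  have hN1 : N₁ ≤ N := le_trans (le_trans (le_max_left _ _) (le_max_left _ _)) hN
  have hN2 : N₂ ≤ N := le_trans (le_trans (le_max_right _ _) (le_max_left _ _)) hN
  have hNb := le_trans (le_max_right _ _) hN
  have hN3 : N₃ ≤ N := le_trans (le_trans (le_max_left _ _) (le_max_left _ _)) hNb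
  have hN4 : N₄ ≤ N := le_trans (le_trans (le_max_right _ _) (le_max_left _ _)) hNb
  have hN01 : 1 ≤ N := le_trans (le_max_right _ _) hNb
  have hN0 : (0 : ℝ) < N := by exact_mod_cast hN01
  have hNr1 : (1 : ℝ) ≤ N := by exact_mod_cast hN01
  obtain ⟨hL, hLp⟩ := h3 N hN3
  obtain ⟨-, hLq⟩ := h4 N hN4
  have hL10 : 10 ≤ Real.log N := by linarith
  have hL1 : 1 ≤ Real.log N := by linarith
  have hL0 : 0 < Real.log N := by linarith
  have hYr : (Y : ℝ) ≤ N := by exact_mod_cast hY2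
  -- the windows are shorter than `Y`
  have hWY : (W₁ : ℝ) ≤ Y := by
    refine hW2.trans (le_trans ?_ hY1)
    rw [le_div_iff₀ (by positivity)]
    calc (N : ℝ) ^ (2 / 3 : ℝ) * Real.log N ^ c₁ ≤ (N : ℝ) ^ (2 / 3 : ℝ) * (N : ℝ) ^ (1 / 4 : ℝ) := by
          gcongr
          refine le_trans ?_ hLq
          exact pow_le_pow_right₀ hL1 (by omega)
      _ = (N : ℝ) ^ (11 / 12 : ℝ) := by
          rw [← Real.rpow_add hN0]
          norm_num
      _ ≤ (N : ℝ) ^ (1 : ℝ) := Real.rpow_le_rpow_of_exponent_le hNr1 (by norm_num)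
      _ = N := Real.rpow_one _
  have hW0 : (0 : ℝ) < W₁ := lt_of_lt_of_le (by positivity) hW1
  have hY0 : (0 : ℝ) < Y := by linarith
  have hY01 : 1 ≤ Y := by exact_mod_cast hY0
  have hW01 : 1 ≤ W₁ := by exact_mod_cast hW0
  -- the parameters
  obtain ⟨J, hJ⟩ : ∃ J, J = ⌈(N : ℝ) ^ (2 * (ρ / 16))⌉₊ := ⟨_, rfl⟩
  obtain ⟨K, hK⟩ : ∃ K, K = ⌈(Y : ℝ) / W₁ * (N : ℝ) ^ (4 * (ρ / 16))⌉₊ := ⟨_, rfl⟩
  have hx1 : (1 : ℝ) ≤ (N : ℝ) ^ (2 * (ρ / 16)) := Real.one_le_rpow hNr1 (by positivity)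
  have hJ1 : (N : ℝ) ^ (2 * (ρ / 16)) ≤ J := by rw [hJ]; exact Nat.le_ceil _
  have hJ2 : (J : ℝ) ≤ 2 * (N : ℝ) ^ (2 * (ρ / 16)) := by
    rw [hJ]
    have := (Nat.ceil_lt_add_one (show 0 ≤ (N : ℝ) ^ (2 * (ρ / 16)) by positivity)).le
    linarith
  have hJpos : 1 ≤ J := by
    have : (1 : ℝ) ≤ J := hx1.trans hJ1
    exact_mod_cast this
  have hx4 : (1 : ℝ) ≤ (N : ℝ) ^ (4 * (ρ / 16)) := Real.one_le_rpow hNr1 (by positivity)
  have hYW : 1 ≤ (Y : ℝ) / W₁ * (N : ℝ) ^ (4 * (ρ / 16)) := by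
    have : 1 ≤ (Y : ℝ) / W₁ := by
      rw [le_div_iff₀ hW0]
      linarith
    nlinarith
  have hK1 : (Y : ℝ) / W₁ * (N : ℝ) ^ (4 * (ρ / 16)) ≤ K := by rw [hK]; exact Nat.le_ceil _
  have hK2 : (K : ℝ) ≤ 2 * ((Y : ℝ) / W₁ * (N : ℝ) ^ (4 * (ρ / 16))) := by
    rw [hK]
    have := (Nat.ceil_lt_add_one (show 0 ≤ (Y : ℝ) / W₁ * (N : ℝ) ^ (4 * (ρ / 16)) by positivity)).le
    linarith
  have hKpos : 1 ≤ K := by
    have : (1 : ℝ) ≤ K := hYW.trans hK1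
    exact_mod_cast this
  have hsmallp : (10 : ℝ) ≤ (N : ℝ) ^ (ρ / 8) := by
    refine le_trans ?_ hLp
    calc (10 : ℝ) ≤ Real.log N := hL10
      _ = Real.log N ^ 1 := (pow_one _).symm
      _ ≤ Real.log N ^ (E + 1) := pow_le_pow_right₀ hL1 (by omega)
  have hKW : (K : ℝ) ≤ 2 * (Y * (N : ℝ) ^ (-(1 / 3) - ρ / 4)) := by
    refine hK2.trans ?_
    have e1 : (Y : ℝ) / W₁ * (N : ℝ) ^ (4 * (ρ / 16)) ≤ Y / (N : ℝ) ^ (1 / 3 + ρ / 2) * (N : ℝ) ^ (4 * (ρ / 16)) := by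
      gcongr
    have e2 : (Y : ℝ) / (N : ℝ) ^ (1 / 3 + ρ / 2) * (N : ℝ) ^ (4 * (ρ / 16)) = Y * (N : ℝ) ^ (-(1 / 3) - ρ / 4) := by
      rw [div_eq_mul_inv, ← Real.rpow_neg hN0.le, mul_assoc, ← Real.rpow_add hN0]
      congr 2
      ring
    linarith
  have hKZ : (K : ℝ) * Z ≤ Y := by
    have hZ := hG.hZ
    calc (K : ℝ) * Z ≤ (2 * (Y * (N : ℝ) ^ (-(1 / 3) - ρ / 4))) * (3 * (N : ℝ) ^ (1 / 3 + 1 / (k₀ : ℝ))) := by gcongr
      _ = 6 * (Y * (N : ℝ) ^ (1 / (k₀ : ℝ) - ρ / 4)) := by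
          have : (N : ℝ) ^ (-(1 / 3) - ρ / 4) * (N : ℝ) ^ (1 / 3 + 1 / (k₀ : ℝ)) = (N : ℝ) ^ (1 / (k₀ : ℝ) - ρ / 4) := by
            rw [← Real.rpow_add hN0]
            congr 1
            ring
          rw [← this]
          ring
      _ ≤ 6 * (Y * (N : ℝ) ^ (-(ρ / 8))) := by
          gcongr
          linarith
      _ = Y * (6 / (N : ℝ) ^ (ρ / 8)) := by
          rw [Real.rpow_neg hN0.le]
          field_simp
      _ ≤ Y * 1 := by
          have : 6 / (N : ℝ) ^ (ρ / 8) ≤ 1 := by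
            rw [div_le_one (by positivity)]
            linarith
          gcongr
      _ = Y := mul_one _
  have hKN : (K : ℝ) ≤ (N : ℝ) ^ (2 / 3 - ρ / 8) := by
    calc (K : ℝ) ≤ 2 * (Y * (N : ℝ) ^ (-(1 / 3) - ρ / 4)) := hKW
      _ ≤ 2 * (N * (N : ℝ) ^ (-(1 / 3) - ρ / 4)) := by gcongr
      _ = 2 * (N : ℝ) ^ (2 / 3 - ρ / 4) := by
          congr 1
          nth_rewrite 1 [← Real.rpow_one (N : ℝ)]
          rw [← Real.rpow_add hN0]
          congr 1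
          ring
      _ ≤ (N : ℝ) ^ (ρ / 8) * (N : ℝ) ^ (2 / 3 - ρ / 4) := by
          gcongr
          linarith
      _ = (N : ℝ) ^ (2 / 3 - ρ / 8) := by
          rw [← Real.rpow_add hN0]
          congr 1
          ring
  have hB1 : (N : ℝ) / Real.log N ^ (max B c₁) ≤ Y := by
    refine le_trans ?_ hY1
    apply div_le_div_of_nonneg_left hN0.le (by positivity)
    exact pow_le_pow_right₀ hL1 (le_max_right _ _)
  have hB2 : (q : ℝ) ≤ Real.log N ^ (max B c₁) := hqL.trans (pow_le_pow_right₀ hL1 (le_max_left _ _))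
  have hS := h1 N hN1 I M₀ W Z c a b R hG Y hB1 hY2 q hq hB2 K hKpos hKZ hKN r
  -- the truncated function
  have hptw := h2 N hN2
  obtain ⟨F, hF⟩ : ∃ F : ℕ → ℂ, F = fun n : ℕ => if 1 ≤ n ∧ n ≤ 3 * N then del q r M₀ c (T2 I a b) n else 0 := ⟨_, rfl⟩
  have hFP : ∀ n, ‖F n‖ ≤ (N : ℝ) ^ (ρ / 16) := by
    intro n
    rw [hF]
    simp only
    split_ifs with h
    · exact (del_le (r := r) hG hL10 hq (mem_Icc.2 h)).2.trans (hptw n (mem_Icc.2 h))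
    · rw [norm_zero]
      positivity
  have hw := hwin Y W₁ J K ((N : ℝ) ^ (ρ / 16)) F hJpos hW01 (by exact_mod_cast hWY) hKpos (by positivity) hFP
  have e1 : ∑ u ∈ Ico Y (2 * Y), ‖∑ n ∈ Ioc u (u + W₁), del q r M₀ c (T2 I a b) n‖ ^ 2 =
      ∑ u ∈ Ico Y (2 * Y), ‖∑ n ∈ Ioc u (u + W₁), F n‖ ^ 2 := by
    have hWYn : W₁ ≤ Y := by exact_mod_cast hWY
    apply sum_congr rfl
    intro u hu
    congr 2
    apply sum_congr rfl
    intro n hn
    rw [mem_Ico] at hu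
    rw [mem_Ioc] at hn
    rw [hF]
    simp only
    rw [if_pos (by omega)]
  have e2 : ∀ k, DP (Ioc Y (3 * Y)) F k = DP (Ioc Y (3 * Y)) (del q r M₀ c (T2 I a b)) k := by
    intro k
    apply DP_congr'
    intro n hn
    rw [mem_Ioc] at hn
    rw [hF]
    simp only
    rw [if_pos (by omega)]
  rw [e1]
  refine hw.trans ?_
  simp only [e2]
  refine block_arith (c := c₁) (ε := ρ / 16) hC (by linarith) hNr1 (by exact_mod_cast hY01) hYr hY1 ?_ (by positivity) rfl hJ1 hJ2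
    hK1 hS ?_
  · refine le_trans ?_ hW1
    exact Real.rpow_le_rpow_of_exponent_le hNr1 (by linarith)
  · have : 2 * (ρ / 16) = ρ / 8 := by ring
    rw [this]
    exact hLp

/-- the windows in mean square -/
theorem win_del (A B k₀ A₁ : ℕ) (hk₀ : 12 ≤ k₀) (hA₁ : A + 8 ≤ A₁) {ρ : ℝ} (hρ : 0 < ρ) (hρ1 : ρ ≤ 1 / 4)
    (hk : 1 / (k₀ : ℝ) ≤ ρ / 8) : ∃ N₀ : ℕ,
    ∀ N : ℕ, N₀ ≤ N → ∀ (I : Finset (ℕ × ℕ)) (M₀ W Z : ℕ) (c : ℕ → ℂ) (a b : ℕ × ℕ → ℕ → ℂ) (R : ℕ → ℂ),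
    Good A₁ (1 / (k₀ : ℝ)) N I M₀ W Z c a b R →
    ∀ q : ℕ, 1 ≤ q → (q : ℝ) ≤ Real.log N ^ B → ∀ W₁ : ℕ, (N : ℝ) ^ (1 / 3 + ρ / 2) ≤ W₁ →
    (W₁ : ℝ) ≤ (N : ℝ) ^ (2 / 3 : ℝ) → ∀ r : ℕ,
      ∑ x ∈ range (2 * N + 1), ‖win N W₁ (del q r M₀ c (T2 I a b)) x‖ ^ 2 ≤ (N : ℝ) * W₁ ^ 2 / Real.log N ^ A := by
  obtain ⟨c₁, hc₁⟩ : ∃ c₁, c₁ = 2 * A₁ + A + 60 := ⟨_, rfl⟩
  obtain ⟨N₁, h1⟩ := block (A + 3) c₁ B k₀ A₁ hk₀ (by omega) hρ hρ1 hk
  obtain ⟨N₂, h2⟩ := ptw (A₁ + 24) (ε := 1 / 24) (by norm_num)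
  obtain ⟨N₃, h3⟩ := Filter.eventually_atTop.1 (ev_log (c₁ + A + 2) (s := 1 / 24) (by norm_num) 1000)
  refine ⟨max (max N₁ N₂) (max N₃ 1), ?_⟩
  intro N hN I M₀ W Z c a b R hG q hq hqL W₁ hW1 hW2 r
  have hN1 : N₁ ≤ N := le_trans (le_trans (le_max_left _ _) (le_max_left _ _)) hN
  have hN2 : N₂ ≤ N := le_trans (le_trans (le_max_right _ _) (le_max_left _ _)) hN
  have hNb := le_trans (le_max_right _ _) hN
  have hN3 : N₃ ≤ N := le_trans (le_max_left _ _) hNb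
  have hN01 : 1 ≤ N := le_trans (le_max_right _ _) hNb
  have hN0 : (0 : ℝ) < N := by exact_mod_cast hN01
  have hNr1 : (1 : ℝ) ≤ N := by exact_mod_cast hN01
  obtain ⟨hL, hLp⟩ := h3 N hN3
  have hL10 : 10 ≤ Real.log N := by linarith
  have hdel : ∀ n ∈ Icc 1 (3 * N), ‖del q r M₀ c (T2 I a b) n‖ ≤ Real.log N ^ (A₁ + 24) * tau n :=
    fun n hn => (del_le (r := r) hG hL10 hq hn).2
  have hptw := h2 N hN2
  have hblock := fun Y h h' => h1 N hN1 I M₀ W Z c a b R hG Y h h' q hq hqL W₁ hW1 hW2 r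
  obtain ⟨F, hF⟩ : ∃ F, F = del q r M₀ c (T2 I a b) := ⟨_, rfl⟩
  rw [← hF] at hdel hblock ⊢
  obtain ⟨L, hLd⟩ : ∃ L, L = Real.log (N : ℝ) := ⟨_, rfl⟩
  rw [← hLd] at hL hLp hL10 hdel hptw hblock ⊢
  have hL1 : 1 ≤ L := by linarith
  have hL0 : 0 < L := by linarith
  have hW0 : (0 : ℝ) < W₁ := lt_of_lt_of_le (by positivity) hW1
  have hW01 : 1 ≤ W₁ := by exact_mod_cast hW0
  obtain ⟨D, hD⟩ : ∃ D, D = (N : ℝ) * W₁ ^ 2 / L ^ (A + 1) := ⟨_, rfl⟩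
  have hD0 : 0 < D := by rw [hD]; positivity
  -- the first range
  obtain ⟨y₀, hy₀⟩ : ∃ y₀, y₀ = ⌈(N : ℝ) / L ^ c₁⌉₊ := ⟨_, rfl⟩
  have hNc : (1 : ℝ) ≤ N / L ^ c₁ := by
    rw [le_div_iff₀ (by positivity), one_mul]
    calc L ^ c₁ ≤ L ^ (c₁ + A + 2) := pow_le_pow_right₀ hL1 (by omega)
      _ ≤ (N : ℝ) ^ (1 / 24 : ℝ) := hLp
      _ ≤ (N : ℝ) ^ (1 : ℝ) := Real.rpow_le_rpow_of_exponent_le hNr1 (by norm_num)
      _ = N := Real.rpow_one _
  have hy₀1 : (N : ℝ) / L ^ c₁ ≤ y₀ := by rw [hy₀]; exact Nat.le_ceil _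
  have hy₀2 : (y₀ : ℝ) ≤ 2 * (N / L ^ c₁) := by
    rw [hy₀]
    have := (Nat.ceil_lt_add_one (show 0 ≤ (N : ℝ) / L ^ c₁ by positivity)).le
    linarith
  have hy₀pos : 1 ≤ y₀ := by
    have : (1 : ℝ) ≤ y₀ := hNc.trans hy₀1
    exact_mod_cast this
  have hW3 : (W₁ : ℝ) ≤ N / L ^ c₁ := by
    refine hW2.trans ?_
    rw [le_div_iff₀ (by positivity)]
    calc (N : ℝ) ^ (2 / 3 : ℝ) * L ^ c₁ ≤ (N : ℝ) ^ (2 / 3 : ℝ) * (N : ℝ) ^ (1 / 24 : ℝ) := by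
          gcongr
          refine le_trans ?_ hLp
          exact pow_le_pow_right₀ hL1 (by omega)
      _ = (N : ℝ) ^ (17 / 24 : ℝ) := by
          rw [← Real.rpow_add hN0]
          norm_num
      _ ≤ (N : ℝ) ^ (1 : ℝ) := Real.rpow_le_rpow_of_exponent_le hNr1 (by norm_num)
      _ = N := Real.rpow_one _
  have hX : ((W₁ + y₀ : ℕ) : ℝ) ≤ 3 * (N / L ^ c₁) := by
    push_cast
    linarith
  have hXN : W₁ + y₀ ≤ N := by
    have e1 : ((W₁ + y₀ : ℕ) : ℝ) ≤ N := by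
      refine hX.trans ?_
      rw [← mul_div_assoc, div_le_iff₀ (by positivity)]
      have : 3 ≤ L ^ c₁ := by
        calc (3 : ℝ) ≤ L := by linarith
          _ = L ^ 1 := (pow_one L).symm
          _ ≤ L ^ c₁ := pow_le_pow_right₀ hL1 (by omega)
      nlinarith
    exact_mod_cast e1
  have hr1 : ∑ x ∈ range (W₁ + y₀), ‖win N W₁ F x‖ ^ 2 ≤ D := by
    refine (win_l2 N W₁ (W₁ + y₀) F).trans ?_
    have e1 : ∑ n ∈ (Icc 1 N).filter (fun n => n < W₁ + y₀), ‖F n‖ ^ 2 ≤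
        ∑ n ∈ Icc 1 (W₁ + y₀), (L ^ (A₁ + 24)) ^ 2 * tau n ^ 2 := by
      calc ∑ n ∈ (Icc 1 N).filter (fun n => n < W₁ + y₀), ‖F n‖ ^ 2
          ≤ ∑ n ∈ (Icc 1 N).filter (fun n => n < W₁ + y₀), (L ^ (A₁ + 24)) ^ 2 * tau n ^ 2 := by
            apply sum_le_sum
            intro n hn
            rw [mem_filter, mem_Icc] at hn
            rw [← mul_pow]
            exact pow_le_pow_left₀ (norm_nonneg _) (hdel n (mem_Icc.2 ⟨hn.1.1, by omega⟩)) 2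
        _ ≤ _ := by
            apply sum_le_sum_of_subset_of_nonneg
            · intro n hn
              rw [mem_filter, mem_Icc] at hn
              rw [mem_Icc]
              omega
            · intro n _ _
              have := tau_nonneg n
              positivity
    rw [← mul_sum] at e1
    have e2 := tau_pow_sum 2 (W₁ + y₀) (by omega)
    have e3 : (1 + Real.log ((W₁ + y₀ : ℕ) : ℝ)) ^ (2 ^ 2) ≤ (2 * L) ^ 4 := by
      have h0 : 0 ≤ Real.log ((W₁ + y₀ : ℕ) : ℝ) := Real.log_natCast_nonneg _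
      have h1 : Real.log ((W₁ + y₀ : ℕ) : ℝ) ≤ L := by
        rw [hLd]
        apply Real.log_le_log
        · exact_mod_cast (by omega : 0 < W₁ + y₀)
        · exact_mod_cast hXN
      have h2 : (2 ^ 2 : ℕ) = 4 := by norm_num
      rw [h2]
      exact pow_le_pow_left₀ (by linarith) (by linarith) 4
    calc (W₁ : ℝ) ^ 2 * ∑ n ∈ (Icc 1 N).filter (fun n => n < W₁ + y₀), ‖F n‖ ^ 2
        ≤ (W₁ : ℝ) ^ 2 * ((L ^ (A₁ + 24)) ^ 2 * ((3 * (N / L ^ c₁)) * (2 * L) ^ 4)) := by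
          gcongr
          refine e1.trans ?_
          gcongr
          refine e2.trans ?_
          gcongr
      _ = (N : ℝ) * W₁ ^ 2 / L ^ c₁ * (48 * L ^ (2 * A₁ + 52)) := by
          rw [← pow_mul]
          field_simp
          ring
      _ ≤ (N : ℝ) * W₁ ^ 2 / L ^ c₁ * (L * L ^ (2 * A₁ + 52)) := by
          gcongr
          linarith
      _ = (N : ℝ) * W₁ ^ 2 / L ^ c₁ * L ^ (2 * A₁ + 53) := by ring
      _ ≤ D := by
          rw [hD, div_mul_eq_mul_div, div_le_div_iff₀ (by positivity) (by positivity), mul_assoc, ← pow_add]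
          gcongr
          omega
  -- the last range
  have hr3 : ∑ x ∈ Ico (N + 1) (N + W₁), (W₁ * (N : ℝ) ^ (1 / 24 : ℝ)) ^ 2 ≤ D := by
    rw [sum_const, Nat.card_Ico, nsmul_eq_mul]
    have e1 : ((N + W₁ - (N + 1) : ℕ) : ℝ) ≤ W₁ := by
      exact_mod_cast (by omega : N + W₁ - (N + 1) ≤ W₁)
    calc ((N + W₁ - (N + 1) : ℕ) : ℝ) * (W₁ * (N : ℝ) ^ (1 / 24 : ℝ)) ^ 2 ≤
        (N : ℝ) ^ (2 / 3 : ℝ) * (W₁ * (N : ℝ) ^ (1 / 24 : ℝ)) ^ 2 := by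
          gcongr
          exact e1.trans hW2
      _ = (W₁ : ℝ) ^ 2 * ((N : ℝ) ^ (2 / 3 : ℝ) * ((N : ℝ) ^ (1 / 24 : ℝ)) ^ 2) := by ring
      _ = (W₁ : ℝ) ^ 2 * (N : ℝ) ^ (3 / 4 : ℝ) := by
          rw [← Real.rpow_natCast ((N : ℝ) ^ (1 / 24 : ℝ)) 2, ← Real.rpow_mul hN0.le, ← Real.rpow_add hN0]
          norm_num
      _ ≤ D := by
          rw [hD, le_div_iff₀ (by positivity)]
          calc (W₁ : ℝ) ^ 2 * (N : ℝ) ^ (3 / 4 : ℝ) * L ^ (A + 1) ≤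
              (W₁ : ℝ) ^ 2 * (N : ℝ) ^ (3 / 4 : ℝ) * (N : ℝ) ^ (1 / 24 : ℝ) := by
                gcongr
                refine le_trans ?_ hLp
                exact pow_le_pow_right₀ hL1 (by omega)
            _ = (W₁ : ℝ) ^ 2 * (N : ℝ) ^ (19 / 24 : ℝ) := by
                rw [mul_assoc, ← Real.rpow_add hN0]
                norm_num
            _ ≤ (W₁ : ℝ) ^ 2 * (N : ℝ) ^ (1 : ℝ) := by
                apply mul_le_mul_of_nonneg_left _ (by positivity)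
                exact Real.rpow_le_rpow_of_exponent_le hNr1 (by norm_num)
            _ = N * (W₁ : ℝ) ^ 2 := by
                rw [Real.rpow_one]
                ring
  -- the dyadic ranges
  obtain ⟨g, hg⟩ : ∃ g : ℕ → ℝ, g = fun u : ℕ => if u ≤ N then ‖∑ n ∈ Ioc u (u + W₁), F n‖ ^ 2 else 0 := ⟨_, rfl⟩
  have hg0 : ∀ u, 0 ≤ g u := by
    intro u
    rw [hg]
    simp only
    split_ifs <;> positivity
  obtain ⟨J, hJ⟩ : ∃ J, J = Nat.log 2 N + 1 := ⟨_, rfl⟩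
  have hJN : N < 2 ^ J := by
    rw [hJ]
    exact Nat.lt_pow_succ_log_self (by norm_num) N
  have hJL : (J : ℝ) ≤ L ^ 2 := by
    have e1 : (2 : ℕ) ^ (Nat.log 2 N) ≤ N := Nat.pow_log_le_self 2 (by omega)
    have e2 : (Nat.log 2 N : ℝ) * Real.log 2 ≤ L := by
      rw [hLd, ← Real.log_pow]
      apply Real.log_le_log (by positivity)
      exact_mod_cast e1
    have e3 := Real.log_two_gt_d9
    have e4 : (0 : ℝ) ≤ (Nat.log 2 N : ℝ) := Nat.cast_nonneg _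
    rw [hJ]
    push_cast
    nlinarith
  have hr2 : ∑ u ∈ Ico y₀ (N + 1), g u ≤ D := by
    have e1 := Pool.Agent.helper24_UT.Sil2.cover g y₀ J
    have e2 : ∑ u ∈ Ico y₀ (N + 1), g u + ∑ u ∈ range y₀, g u ≤ ∑ u ∈ range (2 ^ J * y₀), g u := by
      rw [add_comm, Finset.sum_range_add_sum_Ico g (by omega)]
      apply sum_le_sum_of_subset_of_nonneg
      · apply range_subset_range.2
        nlinarith
      · intro u _ _
        exact hg0 u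
    have e3 : ∀ j ∈ range J, ∑ u ∈ Ico (2 ^ j * y₀) (2 * (2 ^ j * y₀)), g u ≤ (N : ℝ) * W₁ ^ 2 / L ^ (A + 3) := by
      intro j _
      by_cases hj : 2 ^ j * y₀ ≤ N
      · refine le_trans (sum_le_sum fun u _ => ?_) (hblock (2 ^ j * y₀) ?_ hj)
        · rw [hg]
          simp only
          split_ifs
          · exact le_rfl
          · positivity
        · refine hy₀1.trans ?_
          have : y₀ ≤ 2 ^ j * y₀ := Nat.le_mul_of_pos_left _ (by positivity)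
          exact_mod_cast this
      · have : ∑ u ∈ Ico (2 ^ j * y₀) (2 * (2 ^ j * y₀)), g u = 0 := by
          apply sum_eq_zero
          intro u hu
          rw [mem_Ico] at hu
          rw [hg]
          simp only
          rw [if_neg (by omega)]
        rw [this]
        positivity
    have e4 := sum_le_sum e3
    rw [sum_const, card_range, nsmul_eq_mul] at e4
    have e5 : (J : ℝ) * ((N : ℝ) * W₁ ^ 2 / L ^ (A + 3)) ≤ D := by
      calc (J : ℝ) * ((N : ℝ) * W₁ ^ 2 / L ^ (A + 3)) ≤ L ^ 2 * ((N : ℝ) * W₁ ^ 2 / L ^ (A + 3)) := by gcongr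
        _ = D := by
            rw [hD, show A + 3 = (A + 1) + 2 by ring, pow_add L (A + 1) 2]
            field_simp
    linarith
  -- the sum
  have hFP : ∀ n ∈ Icc 1 N, ‖F n‖ ≤ (N : ℝ) ^ (1 / 24 : ℝ) := by
    intro n hn
    rw [mem_Icc] at hn
    exact (hdel n (mem_Icc.2 ⟨hn.1, by omega⟩)).trans (hptw n (mem_Icc.2 ⟨hn.1, by omega⟩))
  have hpt : ∀ x ∈ range (2 * N + 1), ‖win N W₁ F x‖ ^ 2 ≤
      (if x < W₁ + y₀ then ‖win N W₁ F x‖ ^ 2 else 0) +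
      (if W₁ + y₀ ≤ x ∧ x ≤ N then g (x - W₁) else 0) +
      (if N + 1 ≤ x ∧ x < N + W₁ then (W₁ * (N : ℝ) ^ (1 / 24 : ℝ)) ^ 2 else 0) := by
    intro x _
    have p1 : 0 ≤ (if W₁ + y₀ ≤ x ∧ x ≤ N then g (x - W₁) else 0) := by
      split_ifs
      · exact hg0 _
      · exact le_rfl
    have p2 : 0 ≤ (if N + 1 ≤ x ∧ x < N + W₁ then (W₁ * (N : ℝ) ^ (1 / 24 : ℝ)) ^ 2 else 0) := by
      split_ifs <;> positivity
    by_cases c1 : x < W₁ + y₀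
    · rw [if_pos c1]
      linarith
    · rw [if_neg c1]
      rw [not_lt] at c1
      by_cases c2 : x ≤ N
      · rw [if_pos ⟨c1, c2⟩]
        have e1 : ‖win N W₁ F x‖ ^ 2 = g (x - W₁) := by
          rw [hg]
          simp only
          rw [if_pos (by omega)]
          unfold win
          congr 2
          apply sum_congr _ fun _ _ => rfl
          apply Finset.ext
          intro n
          rw [mem_filter, mem_Icc, mem_Ioc]
          omega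
        linarith
      · rw [if_neg (by omega)]
        by_cases c3 : x < N + W₁
        · rw [if_pos ⟨by omega, c3⟩]
          have e1 : ‖win N W₁ F x‖ ≤ W₁ * (N : ℝ) ^ (1 / 24 : ℝ) := by
            unfold win
            have e2 : ∀ n ∈ (Icc 1 N).filter (fun n => n ≤ x ∧ x < n + W₁), ‖F n‖ ≤ (N : ℝ) ^ (1 / 24 : ℝ) := by
              intro n hn
              exact hFP n (mem_filter.1 hn).1
            refine (norm_sum_le_of_le _ e2).trans ?_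
            rw [sum_const, nsmul_eq_mul]
            gcongr
            exact win_card N W₁ x
          have e3 := pow_le_pow_left₀ (norm_nonneg _) e1 2
          linarith
        · rw [if_neg (by omega)]
          have e1 : win N W₁ F x = 0 := by
            unfold win
            apply sum_eq_zero
            intro n hn
            rw [mem_filter, mem_Icc] at hn
            omega
          rw [e1]
          simp
  refine (sum_le_sum hpt).trans ?_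
  rw [sum_add_distrib, sum_add_distrib]
  have s1 : ∑ x ∈ range (2 * N + 1), (if x < W₁ + y₀ then ‖win N W₁ F x‖ ^ 2 else 0) ≤ D := by
    refine le_trans ?_ hr1
    rw [← sum_filter]
    apply sum_le_sum_of_subset_of_nonneg
    · intro x hx
      rw [mem_filter] at hx
      rw [mem_range]
      exact hx.2
    · intro _ _ _
      positivity
  have s2 : ∑ x ∈ range (2 * N + 1), (if W₁ + y₀ ≤ x ∧ x ≤ N then g (x - W₁) else 0) ≤ D := by
    refine le_trans ?_ hr2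
    rw [← sum_filter]
    rw [← sum_image (f := g) (g := fun x => x - W₁) (s := (range (2 * N + 1)).filter (fun x => W₁ + y₀ ≤ x ∧ x ≤ N))]
    · apply sum_le_sum_of_subset_of_nonneg
      · intro u hu
        rw [mem_image] at hu
        obtain ⟨x, hx, rfl⟩ := hu
        rw [mem_filter] at hx
        rw [mem_Ico]
        omega
      · intro u _ _
        exact hg0 u
    · intro x hx y hy hxy
      rw [mem_coe, mem_filter] at hx hy
      simp only at hxy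
      omega
  have s3 : ∑ x ∈ range (2 * N + 1), (if N + 1 ≤ x ∧ x < N + W₁ then (W₁ * (N : ℝ) ^ (1 / 24 : ℝ)) ^ 2 else 0) ≤ D := by
    refine le_trans ?_ hr3
    rw [← sum_filter]
    apply sum_le_sum_of_subset_of_nonneg
    · intro x hx
      rw [mem_filter] at hx
      rw [mem_Ico]
      exact hx.2
    · intro _ _ _
      positivity
  have hfin : (N : ℝ) * W₁ ^ 2 / L ^ A = L * D := by
    rw [hD, pow_succ L A]
    field_simp
  rw [hfin]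
  nlinarith

end Pool.Agent.KS6_25.SH
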