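import Pool.Agent.KS6_25.SH.C6
import Pool.Agent.KS6_25.SH.D8

set_option autoImplicit false

/-!
# The major arcs: lemmas
-/

namespace Pool.Agent.KS6_25.SH

open Finset
open Pool.Agent.R460.GS
open Pool.Agent.R460.GH
open Pool.Agent.Y883.GJ (LA LS FF)
open Pool.Agent.H807R2.Dav (ee KK KK_nonneg KK_le KK_le' dd dd_le dd_nonneg dd_ge dd_add_int dd_neg vino_block norm_ee ee_add ee_add_int
  ee_int ee_zero)
open Pool.Agent.H373R2.T7 (Vz)
open Pool.Agent.Y614.GJ.Core (ev_log)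

lemma dd_low {x : ℝ} (hx : |x| ≤ 1 / 2) : 4 * |x| ≤ dd x := by
  rcases le_total 0 x with h | h
  · rw [abs_of_nonneg h] at hx ⊢
    have := dd_ge h (by linarith)
    rwa [min_eq_left (by linarith)] at this
  · rw [abs_of_nonpos h] at hx ⊢
    have := dd_ge (t := -x) (by linarith) (by linarith)
    rw [min_eq_left (by linarith), dd_neg] at this
    exact this

lemma KK_low {X β : ℝ} (hX : 0 < X) : 3 * X / (1 + 7 * (X * |β|)) ≤ KK X β := by
  unfold KK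
  have h1 := dd_le β
  have h2 := dd_nonneg β
  have h3 : dd β ≤ 7 * |β| := by
    refine h1.trans ?_
    have := Real.pi_lt_d2
    have := abs_nonneg β
    nlinarith
  apply div_le_div_of_nonneg_left (by positivity) (by positivity)
  have : X * dd β ≤ X * (7 * |β|) := mul_le_mul_of_nonneg_left h3 hX.le
  linarith

lemma KK_sum {N R₀ : ℕ} {X : ℝ} (hX : 0 < X) (hR : R₀ ≤ 2 * N + 1) (β₀ : ℝ) :
    ∑ s ∈ range R₀, KK X (gam N β₀ s) ≤ 39 * X + 3 * ((2 * N + 1 : ℕ) : ℝ) * (1 + Real.log ((2 * N + 1 : ℕ) : ℝ)) := by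
  have h1 := vino_block (q := 2 * N + 1) (by omega) (a := 1) isCoprime_one_left
    (α := 1 / ((2 * N + 1 : ℕ) : ℝ)) (by
      have : (1 : ℝ) / ((2 * N + 1 : ℕ) : ℝ) - ((1 : ℤ) : ℝ) / ((2 * N + 1 : ℕ) : ℝ) = 0 := by simp
      rw [this, abs_zero]
      positivity) hX.le β₀
  refine le_trans ?_ h1
  have h2 : ∀ s : ℕ, gam N β₀ s = β₀ + s * (1 / ((2 * N + 1 : ℕ) : ℝ)) := by
    intro s
    unfold gam
    ring
  simp only [h2]
  apply sum_le_sum_of_subset_of_nonneg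
  · exact range_subset_range.2 hR
  · intro s _ _
    exact KK_nonneg hX.le _

/-- the far frequencies -/
lemma far_sq {N R₀ : ℕ} {X : ℝ} (hX : 0 < X) (hR : R₀ ≤ 2 * N + 1) (β₀ : ℝ) :
    ∑ s ∈ (range R₀).filter (fun s => 1 ≤ X * |gam N β₀ s|), 1 / (gam N β₀ s) ^ 2 ≤
      22 * X * (39 * X + 3 * ((2 * N + 1 : ℕ) : ℝ) * (1 + Real.log ((2 * N + 1 : ℕ) : ℝ))) := by
  have h1 : ∀ s ∈ (range R₀).filter (fun s => 1 ≤ X * |gam N β₀ s|), 1 / (gam N β₀ s) ^ 2 ≤ 22 * X * KK X (gam N β₀ s) := by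
    intro s hs
    rw [mem_filter] at hs
    obtain ⟨b, hb⟩ : ∃ b, b = |gam N β₀ s| := ⟨_, rfl⟩
    have h2 := KK_low (β := gam N β₀ s) hX
    have h3 := KK_le hX.le (gam N β₀ s)
    rw [← sq_abs, ← hb]
    rw [← hb] at h2
    have h4 := hs.2
    rw [← hb] at h4
    have hb0 : 0 < b := by
      by_contra h
      have : X * b ≤ 0 := mul_nonpos_of_nonneg_of_nonpos hX.le (not_lt.1 h)
      linarith
    have h5 : 3 / (8 * b) ≤ KK X (gam N β₀ s) := by
      refine le_trans ?_ h2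
      rw [div_le_div_iff₀ (by positivity) (by positivity)]
      nlinarith
    have h6 : (3 / (8 * b)) ^ 2 ≤ KK X (gam N β₀ s) ^ 2 := pow_le_pow_left₀ (by positivity) h5 2
    have h7 : KK X (gam N β₀ s) ^ 2 ≤ 3 * X * KK X (gam N β₀ s) := by
      rw [sq]
      exact mul_le_mul_of_nonneg_right h3 (KK_nonneg hX.le _)
    have h8 : 1 / b ^ 2 = 64 / 9 * (3 / (8 * b)) ^ 2 := by
      field_simp
      norm_num
    have h9 : 0 ≤ X * KK X (gam N β₀ s) := mul_nonneg hX.le (KK_nonneg hX.le _)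
    rw [h8]
    nlinarith
  refine (sum_le_sum h1).trans ?_
  rw [← mul_sum]
  apply mul_le_mul_of_nonneg_left _ (by positivity)
  refine le_trans ?_ (KK_sum hX hR β₀)
  exact sum_le_sum_of_subset_of_nonneg (filter_subset _ _) fun s _ _ => KK_nonneg hX.le _

/-- the number of the near frequencies -/
lemma near_count {N R₀ : ℕ} {X : ℝ} (hX : 0 < X) (hR : R₀ ≤ 2 * N + 1) (β₀ : ℝ) :
    (((range R₀).filter (fun s => ¬ 1 ≤ X * |gam N β₀ s|)).card : ℝ) * (3 * X / 8) ≤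
      39 * X + 3 * ((2 * N + 1 : ℕ) : ℝ) * (1 + Real.log ((2 * N + 1 : ℕ) : ℝ)) := by
  refine le_trans ?_ (KK_sum hX hR β₀)
  rw [← nsmul_eq_mul, ← sum_const]
  calc ∑ s ∈ (range R₀).filter (fun s => ¬ 1 ≤ X * |gam N β₀ s|), 3 * X / 8
      ≤ ∑ s ∈ (range R₀).filter (fun s => ¬ 1 ≤ X * |gam N β₀ s|), KK X (gam N β₀ s) := by
        apply sum_le_sum
        intro s hs
        rw [mem_filter, not_le] at hs
        refine le_trans ?_ (KK_low hX)
        apply div_le_div_of_nonneg_left (by positivity) (by positivity)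
        linarith [hs.2]
    _ ≤ _ := sum_le_sum_of_subset_of_nonneg (filter_subset _ _) fun s _ _ => KK_nonneg hX.le _

/-- the multiples of the frequencies, `k ∤ r` -/
lemma far_major {k r : ℕ} {h : ℤ} {γ δ : ℝ} (hk : 1 ≤ k) (hcop : IsCoprime h (k : ℤ)) (hrk : ¬ k ∣ r)
    (hα : |γ - h / k| ≤ δ) (h1 : r * δ ≤ 1 / (2 * k)) : 2 / (k : ℝ) ≤ dd (r * γ) := by
  have hk0 : (0 : ℝ) < k := by exact_mod_cast hk
  have key := dd_ge_dist (x := r * γ) (δ := 1 / (2 * (k : ℝ))) (by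
    intro n
    have hne : (r : ℤ) * h - n * k ≠ 0 := by
      intro h0
      have h3 : (k : ℤ) ∣ (r : ℤ) * h := ⟨n, by linarith⟩
      have h4 : (k : ℤ) ∣ (r : ℤ) := (hcop.symm).dvd_of_dvd_mul_right h3
      exact hrk (by exact_mod_cast h4)
    have h3 : (1 : ℝ) ≤ |(r : ℝ) * h - n * k| := by
      have : (1 : ℤ) ≤ |(r : ℤ) * h - n * k| := Int.one_le_abs hne
      exact_mod_cast this
    have h4 : 1 / (k : ℝ) ≤ |(r : ℝ) * ((h : ℝ) / k) - n| := by
      have e : (r : ℝ) * (h / k) - n = ((r : ℝ) * h - n * k) / k := by field_simp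
      rw [e, abs_div, abs_of_pos hk0]
      exact div_le_div_of_nonneg_right h3 hk0.le
    have h5 : |(r : ℝ) * (γ - h / k)| ≤ 1 / (2 * k) := by
      rw [abs_mul, abs_of_nonneg (Nat.cast_nonneg r)]
      exact (mul_le_mul_of_nonneg_left hα (Nat.cast_nonneg r)).trans h1
    have h7 : (r : ℝ) * ((h : ℝ) / k) - n = (r * γ - n) - (r : ℝ) * (γ - h / k) := by ring
    have h8 := abs_sub (r * γ - n : ℝ) ((r : ℝ) * (γ - h / k))
    rw [← h7] at h8
    have h10 : 1 / (k : ℝ) = 1 / (2 * k) + 1 / (2 * k) := by field_simp; norm_num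
    linarith)
  have h6 : 2 / (k : ℝ) = 4 * (1 / (2 * k)) := by field_simp; norm_num
  rw [h6]
  exact key

/-- the classes of a modulus -/
lemma cf_class {N k : ℕ} (hk : 1 ≤ k) (h : ℤ) (F : ℕ → ℂ) (β : ℝ) :
    cf N F (h / k + β) = ∑ r ∈ range k, ee ((r : ℝ) * (h / k)) * cf N (fun n => if n % k = r % k then F n else 0) β := by
  have hk0 : (0 : ℝ) < k := by exact_mod_cast hk
  unfold cf
  simp only [mul_sum]
  rw [sum_comm]
  refine sum_congr rfl fun n _ => ?_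
  rw [sum_eq_single (n % k)]
  · rw [if_pos (by rw [Nat.mod_mod])]
    have e1 : (n : ℝ) * (h / k + β) = ((n % k : ℕ) : ℝ) * (h / k) + n * β + (((n / k : ℕ) : ℤ) * h : ℤ) := by
      have e2 : (n : ℝ) = ((n % k : ℕ) : ℝ) + k * ((n / k : ℕ) : ℝ) := by
        exact_mod_cast (Nat.mod_add_div n k).symm
      have e3 : (n : ℝ) * (h / k) = ((n % k : ℕ) : ℝ) * (h / k) + ((n / k : ℕ) : ℝ) * h := by
        nth_rewrite 1 [e2]
        field_simp
      rw [mul_add, e3, Int.cast_mul, Int.cast_natCast]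
      ring
    rw [e1, ee_add_int, ee_add]
    ring
  · intro r hr hne
    rw [mem_range] at hr
    rw [if_neg, zero_mul, mul_zero]
    rw [Nat.mod_eq_of_lt hr]
    exact fun h => hne h.symm
  · intro hn
    exact absurd (mem_range.2 (Nat.mod_lt _ (by omega))) hn

/-- the smooth part -/
lemma cf_sm {N q r M₀ : ℕ} (hN : 3 ≤ N) (hq : 1 ≤ q) (hM : 1 ≤ M₀) (hMN : M₀ ≤ N) {c : ℕ → ℂ} (hc : ∀ m ∈ Icc 1 M₀, ‖c m‖ ≤ 2)
    {β : ℝ} (hβ : |β| ≤ 1 / 2) (hβ0 : 0 < |β|) (hL : 1 ≤ Real.log N) :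
    ‖cf N (fun n => crd q r - kap q r M₀ c * ((Real.log n : ℝ) : ℂ)) β‖ ≤ 9 * Real.log N ^ 2 * (3 / (4 * |β|)) := by
  have hN0 : (0 : ℝ) < N := by exact_mod_cast (by omega : 0 < N)
  have hKK : KK (N : ℝ) β ≤ 3 / (4 * |β|) := KK_le' hN0.le (by positivity) (dd_low hβ)
  have hKK0 := KK_nonneg hN0.le β
  have e1 : cf N (fun n => crd q r - kap q r M₀ c * ((Real.log n : ℝ) : ℂ)) β =
      crd q r * ∑ b ∈ Icc 1 N, ee ((b : ℝ) * ((1 : ℕ) * β)) -
      kap q r M₀ c * ∑ k ∈ Icc 1 (N / 1), (Real.log ((1 * k : ℕ) : ℝ) : ℂ) • ee ((k : ℝ) * ((1 : ℕ) * β)) := by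
    unfold cf
    rw [Nat.div_one, mul_sum, mul_sum, ← sum_sub_distrib]
    refine sum_congr rfl fun n _ => ?_
    rw [one_mul, Nat.cast_one, one_mul, smul_eq_mul]
    ring
  have h1 := geo_icc (N := N) (m := 1) (y := N) le_rfl (by rw [Nat.div_one]) β
  have h2 := log_geo (N := N) (m := 1) (by omega) le_rfl (by omega) β
  rw [e1]
  refine (norm_sub_le _ _).trans ?_
  rw [norm_mul, norm_mul]
  have h3 := crd_norm (r := r) hq
  have h4 := kap_norm (r := r) hq hM hc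
  have h5 : Real.log M₀ ≤ Real.log N := Real.log_le_log (by exact_mod_cast hM) (by exact_mod_cast hMN)
  have e2 : KK ((N : ℝ) / (1 : ℕ)) ((1 : ℕ) * β) = KK (N : ℝ) β := by
    rw [Nat.cast_one, div_one, one_mul]
  rw [e2] at h1 h2
  obtain ⟨L, hLd⟩ : ∃ L, L = Real.log (N : ℝ) := ⟨_, rfl⟩
  rw [← hLd] at h2 h5 hL ⊢
  have hL0 : 0 < L := by linarith
  have h6 : ‖kap q r M₀ c‖ ≤ 4 * L := by linarith
  have h4L : (0 : ℝ) ≤ 4 * L := by positivity
  calc ‖crd q r‖ * ‖∑ b ∈ Icc 1 N, ee ((b : ℝ) * ((1 : ℕ) * β))‖ + ‖kap q r M₀ c‖ *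
      ‖∑ k ∈ Icc 1 (N / 1), (Real.log ((1 * k : ℕ) : ℝ) : ℂ) • ee ((k : ℝ) * ((1 : ℕ) * β))‖
      ≤ 1 * KK N β + (4 * L) * (KK N β * (2 * L)) :=
        add_le_add (mul_le_mul h3 h1 (norm_nonneg _) zero_le_one) (mul_le_mul h6 h2 (norm_nonneg _) h4L)
    _ = (1 + 8 * L ^ 2) * KK N β := by ring
    _ ≤ (9 * L ^ 2) * (3 / (4 * |β|)) := by
        apply mul_le_mul _ hKK hKK0 (by positivity)
        nlinarith

/-- a window of a twisted function -/
lemma win_twist (N W x : ℕ) (F : ℕ → ℂ) (β : ℝ) : ‖win N W (fun n => F n * ee (n * β)) x‖ ^ 2 ≤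
    2 * ‖win N W F x‖ ^ 2 + 2 * (7 * (W * |β|)) ^ 2 * ‖win N W (fun n => ((‖F n‖ : ℝ) : ℂ)) x‖ ^ 2 := by
  have h1 : ‖win N W (fun n => F n * ee (n * β)) x‖ ≤ ‖win N W F x‖ +
      7 * (W * |β|) * ‖win N W (fun n => ((‖F n‖ : ℝ) : ℂ)) x‖ := by
    have e1 : win N W (fun n => F n * ee (n * β)) x = ee (x * β) * win N W F x +
        ∑ n ∈ (Icc 1 N).filter (fun n => n ≤ x ∧ x < n + W), F n * (ee (n * β) - ee (x * β)) := by
      unfold win
      rw [mul_sum, ← sum_add_distrib]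
      exact sum_congr rfl fun n _ => by ring
    have e2 : ∀ n ∈ (Icc 1 N).filter (fun n => n ≤ x ∧ x < n + W), ‖F n * (ee (n * β) - ee (x * β))‖ ≤
        ‖F n‖ * (7 * (W * |β|)) := by
      intro n hn
      rw [mem_filter] at hn
      rw [norm_mul]
      apply mul_le_mul_of_nonneg_left _ (norm_nonneg _)
      have e4 : ee (x * β) = ee (n * β) * ee (((x : ℝ) - n) * β) := by
        rw [← ee_add]
        congr 1
        ring
      have e5 : ee (n * β) - ee (x * β) = ee (n * β) * (1 - ee (((x : ℝ) - n) * β)) := by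
        rw [e4]
        ring
      rw [e5, norm_mul, norm_ee, one_mul]
      have e6 : dd (((x : ℝ) - n) * β) ≤ 2 * Real.pi * |((x : ℝ) - n) * β| := dd_le _
      have e7 : dd (((x : ℝ) - n) * β) = ‖1 - ee (((x : ℝ) - n) * β)‖ := rfl
      rw [← e7]
      refine e6.trans ?_
      rw [abs_mul]
      have e8 : |(x : ℝ) - n| ≤ W := by
        have a1 : (n : ℝ) ≤ x := by exact_mod_cast hn.2.1
        have a2 : (x : ℝ) ≤ ((n + W : ℕ) : ℝ) := by exact_mod_cast hn.2.2.le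
        push_cast at a2
        rw [abs_le]
        constructor <;> linarith
      have e9 : 2 * Real.pi ≤ 7 := by
        have := Real.pi_lt_d2
        linarith
      have := abs_nonneg β
      gcongr
    have e3 := norm_sum_le_of_le _ e2
    rw [← sum_mul] at e3
    have e4 : ‖win N W (fun n => ((‖F n‖ : ℝ) : ℂ)) x‖ = ∑ n ∈ (Icc 1 N).filter (fun n => n ≤ x ∧ x < n + W), ‖F n‖ := by
      unfold win
      rw [← Complex.ofReal_sum, Complex.norm_real, Real.norm_of_nonneg (sum_nonneg fun _ _ => norm_nonneg _)]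
    rw [e1, e4]
    refine (norm_add_le _ _).trans ?_
    rw [norm_mul, norm_ee, one_mul]
    linarith
  have h2 := pow_le_pow_left₀ (norm_nonneg _) h1 2
  refine h2.trans ?_
  obtain ⟨u, hu⟩ : ∃ u, u = ‖win N W F x‖ := ⟨_, rfl⟩
  obtain ⟨v, hv⟩ : ∃ v, v = ‖win N W (fun n => ((‖F n‖ : ℝ) : ℂ)) x‖ := ⟨_, rfl⟩
  obtain ⟨t, ht⟩ : ∃ t, t = 7 * (W * |β|) := ⟨_, rfl⟩
  rw [← hu, ← hv, ← ht]
  nlinarith [sq_nonneg (u - t * v)]

end Pool.Agent.KS6_25.SH
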