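import Pool.Agent.KS6_25.SH.E1

set_option autoImplicit false

/-!
# The major arcs
-/

namespace Pool.Agent.KS6_25.SH

open Finset
open Pool.Agent.R460.GS
open Pool.Agent.R460.GH
open Pool.Agent.Y883.GJ (LA LS FF Par)
open Pool.Agent.H807R2.Dav (ee KK KK_nonneg KK_le KK_le' dd dd_le dd_nonneg dd_ge dd_add_int dd_neg norm_ee ee_add ee_add_int)
open Pool.Agent.H373R2.T7 (Vz)
open Pool.Agent.Y614.GJ.Core (ev_log)

/-- the sum over the frequencies by means of the windows -/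
lemma del_sum {N W R₀ : ℕ} (hN : 1 ≤ N) (hW : 1 ≤ W) (hWN : W ≤ N) (hR : 2 * R₀ * W ≤ 2 * N + 1) (F : ℕ → ℂ) (β₀ : ℝ)
    {V P : ℝ} (hV : ∑ x ∈ range (2 * N + 1), ‖win N W F x‖ ^ 2 ≤ V) (hP : ∀ n ∈ Icc 1 N, ‖F n‖ ≤ P) :
    ∑ s ∈ range R₀, ‖cf N F (gam N β₀ s)‖ ^ 2 ≤
      4 * ((2 * N + 1 : ℕ) : ℝ) / (W : ℝ) ^ 2 * (2 * V + 2 * (7 * (W * |β₀|)) ^ 2 * (W ^ 2 * (N * P ^ 2))) := by
  refine (gallagher hN hW hWN hR F β₀).trans ?_
  apply mul_le_mul_of_nonneg_left _ (by positivity)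
  refine (sum_le_sum fun x _ => win_twist N W x F β₀).trans ?_
  rw [sum_add_distrib, ← mul_sum, ← mul_sum]
  have h1 := win_l2 N W (2 * N + 1) (fun n => ((‖F n‖ : ℝ) : ℂ))
  have h2 : ∑ n ∈ (Icc 1 N).filter (fun n => n < 2 * N + 1), ‖(fun n => ((‖F n‖ : ℝ) : ℂ)) n‖ ^ 2 ≤ N * P ^ 2 := by
    calc ∑ n ∈ (Icc 1 N).filter (fun n => n < 2 * N + 1), ‖(fun n => ((‖F n‖ : ℝ) : ℂ)) n‖ ^ 2
        ≤ ∑ n ∈ Icc 1 N, ‖(fun n => ((‖F n‖ : ℝ) : ℂ)) n‖ ^ 2 :=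
          sum_le_sum_of_subset_of_nonneg (filter_subset _ _) fun _ _ _ => by positivity
      _ ≤ ∑ n ∈ Icc 1 N, P ^ 2 := by
          apply sum_le_sum
          intro n hn
          simp only
          rw [Complex.norm_real, norm_norm]
          exact pow_le_pow_left₀ (norm_nonneg _) (hP n hn) 2
      _ = N * P ^ 2 := by
          rw [sum_const, Nat.card_Icc, nsmul_eq_mul, Nat.add_sub_cancel]
  have h3 : ∑ x ∈ range (2 * N + 1), ‖win N W (fun n => ((‖F n‖ : ℝ) : ℂ)) x‖ ^ 2 ≤ W ^ 2 * (N * P ^ 2) :=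
    h1.trans (mul_le_mul_of_nonneg_left h2 (by positivity))
  have h4 : 0 ≤ 2 * (7 * (W * |β₀|)) ^ 2 := by positivity
  have h5 := mul_le_mul_of_nonneg_left h3 h4
  linarith

/-- the sums of type II on the major arcs -/
lemma t2_major {N R₀ k M₀ : ℕ} (hk : 1 ≤ k) (h : ℤ) (F : ℕ → ℂ) (c : ℕ → ℂ) (β₀ : ℝ) (S : Finset ℕ) (hS : S ⊆ range R₀)
    {D₁ D₂ : ℝ} (hD₁ : ∀ r, ∑ s ∈ range R₀, ‖cf N (del k r M₀ c F) (gam N β₀ s)‖ ^ 2 ≤ D₁)
    (hD₂ : ∀ r, ∑ s ∈ S, ‖cf N (fun n => crd k r - kap k r M₀ c * ((Real.log n : ℝ) : ℂ)) (gam N β₀ s)‖ ^ 2 ≤ D₂) :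
    ∑ s ∈ S, ‖cf N F (h / k + gam N β₀ s)‖ ^ 2 ≤ 2 * (k : ℝ) ^ 2 * (D₁ + D₂) := by
  have h1 : ∀ s ∈ S, ‖cf N F (h / k + gam N β₀ s)‖ ^ 2 ≤ (k : ℝ) * ∑ r ∈ range k,
      (2 * ‖cf N (del k r M₀ c F) (gam N β₀ s)‖ ^ 2 +
      2 * ‖cf N (fun n => crd k r - kap k r M₀ c * ((Real.log n : ℝ) : ℂ)) (gam N β₀ s)‖ ^ 2) := by
    intro s _
    rw [cf_class hk h F]
    refine (sq_norm_sum _ _).trans ?_
    rw [card_range]
    apply mul_le_mul_of_nonneg_left _ (Nat.cast_nonneg _)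
    apply sum_le_sum
    intro r _
    rw [norm_mul, norm_ee, one_mul]
    have e1 : cf N (fun n => if n % k = r % k then F n else 0) (gam N β₀ s) =
        cf N (del k r M₀ c F) (gam N β₀ s) +
        cf N (fun n => crd k r - kap k r M₀ c * ((Real.log n : ℝ) : ℂ)) (gam N β₀ s) := by
      rw [← cf_add]
      apply cf_congr
      intro n _
      unfold del
      ring
    rw [e1]
    have e2 := norm_add_le (cf N (del k r M₀ c F) (gam N β₀ s))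
      (cf N (fun n => crd k r - kap k r M₀ c * ((Real.log n : ℝ) : ℂ)) (gam N β₀ s))
    have e3 := pow_le_pow_left₀ (norm_nonneg _) e2 2
    nlinarith [sq_nonneg (‖cf N (del k r M₀ c F) (gam N β₀ s)‖ -
      ‖cf N (fun n => crd k r - kap k r M₀ c * ((Real.log n : ℝ) : ℂ)) (gam N β₀ s)‖)]
  refine (sum_le_sum h1).trans ?_
  rw [← mul_sum, sum_comm]
  have h2 : ∀ r ∈ range k, ∑ s ∈ S, (2 * ‖cf N (del k r M₀ c F) (gam N β₀ s)‖ ^ 2 +
      2 * ‖cf N (fun n => crd k r - kap k r M₀ c * ((Real.log n : ℝ) : ℂ)) (gam N β₀ s)‖ ^ 2) ≤ 2 * (D₁ + D₂) := by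
    intro r _
    rw [sum_add_distrib, ← mul_sum, ← mul_sum]
    have e1 : ∑ s ∈ S, ‖cf N (del k r M₀ c F) (gam N β₀ s)‖ ^ 2 ≤ D₁ :=
      (sum_le_sum_of_subset_of_nonneg hS fun _ _ _ => by positivity).trans (hD₁ r)
    have e2 := hD₂ r
    linarith
  calc (k : ℝ) * _ ≤ k * ∑ r ∈ range k, 2 * (D₁ + D₂) := by
        apply mul_le_mul_of_nonneg_left (sum_le_sum h2) (Nat.cast_nonneg _)
    _ = _ := by
        rw [sum_const, card_range, nsmul_eq_mul]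
        ring

theorem major (A C k₀ : ℕ) (hk₀ : 12 ≤ k₀) {ρ : ℝ} (hρ : 0 < ρ) (hρ1 : ρ ≤ 1 / 4) (hk : 1 / (k₀ : ℝ) ≤ ρ / 8) :
    ∃ U N₀ : ℕ, ∀ N : ℕ, N₀ ≤ N → ∀ z r : ℕ, Par U N z r →
    ∀ R₀ H : ℕ, 1 ≤ H → H ≤ N → 2 * R₀ * H ≤ 2 * N + 1 → (R₀ : ℝ) ≤ (N : ℝ) ^ (2 / 3 - ρ) →
    (N : ℝ) ^ (1 / 3 + 3 * ρ / 4) ≤ H → ∀ (α : ℝ) (k : ℕ) (h : ℤ), IsCoprime h (k : ℤ) → 1 ≤ k →
    (k : ℝ) ≤ Real.log N ^ C → |α - h / k| ≤ Real.log N ^ C / (k * H) →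
    ∑ s ∈ range R₀, ‖cf N (FF z r) (gam N α s)‖ ^ 2 ≤ (N : ℝ) ^ 2 / Real.log N ^ A := by
  obtain ⟨A₁, hA₁⟩ : ∃ A₁, A₁ = A + 2 * C + 20 := ⟨_, rfl⟩
  obtain ⟨A₂, hA₂⟩ : ∃ A₂, A₂ = A + 2 * C + 4 := ⟨_, rfl⟩
  obtain ⟨C₁, hC₁⟩ : ∃ C₁, C₁ = 3 * A + 2 * C + 50 := ⟨_, rfl⟩
  obtain ⟨U, hU⟩ : ∃ U, U = C₁ + A + 10 := ⟨_, rfl⟩
  obtain ⟨N₁, h1⟩ := good_ex k₀ hk₀ A₁
  obtain ⟨N₂, h2⟩ := smooth_part (A + 1) hρ hρ1
  obtain ⟨N₃, h3⟩ := win_del A₂ C k₀ A₁ hk₀ (by omega) hρ hρ1 hk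
  obtain ⟨N₄, h4⟩ := ptw (A₁ + 24) (ε := ρ / 16) (by positivity)
  obtain ⟨N₅, h5⟩ := Filter.eventually_atTop.1 (ev_log (2 * C + A₂ + 4 * A + 100) (s := ρ / 4) (by positivity) 10000000)
  obtain ⟨N₆, h6⟩ := Filter.eventually_atTop.1 (ev_log (4 * C + 10 * A + 300) (s := 1 / 4) (by norm_num) 1)
  refine ⟨U, max (max (max N₁ N₂) (max N₃ N₄)) (max (max N₅ N₆) 1000000), ?_⟩
  intro N hN z r hpar R₀ H hH1 hHN hRH hR hHρ α k h hcop hk1 hkC hα
  have hNa := le_trans (le_max_left _ _) hN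
  have hNb := le_trans (le_max_right _ _) hN
  have hN1 : N₁ ≤ N := le_trans (le_trans (le_max_left _ _) (le_max_left _ _)) hNa
  have hN2 : N₂ ≤ N := le_trans (le_trans (le_max_right _ _) (le_max_left _ _)) hNa
  have hN3 : N₃ ≤ N := le_trans (le_trans (le_max_left _ _) (le_max_right _ _)) hNa
  have hN4 : N₄ ≤ N := le_trans (le_trans (le_max_right _ _) (le_max_right _ _)) hNa
  have hN5 : N₅ ≤ N := le_trans (le_trans (le_max_left _ _) (le_max_left _ _)) hNb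
  have hN6 : N₆ ≤ N := le_trans (le_trans (le_max_right _ _) (le_max_left _ _)) hNb
  have hNbig : 1000000 ≤ N := le_trans (le_max_right _ _) hNb
  have hN01 : 1 ≤ N := by omega
  have hN0 : (0 : ℝ) < N := by exact_mod_cast hN01
  have hNr1 : (1 : ℝ) ≤ N := by exact_mod_cast hN01
  obtain ⟨I, M₀, Wg, Z, c, a, b, R, hG⟩ := h1 N hN1
  obtain ⟨hL, hLρ⟩ := h5 N hN5
  obtain ⟨-, hLq⟩ := h6 N hN6
  have hptw := h4 N hN4
  obtain ⟨L, hLd⟩ : ∃ L, L = Real.log (N : ℝ) := ⟨_, rfl⟩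
  have hL10 : 10 ≤ Real.log N := by linarith
  have hsm := h2 N hN2
  have hwin := h3 N hN3 I M₀ Wg Z c a b R hG k hk1 hkC
  rw [← hLd] at hL hLρ hLq hkC hα hptw
  have hL0 : 0 < L := by linarith
  have hL1 : 1 ≤ L := by linarith
  have hk0 : (0 : ℝ) < k := by exact_mod_cast hk1
  have hk1r : (1 : ℝ) ≤ k := by exact_mod_cast hk1
  have hH0 : (0 : ℝ) < H := by exact_mod_cast hH1
  have hLC1 : 1 ≤ L ^ C := one_le_pow₀ hL1
  obtain ⟨M, hM⟩ : ∃ M : ℝ, M = ((2 * N + 1 : ℕ) : ℝ) := ⟨_, rfl⟩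
  have hM0 : 0 < M := by rw [hM]; positivity
  have hM3 : M ≤ 3 * N := by
    rw [hM]
    push_cast
    linarith
  have hRM : R₀ ≤ 2 * N + 1 := by
    calc R₀ ≤ R₀ * H := Nat.le_mul_of_pos_right _ hH1
      _ ≤ 2 * R₀ * H := Nat.mul_le_mul_right _ (Nat.le_mul_of_pos_left _ (by norm_num))
      _ ≤ 2 * N + 1 := hRH
  -- the size of the interval
  have hH3 : (N : ℝ) ^ (1 / 3 : ℝ) ≤ H := by
    refine le_trans ?_ hHρ
    exact Real.rpow_le_rpow_of_exponent_le hNr1 (by linarith)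
  have hHL : 1000 * L ^ (A + 2 * C + 20) ≤ H := by
    refine le_trans ?_ hH3
    calc 1000 * L ^ (A + 2 * C + 20) ≤ L * L ^ (A + 2 * C + 20) := by
          gcongr
          linarith
      _ = L ^ (A + 2 * C + 21) := by ring
      _ ≤ L ^ (4 * C + 10 * A + 300) := pow_le_pow_right₀ hL1 (by omega)
      _ ≤ (N : ℝ) ^ (1 / 4 : ℝ) := hLq
      _ ≤ _ := Real.rpow_le_rpow_of_exponent_le hNr1 (by norm_num)
  -- the frequencies
  obtain ⟨β₀, hβ₀⟩ : ∃ β₀ : ℝ, β₀ = α - h / k := ⟨_, rfl⟩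
  have hgam : ∀ s, gam N α s = h / k + gam N β₀ s := by
    intro s
    unfold gam
    rw [hβ₀]
    ring
  rw [← hβ₀] at hα
  have hβ1 : |β₀| ≤ L ^ C / H := by
    refine hα.trans ?_
    exact div_le_div_of_nonneg_left (by positivity) hH0 (le_mul_of_one_le_left hH0.le hk1r)
  have hRMr : (R₀ : ℝ) / M ≤ 1 / (2 * H) := by
    rw [div_le_div_iff₀ hM0 (by positivity), one_mul]
    have : ((2 * R₀ * H : ℕ) : ℝ) ≤ M := by
      rw [hM]
      exact_mod_cast hRH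
    push_cast at this
    linarith
  obtain ⟨δ, hδ⟩ : ∃ δ, δ = 2 * L ^ C / H := ⟨_, rfl⟩
  have hδ0 : 0 < δ := by rw [hδ]; positivity
  have hβs : ∀ s ∈ range R₀, |gam N β₀ s| ≤ δ := by
    intro s hs
    rw [mem_range] at hs
    unfold gam
    rw [← hM]
    have e1 : |(s : ℝ) / M| ≤ 1 / (2 * H) := by
      rw [abs_of_nonneg (by positivity)]
      refine le_trans ?_ hRMr
      gcongr
    have e2 := abs_add_le β₀ ((s : ℝ) / M)
    have e3 : (1 : ℝ) / (2 * H) ≤ L ^ C / H := by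
      rw [div_le_div_iff₀ (by positivity) hH0]
      exact mul_le_mul hLC1 (le_mul_of_one_le_left hH0.le (by norm_num)) hH0.le (by positivity)
    have e4 : δ = L ^ C / H + L ^ C / H := by
      rw [hδ]
      ring
    linarith
  -- the far frequencies
  obtain ⟨X, hX⟩ : ∃ X : ℝ, X = N / L ^ C₁ := ⟨_, rfl⟩
  have hX0 : 0 < X := by rw [hX]; positivity
  have hXN : X ≤ N := by
    rw [hX]
    exact div_le_self hN0.le (one_le_pow₀ hL1)
  have hM2 : 39 * X + 3 * M * (1 + Real.log M) ≤ 57 * (N * L) := by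
    have e1 : Real.log M ≤ L + 2 := by
      have h3 : Real.log 3 ≤ 2 := by
        have := Real.log_le_sub_one_of_pos (show (0 : ℝ) < 3 by norm_num)
        linarith
      have h4 : Real.log M ≤ Real.log (3 * N) := Real.log_le_log hM0 hM3
      rw [Real.log_mul (by norm_num) hN0.ne', ← hLd] at h4
      linarith
    have e2 : 1 + Real.log M ≤ 2 * L := by linarith
    have e3 : 3 * M * (1 + Real.log M) ≤ 3 * (3 * N) * (2 * L) := by
      have e4 : 0 ≤ 1 + Real.log M := by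
        have : 0 ≤ Real.log M := Real.log_nonneg (by rw [hM]; exact_mod_cast (by omega : 1 ≤ 2 * N + 1))
        linarith
      gcongr
    have e5 : X ≤ N * L := hXN.trans (le_mul_of_one_le_right hN0.le hL1)
    have e6 : 3 * (3 * (N : ℝ)) * (2 * L) = 18 * (N * L) := by ring
    rw [e6] at e3
    linarith only [e3, e5]
  obtain ⟨S, hS⟩ : ∃ S, S = (range R₀).filter (fun s => 1 ≤ X * |gam N β₀ s|) := ⟨_, rfl⟩
  have hSsub : S ⊆ range R₀ := by rw [hS]; exact filter_subset _ _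
  obtain ⟨E₁, hE₁⟩ : ∃ E₁ : ℝ, E₁ = 1254 * ((N : ℝ) ^ 2 / L ^ (C₁ - 1)) := ⟨_, rfl⟩
  have hE10 : 0 ≤ E₁ := by rw [hE₁]; positivity
  have hLC₁ : L ^ C₁ = L ^ (C₁ - 1) * L := by
    rw [← pow_succ]
    congr 1
    omega
  have hfar : ∑ s ∈ S, 1 / (gam N β₀ s) ^ 2 ≤ E₁ := by
    have e1 := far_sq (N := N) hX0 hRM β₀
    rw [← hS, ← hM] at e1
    refine e1.trans ?_
    calc 22 * X * (39 * X + 3 * M * (1 + Real.log M)) ≤ 22 * X * (57 * (N * L)) := by gcongr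
      _ = E₁ := by
          rw [hE₁, hX, hLC₁]
          field_simp
          ring
  -- the near frequencies
  have hnear : ∑ s ∈ (range R₀).filter (fun s => ¬ 1 ≤ X * |gam N β₀ s|), ‖cf N (FF z r) (gam N α s)‖ ^ 2 ≤
      (N : ℝ) ^ 2 / L ^ (A + 1) := by
    have e1 := near_count (N := N) hX0 hRM β₀
    rw [← hM] at e1
    have e2 : ∀ s ∈ (range R₀).filter (fun s => ¬ 1 ≤ X * |gam N β₀ s|), ‖cf N (FF z r) (gam N α s)‖ ^ 2 ≤
        (N / L ^ U) ^ 2 := by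
      intro s _
      apply pow_le_pow_left₀ (norm_nonneg _)
      rw [hLd]
      exact hpar.hS (gam N α s)
    refine (sum_le_sum e2).trans ?_
    rw [sum_const, nsmul_eq_mul]
    have e3 : (((range R₀).filter (fun s => ¬ 1 ≤ X * |gam N β₀ s|)).card : ℝ) ≤ 152 * L ^ (C₁ + 1) := by
      have e4 := e1.trans hM2
      have e5 : (57 : ℝ) * (N * L) = 152 * L ^ (C₁ + 1) * (3 * X / 8) := by
        rw [hX, pow_succ]
        field_simp
        ring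
      rw [e5] at e4
      exact le_of_mul_le_mul_right e4 (by positivity)
    calc (((range R₀).filter (fun s => ¬ 1 ≤ X * |gam N β₀ s|)).card : ℝ) * (N / L ^ U) ^ 2
        ≤ (152 * L ^ (C₁ + 1)) * (N / L ^ U) ^ 2 := by gcongr
      _ ≤ (L * L ^ (C₁ + 1)) * (N / L ^ U) ^ 2 := by gcongr; linarith
      _ = (N : ℝ) ^ 2 * (L ^ (C₁ + 2) / L ^ (2 * U)) := by
          rw [div_pow, ← pow_mul, mul_comm U 2]
          ring
      _ ≤ (N : ℝ) ^ 2 * (1 / L ^ (A + 1)) := by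
          apply mul_le_mul_of_nonneg_left _ (by positivity)
          rw [div_le_div_iff₀ (by positivity) (by positivity), one_mul, ← pow_add]
          exact pow_le_pow_right₀ hL1 (by omega)
      _ = _ := by ring
  -- the sums of type I
  obtain ⟨Dz, hDz⟩ : ∃ Dz, Dz = (z + 1) ^ r := ⟨_, rfl⟩
  have hDz1 : 1 ≤ Dz := by
    rw [hDz]
    exact Nat.one_le_pow _ _ (by omega)
  have hDr : (Dz : ℝ) ≤ (N : ℝ) ^ (1 / 100 : ℝ) := by
    rw [hDz]
    exact Pool.Agent.R462.GS.D_le hpar.hD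
  have hDN : (z + 1) ^ r ≤ N := by
    have i1 : Dz ^ 100 ≤ N := by
      rw [hDz]
      exact_mod_cast hpar.hD
    rw [← hDz]
    exact (Nat.le_self_pow (by norm_num) Dz).trans i1
  obtain ⟨E₀, hE₀⟩ : ∃ E₀ : ℝ, E₀ = R₀ * (9 / 4 * (k : ℝ) ^ 2) + 9 / 16 * E₁ := ⟨_, rfl⟩
  have hE0 : 0 ≤ E₀ := by rw [hE₀]; positivity
  have hTT : (TT N (A + 1) : ℝ) ≤ 2 * L ^ (A + 1 + 8) := by
    unfold TT
    rw [← hLd]
    push_cast
    have h3 : 1 ≤ L ^ (A + 1 + 8) := one_le_pow₀ hL1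
    have := Nat.floor_le (show 0 ≤ L ^ (A + 1 + 8) by positivity)
    linarith
  have hE1 : E₀ ≤ (N : ℝ) ^ 2 / L ^ (2 * (A + 1 + 8)) := by
    have e1 : (R₀ : ℝ) * (9 / 4 * (k : ℝ) ^ 2) ≤ (N : ℝ) ^ 2 / L ^ (2 * (A + 1 + 8)) / 2 := by
      rw [div_div, le_div_iff₀ (by positivity)]
      calc (R₀ : ℝ) * (9 / 4 * (k : ℝ) ^ 2) * (L ^ (2 * (A + 1 + 8)) * 2)
          ≤ (N : ℝ) ^ (2 / 3 - ρ) * (9 / 4 * (L ^ C) ^ 2) * (L ^ (2 * (A + 1 + 8)) * 2) := by gcongr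
        _ = (N : ℝ) ^ (2 / 3 - ρ) * (9 / 2 * L ^ (2 * C + 2 * (A + 1 + 8))) := by
            rw [← pow_mul, pow_add]
            ring
        _ ≤ (N : ℝ) ^ (2 / 3 - ρ) * (L * L ^ (2 * C + 2 * (A + 1 + 8))) := by
            gcongr
            linarith
        _ = (N : ℝ) ^ (2 / 3 - ρ) * L ^ (2 * C + 2 * (A + 1 + 8) + 1) := by ring
        _ ≤ (N : ℝ) ^ (2 / 3 - ρ) * (N : ℝ) ^ (1 / 4 : ℝ) := by
            gcongr
            refine le_trans ?_ hLq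
            exact pow_le_pow_right₀ hL1 (by omega)
        _ = (N : ℝ) ^ (2 / 3 - ρ + 1 / 4) := (Real.rpow_add hN0 _ _).symm
        _ ≤ (N : ℝ) ^ (2 : ℝ) := Real.rpow_le_rpow_of_exponent_le hNr1 (by linarith)
        _ = (N : ℝ) ^ 2 := by
            rw [← Real.rpow_natCast]
            norm_num
    have e2 : 9 / 16 * E₁ ≤ (N : ℝ) ^ 2 / L ^ (2 * (A + 1 + 8)) / 2 := by
      rw [hE₁]
      have e3 : (N : ℝ) ^ 2 / L ^ (C₁ - 1) ≤ (N : ℝ) ^ 2 / L ^ (2 * (A + 1 + 8)) / L := by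
        rw [div_div, ← pow_succ]
        apply div_le_div_of_nonneg_left (by positivity) (by positivity)
        exact pow_le_pow_right₀ hL1 (by omega)
      have e4 : 0 ≤ (N : ℝ) ^ 2 / L ^ (2 * (A + 1 + 8)) := by positivity
      have e5 : (N : ℝ) ^ 2 / L ^ (2 * (A + 1 + 8)) / L * 10000 ≤ (N : ℝ) ^ 2 / L ^ (2 * (A + 1 + 8)) := by
        rw [div_mul_eq_mul_div, div_le_iff₀ hL0]
        exact mul_le_mul_of_nonneg_left (by linarith only [hL]) e4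
      linarith only [e3, e4, e5]
    rw [hE₀]
    linarith
  have hI : ∀ r : ℕ, 1 ≤ r → r < TT N (A + 1) → ∑ s ∈ S, KK ((N : ℝ) / r) (r * gam N α s) ^ 2 ≤ E₀ := by
    intro r hr1 hrT
    have hr0 : (0 : ℝ) < r := by exact_mod_cast hr1
    have hrTr : (r : ℝ) ≤ TT N (A + 1) := by exact_mod_cast hrT.le
    have hrL : (r : ℝ) ≤ 2 * L ^ (A + 1 + 8) := hrTr.trans hTT
    have hrδ : (r : ℝ) * δ ≤ 1 / (2 * k) := by
      rw [hδ, mul_div_assoc', div_le_div_iff₀ hH0 (by positivity), one_mul]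
      calc (r : ℝ) * (2 * L ^ C) * (2 * k) ≤ (2 * L ^ (A + 1 + 8)) * (2 * L ^ C) * (2 * L ^ C) := by gcongr
        _ = 8 * L ^ (A + 9 + 2 * C) := by
            rw [show A + 9 + 2 * C = (A + 1 + 8) + C + C by omega, pow_add, pow_add]
            ring
        _ ≤ 1000 * L ^ (A + 2 * C + 20) := by
            have : L ^ (A + 9 + 2 * C) ≤ L ^ (A + 2 * C + 20) := pow_le_pow_right₀ hL1 (by omega)
            have : 0 ≤ L ^ (A + 9 + 2 * C) := by positivity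
            linarith
        _ ≤ H := hHL
    by_cases hkr : k ∣ r
    · obtain ⟨m, hm⟩ := hkr
      have hpt : ∀ s ∈ S, KK ((N : ℝ) / r) (r * gam N α s) ^ 2 ≤ 9 / 16 * (1 / (gam N β₀ s) ^ 2) := by
        intro s hs
        have hs1 : 1 ≤ X * |gam N β₀ s| := by
          rw [hS, mem_filter] at hs
          exact hs.2
        have hs2 := hβs s (hSsub hs)
        have hb0 : 0 < |gam N β₀ s| := by
          by_contra h
          have : X * |gam N β₀ s| ≤ 0 := mul_nonpos_of_nonneg_of_nonpos hX0.le (not_lt.1 h)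
          linarith
        have e1 : (r : ℝ) * gam N α s = r * gam N β₀ s + ((m * h : ℤ) : ℝ) := by
          rw [hgam, hm]
          push_cast
          field_simp
          ring
        have e2 : 4 * |(r : ℝ) * gam N β₀ s| ≤ dd (r * gam N β₀ s) := by
          apply dd_low
          rw [abs_mul, abs_of_pos hr0]
          calc (r : ℝ) * |gam N β₀ s| ≤ r * δ := by gcongr
            _ ≤ 1 / (2 * k) := hrδ
            _ ≤ 1 / 2 := by
                apply div_le_div_of_nonneg_left (by norm_num) (by norm_num)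
                linarith
        have e3 : 4 * |gam N β₀ s| ≤ dd (r * gam N α s) := by
          rw [e1, dd_add_int]
          refine le_trans ?_ e2
          rw [abs_mul, abs_of_pos hr0]
          have e9 : (1 : ℝ) ≤ r := by exact_mod_cast hr1
          exact mul_le_mul_of_nonneg_left (le_mul_of_one_le_left hb0.le e9) (by norm_num)
        have e4 : KK ((N : ℝ) / r) (r * gam N α s) ≤ 3 / (4 * |gam N β₀ s|) :=
          KK_le' (by positivity) (by positivity) e3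
        calc KK ((N : ℝ) / r) (r * gam N α s) ^ 2 ≤ (3 / (4 * |gam N β₀ s|)) ^ 2 :=
              pow_le_pow_left₀ (KK_nonneg (by positivity) _) e4 2
          _ = 9 / 16 * (1 / (gam N β₀ s) ^ 2) := by
              rw [← sq_abs (gam N β₀ s)]
              field_simp
              norm_num
      refine (sum_le_sum hpt).trans ?_
      rw [← mul_sum, hE₀]
      have e5 : 0 ≤ (R₀ : ℝ) * (9 / 4 * (k : ℝ) ^ 2) := by positivity
      linarith
    · have hpt : ∀ s ∈ S, KK ((N : ℝ) / r) (r * gam N α s) ^ 2 ≤ 9 / 4 * (k : ℝ) ^ 2 := by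
        intro s hs
        have hs2 := hβs s (hSsub hs)
        have e1 := far_major (γ := gam N α s) (δ := δ) hk1 hcop hkr (by
          rw [hgam, add_sub_cancel_left]
          exact hs2) hrδ
        have e2 : KK ((N : ℝ) / r) (r * gam N α s) ≤ 3 / (2 / (k : ℝ)) :=
          KK_le' (by positivity) (by positivity) e1
        have e3 : 3 / (2 / (k : ℝ)) = 3 / 2 * k := by field_simp
        rw [e3] at e2
        calc KK ((N : ℝ) / r) (r * gam N α s) ^ 2 ≤ (3 / 2 * (k : ℝ)) ^ 2 :=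
              pow_le_pow_left₀ (KK_nonneg (by positivity) _) e2 2
          _ = _ := by ring
      refine (sum_le_sum hpt).trans ?_
      rw [sum_const, nsmul_eq_mul, hE₀]
      have e5 : (S.card : ℝ) ≤ R₀ := by
        have := card_le_card hSsub
        rw [card_range] at this
        exact_mod_cast this
      have e6 : (S.card : ℝ) * (9 / 4 * (k : ℝ) ^ 2) ≤ R₀ * (9 / 4 * (k : ℝ) ^ 2) := by gcongr
      linarith
  rw [hLd] at hE1
  have hsm1 := hsm M₀ Dz R₀ hG.hM1 hG.hM hDz1 hDr hR α E₀ S hSsub hE0 hE1 hI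
  rw [← hLd, hDz] at hsm1
  -- the sums of type II
  obtain ⟨W, hW⟩ : ∃ W, W = ⌈(N : ℝ) ^ (1 / 3 + ρ / 2)⌉₊ := ⟨_, rfl⟩
  have hx1 : (1 : ℝ) ≤ (N : ℝ) ^ (1 / 3 + ρ / 2) := Real.one_le_rpow hNr1 (by positivity)
  have hW1 : (N : ℝ) ^ (1 / 3 + ρ / 2) ≤ W := by rw [hW]; exact Nat.le_ceil _
  have hW2 : (W : ℝ) ≤ 2 * (N : ℝ) ^ (1 / 3 + ρ / 2) := by
    rw [hW]
    have := (Nat.ceil_lt_add_one (show 0 ≤ (N : ℝ) ^ (1 / 3 + ρ / 2) by positivity)).le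
    linarith
  have hW01 : 1 ≤ W := by
    have : (1 : ℝ) ≤ W := hx1.trans hW1
    exact_mod_cast this
  have hW0 : (0 : ℝ) < W := by exact_mod_cast hW01
  have h2ρ : (2 : ℝ) ≤ (N : ℝ) ^ (ρ / 4) := by
    refine le_trans ?_ hLρ
    calc (2 : ℝ) ≤ L := by linarith
      _ = L ^ 1 := (pow_one L).symm
      _ ≤ _ := pow_le_pow_right₀ hL1 (by omega)
  have hWH : (W : ℝ) ≤ H := by
    refine hW2.trans (le_trans ?_ hHρ)
    calc 2 * (N : ℝ) ^ (1 / 3 + ρ / 2) ≤ (N : ℝ) ^ (ρ / 4) * (N : ℝ) ^ (1 / 3 + ρ / 2) := by gcongr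
      _ = (N : ℝ) ^ (1 / 3 + 3 * ρ / 4) := by
          rw [← Real.rpow_add hN0]
          congr 1
          ring
  have hWHn : W ≤ H := by exact_mod_cast hWH
  have hW3 : (W : ℝ) ≤ (N : ℝ) ^ (2 / 3 : ℝ) := by
    refine hW2.trans ?_
    calc 2 * (N : ℝ) ^ (1 / 3 + ρ / 2) ≤ (N : ℝ) ^ (ρ / 4) * (N : ℝ) ^ (1 / 3 + ρ / 2) := by gcongr
      _ = (N : ℝ) ^ (ρ / 4 + (1 / 3 + ρ / 2)) := (Real.rpow_add hN0 _ _).symm
      _ ≤ (N : ℝ) ^ (2 / 3 : ℝ) := Real.rpow_le_rpow_of_exponent_le hNr1 (by linarith)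
  have hRW : 2 * R₀ * W ≤ 2 * N + 1 := (Nat.mul_le_mul_left _ hWHn).trans hRH
  have hMN : (M₀ : ℝ) ≤ N := by
    refine hG.hM.trans ?_
    calc 3 * (N : ℝ) ^ (2 / 3 : ℝ) ≤ (N : ℝ) ^ (1 / 4 : ℝ) * (N : ℝ) ^ (2 / 3 : ℝ) := by
          gcongr
          refine le_trans ?_ hLq
          calc (3 : ℝ) ≤ L := by linarith
            _ = L ^ 1 := (pow_one L).symm
            _ ≤ _ := pow_le_pow_right₀ hL1 (by omega)
      _ = (N : ℝ) ^ (11 / 12 : ℝ) := by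
          rw [← Real.rpow_add hN0]
          norm_num
      _ ≤ (N : ℝ) ^ (1 : ℝ) := Real.rpow_le_rpow_of_exponent_le hNr1 (by norm_num)
      _ = N := Real.rpow_one _
  have hMNn : M₀ ≤ N := by exact_mod_cast hMN
  have hcM : ∀ m ∈ Icc 1 M₀, ‖c m‖ ≤ 2 := by
    intro m hm
    rw [mem_Icc] at hm
    exact hG.dec.hc m (mem_Icc.2 ⟨hm.1, by omega⟩)
  have hD₁ : ∀ r, ∑ s ∈ range R₀, ‖cf N (del k r M₀ c (T2 I a b)) (gam N β₀ s)‖ ^ 2 ≤ 36 * ((N : ℝ) ^ 2 / L ^ A₂) := by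
    intro r
    have e1 := hwin W hW1 hW3 r
    rw [← hLd] at e1
    have e2 := del_sum hN01 hW01 (hWHn.trans hHN) hRW (del k r M₀ c (T2 I a b)) β₀ e1 (P := (N : ℝ) ^ (ρ / 16)) (by
      intro n hn
      rw [mem_Icc] at hn
      have hn' : n ∈ Icc 1 (3 * N) := mem_Icc.2 ⟨hn.1, by omega⟩
      have e3 := (del_le (r := r) hG hL10 hk1 hn').2
      rw [← hLd] at e3
      exact e3.trans (hptw n hn'))
    rw [← hM] at e2
    refine e2.trans ?_
    have e3 : (W : ℝ) * |β₀| ≤ 2 * L ^ C / (N : ℝ) ^ (ρ / 4) := by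
      calc (W : ℝ) * |β₀| ≤ (2 * (N : ℝ) ^ (1 / 3 + ρ / 2)) * (L ^ C / (N : ℝ) ^ (1 / 3 + 3 * ρ / 4)) := by
            gcongr
            refine hβ1.trans ?_
            gcongr
        _ = 2 * L ^ C / (N : ℝ) ^ (ρ / 4) := by
            have : (N : ℝ) ^ (1 / 3 + 3 * ρ / 4) = (N : ℝ) ^ (1 / 3 + ρ / 2) * (N : ℝ) ^ (ρ / 4) := by
              rw [← Real.rpow_add hN0]
              congr 1
              ring
            rw [this]
            field_simp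
    have e4 : 98 * (W * |β₀|) ^ 2 * ((N : ℝ) ^ (ρ / 16)) ^ 2 ≤ 1 / L ^ A₂ := by
      have e5 : ((N : ℝ) ^ (ρ / 16)) ^ 2 ≤ (N : ℝ) ^ (ρ / 4) := by
        rw [← Real.rpow_natCast, ← Real.rpow_mul hN0.le]
        apply Real.rpow_le_rpow_of_exponent_le hNr1
        push_cast
        linarith
      have e6 : (W * |β₀|) ^ 2 ≤ (2 * L ^ C / (N : ℝ) ^ (ρ / 4)) ^ 2 := pow_le_pow_left₀ (by positivity) e3 2
      rw [le_div_iff₀ (by positivity)]
      have hNρ0 : 0 < (N : ℝ) ^ (ρ / 4) := by positivity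
      calc 98 * (W * |β₀|) ^ 2 * ((N : ℝ) ^ (ρ / 16)) ^ 2 * L ^ A₂
          ≤ 98 * (2 * L ^ C / (N : ℝ) ^ (ρ / 4)) ^ 2 * (N : ℝ) ^ (ρ / 4) * L ^ A₂ := by gcongr
        _ = (392 * L ^ (2 * C + A₂)) / (N : ℝ) ^ (ρ / 4) := by
            rw [pow_add, pow_mul']
            field_simp
            ring
        _ ≤ 1 := by
            rw [div_le_one hNρ0]
            calc 392 * L ^ (2 * C + A₂) ≤ L * L ^ (2 * C + A₂) := by
                  gcongr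
                  linarith
              _ = L ^ (2 * C + A₂ + 1) := by ring
              _ ≤ L ^ (2 * C + A₂ + 4 * A + 100) := pow_le_pow_right₀ hL1 (by omega)
              _ ≤ _ := hLρ
    calc 4 * M / (W : ℝ) ^ 2 * (2 * ((N : ℝ) * W ^ 2 / L ^ A₂) +
          2 * (7 * (W * |β₀|)) ^ 2 * (W ^ 2 * (N * ((N : ℝ) ^ (ρ / 16)) ^ 2)))
        = 4 * M * (2 * ((N : ℝ) / L ^ A₂) + N * (98 * (W * |β₀|) ^ 2 * ((N : ℝ) ^ (ρ / 16)) ^ 2)) := by
          field_simp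
          ring
      _ ≤ 4 * (3 * N) * (2 * ((N : ℝ) / L ^ A₂) + N * (1 / L ^ A₂)) := by gcongr
      _ = 36 * ((N : ℝ) ^ 2 / L ^ A₂) := by ring
  have hD₂ : ∀ r, ∑ s ∈ S, ‖cf N (fun n => crd k r - kap k r M₀ c * ((Real.log n : ℝ) : ℂ)) (gam N β₀ s)‖ ^ 2 ≤
      46 * L ^ 4 * E₁ := by
    intro r
    have hpt : ∀ s ∈ S, ‖cf N (fun n => crd k r - kap k r M₀ c * ((Real.log n : ℝ) : ℂ)) (gam N β₀ s)‖ ^ 2 ≤
        46 * L ^ 4 * (1 / (gam N β₀ s) ^ 2) := by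
      intro s hs
      have hs1 : 1 ≤ X * |gam N β₀ s| := by
        rw [hS, mem_filter] at hs
        exact hs.2
      have hs2 := hβs s (hSsub hs)
      have hb0 : 0 < |gam N β₀ s| := by
        by_contra h
        have : X * |gam N β₀ s| ≤ 0 := mul_nonpos_of_nonneg_of_nonpos hX0.le (not_lt.1 h)
        linarith
      have hδ2 : δ ≤ 1 / 2 := by
        rw [hδ, div_le_div_iff₀ hH0 (by norm_num)]
        have : L ^ C ≤ L ^ (A + 2 * C + 20) := pow_le_pow_right₀ hL1 (by omega)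
        have : 0 ≤ L ^ C := by positivity
        linarith
      have e1 := cf_sm (N := N) (q := k) (r := r) (M₀ := M₀) (c := c) (β := gam N β₀ s) (by omega) hk1 hG.hM1 hMNn hcM
        (hs2.trans hδ2) hb0 (by linarith)
      rw [← hLd] at e1
      calc ‖cf N (fun n => crd k r - kap k r M₀ c * ((Real.log n : ℝ) : ℂ)) (gam N β₀ s)‖ ^ 2
          ≤ (9 * L ^ 2 * (3 / (4 * |gam N β₀ s|))) ^ 2 := pow_le_pow_left₀ (norm_nonneg _) e1 2
        _ = 729 / 16 * L ^ 4 * (1 / (gam N β₀ s) ^ 2) := by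
            rw [← sq_abs (gam N β₀ s)]
            field_simp
            norm_num
        _ ≤ 46 * L ^ 4 * (1 / (gam N β₀ s) ^ 2) := by
            gcongr
            norm_num
    refine (sum_le_sum hpt).trans ?_
    rw [← mul_sum]
    gcongr
  have ht2 := t2_major (N := N) (R₀ := R₀) hk1 h (T2 I a b) c β₀ S hSsub hD₁ hD₂
  have hall := all_parts hN01 (by omega : N ≤ 3 * N) hG.dec hDN hpar.hV hRM α S hSsub
  rw [← hLd, ← hM] at hall
  have hgsum : ∑ s ∈ S, ‖cf N (T2 I a b) (gam N α s)‖ ^ 2 = ∑ s ∈ S, ‖cf N (T2 I a b) (h / k + gam N β₀ s)‖ ^ 2 :=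
    sum_congr rfl fun s _ => by rw [hgam]
  rw [hgsum] at hall
  obtain ⟨Q, hQ⟩ : ∃ Q, Q = (N : ℝ) ^ 2 / L ^ A := ⟨_, rfl⟩
  have hQ0 : 0 < Q := by rw [hQ]; positivity
  have hT : 4 * (2 * (k : ℝ) ^ 2 * (36 * ((N : ℝ) ^ 2 / L ^ A₂) + 46 * L ^ 4 * E₁)) ≤ Q / 5 := by
    have e1 : (k : ℝ) ^ 2 ≤ L ^ (2 * C) := by
      calc (k : ℝ) ^ 2 ≤ (L ^ C) ^ 2 := by gcongr
        _ = _ := by rw [← pow_mul, mul_comm]
    have e2 : L ^ (2 * C) * ((N : ℝ) ^ 2 / L ^ A₂) = Q / L ^ 4 := by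
      rw [hQ, hA₂, show A + 2 * C + 4 = 2 * C + A + 4 by ring, pow_add, pow_add]
      field_simp
    have e3 : L ^ (2 * C) * (L ^ 4 * E₁) ≤ 1254 * (Q / L ^ 4) := by
      rw [hE₁]
      calc L ^ (2 * C) * (L ^ 4 * (1254 * ((N : ℝ) ^ 2 / L ^ (C₁ - 1))))
          = 1254 * ((N : ℝ) ^ 2 * (L ^ (2 * C + 4) / L ^ (C₁ - 1))) := by
            rw [pow_add]
            ring
        _ ≤ 1254 * ((N : ℝ) ^ 2 * (1 / L ^ (A + 4))) := by
            apply mul_le_mul_of_nonneg_left _ (by norm_num)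
            apply mul_le_mul_of_nonneg_left _ (by positivity)
            rw [div_le_div_iff₀ (by positivity) (by positivity), one_mul, ← pow_add]
            exact pow_le_pow_right₀ hL1 (by omega)
        _ = 1254 * (Q / L ^ 4) := by
            rw [hQ, pow_add]
            field_simp
    have e4 : Q / L ^ 4 ≤ Q / L := by
      apply div_le_div_of_nonneg_left hQ0.le hL0
      calc L = L ^ 1 := (pow_one L).symm
        _ ≤ L ^ 4 := pow_le_pow_right₀ hL1 (by norm_num)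
    have e5 : Q / L ≤ Q / 10000000 := div_le_div_of_nonneg_left hQ0.le (by norm_num) hL
    have e6 : 0 ≤ 36 * ((N : ℝ) ^ 2 / L ^ A₂) + 46 * L ^ 4 * E₁ := by positivity
    calc 4 * (2 * (k : ℝ) ^ 2 * (36 * ((N : ℝ) ^ 2 / L ^ A₂) + 46 * L ^ 4 * E₁))
        ≤ 4 * (2 * L ^ (2 * C) * (36 * ((N : ℝ) ^ 2 / L ^ A₂) + 46 * L ^ 4 * E₁)) := by gcongr
      _ = 288 * (L ^ (2 * C) * ((N : ℝ) ^ 2 / L ^ A₂)) + 368 * (L ^ (2 * C) * (L ^ 4 * E₁)) := by ring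
      _ ≤ 288 * (Q / L ^ 4) + 368 * (1254 * (Q / L ^ 4)) := by
          rw [e2]
          gcongr
      _ ≤ Q / 5 := by linarith only [e4, e5, hQ0]
  have hXe : 4 * (M * ((N : ℝ) / L ^ A₁)) ≤ Q / 5 := by
    calc 4 * (M * ((N : ℝ) / L ^ A₁)) ≤ 4 * ((3 * N) * ((N : ℝ) / L ^ (A + 1))) := by
          gcongr
          omega
      _ = Q * (12 / L) := by
          rw [hQ, pow_succ L A]
          field_simp
          ring
      _ ≤ Q * (1 / 5) := by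
          apply mul_le_mul_of_nonneg_left _ hQ0.le
          rw [div_le_div_iff₀ hL0 (by norm_num)]
          linarith
      _ = Q / 5 := by ring
  have hs1 : (N : ℝ) ^ 2 / L ^ (A + 1) ≤ Q / 5 := by
    calc (N : ℝ) ^ 2 / L ^ (A + 1) = Q / L := by
          rw [hQ, pow_succ L A]
          field_simp
      _ ≤ Q / 5 := div_le_div_of_nonneg_left hQ0.le (by norm_num) (by linarith)
  have hsplit : ∑ s ∈ range R₀, ‖cf N (FF z r) (gam N α s)‖ ^ 2 =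
      ∑ s ∈ S, ‖cf N (FF z r) (gam N α s)‖ ^ 2 +
      ∑ s ∈ (range R₀).filter (fun s => ¬ 1 ≤ X * |gam N β₀ s|), ‖cf N (FF z r) (gam N α s)‖ ^ 2 := by
    rw [hS]
    exact (Finset.sum_filter_add_sum_filter_not (range R₀) (fun s => 1 ≤ X * |gam N β₀ s|) _).symm
  rw [hsplit, ← hLd, ← hQ]
  have ht2' := mul_le_mul_of_nonneg_left ht2 (by norm_num : (0 : ℝ) ≤ 4)
  linarith only [ht2', hall, hsm1, hs1, hXe, hT, hnear, hQ0]

end Pool.Agent.KS6_25.SH
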