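import Pool.Agent.KS6_25.SH.E2

set_option autoImplicit false

/-!
# The mean square of the exponential sum over consecutive frequencies
-/

namespace Pool.Agent.KS6_25.SH

open Finset
open Pool.Agent.Y883.GJ (LA LS FF Par)
open Pool.Agent.Y614.GJ.Core (ev_log)

theorem kest (A : ℕ) {ρ : ℝ} (hρ : 0 < ρ) (hρ1 : ρ ≤ 1 / 4) :
    ∃ U N₀ : ℕ, ∀ N : ℕ, N₀ ≤ N → ∀ z r : ℕ, Par U N z r →
    ∀ R₀ H : ℕ, 1 ≤ H → H ≤ N → 2 * R₀ * H ≤ 2 * N + 1 → (R₀ : ℝ) ≤ (N : ℝ) ^ (2 / 3 - ρ) →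
    (N : ℝ) ^ (1 / 3 + 3 * ρ / 4) ≤ H → ∀ α : ℝ,
    ∑ s ∈ range R₀, ‖cf N (FF z r) (gam N α s)‖ ^ 2 ≤ (N : ℝ) ^ 2 / Real.log N ^ A := by
  obtain ⟨k₀, hk₀⟩ : ∃ k₀ : ℕ, k₀ = max 12 ⌈8 / ρ⌉₊ := ⟨_, rfl⟩
  have hk12 : 12 ≤ k₀ := by rw [hk₀]; exact le_max_left _ _
  have hk0 : (0 : ℝ) < k₀ := by exact_mod_cast (by omega : 0 < k₀)
  have hkρ : 1 / (k₀ : ℝ) ≤ ρ / 8 := by
    have h1 : 8 / ρ ≤ k₀ := by
      refine (Nat.le_ceil _).trans ?_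
      rw [hk₀]
      exact_mod_cast le_max_right _ _
    rw [div_le_div_iff₀ hk0 (by norm_num)]
    rw [div_le_iff₀ hρ] at h1
    linarith
  obtain ⟨C, N₁, h1⟩ := minor A hρ hρ1 (κ := 1 / (k₀ : ℝ)) (by positivity) (by linarith)
  obtain ⟨U, N₂, h2⟩ := major A C k₀ hk12 hρ hρ1 hkρ
  obtain ⟨N₃, h3⟩ := good_ex k₀ hk12 (A + 8)
  obtain ⟨N₄, h4⟩ := Filter.eventually_atTop.1 (ev_log (C + 1) (s := 1 / 4) (by norm_num) 10)
  refine ⟨U, max (max N₁ N₂) (max (max N₃ N₄) 1), ?_⟩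
  intro N hN z r hpar R₀ H hH1 hHN hRH hR hHρ α
  have hN1 : N₁ ≤ N := le_trans (le_trans (le_max_left _ _) (le_max_left _ _)) hN
  have hN2 : N₂ ≤ N := le_trans (le_trans (le_max_right _ _) (le_max_left _ _)) hN
  have hNb := le_trans (le_max_right _ _) hN
  have hN3 : N₃ ≤ N := le_trans (le_trans (le_max_left _ _) (le_max_left _ _)) hNb
  have hN4 : N₄ ≤ N := le_trans (le_trans (le_max_right _ _) (le_max_left _ _)) hNb
  have hN01 : 1 ≤ N := le_trans (le_max_right _ _) hNb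
  have hN0 : (0 : ℝ) < N := by exact_mod_cast hN01
  have hNr1 : (1 : ℝ) ≤ N := by exact_mod_cast hN01
  obtain ⟨I, M₀, W, Z, c, a, b, R, hG⟩ := h3 N hN3
  obtain ⟨hL, hLq⟩ := h4 N hN4
  have hL0 : 0 < Real.log N := by linarith
  have hL1 : 1 ≤ Real.log N := by linarith
  have hH0 : (0 : ℝ) < H := by exact_mod_cast hH1
  have hLC : 0 < Real.log N ^ C := by positivity
  have hHL : Real.log N ^ C ≤ H := by
    calc Real.log N ^ C ≤ Real.log N ^ (C + 1) := pow_le_pow_right₀ hL1 (by omega)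
      _ ≤ (N : ℝ) ^ (1 / 4 : ℝ) := hLq
      _ ≤ (N : ℝ) ^ (1 / 3 + 3 * ρ / 4) := Real.rpow_le_rpow_of_exponent_le hNr1 (by linarith)
      _ ≤ H := hHρ
  obtain ⟨n, hn⟩ : ∃ n, n = ⌊(H : ℝ) / Real.log N ^ C⌋₊ := ⟨_, rfl⟩
  have hHC1 : 1 ≤ (H : ℝ) / Real.log N ^ C := by
    rw [le_div_iff₀ hLC, one_mul]
    exact hHL
  have hn1 : 0 < n := by
    rw [hn]
    exact Nat.floor_pos.2 hHC1
  have hn2 : (n : ℝ) ≤ (H : ℝ) / Real.log N ^ C := by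
    rw [hn]
    exact Nat.floor_le (by positivity)
  have hn3 : (H : ℝ) / Real.log N ^ C < n + 1 := by
    rw [hn]
    exact Nat.lt_floor_add_one _
  obtain ⟨w, hw1, hw2⟩ := Real.exists_rat_abs_sub_le_and_den_le α hn1
  obtain ⟨k, hk⟩ : ∃ k : ℕ, k = w.den := ⟨_, rfl⟩
  obtain ⟨h, hh⟩ : ∃ h : ℤ, h = w.num := ⟨_, rfl⟩
  have hkpos : 1 ≤ k := by rw [hk]; exact w.den_pos
  have hk0r : (0 : ℝ) < k := by exact_mod_cast hkpos
  have hwq : (w : ℝ) = (h : ℝ) / k := by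
    rw [hh, hk]
    exact Rat.cast_def w
  have hcop : IsCoprime h (k : ℤ) := by
    rw [hh, hk]
    rw [Int.isCoprime_iff_gcd_eq_one]
    exact w.reduced
  rw [hwq, ← hk] at hw1
  rw [← hk] at hw2
  have hα : |α - h / k| ≤ Real.log N ^ C / (k * H) := by
    refine hw1.trans ?_
    rw [div_le_div_iff₀ (by positivity) (by positivity), one_mul]
    rw [div_lt_iff₀ hLC] at hn3
    calc (k : ℝ) * H ≤ k * ((n + 1) * Real.log N ^ C) := by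
          gcongr
      _ = Real.log N ^ C * ((n + 1) * k) := by ring
  by_cases hkC : Real.log N ^ C ≤ k
  · refine h1 N hN1 I M₀ W Z c a b R hG z r hpar.hD hpar.hV R₀ H hH1 hHN hRH hR ?_ α k h hcop hkC ?_ hα
    · refine le_trans ?_ hHρ
      exact Real.rpow_le_rpow_of_exponent_le hNr1 (by linarith)
    · have : (k : ℝ) ≤ H / Real.log N ^ C := by
        refine le_trans ?_ hn2
        exact_mod_cast hw2
      rwa [le_div_iff₀ hLC] at this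
  · exact h2 N hN2 z r hpar R₀ H hH1 hHN hRH hR hHρ α k h hcop hkpos (not_le.1 hkC).le hα

end Pool.Agent.KS6_25.SH
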