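import Pool.Agent.KS6_25.SH.E3
import Pool.Agent.KS6_25.SH.A2

set_option autoImplicit false

/-!
# Families in short intervals: the number of members at which an error term is large
-/

namespace Pool.Agent.KS6_25.SH

open Finset
open Pool.Agent.Y883.GJ (LA LS FF Par)
open Pool.Agent.R460.GS (cv)
open Pool.Agent.Y614.GJ.Core (ev_log)

/-- few members of a family in a short interval have a large error term -/
theorem few_short (h C V₁ V₂ A : ℕ) (hh : 1 ≤ h) {ρ : ℝ} (hρ : 0 < ρ) (hρ1 : ρ ≤ 1 / 4) :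
    ∃ U N₀ : ℕ, ∀ N : ℕ, N₀ ≤ N → ∀ z r : ℕ, Par U N z r → ∀ H : ℕ, (N : ℝ) ^ (1 / 3 + ρ) ≤ H → h * H ≤ N →
    ∀ F : ℕ → ℂ, (∑ n ∈ Icc 1 N, ‖F n‖ ^ 2 ≤ N * Real.log N ^ 8) →
    (∑ n ∈ Icc 1 N, ‖FF z r n‖ ^ 2 ≤ N * Real.log N ^ 8) →
    ∀ (J : Finset ℕ) (y : ℕ → ℕ), (J.card : ℝ) ≤ Real.log N ^ V₁ → (∀ j ∈ J, y j ≤ N) →
    ∀ (ι : Type) [Fintype ι] (n₀ : ℕ) (w : ι → ℕ) (M : ℝ), 0 ≤ M → (∀ i, w i ≤ H) →
    (∀ i, 1 ≤ n₀ + w i ∧ n₀ + w i ≤ 2 * N) → (energy h w : ℝ) * H ≤ Real.log N ^ C * M ^ (2 * h) →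
    ∀ S : Finset ι, (∀ i ∈ S, ∃ j ∈ J, (N : ℝ) / Real.log N ^ V₂ ≤ ‖cv F (FF z r) (y j) N (n₀ + w i)‖) →
    (S.card : ℝ) ≤ M / Real.log N ^ A := by
  obtain ⟨B, hB⟩ : ∃ B, B = V₁ + V₂ + A := ⟨_, rfl⟩
  obtain ⟨A₂, hA₂⟩ : ∃ A₂, A₂ = 8 * (2 * h - 1) + 4 + C + 1 + 2 * h * B := ⟨_, rfl⟩
  obtain ⟨U, N₁, h1⟩ := kest (A₂ + A₂) hρ hρ1
  obtain ⟨N₂, h2⟩ := Filter.eventually_atTop.1 (ev_log 1 (s := 1) (by norm_num) ((4 : ℝ) ^ (h + 1) + 2))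
  refine ⟨U, max N₁ (max N₂ 1), ?_⟩
  intro N hN z r hpar H hHρ hhH F hF hG J y hJ hy ι _ n₀ w M hM hw hs hE S hS
  have hN1 : N₁ ≤ N := le_trans (le_max_left _ _) hN
  have hN2 : N₂ ≤ N := le_trans (le_trans (le_max_left _ _) (le_max_right _ _)) hN
  have hN01 : 1 ≤ N := le_trans (le_trans (le_max_right _ _) (le_max_right _ _)) hN
  have hN0 : (0 : ℝ) < N := by exact_mod_cast hN01
  have hNr1 : (1 : ℝ) ≤ N := by exact_mod_cast hN01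
  obtain ⟨hL, -⟩ := h2 N hN2
  obtain ⟨L, hLd⟩ : ∃ L, L = Real.log (N : ℝ) := ⟨_, rfl⟩
  have h4h : (0 : ℝ) < (4 : ℝ) ^ (h + 1) := by positivity
  have hH1 : 1 ≤ H := by
    have : (1 : ℝ) ≤ H := (Real.one_le_rpow hNr1 (by positivity)).trans hHρ
    exact_mod_cast this
  have hH0 : (0 : ℝ) < H := by exact_mod_cast hH1
  have hHN : H ≤ N := (Nat.le_mul_of_pos_left H hh).trans hhH
  obtain ⟨R, hR⟩ : ∃ R, R = N / H := ⟨_, rfl⟩
  have hR1 : 1 ≤ R := by rw [hR]; exact Nat.div_pos hHN hH1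
  have hR0 : (0 : ℝ) < R := by exact_mod_cast hR1
  have hRHN : R * H ≤ N := by rw [hR]; exact Nat.div_mul_le_self N H
  have hRH : 2 * R * H ≤ 2 * N + 1 := by
    calc 2 * R * H = 2 * (R * H) := by ring
      _ ≤ 2 * N := Nat.mul_le_mul_left 2 hRHN
      _ ≤ 2 * N + 1 := Nat.le_succ _
  have hRM : R ≤ 2 * N + 1 := by
    have : R ≤ N := by rw [hR]; exact Nat.div_le_self _ _
    omega
  have hRr : (R : ℝ) ≤ (N : ℝ) ^ (2 / 3 - ρ) := by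
    have e1 : (R : ℝ) ≤ N / H := by rw [hR]; exact Nat.cast_div_le
    refine e1.trans ?_
    calc (N : ℝ) / H ≤ N / (N : ℝ) ^ (1 / 3 + ρ) := by gcongr
      _ = (N : ℝ) ^ (2 / 3 - ρ) := by
          nth_rewrite 1 [← Real.rpow_one (N : ℝ)]
          rw [← Real.rpow_sub hN0]
          congr 1
          ring
  have hNR : (N : ℝ) / R ≤ 2 * H := by
    rw [div_le_iff₀ hR0]
    have e1 : N < (R + 1) * H := by
      have := Nat.lt_mul_div_succ N (show 0 < H by omega)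
      rw [hR]
      calc N < H * (N / H + 1) := this
        _ = (N / H + 1) * H := by ring
    have e2 : (N : ℝ) < ((R + 1) * H : ℕ) := by exact_mod_cast e1
    push_cast at e2
    have e3 : (1 : ℝ) ≤ R := by exact_mod_cast hR1
    have e4 : (H : ℝ) ≤ R * H := le_mul_of_one_le_left hH0.le e3
    linarith
  have hkest := h1 N hN1 z r hpar R H hH1 hHN hRH hRr (by
    refine le_trans ?_ hHρ
    exact Real.rpow_le_rpow_of_exponent_le hNr1 (by linarith))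
  rw [← hLd] at hkest hL hF hG hJ hE hS ⊢
  have hL2 : 2 ≤ L := by linarith
  have hL0 : 0 < L := by linarith
  have hL1 : 1 ≤ L := by linarith
  have hsqrt : Real.sqrt (((2 * N + 1 : ℕ) : ℝ) * (N * L ^ 8) * ((N : ℝ) ^ 2 / L ^ (A₂ + A₂))) ≤
      2 * (N ^ 2 * L ^ 4 / L ^ A₂) := by
    rw [Real.sqrt_le_left (by positivity)]
    have e0 : ((2 * N + 1 : ℕ) : ℝ) ≤ 3 * N := by
      push_cast
      linarith
    calc ((2 * N + 1 : ℕ) : ℝ) * (N * L ^ 8) * ((N : ℝ) ^ 2 / L ^ (A₂ + A₂))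
        ≤ (3 * N) * (N * L ^ 8) * ((N : ℝ) ^ 2 / L ^ (A₂ + A₂)) := by gcongr
      _ = 3 * (N ^ 2 * L ^ 4 / L ^ A₂) ^ 2 := by
          rw [pow_add]
          field_simp
      _ ≤ (2 * (N ^ 2 * L ^ 4 / L ^ A₂)) ^ 2 := by nlinarith [sq_nonneg ((N : ℝ) ^ 2 * L ^ 4 / L ^ A₂)]
  have hE' : (energy h w : ℝ) ≤ L ^ C * M ^ (2 * h) / H := by
    rw [le_div_iff₀ hH0]
    exact hE
  have hX : ∀ j ∈ J, ∑ i ∈ S, ‖cv F (FF z r) (y j) N (n₀ + w i)‖ ≤ N * M / L ^ B := by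
    intro j hj
    have h1 := transferS (N := N) (H := H) (R := R) hh hR1 hRM hRH (by omega) F (FF z r) (hy j hj) hF hG hkest n₀ w hw hs S
    have h0 : 0 ≤ ∑ i ∈ S, ‖cv F (FF z r) (y j) N (n₀ + w i)‖ := sum_nonneg fun _ _ => norm_nonneg _
    obtain ⟨m, hm⟩ : ∃ m, 2 * h = m + 1 := ⟨2 * h - 1, by omega⟩
    have hm' : 2 * h - 1 = m := by omega
    have hE0 : (0 : ℝ) ≤ energy h w := Nat.cast_nonneg _
    have h2 : (∑ i ∈ S, ‖cv F (FF z r) (y j) N (n₀ + w i)‖) ^ (2 * h) ≤ (N * M / L ^ B) ^ (2 * h) := by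
      refine h1.trans ?_
      calc 4 ^ h * (N * L ^ 8) ^ (2 * h - 1) *
            (Real.sqrt (((2 * N + 1 : ℕ) : ℝ) * (N * L ^ 8) * ((N : ℝ) ^ 2 / L ^ (A₂ + A₂))) / R * energy h w)
          ≤ 4 ^ h * (N * L ^ 8) ^ (2 * h - 1) * (2 * (N ^ 2 * L ^ 4 / L ^ A₂) / R * (L ^ C * M ^ (2 * h) / H)) := by
            gcongr
        _ = 4 ^ h * (N * L ^ 8) ^ (2 * h - 1) * (2 * (N * L ^ 4 / L ^ A₂) * (N / R) * (L ^ C * M ^ (2 * h) / H)) := by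
            ring
        _ ≤ 4 ^ h * (N * L ^ 8) ^ (2 * h - 1) * (2 * (N * L ^ 4 / L ^ A₂) * (2 * H) * (L ^ C * M ^ (2 * h) / H)) := by
            gcongr
        _ = (N * M / L ^ B) ^ (2 * h) * ((4 : ℝ) ^ (h + 1) / L) := by
            rw [hm', hA₂, hm', div_pow, mul_pow, mul_pow, ← pow_mul, ← pow_mul, mul_comm B (2 * h), pow_add,
              pow_add, pow_add, pow_add, hm, pow_succ (4 : ℝ) h]
            field_simp
            ring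
        _ ≤ (N * M / L ^ B) ^ (2 * h) * 1 := by
            have : (4 : ℝ) ^ (h + 1) / L ≤ 1 := by
              rw [div_le_one hL0]
              linarith
            gcongr
        _ = _ := mul_one _
    exact le_of_pow_le_pow_left₀ (by omega) (by positivity) h2
  have h1 : (S.card : ℝ) * (N / L ^ V₂) ≤ L ^ V₁ * (N * M / L ^ B) := by
    calc (S.card : ℝ) * (N / L ^ V₂) = ∑ _i ∈ S, (N : ℝ) / L ^ V₂ := by rw [sum_const, nsmul_eq_mul]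
      _ ≤ ∑ i ∈ S, ∑ j ∈ J, ‖cv F (FF z r) (y j) N (n₀ + w i)‖ := by
          refine sum_le_sum fun i hi => ?_
          obtain ⟨j, hj, hj'⟩ := hS i hi
          exact hj'.trans (single_le_sum (f := fun j => ‖cv F (FF z r) (y j) N (n₀ + w i)‖)
            (fun _ _ => norm_nonneg _) hj)
      _ = ∑ j ∈ J, ∑ i ∈ S, ‖cv F (FF z r) (y j) N (n₀ + w i)‖ := sum_comm
      _ ≤ ∑ _j ∈ J, N * M / L ^ B := sum_le_sum hX
      _ = (J.card : ℝ) * (N * M / L ^ B) := by rw [sum_const, nsmul_eq_mul]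
      _ ≤ L ^ V₁ * (N * M / L ^ B) := by gcongr
  have h2 : L ^ V₁ * (N * M / L ^ B) = M / L ^ A * (N / L ^ V₂) := by
    rw [hB, pow_add, pow_add]
    field_simp
  rw [h2] at h1
  exact le_of_mul_le_mul_right h1 (by positivity)

end Pool.Agent.KS6_25.SH
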