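import Pool.Agent.KS6_25.SH.F1
import Pool.Agent.KS6_25.Thin

set_option autoImplicit false

/-!
# Families in short intervals
-/

namespace Pool.Agent.KS6_25.SH

open Finset
open Pool.Agent.R460.GS (cv one_le_sing bd_sq bd_LA)
open Pool.Agent.Y883.T3 (lsh)
open Pool.Agent.H373R2.T7 (lamz)
open Pool.Agent.Y883.GJ
open Pool.Agent.Y614.GJ.Core (ev_log)
open Pool.Agent.W93.PG (WinP GoodG win_count pg_det)
open Pool.Agent.R460.GH (cv_near bd_FF bd_LS)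

lemma par_mono {U V N z r : ℕ} (h : Par V N z r) (hUV : U ≤ V) (hL : 1 ≤ Real.log N) : Par U N z r := by
  have hN0 : (0 : ℝ) ≤ N := Nat.cast_nonneg _
  have h1 : (N : ℝ) / Real.log N ^ V ≤ N / Real.log N ^ U :=
    div_le_div_of_nonneg_left hN0 (by positivity) (pow_le_pow_right₀ hL hUV)
  exact ⟨h.hD, h.hV, h.hT, fun α => (h.hS α).trans h1, fun q h2 h3 => (h.hC q h2 h3).trans h1,
    fun q h2 h3 => (h.hL q h2 h3).trans h1⟩

/-- the asymptotic formula in short intervals: families of exceptional numbers -/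
theorem sh_fam (ε : ℝ) (hε : 0 < ε) (Q : ℕ → Prop) (W m₀ : ℕ)
    (hQ : ∀ n : ℕ, m₀ ≤ n → 2 ∣ n → WinP ε W n → Q n) (h C A : ℕ) (hh : 1 ≤ h) {ρ : ℝ} (hρ : 0 < ρ) (hρ1 : ρ ≤ 1 / 4) :
    ∃ N₀ : ℕ, ∀ N : ℕ, N₀ ≤ N → ∀ H : ℕ, (N : ℝ) ^ (1 / 3 + ρ) ≤ H → h * H ≤ N →
      ∀ (ι : Type) [Fintype ι] (n₀ : ℕ) (w : ι → ℕ) (M : ℝ), 0 ≤ M → (∀ i, w i ≤ H) →
      (∀ i, (N : ℝ) / Real.log N ≤ ((n₀ + w i : ℕ) : ℝ) ∧ n₀ + w i ≤ N ∧ 2 ∣ n₀ + w i ∧ ¬ Q (n₀ + w i)) →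
      (energy h w : ℝ) * H ≤ Real.log N ^ C * M ^ (2 * h) → (Fintype.card ι : ℝ) ≤ M / Real.log N ^ A := by
  classical
  obtain ⟨V, hV⟩ : ∃ V, V = W + 1 + 4 := ⟨_, rfl⟩
  obtain ⟨U, N₀, h0⟩ := few_short h C (V + 4) (V + 3) A hh hρ hρ1
  obtain ⟨B, hB⟩ := model_all (max U (V + 8))
  obtain ⟨E1, hE1⟩ : ∃ E1, E1 = max B (V + 8) := ⟨_, rfl⟩
  obtain ⟨N₁, h1⟩ := hB (E1 + 1)
  obtain ⟨N₂, h2⟩ := pg_det V E1 (by rw [hE1]; exact le_trans (by omega) (le_max_right _ _))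
  obtain ⟨N₃, h3⟩ := win_count ε hε W 1
  obtain ⟨N₄, h4⟩ := Filter.eventually_atTop.1 (ev_log (V + 4) (s := 1 / 3) (by norm_num) (100 + 2 * m₀))
  refine ⟨N₀ + N₁ + N₂ + N₃ + N₄ + 3, fun N hN H hH hhH ι _ n₀ w M hM hw hs hE => ?_⟩
  have hN1 : 1 ≤ N := by omega
  have hN0 : (0 : ℝ) < N := by exact_mod_cast hN1
  have hN1r : (1 : ℝ) ≤ N := by exact_mod_cast hN1
  obtain ⟨hL100', hLp⟩ := h4 N (by omega)
  have c0 := h0 N (by omega)
  have c1 := h1 N (by omega)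
  have c2 := h2 N (by omega)
  have c3 := h3 N (by omega)
  have hnear := fun z r n y (hn : n ≤ N) (hy : y ≤ N) => cv_near (N := N) (n := n) (y := y) z r hy hn
  have hbLA := bd_LA (N := N)
  have hbFF := fun U z r (hP : Par U N z r) => bd_FF (z := z) (r := r) hP
  have hsq := fun (F : ℕ → ℂ) hF => bd_sq (N := N) (F := F) hF
  have hm₀0 : (0 : ℝ) ≤ m₀ := Nat.cast_nonneg _
  have hpm := fun z r (hP : Par (max U (V + 8)) N z r) => par_mono (U := U) hP (le_max_left _ _) (by linarith)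
  obtain ⟨L, hLd⟩ : ∃ L, L = Real.log (N : ℝ) := ⟨_, rfl⟩
  rw [← hLd] at c0 c1 c2 c3 hL100' hLp hE hnear hbLA hbFF hsq ⊢
  have hL100 : 100 ≤ L := by linarith
  have hL0 : 0 < L := by linarith
  have hL1 : 1 ≤ L := by linarith
  -- the parameter `z`
  obtain ⟨z, hz⟩ : ∃ z, z = ⌈L ^ E1⌉₊ := ⟨_, rfl⟩
  have hzlo : L ^ E1 ≤ z := by rw [hz]; exact Nat.le_ceil _
  have hL1B : 1 ≤ L ^ E1 := one_le_pow₀ hL1
  have hzhi : (z : ℝ) ≤ L ^ (E1 + 1) := by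
    have := Nat.ceil_lt_add_one (show 0 ≤ L ^ E1 by positivity)
    rw [← hz] at this
    calc (z : ℝ) ≤ L ^ E1 + 1 := this.le
      _ ≤ L ^ E1 + L ^ E1 := by linarith
      _ = 2 * L ^ E1 := by ring
      _ ≤ L * L ^ E1 := mul_le_mul_of_nonneg_right (by linarith) (by positivity)
      _ = L ^ (E1 + 1) := by ring
  have hzB : L ^ B ≤ z := (pow_le_pow_right₀ hL1 (by rw [hE1]; exact le_max_left _ _)).trans hzlo
  obtain ⟨r, hPar, hsum⟩ := c1 z hzB hzhi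
  have hsum : ∑ n ∈ Icc 1 N, |lamz z n - lsh z r n| ≤ N / L ^ (V + 8) :=
    hsum.trans (div_le_div_of_nonneg_left hN0.le (by positivity) (pow_le_pow_right₀ hL1 (le_max_right _ _)))
  -- the grid
  obtain ⟨Tg, hTg⟩ : ∃ Tg, Tg = ⌈L ^ (V + 3)⌉₊ := ⟨_, rfl⟩
  have hT1 : L ^ (V + 3) ≤ Tg := by rw [hTg]; exact Nat.le_ceil _
  have hLV : 1 ≤ L ^ (V + 3) := one_le_pow₀ hL1
  have hT2 : (Tg : ℝ) ≤ L ^ (V + 3) + 1 := by
    rw [hTg]
    exact (Nat.ceil_lt_add_one (by positivity)).le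
  obtain ⟨yy, hyy⟩ : ∃ yy : ℕ → ℕ, yy = fun i => min (i * (N / Tg + 1)) N := ⟨_, rfl⟩
  have hyN : ∀ i, yy i ≤ N := fun i => by rw [hyy]; exact min_le_right _ _
  have hJc : (((range (Tg + 1)).card : ℕ) : ℝ) ≤ L ^ (V + 4) := by
    rw [card_range]
    push_cast
    rw [show V + 4 = (V + 3) + 1 by ring, pow_succ L (V + 3)]
    nlinarith
  have hlow : ∀ i, (N : ℝ) ^ (2 / 3 : ℝ) ≤ ((n₀ + w i : ℕ) : ℝ) := by
    intro i
    refine le_trans ?_ (hs i).1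
    rw [← hLd, le_div_iff₀ (by positivity)]
    calc (N : ℝ) ^ (2 / 3 : ℝ) * L ≤ (N : ℝ) ^ (2 / 3 : ℝ) * (N : ℝ) ^ (1 / 3 : ℝ) := by
          have : L ≤ (N : ℝ) ^ (1 / 3 : ℝ) := by
            refine le_trans ?_ hLp
            calc L = L ^ 1 := (pow_one L).symm
              _ ≤ _ := pow_le_pow_right₀ hL1 (by omega)
          gcongr
      _ = N := by rw [← Real.rpow_add hN0]; norm_num
  have hpos : ∀ i, 1 ≤ n₀ + w i := by
    intro i
    have : (0 : ℝ) < ((n₀ + w i : ℕ) : ℝ) := lt_of_lt_of_le (by positivity) (hlow i)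
    exact_mod_cast this
  have hfew := c0 z r (hpm z r hPar) H hH hhH LA (hsq _ (hbLA hL1) (by linarith)) (hsq _ (hbFF _ z r hPar (by linarith)) (by linarith))
    (range (Tg + 1)) yy hJc (fun j _ => hyN j) ι n₀ w M hM hw (fun i => ⟨hpos i, by have := (hs i).2.1; omega⟩) hE univ ?_
  · rwa [card_univ] at hfew
  · intro i _
    obtain ⟨a1, a2, a3, a5⟩ := hs i
    by_contra hcon
    push Not at hcon
    apply a5
    have e2 : 2 / 3 * L ≤ Real.log ((n₀ + w i : ℕ) : ℝ) := by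
      rw [hLd, ← Real.log_rpow hN0]
      exact Real.log_le_log (by positivity) (hlow i)
    have e3 : (m₀ : ℝ) ≤ ((n₀ + w i : ℕ) : ℝ) := by
      have := Real.log_le_self (Nat.cast_nonneg (n₀ + w i) : (0 : ℝ) ≤ ((n₀ + w i : ℕ) : ℝ))
      linarith
    have e4 : m₀ ≤ n₀ + w i := by exact_mod_cast e3
    refine hQ _ e4 a3 ?_
    have hgood : GoodG (W + 1 + 4) N (n₀ + w i) := by
      rw [← hV]
      unfold GoodG
      rw [← hLd]
      refine c2 (n₀ + w i) a2 a3 (by have := hpos i; omega) z hzlo hzhi Tg hT1 ?_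
      intro j hj
      have k1 := hnear z r (n₀ + w i) (yy j) a2 (hyN j)
      have k2 := hcon j hj
      have h6 : L * ∑ c ∈ Icc 1 N, |lamz z c - lsh z r c| ≤ N / L ^ (V + 7) := by
        calc L * ∑ c ∈ Icc 1 N, |lamz z c - lsh z r c| ≤ L * (N / L ^ (V + 8)) :=
              mul_le_mul_of_nonneg_left hsum hL0.le
          _ = N / L ^ (V + 7) := by rw [pow_succ L (V + 7)]; field_simp
      have h7 : (N : ℝ) / L ^ (V + 7) ≤ N / L ^ (V + 3) :=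
        div_le_div_of_nonneg_left hN0.le (by positivity) (pow_le_pow_right₀ hL1 (by omega))
      have h8 : (N : ℝ) / L ^ (V + 3) = N / L ^ (V + 2) / L := by rw [pow_succ L (V + 2), div_div]
      have h9 : (N : ℝ) / L ^ (V + 2) / L ≤ N / L ^ (V + 2) / 100 :=
        div_le_div_of_nonneg_left (by positivity) (by norm_num) hL100
      have h10 : 0 ≤ (N : ℝ) / L ^ (V + 2) := by positivity
      have e : yy j = min (j * (N / Tg + 1)) N := by rw [hyy]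
      rw [← e]
      linarith
    intro y₁ y₂ k1 k2 k3
    refine c3 (n₀ + w i) a2 ?_ hgood y₁ y₂ k1 k2 k3
    rw [pow_one, hLd]
    exact a1

end Pool.Agent.KS6_25.SH
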