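import Pool.Agent.KS6_25.SH.F2
import Pool.Agent.KS6_25.Nbhd

set_option autoImplicit false

/-!
# Neighbourhoods of the members of a family in a short interval
-/

namespace Pool.Agent.KS6_25.SH

open Finset
open Pool.Agent.Y614.GJ.Core (ev_log)
open Pool.Agent.KS6_25 (energyZ)

/-- the energy of a part of a translated family -/
lemma energy_tr (h : ℕ) {ι : Type} [Fintype ι] (w : ι → ℤ) (e : ℤ) (S : Finset ι) (u : {i // i ∈ S} → ℕ)
    (hu : ∀ i, ((u i : ℕ) : ℤ) = w i.1 + e) : energy h u ≤ energyZ h w := by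
  classical
  unfold energy energyZ
  have key : ∀ v : Fin h → {i // i ∈ S}, ((∑ j, u (v j) : ℕ) : ℤ) = (∑ j, w (v j).1) + h * e := by
    intro v
    push_cast
    rw [sum_congr rfl (fun j _ => hu (v j)), sum_add_distrib, sum_const, card_univ, Fintype.card_fin, nsmul_eq_mul]
  apply Nat.card_le_card_of_injective (fun v : {v : (Fin h → {i // i ∈ S}) × (Fin h → {i // i ∈ S}) //
      ∑ j, u (v.1 j) = ∑ j, u (v.2 j)} =>
    (⟨(fun j => (v.1.1 j).1, fun j => (v.1.2 j).1), by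
      have h1 := key v.1.1
      have h2 := key v.1.2
      rw [v.2] at h1
      have h3 := h1.symm.trans h2
      exact add_right_cancel h3⟩ :
      {v : (Fin h → ι) × (Fin h → ι) // ∑ j, w (v.1 j) = ∑ j, w (v.2 j)}))
  rintro ⟨⟨v1, v2⟩, hv⟩ ⟨⟨u1, u2⟩, hu⟩ heq
  simp only [Subtype.mk.injEq, Prod.mk.injEq] at heq ⊢
  obtain ⟨e1, e2⟩ := heq
  constructor
  · funext j
    exact Subtype.ext (congrFun e1 j)
  · funext j
    exact Subtype.ext (congrFun e2 j)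

/-- The number of the members `w i` of the family for which `P` is false at some even `m` with `|m - w i| ≤ L ^ B`. -/
noncomputable def exc (P : ℕ → Prop) (B : ℕ) (L : ℝ) {ι : Type} (w : ι → ℤ) : ℕ :=
  Nat.card {i : ι // ∃ m : ℕ, |(m : ℝ) - w i| ≤ L ^ B ∧ Even m ∧ ¬ P m}

/-- from families to neighbourhoods -/
theorem sh_nbhd (P : ℕ → Prop) (h : ℕ) (hh : 1 ≤ h) {ρ : ℝ} (hρ : 0 < ρ)
    (hthin : ∀ C A : ℕ, ∃ N₀ : ℕ, ∀ N : ℕ, N₀ ≤ N → ∀ H : ℕ, (N : ℝ) ^ (1 / 3 + ρ / 2) ≤ H → h * H ≤ N →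
      ∀ (ι : Type) [Fintype ι] (n₀ : ℕ) (w : ι → ℕ) (M : ℝ), 0 ≤ M → (∀ i, w i ≤ H) →
      (∀ i, (N : ℝ) / Real.log N ≤ ((n₀ + w i : ℕ) : ℝ) ∧ n₀ + w i ≤ N ∧ 2 ∣ n₀ + w i ∧ ¬ P (n₀ + w i)) →
      (energy h w : ℝ) * H ≤ Real.log N ^ C * M ^ (2 * h) → (Fintype.card ι : ℝ) ≤ M / Real.log N ^ A) (A B C : ℕ) :
    ∃ x₀ : ℕ, ∀ x : ℕ, x₀ ≤ x → ∀ H : ℕ, (x : ℝ) ^ (1 / 3 + ρ) ≤ H → H ≤ x → ∀ (ι : Type) [Fintype ι] (w : ι → ℤ),
      (∀ i, (x : ℤ) < w i ∧ w i ≤ x + H) →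
      (energyZ h w : ℝ) * H ≤ Real.log x ^ C * (Fintype.card ι : ℝ) ^ (2 * h) →
        (exc P B (Real.log x) w : ℝ) ≤ Fintype.card ι / Real.log x ^ A := by
  classical
  obtain ⟨N₁, h1⟩ := hthin (C + 1) (A + B + 1)
  have hten : ∀ᶠ x : ℕ in Filter.atTop, (((2 * (h + 1) : ℕ) : ℝ) ^ (1 / 3 + ρ / 2) : ℝ) ≤ (x : ℝ) ^ (ρ / 2) := by
    have t1 : Filter.Tendsto (fun x : ℕ => (x : ℝ) ^ (ρ / 2)) Filter.atTop Filter.atTop :=
      (tendsto_rpow_atTop (by positivity)).comp tendsto_natCast_atTop_atTop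
    exact t1.eventually_ge_atTop _
  obtain ⟨x₁, hx₁⟩ := Filter.eventually_atTop.1 hten
  obtain ⟨x₂, hx₂⟩ := Filter.eventually_atTop.1 (ev_log (B + 1) (s := 1 / 3) (by norm_num) (4 * (h + 1) + 10))
  refine ⟨N₁ + x₁ + x₂ + 10, fun x hx H hH hHx ι _ w hw hE => ?_⟩
  have hx1 : 1 ≤ x := by omega
  have hx0 : (0 : ℝ) < x := by exact_mod_cast hx1
  have hxr1 : (1 : ℝ) ≤ x := by exact_mod_cast hx1
  have c1 := hx₁ x (by omega)
  obtain ⟨hL, hLp⟩ := hx₂ x (by omega)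
  obtain ⟨N, hN⟩ : ∃ N, N = 2 * (h + 1) * x := ⟨_, rfl⟩
  have hNx : x ≤ N := by rw [hN]; exact Nat.le_mul_of_pos_left x (by omega)
  have hN4 : 4 * x ≤ N := by
    rw [hN]
    exact Nat.mul_le_mul_right x (by omega)
  have d1 := h1 N (by omega)
  have hNr : (N : ℝ) = ((2 * (h + 1) : ℕ) : ℝ) * x := by rw [hN]; push_cast; ring
  have hN0 : (0 : ℝ) < N := by
    have : (x : ℝ) ≤ N := by exact_mod_cast hNx
    linarith
  have hLN : Real.log x ≤ Real.log N := Real.log_le_log hx0 (by exact_mod_cast hNx)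
  obtain ⟨L', hL'⟩ : ∃ L', L' = Real.log (N : ℝ) := ⟨_, rfl⟩
  obtain ⟨L, hLd⟩ : ∃ L, L = Real.log (x : ℝ) := ⟨_, rfl⟩
  rw [← hL'] at d1 hLN
  rw [← hLd] at hL hLp hE hLN ⊢
  have hh0 : (0 : ℝ) ≤ h := Nat.cast_nonneg _
  have hL0 : 0 < L := by linarith
  have hL1 : 1 ≤ L := by linarith
  have hL'0 : 0 < L' := by linarith
  have hexc : exc P B L w = (univ.filter (fun i : ι => ∃ m : ℕ, |(m : ℝ) - w i| ≤ L ^ B ∧ Even m ∧ ¬ P m)).card := by
    unfold exc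
    rw [Nat.card_eq_fintype_card, Fintype.card_subtype]
  rw [hexc]
  obtain ⟨R, hR⟩ : ∃ R : ℕ, R = ⌊L ^ B⌋₊ := ⟨_, rfl⟩
  have hRL : (R : ℝ) ≤ L ^ B := by rw [hR]; exact Nat.floor_le (by positivity)
  have hRx : 2 * R ≤ H := by
    have e1 : (2 : ℝ) * R ≤ H := by
      refine le_trans ?_ hH
      calc (2 : ℝ) * R ≤ L * L ^ B := by
            apply mul_le_mul (by linarith) hRL (Nat.cast_nonneg _) hL0.le
        _ = L ^ (B + 1) := by ring
        _ ≤ (x : ℝ) ^ (1 / 3 : ℝ) := hLp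
        _ ≤ (x : ℝ) ^ (1 / 3 + ρ) := Real.rpow_le_rpow_of_exponent_le hxr1 (by linarith)
    exact_mod_cast e1
  obtain ⟨F, hF⟩ : ∃ F : ℤ → Finset ι, F = fun δ => univ.filter (fun i => 0 < w i + δ ∧ Even (w i + δ) ∧
    ¬ P (w i + δ).toNat) := ⟨_, rfl⟩
  have hsub : univ.filter (fun i : ι => ∃ m : ℕ, |(m : ℝ) - w i| ≤ L ^ B ∧ Even m ∧ ¬ P m) ⊆
      (Icc (-(R : ℤ)) R).biUnion F := by
    intro i hi
    rw [mem_filter] at hi
    obtain ⟨_, m, hm, h3, h4⟩ := hi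
    have hδ : (m : ℤ) - w i ∈ Icc (-(R : ℤ)) R := by
      rw [mem_Icc, ← abs_le]
      have h7 : ((((m : ℤ) - w i).natAbs : ℕ) : ℝ) ≤ L ^ B := by
        refine le_trans (le_of_eq ?_) hm
        rw [Nat.cast_natAbs]
        push_cast
        rfl
      have h8 : ((m : ℤ) - w i).natAbs ≤ R := by rw [hR]; exact Nat.le_floor h7
      rw [← Int.natCast_natAbs]
      exact_mod_cast h8
    rw [mem_biUnion]
    refine ⟨(m : ℤ) - w i, hδ, ?_⟩
    rw [hF]
    simp only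
    rw [mem_filter]
    have e : w i + ((m : ℤ) - w i) = m := by ring
    rw [e]
    rw [mem_Icc] at hδ
    have := (hw i).1
    refine ⟨mem_univ _, by omega, ?_, ?_⟩
    · exact_mod_cast h3
    · rw [Int.toNat_natCast]
      exact h4
  have hone : ∀ δ ∈ Icc (-(R : ℤ)) R, ((F δ).card : ℝ) ≤ Fintype.card ι / L ^ (A + B + 1) := by
    intro δ hδ
    rw [mem_Icc] at hδ
    have hmem : ∀ i ∈ F δ, 0 < w i + δ ∧ Even (w i + δ) ∧ ¬ P (w i + δ).toNat := by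
      intro i hi
      rw [hF] at hi
      simp only at hi
      rw [mem_filter] at hi
      exact hi.2
    obtain ⟨n₀, hn₀⟩ : ∃ n₀, n₀ = x - R := ⟨_, rfl⟩
    have hn₀R : n₀ + R = x := by omega
    obtain ⟨u, hu⟩ : ∃ u : {i // i ∈ F δ} → ℕ, u = fun i => (w i.1 + δ).toNat - n₀ := ⟨_, rfl⟩
    have hge : ∀ i : ι, (n₀ : ℤ) ≤ w i + δ := by
      intro i
      have := (hw i).1
      omega
    have hsum : ∀ i : {i // i ∈ F δ}, n₀ + u i = (w i.1 + δ).toNat := by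
      intro i
      rw [hu]
      have := hge i.1
      simp only
      omega
    have hui : ∀ i : {i // i ∈ F δ}, ((u i : ℕ) : ℤ) = w i.1 + (δ - n₀) := by
      intro i
      have k1 := hsum i
      have k2 := hge i.1
      omega
    have h3 := d1 (2 * H) ?_ ?_ {i // i ∈ F δ} n₀ u (Fintype.card ι) (Nat.cast_nonneg _) ?_ ?_ ?_
    · rw [Fintype.card_coe] at h3
      refine h3.trans ?_
      apply div_le_div_of_nonneg_left (Nat.cast_nonneg _) (by positivity)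
      exact pow_le_pow_left₀ hL0.le hLN _
    · rw [hNr, Real.mul_rpow (Nat.cast_nonneg _) hx0.le]
      calc ((2 * (h + 1) : ℕ) : ℝ) ^ (1 / 3 + ρ / 2) * (x : ℝ) ^ (1 / 3 + ρ / 2)
          ≤ (x : ℝ) ^ (ρ / 2) * (x : ℝ) ^ (1 / 3 + ρ / 2) := by gcongr
        _ = (x : ℝ) ^ (1 / 3 + ρ) := by
            rw [← Real.rpow_add hx0]
            congr 1
            ring
        _ ≤ H := hH
        _ ≤ ((2 * H : ℕ) : ℝ) := by
            push_cast
            have : (0 : ℝ) ≤ H := Nat.cast_nonneg _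
            linarith
    · calc h * (2 * H) = 2 * h * H := by ring
        _ ≤ 2 * (h + 1) * x := Nat.mul_le_mul (by omega) hHx
        _ = N := hN.symm
    · intro i
      have k1 := hui i
      have k2 := (hw i.1).2
      omega
    · intro i
      obtain ⟨k1, k2, k3⟩ := hmem i.1 i.2
      have k4 := hsum i
      have k5 := (hw i.1).1
      have k6 := (hw i.1).2
      refine ⟨?_, by omega, ?_, ?_⟩
      · have e1 : x ≤ 2 * (n₀ + u i) := by omega
        have e2 : (x : ℝ) ≤ 2 * ((n₀ + u i : ℕ) : ℝ) := by exact_mod_cast e1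
        rw [div_le_iff₀ hL'0, hNr]
        push_cast at e2 ⊢
        have e3 : 2 * ((h : ℝ) + 1) * 2 ≤ L' := by linarith
        have e4 : (0 : ℝ) ≤ (n₀ : ℝ) + u i := by positivity
        calc 2 * ((h : ℝ) + 1) * x ≤ 2 * ((h : ℝ) + 1) * (2 * ((n₀ : ℝ) + u i)) := by gcongr
          _ = (2 * ((h : ℝ) + 1) * 2) * ((n₀ : ℝ) + u i) := by ring
          _ ≤ L' * ((n₀ : ℝ) + u i) := by gcongr
          _ = ((n₀ : ℝ) + u i) * L' := mul_comm _ _
      · rw [k4]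
        have h4 : (2 : ℤ) ∣ (((w i.1 + δ).toNat : ℕ) : ℤ) := by
          rw [Int.toNat_of_nonneg k1.le]
          exact even_iff_two_dvd.1 k2
        exact_mod_cast h4
      · rw [k4]
        exact k3
    · have h5 : (energy h u : ℝ) ≤ energyZ h w := by
        exact_mod_cast energy_tr h w (δ - n₀) (F δ) u hui
      calc (energy h u : ℝ) * ((2 * H : ℕ) : ℝ) ≤ energyZ h w * ((2 * H : ℕ) : ℝ) := by gcongr
        _ = 2 * (energyZ h w * H) := by push_cast; ring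
        _ ≤ 2 * (L ^ C * (Fintype.card ι : ℝ) ^ (2 * h)) := by gcongr
        _ ≤ L' * (L' ^ C * (Fintype.card ι : ℝ) ^ (2 * h)) := by
            gcongr
            linarith
        _ = L' ^ (C + 1) * (Fintype.card ι : ℝ) ^ (2 * h) := by ring
  calc ((univ.filter (fun i : ι => ∃ m : ℕ, |(m : ℝ) - w i| ≤ L ^ B ∧ Even m ∧ ¬ P m)).card : ℝ)
      ≤ (((Icc (-(R : ℤ)) R).biUnion F).card : ℝ) := by exact_mod_cast card_le_card hsub
    _ ≤ ((∑ δ ∈ Icc (-(R : ℤ)) R, (F δ).card : ℕ) : ℝ) := by exact_mod_cast card_biUnion_le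
    _ = ∑ δ ∈ Icc (-(R : ℤ)) R, ((F δ).card : ℝ) := by push_cast; rfl
    _ ≤ ∑ _δ ∈ Icc (-(R : ℤ)) R, (Fintype.card ι : ℝ) / L ^ (A + B + 1) := sum_le_sum hone
    _ = (2 * R + 1) * (Fintype.card ι / L ^ (A + B + 1)) := by
        rw [sum_const, Int.card_Icc, nsmul_eq_mul]
        congr 1
        have : ((R : ℤ) + 1 - -(R : ℤ)).toNat = 2 * R + 1 := by omega
        rw [this]
        push_cast
        rfl
    _ ≤ L ^ (B + 1) * (Fintype.card ι / L ^ (A + B + 1)) := by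
        apply mul_le_mul_of_nonneg_right _ (by positivity)
        have h6 : 1 ≤ L ^ B := one_le_pow₀ hL1
        rw [pow_succ]
        nlinarith
    _ = Fintype.card ι / L ^ A := by
        rw [show A + B + 1 = A + (B + 1) by ring, pow_add L A (B + 1)]
        field_simp

end Pool.Agent.KS6_25.SH
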