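import Pool.Agent.KS6_25.SH.G1
import Pool.Graph.R_seed8.TH935.TF8

set_option autoImplicit false

/-!
# Values of linear forms as convolutions
-/

namespace Pool.Agent.KS6_25.SH

open Finset
open Pool.Agent.R460.GS (cv)

/-- the weights carried to the values of a linear form -/
noncomputable def Fw (T α : ℤ) (y : ℕ) (G : ℕ → ℝ) (b : ℕ) : ℂ :=
  ∑ q ∈ Icc 1 y, if (b : ℤ) = T - α * q then ((G q : ℝ) : ℂ) else 0

lemma Fw_le {T α : ℤ} (hα : α ≠ 0) {y : ℕ} {G : ℕ → ℝ} {K : ℝ} (hK : 0 ≤ K) (hG : ∀ q ∈ Icc 1 y, |G q| ≤ K) (b : ℕ) :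
    ‖Fw T α y G b‖ ≤ K := by
  classical
  unfold Fw
  by_cases h : ∃ q ∈ Icc 1 y, (b : ℤ) = T - α * q
  · obtain ⟨q, hq, hb⟩ := h
    rw [sum_eq_single q]
    · rw [if_pos hb, Complex.norm_real]
      exact hG q hq
    · intro q' _ hne
      rw [if_neg]
      intro hb'
      apply hne
      have h1 : α * (q' : ℤ) = α * q := by linarith
      exact_mod_cast mul_left_cancel₀ hα h1
    · intro h
      exact absurd hq h
  · rw [sum_eq_zero]
    · simpa using hK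
    · intro q hq
      rw [if_neg fun hb => h ⟨q, hq, hb⟩]

lemma natAbs_mul_le {X : ℕ} {α : ℤ} {y q : ℕ} (hy : α.natAbs * y ≤ X) (hq : q ∈ Icc 1 y) :
    |α * (q : ℤ)| ≤ X := by
  have h1 : α.natAbs * q ≤ X := (Nat.mul_le_mul_left _ (mem_Icc.1 hq).2).trans hy
  rw [← Int.natCast_natAbs, Int.natAbs_mul, Int.natAbs_natCast]
  exact_mod_cast h1

lemma cv_Fw {X : ℕ} {α : ℤ} {y : ℕ} (hy : α.natAbs * y ≤ X) {s : ℤ} (hs : |s| ≤ X) (hX : 1 ≤ X) (G : ℕ → ℝ)
    (g : ℕ → ℂ) : cv (Fw (2 * X) α y G) g (4 * X) (4 * X) (2 * X + s).toNat =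
      ∑ q ∈ Icc 1 y, ((G q : ℝ) : ℂ) * (if 1 ≤ s + α * q then g (s + α * q).toNat else 0) := by
  classical
  obtain ⟨n, hn⟩ : ∃ n, n = (2 * (X : ℤ) + s).toNat := ⟨_, rfl⟩
  have hs' := abs_le.1 hs
  have hnZ : (n : ℤ) = 2 * X + s := by
    rw [hn]
    exact Int.toNat_of_nonneg (by linarith)
  rw [← hn]
  have h1 : cv (Fw (2 * X) α y G) g (4 * X) (4 * X) n = ∑ b ∈ Icc 1 (4 * X), ∑ q ∈ Icc 1 y,
      if (b : ℤ) = 2 * X - α * q then ((G q : ℝ) : ℂ) * (∑ c ∈ Icc 1 (4 * X), if b + c = n then g c else 0) else 0 := by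
    unfold cv Fw
    refine sum_congr rfl fun b _ => ?_
    have e1 : ∀ c ∈ Icc 1 (4 * X), (if b + c = n then (∑ q ∈ Icc 1 y, if (b : ℤ) = 2 * X - α * q then ((G q : ℝ) : ℂ) else 0) * g c else 0) =
        (∑ q ∈ Icc 1 y, if (b : ℤ) = 2 * X - α * q then ((G q : ℝ) : ℂ) else 0) * (if b + c = n then g c else 0) := by
      intro c _
      split_ifs
      · rfl
      · rw [mul_zero]
    rw [sum_congr rfl e1, ← mul_sum, sum_mul]
    refine sum_congr rfl fun q _ => ?_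
    split_ifs
    · rfl
    · rw [zero_mul]
  rw [h1, sum_comm]
  refine sum_congr rfl fun q hq => ?_
  have h2 := abs_le.1 (natAbs_mul_le hy hq)
  obtain ⟨b0, hb0⟩ : ∃ b0 : ℕ, (b0 : ℤ) = 2 * X - α * q := ⟨(2 * (X : ℤ) - α * q).toNat, Int.toNat_of_nonneg (by linarith)⟩
  rw [sum_eq_single b0]
  · rw [if_pos hb0]
    congr 1
    by_cases h3 : 1 ≤ s + α * q
    · rw [if_pos h3]
      obtain ⟨c0, hc0⟩ : ∃ c0 : ℕ, (c0 : ℤ) = s + α * q := ⟨(s + α * q).toNat, Int.toNat_of_nonneg (by linarith)⟩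
      rw [sum_eq_single c0]
      · rw [if_pos (by omega), ← hc0, Int.toNat_natCast]
      · intro c _ hne
        rw [if_neg]
        omega
      · intro h
        exfalso
        apply h
        rw [mem_Icc]
        omega
    · rw [if_neg h3]
      apply sum_eq_zero
      intro c hc
      rw [mem_Icc] at hc
      rw [if_neg]
      omega
  · intro b _ hne
    rw [if_neg]
    intro hb
    apply hne
    omega
  · intro h
    exfalso
    apply h
    rw [mem_Icc]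
    omega

end Pool.Agent.KS6_25.SH
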