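import Pool.Agent.KS6_25.SH.G2

set_option autoImplicit false

/-!
# One coordinate: the difference of the von Mangoldt function and its sieve model on a linear form, arbitrary
weights, constant terms in a family in a short interval
-/

namespace Pool.Agent.KS6_25.SH

open Finset
open Pool.Agent.R460.GS (cv bd_sq)
open Pool.Agent.R460.GH (bd_FF)
open Pool.Agent.H373R2.T7 (lamz Vz pz lamI lamzI)
open Pool.Agent.TH935.LF (Dz)
open Pool.Agent.Y883.GJ (FF Par model_all)
open Pool.Agent.Y883.T3 (lsh)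
open Pool.Agent.Y614.GJ.Core (ev_log)

/-- the parameters are good for smaller exponents -/
lemma par_mono2 {U V N z r : ℕ} (h : Par V N z r) (hUV : U ≤ V) (hL : 1 ≤ Real.log N) : Par U N z r := by
  have hN0 : (0 : ℝ) ≤ N := Nat.cast_nonneg _
  have h1 : (N : ℝ) / Real.log N ^ V ≤ N / Real.log N ^ U :=
    div_le_div_of_nonneg_left hN0 (by positivity) (pow_le_pow_right₀ hL hUV)
  exact ⟨h.hD, h.hV, h.hT, fun α => (h.hS α).trans h1, fun q h2 h3 => (h.hC q h2 h3).trans h1,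
    fun q h2 h3 => (h.hL q h2 h3).trans h1⟩

lemma Dz_eq (z r : ℕ) (k : ℤ) : Dz z 1 k =
    (if 1 ≤ k then ArithmeticFunction.vonMangoldt k.toNat - lsh z r k.toNat else 0) -
      (if 1 ≤ k then lamz z k.toNat - lsh z r k.toNat else 0) := by
  rw [Pool.Agent.TH935.TF.Dz_one]
  unfold lamI lamzI
  split_ifs <;> ring

/-- the energy in the form of the library -/
lemma energy_lib (h x : ℕ) (s : ℕ → ℤ) (s₀ : ℤ) (w : Fin x → ℕ) (hw : ∀ i, ((w i : ℕ) : ℤ) = s (i.1 + 1) - s₀) :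
    energy h w ≤ Pool.Agent.H373R2.T7.energy h x s := by
  classical
  unfold energy Pool.Agent.H373R2.T7.energy
  have key : ∀ v : Fin h → Fin x, ((∑ j, w (v j) : ℕ) : ℤ) = (∑ j, s ((v j).1 + 1)) - h * s₀ := by
    intro v
    push_cast
    rw [sum_congr rfl (fun j _ => hw (v j)), sum_sub_distrib, sum_const, card_univ, Fintype.card_fin, nsmul_eq_mul]
  rw [Nat.card_eq_fintype_card, Fintype.card_subtype]
  apply card_le_card_of_injOn (fun v : (Fin h → Fin x) × (Fin h → Fin x) =>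
    ((fun j => (v.1 j).1 + 1, fun j => (v.2 j).1 + 1) : (Fin h → ℕ) × (Fin h → ℕ)))
  · intro v hv
    rw [mem_coe, mem_filter] at hv
    rw [mem_coe, mem_filter, mem_product, Fintype.mem_piFinset, Fintype.mem_piFinset]
    refine ⟨⟨fun j => ?_, fun j => ?_⟩, ?_⟩
    · exact mem_Icc.2 ⟨Nat.succ_le_succ (Nat.zero_le _), (v.1 j).2⟩
    · exact mem_Icc.2 ⟨Nat.succ_le_succ (Nat.zero_le _), (v.2 j).2⟩
    have h1 := key v.1
    have h2 := key v.2
    rw [hv.2] at h1
    have h3 := h1.symm.trans h2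
    simp only
    linarith
  · intro v _ v' _ heq
    simp only [Prod.mk.injEq] at heq
    apply Prod.ext
    · funext j
      have h4 : (v.1 j).1 + 1 = (v'.1 j).1 + 1 := congrFun heq.1 j
      exact Fin.ext (by omega)
    · funext j
      have h4 : (v.2 j).1 + 1 = (v'.2 j).1 + 1 := congrFun heq.2 j
      exact Fin.ext (by omega)

lemma sum_fin_Icc (x : ℕ) (f : ℕ → ℝ) : ∑ m ∈ Icc 1 x, f m = ∑ i : Fin x, f (i.1 + 1) := by
  rw [Fin.sum_univ_eq_sum_range (fun i => f (i + 1)) x]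
  induction x with
  | zero => simp
  | succ n ih => rw [sum_Icc_succ_top (by omega), sum_range_succ, ih]

lemma abs_sum_inj {X : ℕ} {α : ℤ} (hα : α ≠ 0) {y : ℕ} (hy : α.natAbs * y ≤ X) {s : ℤ} (hs : |s| ≤ X) (f : ℕ → ℝ)
    (hf : ∀ n, 0 ≤ f n) : ∑ q ∈ Icc 1 y, (if 1 ≤ s + α * q then f (s + α * q).toNat else 0) ≤ ∑ c ∈ Icc 1 (4 * X), f c := by
  classical
  rw [← sum_filter]
  have hinj : Set.InjOn (fun q : ℕ => (s + α * (q : ℤ)).toNat) (((Icc 1 y).filter (fun q : ℕ => 1 ≤ s + α * (q : ℤ))) : Finset ℕ) := by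
    intro q hq q' hq' h
    rw [mem_coe, mem_filter] at hq hq'
    simp only at h
    have h1 : s + α * (q : ℤ) = s + α * q' := by omega
    have h2 : α * (q : ℤ) = α * q' := by linarith
    exact_mod_cast mul_left_cancel₀ hα h2
  rw [← sum_image (f := f) (g := fun q : ℕ => (s + α * (q : ℤ)).toNat) hinj]
  apply sum_le_sum_of_subset_of_nonneg
  · intro c hc
    rw [mem_image] at hc
    obtain ⟨q, hq, rfl⟩ := hc
    rw [mem_filter] at hq
    have h1 := abs_le.1 (natAbs_mul_le hy hq.1)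
    have h2 := abs_le.1 hs
    rw [mem_Icc]
    have := hq.2
    omega
  · intro n _ _
    exact hf n

/-- the error term of one member -/
lemma one_err {X : ℕ} {α : ℤ} (hα : α ≠ 0) {y : ℕ} (hy : α.natAbs * y ≤ X) {s : ℤ} (hs : |s| ≤ X) (hX : 1 ≤ X) (z r : ℕ)
    {K : ℝ} (hK : 0 < K) (G : ℕ → ℝ) (hG : ∀ q ∈ Icc 1 y, |G q| ≤ K) :
    |∑ q ∈ Icc 1 y, G q * Dz z 1 (s + α * q)| ≤
      K * (‖cv (Fw (2 * X) α y (fun q => G q / K)) (FF z r) (4 * X) (4 * X) (2 * X + s).toNat‖ +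
        ∑ c ∈ Icc 1 (4 * X), |lamz z c - lsh z r c|) := by
  have h1 := cv_Fw hy hs hX (fun q => G q / K) (FF z r)
  have h2 : ∑ q ∈ Icc 1 y, G q * Dz z 1 (s + α * q) = K * (∑ q ∈ Icc 1 y, G q / K *
      (if 1 ≤ s + α * q then ArithmeticFunction.vonMangoldt (s + α * q).toNat - lsh z r (s + α * q).toNat else 0) -
      ∑ q ∈ Icc 1 y, G q / K * (if 1 ≤ s + α * q then lamz z (s + α * q).toNat - lsh z r (s + α * q).toNat else 0)) := by
    rw [← sum_sub_distrib, mul_sum]
    refine sum_congr rfl fun q _ => ?_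
    rw [Dz_eq z r, ← mul_sub, ← mul_assoc, mul_div_cancel₀ _ hK.ne']
  have h3 : ‖cv (Fw (2 * X) α y (fun q => G q / K)) (FF z r) (4 * X) (4 * X) (2 * X + s).toNat‖ =
      |∑ q ∈ Icc 1 y, G q / K *
      (if 1 ≤ s + α * q then ArithmeticFunction.vonMangoldt (s + α * q).toNat - lsh z r (s + α * q).toNat else 0)| := by
    rw [h1, ← Real.norm_eq_abs, ← Complex.norm_real]
    congr 1
    push_cast
    refine sum_congr rfl fun q _ => ?_
    congr 1
    split_ifs
    · unfold FF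
      push_cast
      rfl
    · simp
  rw [h2, h3, abs_mul, abs_of_pos hK]
  apply mul_le_mul_of_nonneg_left _ hK.le
  refine (abs_sub _ _).trans (add_le_add le_rfl ?_)
  refine le_trans ?_ (abs_sum_inj hα hy hs (fun c => |lamz z c - lsh z r c|) (fun _ => abs_nonneg _))
  refine (abs_sum_le_sum_abs _ _).trans (sum_le_sum fun q hq => ?_)
  rw [abs_mul]
  have h4 : |G q / K| ≤ 1 := by
    rw [abs_div, abs_of_pos hK, div_le_one hK]
    exact hG q hq
  split_ifs
  · exact mul_le_of_le_one_left (abs_nonneg _) h4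
  · simp

end Pool.Agent.KS6_25.SH
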