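import Pool.Agent.KS6_25.SH.G3

set_option autoImplicit false

/-!
# One coordinate: first moments over families in short intervals
-/

namespace Pool.Agent.KS6_25.SH

open Finset
open Pool.Agent.R460.GS (cv bd_sq)
open Pool.Agent.R460.GH (bd_FF)
open Pool.Agent.H373R2.T7 (lamz Vz pz lamI lamzI ev_L')
open Pool.Agent.TH935.LF (Dz)
open Pool.Agent.TH935.TF (LL mdl LL_sub energy_neg)
open Pool.Agent.Y883.GJ (FF Par model_all)
open Pool.Agent.Y883.T3 (lsh)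
open Pool.Agent.Y614.GJ.Core (ev_log)

lemma four_pow {ρ : ℝ} (hρ : 0 < ρ) (hρ1 : ρ ≤ 1 / 4) : ∃ X₀ : ℕ, ∀ X : ℕ, X₀ ≤ X → ∀ H : ℝ, (X : ℝ) ^ (1 / 3 + ρ) ≤ H →
    (((4 * X : ℕ) : ℝ)) ^ (1 / 3 + ρ / 2) ≤ H := by
  obtain ⟨X₀, h0⟩ := Filter.eventually_atTop.1 (ev_log 1 (s := ρ / 2) (by linarith) 4)
  refine ⟨max X₀ 1, fun X hX H hH => ?_⟩
  have hX1 : 1 ≤ X := le_trans (le_max_right _ _) hX
  obtain ⟨h1, h2⟩ := h0 X (le_trans (le_max_left _ _) hX)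
  rw [pow_one] at h2
  have hXr : (1 : ℝ) ≤ X := by exact_mod_cast hX1
  have hX0 : (0 : ℝ) < X := by linarith
  refine le_trans ?_ hH
  push_cast
  rw [Real.mul_rpow (by norm_num) hX0.le]
  have h3 : (4 : ℝ) ^ (1 / 3 + ρ / 2) ≤ 4 := by
    nth_rewrite 2 [← Real.rpow_one (4 : ℝ)]
    exact Real.rpow_le_rpow_of_exponent_le (by norm_num) (by linarith)
  calc (4 : ℝ) ^ (1 / 3 + ρ / 2) * (X : ℝ) ^ (1 / 3 + ρ / 2) ≤ 4 * (X : ℝ) ^ (1 / 3 + ρ / 2) := by gcongr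
    _ ≤ (X : ℝ) ^ (ρ / 2) * (X : ℝ) ^ (1 / 3 + ρ / 2) := by
        apply mul_le_mul_of_nonneg_right (h1.trans h2) (by positivity)
    _ = (X : ℝ) ^ (1 / 3 + ρ) := by
        rw [← Real.rpow_add hX0]
        congr 1
        ring

theorem half_short (h C U : ℕ) (hh : 1 ≤ h) {ρ : ℝ} (hρ : 0 < ρ) (hρ1 : ρ ≤ 1 / 4) : ∃ B0 : ℕ, ∀ E : ℕ, ∃ N0 : ℕ,
    ∀ X : ℕ, N0 ≤ X → ∀ (x : ℕ) (s : ℕ → ℤ) (s₀ : ℤ) (H : ℕ), (X : ℝ) ^ (1 / 3 + ρ) ≤ H → h * H ≤ X →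
    (∀ m ∈ Icc 1 x, |s m| ≤ X) → (∀ m ∈ Icc 1 x, s₀ ≤ s m ∧ s m ≤ s₀ + H) →
    (Pool.Agent.H373R2.T7.energy h x s : ℝ) * H ≤ Real.log X ^ C * (x : ℝ) ^ (2 * h) →
    ∀ z : ℕ, Real.log X ^ B0 ≤ z → (z : ℝ) ≤ Real.log X ^ E →
    ∀ α : ℤ, α ≠ 0 → ∀ y : ℕ, α.natAbs * y ≤ X →
    ∀ K : ℝ, 0 < K → ∀ G : ℕ → ℝ, (∀ q ∈ Icc 1 y, |G q| ≤ K) →
    ∑ m ∈ Icc 1 x, |∑ q ∈ Icc 1 y, G q * Dz z 1 (s m + α * q)| ≤ K * (X * x / Real.log X ^ U) := by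
  obtain ⟨U₁, N₁, h1⟩ := mom_short h C (U + 1) hh (ρ := ρ / 2) (by linarith) (by linarith)
  obtain ⟨Um, hUm⟩ : ∃ Um, Um = max U₁ (U + 1) := ⟨_, rfl⟩
  obtain ⟨B, hB⟩ := model_all Um
  refine ⟨B + 1, fun E => ?_⟩
  obtain ⟨N₂, h2⟩ := hB E
  obtain ⟨N₃, h3⟩ := four_pow hρ hρ1
  obtain ⟨N₄, h4⟩ := ev_L' (2 ^ B + 8)
  refine ⟨N₁ + N₂ + N₃ + N₄ + 8, fun X hX x s s₀ H hHρ hhH hs hsH hE z hz1 hz2 α hα y hy K hK G hG => ?_⟩
  rcases Nat.eq_zero_or_pos x with hx0 | hx0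
  · subst hx0
    simp
  have hX8 : 8 ≤ X := by omega
  have hXr : (8 : ℝ) ≤ X := by exact_mod_cast hX8
  have hX0 : (0 : ℝ) < X := by linarith
  have hL4 := h4 X (by omega)
  have hH4 := h3 X (by omega) H hHρ
  have c1 := h1 (4 * X) (by omega)
  have c2 := h2 (4 * X) (by omega) z
  have hbd := fun (Un r : ℕ) (hP : Par Un (4 * X) z r) => bd_FF (z := z) (r := r) hP
  have hsq := fun (F : ℕ → ℂ) hF => bd_sq (N := 4 * X) (F := F) hF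
  have hLX : Real.log X ≤ Real.log ((4 * X : ℕ) : ℝ) := by
    apply Real.log_le_log hX0
    push_cast
    linarith
  have hLX2 : Real.log ((4 * X : ℕ) : ℝ) ≤ 2 * Real.log X := by
    have e1 : (((4 * X : ℕ)) : ℝ) ≤ (X : ℝ) ^ 2 := by
      push_cast
      nlinarith
    have e2 := Real.log_le_log (by positivity) e1
    rw [Real.log_pow] at e2
    exact_mod_cast e2
  obtain ⟨N', hN'⟩ : ∃ N' : ℕ, N' = 4 * X := ⟨_, rfl⟩
  obtain ⟨L', hL'⟩ : ∃ L', L' = Real.log (N' : ℝ) := ⟨_, rfl⟩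
  obtain ⟨L, hLd⟩ : ∃ L, L = Real.log (X : ℝ) := ⟨_, rfl⟩
  have hN'r : (N' : ℝ) = 4 * X := by rw [hN']; push_cast; rfl
  rw [← hN'] at c1 c2 hbd hsq hLX hLX2 hH4
  rw [← hL'] at c1 c2 hbd hsq hLX hLX2
  rw [← hLd] at hL4 hLX hLX2 hE hz1 hz2 ⊢
  have h2B : (0 : ℝ) < 2 ^ B := by positivity
  have hL8 : 8 ≤ L := by linarith
  have hL0 : 0 < L := by linarith
  have hL1 : 1 ≤ L := by linarith
  have hL'0 : 0 < L' := by linarith
  have hL'1 : 1 ≤ L' := by linarith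
  have hzB : L' ^ B ≤ z := by
    refine le_trans ?_ hz1
    calc L' ^ B ≤ (2 * L) ^ B := pow_le_pow_left₀ hL'0.le hLX2 _
      _ = 2 ^ B * L ^ B := mul_pow _ _ _
      _ ≤ L * L ^ B := mul_le_mul_of_nonneg_right (by linarith) (by positivity)
      _ = L ^ (B + 1) := by ring
  have hzE : (z : ℝ) ≤ L' ^ E := hz2.trans (pow_le_pow_left₀ hL0.le hLX _)
  obtain ⟨r, hPar, hsum⟩ := c2 hzB hzE
  have hPar1 : Par U₁ N' z r := par_mono2 hPar (by rw [hUm]; exact le_max_left _ _) (by rw [← hL']; exact hL'1)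
  -- the family
  obtain ⟨n₀, hn₀⟩ : ∃ n₀ : ℕ, (n₀ : ℤ) = 2 * X + s₀ := by
    refine ⟨(2 * (X : ℤ) + s₀).toNat, Int.toNat_of_nonneg ?_⟩
    have e1 := abs_le.1 (hs 1 (mem_Icc.2 ⟨le_rfl, hx0⟩))
    have e2 := hsH 1 (mem_Icc.2 ⟨le_rfl, hx0⟩)
    have e3 : H ≤ X := (Nat.le_mul_of_pos_left H hh).trans hhH
    have e4 : (H : ℤ) ≤ X := by exact_mod_cast e3
    linarith
  have hmem : ∀ i : Fin x, i.1 + 1 ∈ Icc 1 x := fun i => mem_Icc.2 ⟨Nat.succ_le_succ (Nat.zero_le _), i.2⟩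
  obtain ⟨w, hw⟩ : ∃ w : Fin x → ℕ, ∀ i, ((w i : ℕ) : ℤ) = s (i.1 + 1) - s₀ := by
    refine ⟨fun i => (s (i.1 + 1) - s₀).toNat, fun i => Int.toNat_of_nonneg ?_⟩
    have := (hsH (i.1 + 1) (hmem i)).1
    linarith
  have hnw : ∀ i : Fin x, ((n₀ + w i : ℕ) : ℤ) = 2 * X + s (i.1 + 1) := by
    intro i
    push_cast
    rw [hn₀, hw i]
    ring
  have key := c1 z r hPar1 H hH4 (by rw [hN']; omega) (Fw (2 * X) α y (fun q => G q / K)) (by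
      calc ∑ n ∈ Icc 1 N', ‖Fw (2 * X) α y (fun q => G q / K) n‖ ^ 2 ≤ ∑ _n ∈ Icc 1 N', (1 : ℝ) := by
            refine sum_le_sum fun n _ => ?_
            have e1 := Fw_le (T := 2 * X) hα (y := y) (G := fun q => G q / K) (K := 1) zero_le_one (by
              intro q hq
              rw [abs_div, abs_of_pos hK, div_le_one hK]
              exact hG q hq) n
            calc ‖Fw (2 * X) α y (fun q => G q / K) n‖ ^ 2 ≤ 1 ^ 2 := pow_le_pow_left₀ (norm_nonneg _) e1 2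
              _ = 1 := one_pow 2
        _ = N' := by simp
        _ ≤ N' * L' ^ 8 := le_mul_of_one_le_right (by positivity) (one_le_pow₀ hL'1))
    (hsq _ (hbd U₁ r hPar1 (by linarith)) (by linarith)) N' le_rfl (Fin x) n₀ w x (Nat.cast_nonneg _) (by
      intro i
      have e1 := (hsH (i.1 + 1) (hmem i)).2
      have e2 := hw i
      omega) (by
      intro i
      have e1 := abs_le.1 (hs (i.1 + 1) (hmem i))
      have e2 := hnw i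
      omega) (by
      have e1 : (energy h w : ℝ) ≤ Pool.Agent.H373R2.T7.energy h x s := by exact_mod_cast energy_lib h x s s₀ w hw
      calc (energy h w : ℝ) * H ≤ Pool.Agent.H373R2.T7.energy h x s * H := mul_le_mul_of_nonneg_right e1 (Nat.cast_nonneg _)
        _ ≤ L ^ C * (x : ℝ) ^ (2 * h) := hE
        _ ≤ L' ^ C * (x : ℝ) ^ (2 * h) := by gcongr)
  rw [sum_fin_Icc]
  have hone : ∀ i : Fin x, |∑ q ∈ Icc 1 y, G q * Dz z 1 (s (i.1 + 1) + α * q)| ≤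
      K * (‖cv (Fw (2 * X) α y (fun q => G q / K)) (FF z r) N' N' (n₀ + w i)‖ +
        ∑ c ∈ Icc 1 N', |lamz z c - lsh z r c|) := by
    intro i
    have e1 := one_err hα hy (hs (i.1 + 1) (hmem i)) (by omega) z r hK G hG
    have e2 : (2 * (X : ℤ) + s (i.1 + 1)).toNat = n₀ + w i := by
      rw [← hnw i, Int.toNat_natCast]
    rw [e2, ← hN'] at e1
    exact e1
  have hx0r : (0 : ℝ) ≤ x := Nat.cast_nonneg _
  have hsum2 : ∑ c ∈ Icc 1 N', |lamz z c - lsh z r c| ≤ N' / L' ^ (U + 1) :=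
    hsum.trans (div_le_div_of_nonneg_left (Nat.cast_nonneg _) (by positivity)
      (pow_le_pow_right₀ hL'1 (by rw [hUm]; exact le_max_right _ _)))
  calc ∑ i : Fin x, |∑ q ∈ Icc 1 y, G q * Dz z 1 (s (i.1 + 1) + α * q)|
      ≤ ∑ i : Fin x, K * (‖cv (Fw (2 * X) α y (fun q => G q / K)) (FF z r) N' N' (n₀ + w i)‖ +
        ∑ c ∈ Icc 1 N', |lamz z c - lsh z r c|) := sum_le_sum fun i _ => hone i
    _ = K * (∑ i : Fin x, ‖cv (Fw (2 * X) α y (fun q => G q / K)) (FF z r) N' N' (n₀ + w i)‖ +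
        x * ∑ c ∈ Icc 1 N', |lamz z c - lsh z r c|) := by
        rw [← mul_sum, sum_add_distrib, sum_const, card_univ, Fintype.card_fin, nsmul_eq_mul]
    _ ≤ K * (N' * x / L' ^ (U + 1) + x * (N' / L' ^ (U + 1))) := by
        apply mul_le_mul_of_nonneg_left _ hK.le
        exact add_le_add key (mul_le_mul_of_nonneg_left hsum2 hx0r)
    _ = K * (8 * X * x / L' ^ (U + 1)) := by
        rw [hN'r]
        ring
    _ ≤ K * (X * x / L ^ U) := by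
        apply mul_le_mul_of_nonneg_left _ hK.le
        rw [div_le_div_iff₀ (by positivity) (by positivity)]
        calc 8 * (X : ℝ) * x * L ^ U = X * x * (8 * L ^ U) := by ring
          _ ≤ X * x * (L' * L' ^ U) := by gcongr; linarith
          _ = X * x * L' ^ (U + 1) := by ring

/-- one coordinate, short intervals -/
theorem one_short (h C U : ℕ) (hh : 1 ≤ h) {ρ : ℝ} (hρ : 0 < ρ) (hρ1 : ρ ≤ 1 / 4) : ∃ B0 : ℕ, ∀ E : ℕ, ∃ N0 : ℕ,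
    ∀ N : ℕ, N0 ≤ N → ∀ (x : ℕ) (s : ℕ → ℤ) (s₀ : ℤ) (H : ℕ), (N : ℝ) ^ (1 / 3 + ρ) ≤ H → h * H ≤ N →
    (∀ m ∈ Icc 1 x, |s m| ≤ N) → (∀ m ∈ Icc 1 x, s₀ ≤ s m ∧ s m ≤ s₀ + H) →
    (Pool.Agent.H373R2.T7.energy h x s : ℝ) * H ≤ Real.log N ^ C * (x : ℝ) ^ (2 * h) →
    ∀ z : ℕ, Real.log N ^ B0 ≤ z → (z : ℝ) ≤ Real.log N ^ E →
    ∀ α : ℤ, α ≠ 0 → ∀ y : ℕ, α.natAbs * y ≤ N →
    ∀ K : ℝ, 0 < K → ∀ G : ℕ → ℝ, (∀ q ∈ Icc 1 y, |G q| ≤ K) →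
    ∑ m ∈ Icc 1 x, |∑ q ∈ Icc 1 y, G q * (LL (α * q + s m) - mdl z (α * q + s m))| ≤
      K * ((2 * N / Real.log N ^ U) * x) := by
  obtain ⟨B0, h0⟩ := half_short h C U hh hρ hρ1
  refine ⟨B0 + 1, fun E => ?_⟩
  obtain ⟨n1, h1⟩ := h0 E
  obtain ⟨n2, h2⟩ := ev_L' 2
  refine ⟨n1 + n2, fun N hN x s s₀ H hHρ hhH hs hsH hE z hz1 hz2 α hα y hy K hK G hG => ?_⟩
  have hL := h2 N (by omega)
  have hL1 : 1 ≤ Real.log (N : ℝ) := by linarith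
  have hz : 2 ≤ z := by
    have h5 : (2 : ℝ) ≤ z := by
      refine le_trans ?_ hz1
      calc (2 : ℝ) ≤ Real.log N := hL
        _ ≤ Real.log N ^ (B0 + 1) := le_self_pow₀ hL1 (by omega)
    exact_mod_cast h5
  have hzB : Real.log N ^ B0 ≤ z := (pow_le_pow_right₀ hL1 (by omega)).trans hz1
  have k1 := h1 N (by omega) x s s₀ H hHρ hhH hs hsH hE z hzB hz2 α hα y hy K hK G hG
  have k2 := h1 N (by omega) x (fun m => -s m) (-s₀ - H) H hHρ hhH (fun m hm => by rw [abs_neg]; exact hs m hm)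
    (fun m hm => by
      obtain ⟨e1, e2⟩ := hsH m hm
      constructor <;> linarith) (by rw [energy_neg]; exact hE)
    z hzB hz2 (-α) (neg_ne_zero.2 hα) y (by rw [Int.natAbs_neg]; exact hy) K hK G hG
  have h3 : ∀ m ∈ Icc 1 x, |∑ q ∈ Icc 1 y, G q * (LL (α * q + s m) - mdl z (α * q + s m))| ≤
      |∑ q ∈ Icc 1 y, G q * Dz z 1 (s m + α * q)| + |∑ q ∈ Icc 1 y, G q * Dz z 1 (-s m + -α * q)| := by
    intro m _
    refine le_trans (le_of_eq ?_) (abs_add_le _ _)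
    rw [← sum_add_distrib]
    congr 1
    apply sum_congr rfl
    intro q _
    rw [LL_sub z hz, show s m + α * (q : ℤ) = α * q + s m by ring, show -s m + -α * (q : ℤ) = -(α * q + s m) by ring]
    ring
  refine (sum_le_sum h3).trans ?_
  rw [sum_add_distrib]
  calc _ ≤ K * (N * x / Real.log N ^ U) + K * (N * x / Real.log N ^ U) := add_le_add k1 k2
    _ = _ := by ring

end Pool.Agent.KS6_25.SH
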