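import Pool.Agent.KS6_25.SH.G4

set_option autoImplicit false

/-!
# Products of families in short intervals (following `TH935/TF4`, `TF6`)
-/

namespace Pool.Agent.KS6_25.SH

open Finset
open Pool.Agent.H373R2.T7
open Pool.Agent.W93.GB (vM_le)
open Pool.Agent.W93.PP (markov)
open Pool.Agent.TH935.TF

set_option maxHeartbeats 4000000 in
/-- products of families -/
theorem prod_short (k h C U : ℕ) (hh : 1 ≤ h) {ρ : ℝ} (hρ : 0 < ρ) (hρ1 : ρ ≤ 1 / 4) : ∃ B0 : ℕ, ∀ E : ℕ, ∃ N0 : ℕ, ∀ N : ℕ, N0 ≤ N →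
    ∀ (x : Fin k → ℕ) (s : Fin k → ℕ → ℤ) (s₀ : Fin k → ℤ) (H : Fin k → ℕ), (∀ i, (N : ℝ) ^ (1 / 3 + ρ) ≤ H i) → (∀ i, h * H i ≤ N) →
    (∀ i, 1 ≤ x i) → (∀ i, ∀ m ∈ Icc 1 (x i), |s i m| ≤ N) → (∀ i, ∀ m ∈ Icc 1 (x i), s₀ i ≤ s i m ∧ s i m ≤ s₀ i + H i) →
    (∀ i, (Pool.Agent.H373R2.T7.energy h (x i) (s i) : ℝ) * H i ≤ Real.log N ^ C * (x i : ℝ) ^ (2 * h)) →
    ∀ z : ℕ, Real.log N ^ B0 ≤ z → (z : ℝ) ≤ Real.log N ^ E →
    ∀ α : Fin k → ℤ, (∀ i, α i ≠ 0) → ∀ y : ℕ, (∀ i, (α i).natAbs * y ≤ N) →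
    ∀ w : ℕ → ℝ, (∀ n ∈ Icc 1 y, |w n| ≤ Real.log N) →
    ∑ m ∈ Fintype.piFinset (fun i => Icc 1 (x i)),
      |∑ n ∈ Icc 1 y, w n * (∏ i, LL (α i * n + s i (m i)) - ∏ i, mdl z (α i * n + s i (m i)))| ≤
      (N / Real.log N ^ U) * ∏ i, (x i : ℝ) := by
  classical
  obtain ⟨B0, h0⟩ := one_short h C (U + k + 2) hh hρ hρ1
  refine ⟨B0 + 1, fun E => ?_⟩
  obtain ⟨n1, h1⟩ := h0 E
  obtain ⟨n2, h2⟩ := ev_L' (k * 2 ^ k * 2 + 2)
  obtain ⟨n3, h3⟩ := Vz_inv_small E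
  refine ⟨n1 + n2 + n3 + 2, fun N hN x s s₀ H hHρ hhH hx hs hsH hE z hz1 hz2 α hα y hy w hw => ?_⟩
  have hL := h2 N (by omega)
  obtain ⟨L, hLd⟩ : ∃ L, L = Real.log (N : ℝ) := ⟨_, rfl⟩
  have hq : (0 : ℝ) ≤ k * 2 ^ k * 2 := by positivity
  have c1 := h1 N (by omega)
  have c3 := h3 N (by omega) z
  rw [← hLd] at hL c1 c3 hE hz1 hz2 hw ⊢
  have hL1 : 1 ≤ L := by linarith
  have hL2 : 2 ≤ L := by linarith
  have hL0 : 0 < L := by linarith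
  have hz1' : 1 ≤ z := by
    have : (1 : ℝ) ≤ z := (one_le_pow₀ hL1).trans hz1
    exact_mod_cast this
  have hV := c3 hz1' hz2
  have hN2 : (2 : ℝ) ≤ N := by exact_mod_cast (by omega : 2 ≤ N)
  have hN0 : (0 : ℝ) < N := by linarith
  have hval : ∀ i, ∀ n ∈ Icc 1 y, ∀ v ∈ Icc 1 (x i), (α i * n + s i v).natAbs ≤ 2 * N := by
    intro i n hn v hv
    rw [mem_Icc] at hn
    have e1 := hs i v hv
    have e2 : (α i).natAbs * n ≤ N := (Nat.mul_le_mul_left _ hn.2).trans (hy i)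
    have e3 : (α i * (n : ℤ)).natAbs ≤ N := by rw [Int.natAbs_mul, Int.natAbs_natCast]; exact e2
    have e4 : (s i v).natAbs ≤ N := by
      have : ((s i v).natAbs : ℤ) ≤ N := by rw [Int.natCast_natAbs]; exact e1
      exact_mod_cast this
    have := Int.natAbs_add_le (α i * (n : ℤ)) (s i v)
    omega
  have hlog2N : Real.log ((2 * N : ℕ) : ℝ) ≤ 2 * L := by
    push_cast
    have e1 : (2 : ℝ) * N ≤ N ^ 2 := by nlinarith
    have e2 := Real.log_le_log (by positivity) e1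
    rw [Real.log_pow, ← hLd] at e2
    exact_mod_cast e2
  have hP : ∀ i, ∀ n ∈ Icc 1 y, ∀ v ∈ Icc 1 (x i), |LL (α i * n + s i v)| ≤ 2 * L := by
    intro i n hn v hv
    rw [abs_of_nonneg (LL_nonneg _)]
    exact (LL_le _ (2 * N) (by omega) (hval i n hn v hv)).trans hlog2N
  have hQ : ∀ i, ∀ n ∈ Icc 1 y, ∀ v ∈ Icc 1 (x i), |mdl z (α i * n + s i v)| ≤ 2 * L := by
    intro i n hn v hv
    rw [abs_of_nonneg (mdl_nonneg _ _)]
    exact (mdl_le _ _).trans (by linarith)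
  have key := tele y x hx (fun i n v => LL (α i * n + s i v)) (fun i n v => mdl z (α i * n + s i v)) (2 * L)
    (2 * N / L ^ (U + k + 2)) (by linarith) (by positivity) hP hQ
    (by
      intro i K hK G hG
      exact c1 (x i) (s i) (s₀ i) (H i) (hHρ i) (hhH i) (hs i) (hsH i) (hE i) z ((pow_le_pow_right₀ hL1 (by omega)).trans hz1) hz2 (α i) (hα i) y (hy i) K hK G hG)
    univ L hL0 (fun n _ => w n) (fun n hn m _ => hw n hn) (fun _ _ _ _ _ => rfl)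
  refine key.trans ?_
  rw [card_univ, Fintype.card_fin]
  apply mul_le_mul_of_nonneg_right _ (prod_nonneg fun i _ => Nat.cast_nonneg _)
  have e : (k : ℝ) * (L * (2 * L) ^ k * (2 * N / L ^ (U + k + 2))) = (k * 2 ^ k * 2 / L) * (N / L ^ U) := by
    rw [mul_pow, show U + k + 2 = U + k + 1 + 1 by ring, pow_succ L (U + k + 1), pow_succ L (U + k), pow_add L U k]
    field_simp
  rw [e]
  have h5 : (k * 2 ^ k * 2 / L : ℝ) ≤ 1 := by
    rw [div_le_one hL0]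
    linarith
  calc (k * 2 ^ k * 2 / L : ℝ) * (N / L ^ U) ≤ 1 * (N / L ^ U) := mul_le_mul_of_nonneg_right h5 (by positivity)
    _ = _ := one_mul _


variable {k m : ℕ} {w : ℕ → ℝ} {ν : (Fin k → ℤ) → (Fin k → ℤ) → ℕ → ℕ} {Cond : (Fin k → ℤ) → (Fin k → ℤ) → Prop}

set_option maxHeartbeats 4000000 in
theorem gg_short (hd : Dat k m w ν Cond) (h C D V U : ℕ) (hh : 1 ≤ h) {ρ : ℝ} (hρ : 0 < ρ) (hρ1 : ρ ≤ 1 / 4) : ∃ X0 : ℕ, ∀ X : ℕ, X0 ≤ X → ∀ Y : ℕ, (Y : ℝ) * Real.log X ^ D ≤ X →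
    ∀ (x : Fin k → ℕ) (s : Fin k → ℕ → ℤ) (s₀ : Fin k → ℤ) (H : Fin k → ℕ), (∀ i, (X : ℝ) ^ (1 / 3 + ρ) ≤ H i) → (∀ i, h * H i ≤ X) →
    (∀ i, ∀ j ∈ Icc 1 (x i), |s i j| ≤ X) → (∀ i, ∀ j ∈ Icc 1 (x i), s₀ i ≤ s i j ∧ s i j ≤ s₀ i + H i) →
    (∀ i, (Pool.Agent.H373R2.T7.energy h (x i) (s i) : ℝ) * H i ≤ Real.log X ^ C * (x i : ℝ) ^ (2 * h)) →
    ∀ 𝒮 : Finset (Fin k → ℕ), 𝒮 ⊆ Fintype.piFinset (fun i => Icc 1 (x i)) →
    (∀ q ∈ 𝒮, ¬ GG k m w ν Cond V D X Y (fun i => s i (q i))) → (𝒮.card : ℝ) ≤ (∏ i, (x i : ℝ)) / Real.log X ^ U := by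
  classical
  obtain ⟨U', hU'⟩ : ∃ U', U' = U + 2 * V + m + k * (D + 1) + 12 := ⟨_, rfl⟩
  obtain ⟨B0, hB0⟩ := prod_short k h C U' hh hρ hρ1
  obtain ⟨E1, hE1⟩ : ∃ E1, E1 = B0 + V + m + 8 := ⟨_, rfl⟩
  obtain ⟨n1, h1⟩ := hB0 (E1 + 1)
  obtain ⟨X1, hdet⟩ := gg_det hd V D E1 (by omega)
  obtain ⟨n3, h3⟩ := ev_L' 10
  refine ⟨n1 + X1 + n3 + 3, fun X hX Y hY x s s₀ H hHρ hhH hs hsH hE 𝒮 hSx hS => ?_⟩
  have c1 := h1 X (by omega) x s s₀ H hHρ hhH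
  have c3 := h3 X (by omega)
  obtain ⟨L, hL⟩ : ∃ L, L = Real.log (X : ℝ) := ⟨_, rfl⟩
  rw [← hL] at c1 c3 hY hE ⊢
  have hL1 : 1 ≤ L := by linarith
  have hL0 : 0 < L := by linarith
  have hX3 : (3 : ℝ) ≤ X := by exact_mod_cast (by omega : 3 ≤ X)
  have hX0 : (0 : ℝ) < X := by linarith
  have hY0 : (0 : ℝ) ≤ Y := Nat.cast_nonneg _
  have hYX : Y ≤ X := by
    have h5 : (Y : ℝ) ≤ X := (le_mul_of_one_le_right hY0 (one_le_pow₀ hL1)).trans hY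
    exact_mod_cast h5
  have hprod0 : (0 : ℝ) ≤ ∏ i, (x i : ℝ) := prod_nonneg fun i _ => Nat.cast_nonneg _
  by_cases hx : ∀ i, 1 ≤ x i
  swap
  · push Not at hx
    obtain ⟨i, hi⟩ := hx
    have h5 : Fintype.piFinset (fun i => Icc 1 (x i)) = ∅ := by
      rw [Fintype.piFinset_eq_empty]
      exact ⟨i, Icc_eq_empty (by omega)⟩
    rw [h5] at hSx
    rw [subset_empty.1 hSx, card_empty, Nat.cast_zero]
    positivity
  have hfl : ∀ E : ℕ, L ^ E ≤ (⌈L ^ E⌉₊ : ℝ) ∧ (⌈L ^ E⌉₊ : ℝ) ≤ L ^ (E + 1) := by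
    intro E
    refine ⟨Nat.le_ceil _, ?_⟩
    have h5 : (⌈L ^ E⌉₊ : ℝ) < L ^ E + 1 := Nat.ceil_lt_add_one (by positivity)
    have h6 : 1 ≤ L ^ E := one_le_pow₀ hL1
    rw [pow_succ]
    nlinarith
  obtain ⟨z, hz⟩ : ∃ z, z = ⌈L ^ E1⌉₊ := ⟨_, rfl⟩
  obtain ⟨T, hT⟩ : ∃ T, T = ⌈L ^ (V + m + 4)⌉₊ := ⟨_, rfl⟩
  have hz1 : L ^ E1 ≤ z := by rw [hz]; exact (hfl E1).1
  have hz2 : (z : ℝ) ≤ L ^ (E1 + 1) := by rw [hz]; exact (hfl E1).2
  have hT1 : L ^ (V + m + 4) ≤ T := by rw [hT]; exact (hfl (V + m + 4)).1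
  have hT2 : (T : ℝ) ≤ L ^ (V + m + 5) := by rw [hT]; exact (hfl (V + m + 4)).2
  obtain ⟨R, hR⟩ : ∃ R : ℕ, R = ⌊L ^ D⌋₊ := ⟨_, rfl⟩
  have hRL : (R : ℝ) ≤ L ^ D := by rw [hR]; exact Nat.floor_le (by positivity)
  obtain ⟨I, hI⟩ : ∃ I : Finset (ℕ × (Fin k → ℤ)), I = range (T + 1) ×ˢ Fintype.piFinset (fun _ => Icc (-(R : ℤ)) (R : ℤ)) := ⟨_, rfl⟩
  have hIcard : (I.card : ℝ) ≤ L ^ (V + m + 6 + k * (D + 1)) := by
    rw [hI, card_product, Fintype.card_piFinset, prod_const, card_univ, Fintype.card_fin, card_range, Int.card_Icc]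
    have e1 : ((R : ℤ) + 1 - -(R : ℤ)).toNat = 2 * R + 1 := by omega
    rw [e1]
    push_cast
    have hLD : 1 ≤ L ^ D := one_le_pow₀ hL1
    have f1 : (T : ℝ) + 1 ≤ L ^ (V + m + 6) := by
      have h6 : 1 ≤ L ^ (V + m + 5) := one_le_pow₀ hL1
      rw [show V + m + 6 = (V + m + 5) + 1 by ring, pow_succ L (V + m + 5)]
      nlinarith
    have f3 : 2 * (R : ℝ) + 1 ≤ L ^ (D + 1) := by rw [pow_succ]; nlinarith
    calc ((T : ℝ) + 1) * (2 * (R : ℝ) + 1) ^ k ≤ L ^ (V + m + 6) * (L ^ (D + 1)) ^ k := by gcongr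
      _ = L ^ (V + m + 6 + k * (D + 1)) := by rw [← pow_mul, ← pow_add]; congr 1; ring
  have key := markov (Fintype.piFinset (fun i => Icc 1 (x i))) I (fun _ => (1 : ℝ)) (fun _ _ => zero_le_one)
    (fun q i => if ∀ j, i.2 j ≠ 0 then |∑ n ∈ Icc 1 (min (i.1 * (Y / T + 1)) Y),
        w n * (∏ j, LL (i.2 j * (n : ℤ) + s j (q j)) - ∏ j, mdl z (i.2 j * (n : ℤ) + s j (q j)))| else 0)
    (fun _ _ => by split_ifs <;> positivity) (fun q => q ∈ 𝒮) (X / L ^ (V + 2)) ((X / L ^ U') * ∏ i, (x i : ℝ)) (by positivity) (by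
      intro q hq hqS
      by_contra hcon
      push Not at hcon
      apply hS q hqS
      refine hdet X (by omega) (fun i => s i (q i)) ?_ Y hYX z (by rw [← hL]; exact hz1) (by rw [← hL]; exact hz2) T
        (by rw [← hL]; exact hT1) ?_
      · intro i
        have a1 := hs i (q i) (Fintype.mem_piFinset.1 hq i)
        have : ((s i (q i)).natAbs : ℤ) ≤ X := by rw [Int.natCast_natAbs]; exact a1
        exact_mod_cast this
      intro i hi α hα hαL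
      rw [← hL] at hαL ⊢
      have hmem : (i, α) ∈ I := by
        rw [hI, mem_product, mem_range, Fintype.mem_piFinset]
        refine ⟨by simp only; omega, fun j => ?_⟩
        have h7 : (α j).natAbs ≤ R := by rw [hR]; exact Nat.le_floor (hαL j)
        simp only [mem_Icc]
        omega
      have h5 := hcon (i, α) hmem
      simp only at h5
      rw [if_pos hα] at h5
      exact h5.le)
    (by
      intro i hi
      rw [hI, mem_product, mem_range, Fintype.mem_piFinset] at hi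
      simp only [one_mul]
      by_cases hab : ∀ j, i.2 j ≠ 0
      · simp only [if_pos hab]
        refine c1 hx hs hsH hE z ((pow_le_pow_right₀ hL1 (by omega)).trans hz1) hz2 i.2 hab (min (i.1 * (Y / T + 1)) Y) ?_ w ?_
        · intro j
          have h4 := mem_Icc.1 (hi.2 j)
          have h5 : (i.2 j).natAbs ≤ R := by omega
          have h6 : (i.2 j).natAbs * min (i.1 * (Y / T + 1)) Y ≤ R * Y := Nat.mul_le_mul h5 (min_le_right _ _)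
          have h7 : (R : ℝ) * Y ≤ X := by
            calc (R : ℝ) * Y ≤ L ^ D * Y := mul_le_mul_of_nonneg_right hRL hY0
              _ = Y * L ^ D := mul_comm _ _
              _ ≤ X := hY
          have h8 : R * Y ≤ X := by exact_mod_cast h7
          exact h6.trans h8
        · intro n hn
          rw [mem_Icc] at hn
          rw [abs_of_nonneg (hd.w0 n), hL]
          exact hd.w1 X n (by omega) ((hn.2.trans (min_le_right _ _)).trans hYX)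
      · simp only [if_neg hab, sum_const_zero]
        positivity)
  have hleft : (𝒮.card : ℝ) = ∑ q ∈ Fintype.piFinset (fun i => Icc 1 (x i)), (if q ∈ 𝒮 then (1 : ℝ) else 0) := by
    rw [sum_ite_mem, inter_eq_right.2 hSx, sum_const, nsmul_eq_mul, mul_one]
  rw [← hleft] at key
  refine key.trans ?_
  obtain ⟨P, hP⟩ : ∃ P : ℝ, P = ∏ i, (x i : ℝ) := ⟨_, rfl⟩
  rw [← hP] at hprod0 ⊢
  calc (I.card : ℝ) * ((X / L ^ U') * P) / (X / L ^ (V + 2))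
      ≤ L ^ (V + m + 6 + k * (D + 1)) * ((X / L ^ U') * P) / (X / L ^ (V + 2)) := by gcongr
    _ = P * L ^ (2 * V + m + 8 + k * (D + 1)) / L ^ U' := by
        rw [show 2 * V + m + 8 + k * (D + 1) = (V + m + 6 + k * (D + 1)) + (V + 2) by ring, pow_add L (V + m + 6 + k * (D + 1))]
        field_simp
    _ ≤ P / L ^ U := by
        rw [div_le_div_iff₀ (by positivity) (by positivity)]
        calc P * L ^ (2 * V + m + 8 + k * (D + 1)) * L ^ U = P * L ^ (2 * V + m + 8 + k * (D + 1) + U) := by rw [pow_add L (2 * V + m + 8 + k * (D + 1)) U]; ring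
          _ ≤ P * L ^ U' := by
              apply mul_le_mul_of_nonneg_left _ hprod0
              exact pow_le_pow_right₀ hL1 (by omega)


end Pool.Agent.KS6_25.SH
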