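import Pool.Agent.KS6_25.SH.G5

set_option autoImplicit false

/-!
# Systems of linear forms: constant terms in products of families in short intervals (following `TH935/TF8`)
-/

namespace Pool.Agent.KS6_25.SH

open Finset
open Pool.Agent.H373R2.T7
open Pool.Agent.TH935.TF
open Pool.Agent.Y614.GJ.Core (ev_log)

set_option maxHeartbeats 4000000 in
theorem fam_short {k m : ℕ} {w : ℕ → ℝ} {sA sB : (Fin k → ℤ) → (Fin m → ℤ)} (hs : Sys k m w sA sB) (hk : 1 ≤ k)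
    (h A B C D U : ℕ) (hh : 1 ≤ h) {ρ : ℝ} (hρ : 0 < ρ) (hρ1 : ρ ≤ 1 / 4) (ε : ℝ) (hε : 0 < ε) : ∃ N0 : ℕ, ∀ N : ℕ, N0 ≤ N →
    ∀ (x : Fin k → ℕ) (s : Fin k → ℕ → ℤ) (s₀ : Fin k → ℤ) (H : Fin k → ℕ), (∀ i, (N : ℝ) ^ (1 / 3 + ρ) ≤ H i) → (∀ i, H i ≤ N) →
    (∀ i, ∀ j ∈ Icc 1 (x i), |s i j| ≤ B * N) → (∀ i, ∀ j ∈ Icc 1 (x i), s₀ i ≤ s i j ∧ s i j ≤ s₀ i + H i) →
    (∀ i, (Pool.Agent.H373R2.T7.energy h (x i) (s i) : ℝ) * H i ≤ Real.log N ^ C * (x i : ℝ) ^ (2 * h)) →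
    ∀ 𝒮 : Finset (Fin k → ℕ), 𝒮 ⊆ Fintype.piFinset (fun i => Icc 1 (x i)) →
    (∀ q ∈ 𝒮, ¬ HW sA sB ε A B D N (fun i => s i (q i))) → (𝒮.card : ℝ) ≤ (∏ i, (x i : ℝ)) / Real.log N ^ U := by
  have hm : 1 ≤ m := hs.dat.hm
  obtain ⟨X0, h0⟩ := gg_short hs.dat h C D (A + D + 4) U hh (ρ := ρ / 2) (by linarith) (by linarith)
  obtain ⟨c, hc, hlow⟩ := Gz_low m hm
  obtain ⟨n1, h1⟩ := conv m A B D hm ε c hε hc
  obtain ⟨n2, h2⟩ := ev_L' (B * 2 ^ D + B + 10 + h)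
  obtain ⟨n4, h4⟩ := Filter.eventually_atTop.1 (ev_log (D + 3) (s := ρ / 2) (by linarith) 1)
  obtain ⟨n3, h3⟩ := ev_log' (D + 3) 1
  obtain ⟨cc, hloc⟩ := hs.dat.loc
  refine ⟨X0 + n1 + n2 + n3 + n4 + 3, fun N hN x s s₀ H hHρ hHN hsb hsH hE 𝒮 hSx hS => ?_⟩
  have b1 := h1 N (by omega)
  have b2 := h2 N (by omega)
  have b3 := h3 N (by omega)
  obtain ⟨-, b4⟩ := h4 N (by omega)
  obtain ⟨L, hL⟩ : ∃ L, L = Real.log (N : ℝ) := ⟨_, rfl⟩
  rw [← hL] at b1 b2 b3 b4 hE ⊢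
  have hh0 : (0 : ℝ) ≤ h := Nat.cast_nonneg _
  rw [one_mul] at b3
  have hB0 : (0 : ℝ) ≤ B := Nat.cast_nonneg _
  have hBD : 0 ≤ (B : ℝ) * 2 ^ D := by positivity
  have hL10 : 10 ≤ L := by linarith
  have hL1 : 1 ≤ L := by linarith
  have hL0 : 0 < L := by linarith
  have hNr : (3 : ℝ) ≤ N := by exact_mod_cast (by omega : 3 ≤ N)
  have hN0 : (0 : ℝ) < N := by linarith
  obtain ⟨X, hX⟩ : ∃ X : ℕ, X = N * ⌈L ^ (D + 2)⌉₊ := ⟨_, rfl⟩
  have hc1 : L ^ (D + 2) ≤ (⌈L ^ (D + 2)⌉₊ : ℝ) := Nat.le_ceil _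
  have hc2 : (⌈L ^ (D + 2)⌉₊ : ℝ) ≤ L ^ (D + 3) := by
    have h5 : (⌈L ^ (D + 2)⌉₊ : ℝ) < L ^ (D + 2) + 1 := Nat.ceil_lt_add_one (by positivity)
    have h6 : 1 ≤ L ^ (D + 2) := one_le_pow₀ hL1
    rw [show D + 3 = (D + 2) + 1 by ring, pow_succ L (D + 2)]
    nlinarith
  have hXr : (X : ℝ) = N * (⌈L ^ (D + 2)⌉₊ : ℝ) := by rw [hX]; push_cast; rfl
  have hX1 : (N : ℝ) * L ^ (D + 2) ≤ X := by rw [hXr]; exact mul_le_mul_of_nonneg_left hc1 hN0.le
  have hX2 : (X : ℝ) ≤ N * L ^ (D + 3) := by rw [hXr]; exact mul_le_mul_of_nonneg_left hc2 hN0.le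
  have hNX : (N : ℝ) ≤ X := (le_mul_of_one_le_right hN0.le (one_le_pow₀ hL1)).trans hX1
  have hNXn : N ≤ X := by exact_mod_cast hNX
  have hX0 : (0 : ℝ) < X := by linarith
  obtain ⟨LX, hLX⟩ : ∃ LX, LX = Real.log (X : ℝ) := ⟨_, rfl⟩
  have hLLX : L ≤ LX := by rw [hL, hLX]; exact Real.log_le_log hN0 hNX
  have hLX0 : 0 < LX := by linarith
  have hLX2 : LX ≤ 2 * L := by
    have e1 : (X : ℝ) ≤ N ^ 2 := by
      refine hX2.trans ?_
      rw [sq]
      apply mul_le_mul_of_nonneg_left _ hN0.le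
      refine b3.trans ?_
      rw [Real.sqrt_le_left hN0.le]
      nlinarith
    have e2 := Real.log_le_log hX0 e1
    rw [Real.log_pow, ← hL, ← hLX] at e2
    exact_mod_cast e2
  have hBL : (B : ℝ) ≤ L ^ (D + 2) := by
    have : L ≤ L ^ (D + 2) := le_self_pow₀ hL1 (by omega)
    linarith
  have hBX : (B : ℝ) * N ≤ X := by
    refine le_trans ?_ hX1
    rw [mul_comm]
    exact mul_le_mul_of_nonneg_left hBL hN0.le
  have hBXn : B * N ≤ X := by exact_mod_cast hBX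
  have hsX : ∀ i, ∀ j ∈ Icc 1 (x i), |s i j| ≤ X := by
    intro i j hj
    refine (hsb i j hj).trans ?_
    exact_mod_cast hBXn
  have key := h0 X (by omega) (B * N) (by
      rw [← hLX]
      push_cast
      calc (B : ℝ) * N * LX ^ D ≤ B * N * (2 * L) ^ D := by gcongr
        _ = N * ((B * 2 ^ D) * L ^ D) := by rw [mul_pow]; ring
        _ ≤ N * (L * L ^ D) := by
            apply mul_le_mul_of_nonneg_left _ hN0.le
            apply mul_le_mul_of_nonneg_right _ (by positivity)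
            linarith
        _ = N * L ^ (D + 1) := by ring
        _ ≤ N * L ^ (D + 2) := by
            apply mul_le_mul_of_nonneg_left _ hN0.le
            exact pow_le_pow_right₀ hL1 (by omega)
        _ ≤ X := hX1) x s s₀ H (by
      intro i
      refine le_trans ?_ (hHρ i)
      have g1 : (X : ℝ) ^ (1 / 3 + ρ / 2) ≤ (N * L ^ (D + 3)) ^ (1 / 3 + ρ / 2) :=
        Real.rpow_le_rpow hX0.le hX2 (by positivity)
      refine g1.trans ?_
      rw [Real.mul_rpow hN0.le (by positivity)]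
      have g2 : (L ^ (D + 3)) ^ (1 / 3 + ρ / 2) ≤ L ^ (D + 3) := by
        nth_rewrite 2 [← Real.rpow_one (L ^ (D + 3))]
        exact Real.rpow_le_rpow_of_exponent_le (one_le_pow₀ hL1) (by linarith)
      calc (N : ℝ) ^ (1 / 3 + ρ / 2) * (L ^ (D + 3)) ^ (1 / 3 + ρ / 2) ≤ (N : ℝ) ^ (1 / 3 + ρ / 2) * (N : ℝ) ^ (ρ / 2) :=
            mul_le_mul_of_nonneg_left (g2.trans b4) (by positivity)
        _ = (N : ℝ) ^ (1 / 3 + ρ) := by
            rw [← Real.rpow_add hN0]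
            congr 1
            ring) (by
      intro i
      have g1 : ((h * H i : ℕ) : ℝ) ≤ X := by
        push_cast
        have g2 : (H i : ℝ) ≤ N := by exact_mod_cast hHN i
        have g3 : (h : ℝ) ≤ L ^ (D + 2) := by
          have : L ≤ L ^ (D + 2) := le_self_pow₀ hL1 (by omega)
          linarith
        calc (h : ℝ) * H i ≤ L ^ (D + 2) * N := by gcongr
          _ = N * L ^ (D + 2) := mul_comm _ _
          _ ≤ X := hX1
      exact_mod_cast g1) hsX hsH (by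
      intro i
      rw [← hLX]
      refine (hE i).trans ?_
      gcongr) 𝒮 hSx (by
      intro q hq hGG
      apply hS q hq
      intro α hα hαL hadm hdist
      have hβ : ∀ i, (s i (q i)).natAbs ≤ B * N := by
        intro i
        have a1 := hsb i (q i) (Fintype.mem_piFinset.1 (hSx hq) i)
        have : ((s i (q i)).natAbs : ℤ) ≤ ((B * N : ℕ) : ℤ) := by rw [Int.natCast_natAbs]; push_cast; exact a1
        exact_mod_cast this
      rw [← hL] at hαL ⊢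
      have hαLX : ∀ i, ((α i).natAbs : ℝ) ≤ LX ^ D := fun i => (hαL i).trans (pow_le_pow_left₀ hL0.le hLLX _)
      have hαX : ∀ i, (α i).natAbs ≤ X := by
        intro i
        have h5 : ((α i).natAbs : ℝ) ≤ X := by
          calc ((α i).natAbs : ℝ) ≤ L ^ D := hαL i
            _ ≤ L ^ (D + 2) := pow_le_pow_right₀ hL1 (by omega)
            _ ≤ N * L ^ (D + 2) := le_mul_of_one_le_left (by positivity) (by linarith)
            _ ≤ X := hX1
        exact_mod_cast h5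
      obtain ⟨bad, hLoc, -⟩ := hloc X (by omega) α (fun i => s i (q i)) hα hαX (fun i => (hβ i).trans hBXn) ⟨hadm, hdist⟩
      obtain ⟨S, hSt, -, hSlow⟩ := limit_full hLoc hm
      have hcS : c ≤ S := hSlow c (fun z => hlow _ bad hLoc z)
      refine ⟨S, lt_of_lt_of_le hc hcS, hSt, fun y₁ y₂ h12 hy2 hΔ => ?_⟩
      apply b1 (sA α) (sB fun i => s i (q i)) (hs.ne α hα) (hs.leA α (L ^ D) (one_le_pow₀ hL1) hαL)
        (hs.leB _ (B * N) hβ) y₁ y₂ h12 hy2 hΔ S hcS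
      have g1 := hGG α hα (by rw [← hLX]; exact hαLX) ⟨hadm, hdist⟩ S hSt y₁ y₂ h12 hy2
      rw [← hLX] at g1
      have e1 : Wt (sA α) (sB fun i => s i (q i)) y₁ y₂ = ∑ n ∈ Ioc y₁ y₂, w n * ∏ i, LL (α i * (n : ℤ) + s i (q i)) := by
        unfold Wt
        apply sum_congr rfl
        intro n _
        exact (hs.wt α (fun i => s i (q i)) n).symm
      rw [e1]
      refine g1.trans ?_
      calc (X : ℝ) / LX ^ (A + D + 4) ≤ N * L ^ (D + 3) / L ^ (A + D + 4) := by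
            apply div_le_div₀ (by positivity) hX2 (by positivity)
            exact pow_le_pow_left₀ hL0.le hLLX _
        _ = N / L ^ (A + 1) := by
            rw [show A + D + 4 = (D + 3) + (A + 1) by ring, pow_add L (D + 3) (A + 1)]
            field_simp)
  refine key.trans ?_
  rw [← hLX]
  apply div_le_div_of_nonneg_left _ (by positivity)
  · exact pow_le_pow_left₀ hL0.le hLLX _
  · exact prod_nonneg fun i _ => Nat.cast_nonneg _


end Pool.Agent.KS6_25.SH
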